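import Mathlib

set_option autoImplicit false

namespace Pool.Agent.N425.KG

variable {V : Type} [DecidableEq V]

/-- connected in the disjointness graph -/
def Conn (B : Finset (Finset V)) : Prop :=
  B.Nonempty ∧ ∀ C ⊆ B, C.Nonempty → C ≠ B → ∃ e ∈ C, ∃ f ∈ B \ C, Disjoint e f

def Touch (B C : Finset (Finset V)) : Prop := ∃ e ∈ B, ∃ f ∈ C, Disjoint e f

lemma Touch.symm {B C : Finset (Finset V)} (h : Touch B C) : Touch C B := by
  obtain ⟨e, he, f, hf, hd⟩ := h
  exact ⟨f, hf, e, he, hd.symm⟩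

structure Model (E : Finset (Finset V)) (𝓑 : Finset (Finset (Finset V))) : Prop where
  sub : ∀ B ∈ 𝓑, B ⊆ E
  conn : ∀ B ∈ 𝓑, Conn B
  disj : ∀ B ∈ 𝓑, ∀ C ∈ 𝓑, B ≠ C → Disjoint B C
  touch : ∀ B ∈ 𝓑, ∀ C ∈ 𝓑, B ≠ C → Touch B C

def Cov (E : Finset (Finset V)) (k : ℕ) : Prop :=
  ∃ P : Finset (Finset (Finset V)), P.card ≤ k ∧
    (∀ C ∈ P, ∀ e ∈ C, ∀ f ∈ C, ¬ Disjoint e f) ∧ ∀ e ∈ E, ∃ C ∈ P, e ∈ C

lemma conn_star (c : Finset V) (R : Finset (Finset V)) (h : ∀ r ∈ R, Disjoint c r) :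
    Conn (insert c R) := by
  refine ⟨⟨c, by simp⟩, ?_⟩
  intro C hC hne hneq
  by_cases hc : c ∈ C
  · obtain ⟨r, hr, hrC⟩ : ∃ r ∈ insert c R, r ∉ C := by
      by_contra hcon
      push Not at hcon
      exact hneq (Finset.Subset.antisymm hC hcon)
    have hrc : r ≠ c := fun h => hrC (h ▸ hc)
    have hrR : r ∈ R := by
      rcases Finset.mem_insert.1 hr with h | h
      · exact absurd h hrc
      · exact h
    exact ⟨c, hc, r, Finset.mem_sdiff.2 ⟨hr, hrC⟩, h r hrR⟩
  · obtain ⟨e, he⟩ := hne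
    have hec : e ≠ c := fun h => hc (h ▸ he)
    have heR : e ∈ R := by
      rcases Finset.mem_insert.1 (hC he) with h | h
      · exact absurd h hec
      · exact h
    exact ⟨e, he, c, Finset.mem_sdiff.2 ⟨by simp, hc⟩, (h e heR).symm⟩

lemma conn_single (c : Finset V) : Conn ({c} : Finset (Finset V)) := by
  have := conn_star c ∅ (by simp)
  simpa using this

lemma conn_pair {c d : Finset V} (h : Disjoint c d) : Conn ({c, d} : Finset (Finset V)) := by
  have := conn_star c {d} (by simpa using h)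
  simpa using this

/-- in a connected set with at least two elements, every element has a neighbour -/
lemma Conn.nbr {B : Finset (Finset V)} (h : Conn B) (h2 : 2 ≤ B.card) {e : Finset V}
    (he : e ∈ B) : ∃ f ∈ B, f ≠ e ∧ Disjoint e f := by
  obtain ⟨e', he', f, hf, hd⟩ := h.2 {e} (by simpa using he) ⟨e, by simp⟩ (by
    intro h'
    rw [← h'] at h2
    simp at h2)
  rw [Finset.mem_singleton] at he'
  subst he'
  rw [Finset.mem_sdiff, Finset.mem_singleton] at hf
  exact ⟨f, hf.1, hf.2, hd⟩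

lemma Model.mono {E : Finset (Finset V)} {𝓑 𝓒 : Finset (Finset (Finset V))}
    (h : Model E 𝓑) (hs : 𝓒 ⊆ 𝓑) : Model E 𝓒 :=
  ⟨fun B hB => h.sub B (hs hB), fun B hB => h.conn B (hs hB),
    fun B hB C hC => h.disj B (hs hB) C (hs hC), fun B hB C hC => h.touch B (hs hB) C (hs hC)⟩

lemma Model.le {E F : Finset (Finset V)} {𝓑 : Finset (Finset (Finset V))}
    (h : Model E 𝓑) (hs : E ⊆ F) : Model F 𝓑 :=
  ⟨fun B hB => (h.sub B hB).trans hs, h.conn, h.disj, h.touch⟩

lemma Model.ext {E : Finset (Finset V)} {𝓑 : Finset (Finset (Finset V))}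
    (h : Model E 𝓑) {N : Finset (Finset V)} (hN : N ⊆ E) (hc : Conn N)
    (hd : ∀ B ∈ 𝓑, Disjoint N B) (ht : ∀ B ∈ 𝓑, Touch N B) :
    Model E (insert N 𝓑) ∧ (insert N 𝓑).card = 𝓑.card + 1 := by
  have hN' : N ∉ 𝓑 := by
    intro hmem
    have := hd N hmem
    rw [disjoint_self] at this
    exact hc.1.ne_empty this
  refine ⟨⟨?_, ?_, ?_, ?_⟩, Finset.card_insert_of_notMem hN'⟩
  · intro B hB
    rcases Finset.mem_insert.1 hB with rfl | hB
    · exact hN
    · exact h.sub B hB
  · intro B hB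
    rcases Finset.mem_insert.1 hB with rfl | hB
    · exact hc
    · exact h.conn B hB
  · intro B hB C hC hne
    rcases Finset.mem_insert.1 hB with h1 | hB <;> rcases Finset.mem_insert.1 hC with h2 | hC
    · exact absurd (h1.trans h2.symm) hne
    · rw [h1]; exact hd C hC
    · rw [h2]; exact (hd B hB).symm
    · exact h.disj B hB C hC hne
  · intro B hB C hC hne
    rcases Finset.mem_insert.1 hB with h1 | hB <;> rcases Finset.mem_insert.1 hC with h2 | hC
    · exact absurd (h1.trans h2.symm) hne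
    · rw [h1]; exact ht C hC
    · rw [h2]; exact (ht B hB).symm
    · exact h.touch B hB C hC hne

lemma pair_eq {e : Finset V} (h : e.card = 2) {a b : V} (ha : a ∈ e) (hb : b ∈ e) (hab : a ≠ b) :
    e = {a, b} := by
  symm
  apply Finset.eq_of_subset_of_card_le
  · intro x hx
    rcases Finset.mem_insert.1 hx with rfl | hx
    · exact ha
    · rw [Finset.mem_singleton] at hx
      rw [hx]; exact hb
  · rw [h, Finset.card_pair hab]

/-- the other end -/
lemma exists_other {e : Finset V} (h : e.card = 2) {a : V} (ha : a ∈ e) :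
    ∃ b, b ≠ a ∧ e = {a, b} := by
  obtain ⟨x, y, hxy, he⟩ := Finset.card_eq_two.1 h
  rw [he] at ha
  rcases Finset.mem_insert.1 ha with rfl | ha
  · exact ⟨y, hxy.symm, he⟩
  · rw [Finset.mem_singleton] at ha
    subst ha
    exact ⟨x, hxy, by rw [he, Finset.pair_comm]⟩

/-- the standing situation: a model avoiding `v`, and no larger model -/
structure Sit (E : Finset (Finset V)) (v : V) (W : Finset V)
    (𝓑 : Finset (Finset (Finset V))) : Prop where
  two : ∀ e ∈ E, e.card = 2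
  memW : ∀ w, w ∈ W ↔ w ≠ v ∧ ({v, w} : Finset V) ∈ E
  model : Model (E.filter fun e => v ∉ e) 𝓑
  big : ∀ 𝓒, Model E 𝓒 → 𝓒.card ≤ 𝓑.card
  min : ∀ B ∈ 𝓑, ∀ C ⊆ B, C ≠ B → Conn C → (∀ B' ∈ 𝓑, B' ≠ B → Touch C B') → False
  cov : ¬ Cov E 𝓑.card

variable {E : Finset (Finset V)} {v : V} {W : Finset V} {𝓑 : Finset (Finset (Finset V))}

namespace Sit

lemma notin (h : Sit E v W 𝓑) {B : Finset (Finset V)} (hB : B ∈ 𝓑) {e : Finset V} (he : e ∈ B) :
    v ∉ e := (Finset.mem_filter.1 (h.model.sub B hB he)).2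

lemma inE (h : Sit E v W 𝓑) {B : Finset (Finset V)} (hB : B ∈ 𝓑) {e : Finset V} (he : e ∈ B) :
    e ∈ E := (Finset.mem_filter.1 (h.model.sub B hB he)).1

lemma modelE (h : Sit E v W 𝓑) : Model E 𝓑 := h.model.le (Finset.filter_subset _ _)

lemma touch_ns (h : Sit E v W 𝓑) {B : Finset (Finset V)} (hB : B ∈ 𝓑) (h2 : 2 ≤ B.card) (w : V) :
    ∃ f ∈ B, Disjoint ({v, w} : Finset V) f := by
  obtain ⟨e, he⟩ := (h.model.conn B hB).1
  obtain ⟨f, hf, -, hd⟩ := (h.model.conn B hB).nbr h2 he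
  by_cases hw : w ∈ e
  · refine ⟨f, hf, ?_⟩
    rw [Finset.disjoint_left]
    intro x hx
    rcases Finset.mem_insert.1 hx with rfl | hx
    · exact h.notin hB hf
    · rw [Finset.mem_singleton] at hx
      subst hx
      exact Finset.disjoint_left.1 hd hw
  · refine ⟨e, he, ?_⟩
    rw [Finset.disjoint_left]
    intro x hx
    rcases Finset.mem_insert.1 hx with rfl | hx
    · exact h.notin hB he
    · rw [Finset.mem_singleton] at hx
      subst hx
      exact hw

lemma disj_st (h : Sit E v W 𝓑) {B : Finset (Finset V)} (hB : B ∈ 𝓑) {s : Finset V} (hs : s ∈ B)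
    {w : V} (hw : w ∉ s) : Disjoint ({v, w} : Finset V) s := by
  rw [Finset.disjoint_left]
  intro x hx
  rcases Finset.mem_insert.1 hx with rfl | hx
  · exact h.notin hB hs
  · rw [Finset.mem_singleton] at hx
    subst hx
    exact hw

lemma card_ge (h : Sit E v W 𝓑) {B : Finset (Finset V)} (hB : B ∈ 𝓑) :
    (∃ s, B = {s}) ∨ 2 ≤ B.card := by
  have h1 : 1 ≤ B.card := Finset.card_pos.2 (h.model.conn B hB).1
  rcases Nat.lt_or_ge B.card 2 with h2 | h2
  · left
    exact Finset.card_eq_one.1 (by omega)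
  · exact Or.inr h2

lemma st_notin (h : Sit E v W 𝓑) {B : Finset (Finset V)} (hB : B ∈ 𝓑) (w : V) :
    ({v, w} : Finset V) ∉ B := fun hmem => h.notin hB hmem (by simp)

/-- every neighbour of `v` is in a single -/
lemma claim0 (h : Sit E v W 𝓑) {w : V} (hw : w ∈ W) : ∃ s, ({s} : Finset (Finset V)) ∈ 𝓑 ∧ w ∈ s := by
  by_contra hcon
  push Not at hcon
  have hvw := ((h.memW w).1 hw).2
  have := h.modelE.ext (N := {({v, w} : Finset V)}) (by simpa using hvw) (conn_single _)
    (fun B hB => by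
      rw [Finset.disjoint_singleton_left]
      exact h.st_notin hB w)
    (fun B hB => by
      rcases h.card_ge hB with ⟨s, rfl⟩ | h2
      · exact ⟨{v, w}, by simp, s, by simp, h.disj_st hB (by simp) (hcon s hB)⟩
      · obtain ⟨f, hf, hd⟩ := h.touch_ns hB h2 w
        exact ⟨{v, w}, by simp, f, hf, hd⟩)
  have h2 := h.big _ this.1
  omega

/-- `f` together with the edges from `v` to `X` is a good branch set -/
def Good (W : Finset V) (𝓑 : Finset (Finset (Finset V))) (f : Finset V) (X : Finset V) : Prop :=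
  X.Nonempty ∧ X ⊆ W ∧ Disjoint X f ∧
    ∀ s, ({s} : Finset (Finset V)) ∈ 𝓑 → Disjoint f s ∨ ∃ w ∈ X, w ∉ s

def br (v : V) (f : Finset V) (X : Finset V) : Finset (Finset V) :=
  insert f (X.image fun w => ({v, w} : Finset V))

lemma mem_br {f : Finset V} {X : Finset V} {e : Finset V} :
    e ∈ br v f X ↔ e = f ∨ ∃ w ∈ X, {v, w} = e := by
  simp [br]

lemma br_conn {f : Finset V} {X : Finset V} (hf : v ∉ f) (hX : Disjoint X f) :
    Conn (br v f X) := by
  apply conn_star
  intro r hr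
  obtain ⟨w, hw, rfl⟩ := Finset.mem_image.1 hr
  rw [Finset.disjoint_right]
  intro x hx
  rcases Finset.mem_insert.1 hx with rfl | hx
  · exact hf
  · rw [Finset.mem_singleton] at hx
    subst hx
    exact Finset.disjoint_left.1 hX hw

lemma br_sub (h : Sit E v W 𝓑) {f : Finset V} {X : Finset V} (hf : f ∈ E) (hX : X ⊆ W) :
    br v f X ⊆ E := by
  intro e he
  rcases mem_br.1 he with rfl | ⟨w, hw, rfl⟩
  · exact hf
  · exact ((h.memW w).1 (hX hw)).2

lemma br_touch (h : Sit E v W 𝓑) {f : Finset V} {X : Finset V} (hg : Good W 𝓑 f X)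
    {B : Finset (Finset V)} (hB : B ∈ 𝓑) : Touch (br v f X) B := by
  obtain ⟨⟨w, hw⟩, hXW, hXf, hs⟩ := hg
  rcases h.card_ge hB with ⟨s, rfl⟩ | h2
  · rcases hs s hB with hd | ⟨u, hu, hus⟩
    · exact ⟨f, mem_br.2 (Or.inl rfl), s, by simp, hd⟩
    · exact ⟨{v, u}, mem_br.2 (Or.inr ⟨u, hu, rfl⟩), s, by simp, h.disj_st hB (by simp) hus⟩
  · obtain ⟨e, he, hd⟩ := h.touch_ns hB h2 w
    exact ⟨{v, w}, mem_br.2 (Or.inr ⟨w, hw, rfl⟩), e, he, hd⟩

lemma br_disj (h : Sit E v W 𝓑) {f : Finset V} {X : Finset V}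
    {B : Finset (Finset V)} (hB : B ∈ 𝓑) (hf : f ∉ B) : Disjoint (br v f X) B := by
  rw [Finset.disjoint_left]
  intro e he heB
  rcases mem_br.1 he with rfl | ⟨w, hw, rfl⟩
  · exact hf heB
  · exact h.st_notin hB w heB

/-- no good extension of an unused edge -/
lemma claim_unused (h : Sit E v W 𝓑) {f : Finset V} (hf : f ∈ E) (hv : v ∉ f)
    (hun : ∀ B ∈ 𝓑, f ∉ B) {X : Finset V} (hg : Good W 𝓑 f X) : False := by
  have := h.modelE.ext (N := br v f X) (h.br_sub hf hg.2.1) (br_conn hv hg.2.2.1)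
    (fun B hB => h.br_disj hB (hun B hB)) (fun B hB => h.br_touch hg hB)
  have h2 := h.big _ this.1
  omega

/-- no good splitting of a branch set -/
lemma claim_pair (h : Sit E v W 𝓑) {B : Finset (Finset V)} (hB : B ∈ 𝓑) {f f' : Finset V}
    (hf : f ∈ B) (hf' : f' ∈ B) (hd : Disjoint f f') {X X' : Finset V} (hg : Good W 𝓑 f X)
    (hg' : Good W 𝓑 f' X') (hXX : Disjoint X X') : False := by
  have hne : f ≠ f' := by
    rintro rfl
    rw [disjoint_self] at hd
    have := h.two f (h.inE hB hf)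
    rw [hd] at this
    simp at this
  have hfv := h.notin hB hf
  have hfv' := h.notin hB hf'
  have m0 : Model E (𝓑.erase B) := h.modelE.mono (Finset.erase_subset _ _)
  have hout : ∀ g ∈ B, ∀ B' ∈ 𝓑.erase B, g ∉ B' := by
    intro g hg B' hB' hgB'
    rw [Finset.mem_erase] at hB'
    exact Finset.disjoint_left.1 (h.model.disj B' hB'.2 B hB hB'.1) hgB' hg
  have m1 := m0.ext (N := br v f X) (h.br_sub (h.inE hB hf) hg.2.1) (br_conn hfv hg.2.2.1)
    (fun B' hB' => h.br_disj (Finset.mem_of_mem_erase hB') (hout f hf B' hB'))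
    (fun B' hB' => h.br_touch hg (Finset.mem_of_mem_erase hB'))
  have m2 := m1.1.ext (N := br v f' X') (h.br_sub (h.inE hB hf') hg'.2.1)
    (br_conn hfv' hg'.2.2.1)
    (fun B' hB' => by
      rcases Finset.mem_insert.1 hB' with rfl | hB'
      · rw [Finset.disjoint_left]
        intro e he he'
        rcases mem_br.1 he with rfl | ⟨w, hw, rfl⟩ <;> rcases mem_br.1 he' with he' | ⟨w', hw', he'⟩
        · exact hne he'.symm
        · exact hfv' (he' ▸ by simp)
        · exact hfv (he' ▸ by simp)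
        · have hwv : w ≠ v := ((h.memW w).1 (hg'.2.1 hw)).1
          have : w ∈ ({v, w'} : Finset V) := by rw [he']; simp
          rcases Finset.mem_insert.1 this with h1 | h1
          · exact hwv h1
          · rw [Finset.mem_singleton] at h1
            subst h1
            exact Finset.disjoint_left.1 hXX hw' hw
      · exact h.br_disj (Finset.mem_of_mem_erase hB') (hout f' hf' B' hB'))
    (fun B' hB' => by
      rcases Finset.mem_insert.1 hB' with rfl | hB'
      · exact ⟨f', mem_br.2 (Or.inl rfl), f, mem_br.2 (Or.inl rfl), hd.symm⟩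
      · exact h.br_touch hg' (Finset.mem_of_mem_erase hB'))
  have h3 := h.big _ m2.1
  rw [m2.2, m1.2, Finset.card_erase_of_mem hB] at h3
  have : 0 < 𝓑.card := Finset.card_pos.2 ⟨B, hB⟩
  omega

/-- singles are pairwise disjoint -/
lemma single_eq (h : Sit E v W 𝓑) {s t : Finset V} (hs : ({s} : Finset (Finset V)) ∈ 𝓑)
    (ht : ({t} : Finset (Finset V)) ∈ 𝓑) {x : V} (hx : x ∈ s) (hx' : x ∈ t) : s = t := by
  by_contra hne
  obtain ⟨e, he, f, hf, hd⟩ := h.model.touch _ hs _ ht (by simpa using hne)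
  rw [Finset.mem_singleton] at he hf
  subst he hf
  exact Finset.disjoint_left.1 hd hx hx'

lemma single_two (h : Sit E v W 𝓑) {s : Finset V} (hs : ({s} : Finset (Finset V)) ∈ 𝓑) :
    s.card = 2 := h.two s (h.inE hs (by simp))

lemma good_two (h : Sit E v W 𝓑) {f X : Finset V} (hX : X ⊆ W) (h2 : 2 ≤ X.card)
    (hd : Disjoint X f) : Good W 𝓑 f X := by
  refine ⟨Finset.card_pos.1 (by omega), hX, hd, ?_⟩
  intro s hs
  by_contra hcon
  push Not at hcon
  have hXs : X = s := Finset.eq_of_subset_of_card_le hcon.2 (by rw [h.single_two hs]; exact h2)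
  exact hcon.1 (hXs ▸ hd.symm)

lemma good_one (h : Sit E v W 𝓑) {f s : Finset V} {w : V} (hw : w ∈ W)
    (hs : ({s} : Finset (Finset V)) ∈ 𝓑) (hws : w ∈ s) (hd : Disjoint f s) :
    Good W 𝓑 f {w} := by
  refine ⟨⟨w, by simp⟩, by simpa using hw, ?_, ?_⟩
  · rw [Finset.disjoint_singleton_left]
    exact fun hwf => Finset.disjoint_left.1 hd hwf hws
  · intro t ht
    by_cases hwt : w ∈ t
    · left
      rw [h.single_eq ht hs hwt hws]
      exact hd
    · right
      exact ⟨w, by simp, hwt⟩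

/-- an unused edge contains all neighbours of `v` but one -/
lemma claimU (h : Sit E v W 𝓑) {f : Finset V} (hf : f ∈ E) (hv : v ∉ f)
    (hun : ∀ B ∈ 𝓑, f ∉ B) {w w' : V} (hw : w ∈ W) (hw' : w' ∈ W) (hne : w ≠ w') :
    w ∈ f ∨ w' ∈ f := by
  by_contra hcon
  push Not at hcon
  refine h.claim_unused hf hv hun (h.good_two (X := {w, w'}) ?_ ?_ ?_)
  · intro x hx
    rcases Finset.mem_insert.1 hx with rfl | hx
    · exact hw
    · rw [Finset.mem_singleton] at hx
      subst hx; exact hw'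
  · rw [Finset.card_pair hne]
  · rw [Finset.disjoint_left]
    intro x hx
    rcases Finset.mem_insert.1 hx with rfl | hx
    · exact hcon.1
    · rw [Finset.mem_singleton] at hx
      subst hx; exact hcon.2

lemma claimA (h : Sit E v W 𝓑) {f : Finset V} (hf : f ∈ E) (hv : v ∉ f)
    (hun : ∀ B ∈ 𝓑, f ∉ B) {w : V} (hw : w ∈ W) {s : Finset V}
    (hs : ({s} : Finset (Finset V)) ∈ 𝓑) (hws : w ∈ s) : ¬ Disjoint f s :=
  fun hd => h.claim_unused hf hv hun (h.good_one hw hs hws hd)

lemma covCl (h : Sit E v W 𝓑) (cl : Finset (Finset V) → Finset (Finset V))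
    (h1 : ∀ B ∈ 𝓑, ∀ e ∈ cl B, ∀ f ∈ cl B, ¬ Disjoint e f) (h2 : ∀ e ∈ E, ∃ B ∈ 𝓑, e ∈ cl B) :
    False := by
  refine h.cov ⟨𝓑.image cl, Finset.card_image_le, ?_, ?_⟩
  · intro C hC
    obtain ⟨B, hB, rfl⟩ := Finset.mem_image.1 hC
    exact h1 B hB
  · intro e he
    obtain ⟨B, hB, heB⟩ := h2 e he
    exact ⟨cl B, Finset.mem_image_of_mem _ hB, heB⟩

/-- if all edges avoiding `v` are singles then there is a colouring -/
lemma finish (h : Sit E v W 𝓑) (hall : ∀ e ∈ E, v ∉ e → ({e} : Finset (Finset V)) ∈ 𝓑) : False := by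
  refine h.covCl (fun B => B ∪ (W.filter fun w => ∃ s ∈ B, w ∈ s).image
    fun w => ({v, w} : Finset V)) ?_ ?_
  · intro B hB
    obtain ⟨s, hs⟩ := (h.model.conn B hB).1
    have hBs : B = {s} := by
      by_contra hne
      have := h.model.disj B hB {s} (hall s (h.inE hB hs) (h.notin hB hs)) hne
      exact Finset.disjoint_left.1 this hs (by simp)
    subst hBs
    have hkey : ∀ e ∈ ({s} : Finset (Finset V)) ∪ (W.filter fun w => ∃ s' ∈ ({s} : Finset (Finset V)), w ∈ s').image
        (fun w => ({v, w} : Finset V)), e = s ∨ ∃ w ∈ s, e = {v, w} := by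
      intro e he
      rcases Finset.mem_union.1 he with he | he
      · left; simpa using he
      · right
        obtain ⟨w, hw, rfl⟩ := Finset.mem_image.1 he
        obtain ⟨-, s', hs', hw'⟩ := Finset.mem_filter.1 hw
        rw [Finset.mem_singleton] at hs'
        subst hs'
        exact ⟨w, hw', rfl⟩
    have hse : ∃ x, x ∈ s := Finset.card_pos.1 (by rw [h.single_two hB]; norm_num)
    intro e he f hf hd
    rcases hkey e he with rfl | ⟨w, hw, rfl⟩ <;> rcases hkey f hf with rfl | ⟨w', hw', rfl⟩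
    · obtain ⟨x, hx⟩ := hse
      exact Finset.disjoint_left.1 hd hx hx
    · exact Finset.disjoint_left.1 hd hw' (by simp)
    · exact Finset.disjoint_left.1 hd (by simp) hw
    · exact (Finset.disjoint_left.1 hd) (show v ∈ ({v, w} : Finset V) by simp)
        (show v ∈ ({v, w'} : Finset V) by simp)
  · intro e he
    by_cases hve : v ∈ e
    · obtain ⟨w, hwv, rfl⟩ := exists_other (h.two e he) hve
      have hwW : w ∈ W := (h.memW w).2 ⟨hwv, he⟩
      obtain ⟨s, hs, hws⟩ := h.claim0 hwW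
      refine ⟨{s}, hs, Finset.mem_union_right _ (Finset.mem_image.2 ⟨w, ?_, rfl⟩)⟩
      exact Finset.mem_filter.2 ⟨hwW, s, by simp, hws⟩
    · exact ⟨{e}, hall e he hve, Finset.mem_union_left _ (by simp)⟩

/-- the elements of a nonsingle branch set are not singles -/
lemma ns_ne (h : Sit E v W 𝓑) {B : Finset (Finset V)} (hB : B ∈ 𝓑) (h2 : 2 ≤ B.card)
    {s f : Finset V} (hs : ({s} : Finset (Finset V)) ∈ 𝓑) (hf : f ∈ B) : f ≠ s := by
  rintro rfl
  have hne : B ≠ {f} := by
    intro h'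
    rw [h'] at h2
    simp at h2
  exact Finset.disjoint_left.1 (h.model.disj B hB _ hs hne) hf (by simp)

/-- conclusion when no edge is unused and no branch set has two elements -/
lemma finish' (h : Sit E v W 𝓑) (hun : ∀ f ∈ E, v ∉ f → ∃ B ∈ 𝓑, f ∈ B)
    (hns : ∀ B ∈ 𝓑, 2 ≤ B.card → False) : False := by
  apply h.finish
  intro e he hve
  obtain ⟨B, hB, heB⟩ := hun e he hve
  rcases h.card_ge hB with ⟨s, rfl⟩ | h2
  · rw [Finset.mem_singleton] at heB
    subst heB
    exact hB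
  · exact (hns B hB h2).elim

lemma nbrs (hdeg : ∀ u, (E.filter fun e => u ∈ e).card ≤ W.card) {u : V} {P : Finset V}
    (hP : ∀ p ∈ P, p ≠ u ∧ ({u, p} : Finset V) ∈ E) : P.card ≤ W.card := by
  refine le_trans ?_ (hdeg u)
  apply Finset.card_le_card_of_injOn (fun p => ({u, p} : Finset V))
  · intro p hp
    have hp' : p ∈ P := hp
    have : ({u, p} : Finset V) ∈ E.filter fun e => u ∈ e :=
      Finset.mem_filter.2 ⟨(hP p hp').2, by simp⟩
    exact this
  · intro p hp q hq hpq
    have h1 : ({u, p} : Finset V) = {u, q} := hpq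
    have h2 : p ∈ ({u, q} : Finset V) := by rw [← h1]; simp
    rcases Finset.mem_insert.1 h2 with h3 | h3
    · exact absurd h3 (hP p hp).1
    · simpa using h3

lemma nbr_mem (hdeg : ∀ u, (E.filter fun e => u ∈ e).card ≤ W.card) {u : V} {P : Finset V}
    (hP : ∀ p ∈ P, p ≠ u ∧ ({u, p} : Finset V) ∈ E) (hc : W.card ≤ P.card) {q : V}
    (hq : q ≠ u) (hqE : ({u, q} : Finset V) ∈ E) : q ∈ P := by
  by_contra hcon
  have h1 : (insert q P).card ≤ W.card := by
    apply nbrs hdeg (u := u)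
    intro p hp
    rcases Finset.mem_insert.1 hp with rfl | hp
    · exact ⟨hq, hqE⟩
    · exact hP p hp
  rw [Finset.card_insert_of_notMem hcon] at h1
  omega

lemma disj_pair {e : Finset V} {a b : V} (ha : a ∉ e) (hb : b ∉ e) :
    Disjoint e ({a, b} : Finset V) := by
  rw [Finset.disjoint_right]
  intro x hx
  rcases Finset.mem_insert.1 hx with rfl | hx
  · exact ha
  · rw [Finset.mem_singleton] at hx
    subst hx
    exact hb

lemma case4 (h : Sit E v W 𝓑) (hW : 4 ≤ W.card) : False := by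
  have hcard : ∀ f ∈ E, 2 ≤ (W \ f).card := by
    intro f hf
    have h1 := Finset.le_card_sdiff f W
    have h2 := h.two f hf
    omega
  apply h.finish'
  · intro f hf hv
    by_contra hcon
    push Not at hcon
    obtain ⟨w, hw, w', hw', hne⟩ := Finset.one_lt_card.1 (hcard f hf)
    rw [Finset.mem_sdiff] at hw hw'
    rcases h.claimU hf hv hcon hw.1 hw'.1 hne with h1 | h1
    · exact hw.2 h1
    · exact hw'.2 h1
  · intro B hB h2
    obtain ⟨f, hf⟩ := (h.model.conn B hB).1
    obtain ⟨f', hf', -, hd⟩ := (h.model.conn B hB).nbr h2 hf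
    obtain ⟨X, hX1, hX2, hX3⟩ := Finset.exists_subsuperset_card_eq
      (s := W ∩ f') (t := W \ f) (n := 2) (by
        intro x hx
        rw [Finset.mem_inter] at hx
        exact Finset.mem_sdiff.2 ⟨hx.1, fun h' => Finset.disjoint_left.1 hd h' hx.2⟩)
      (by
        have := Finset.card_le_card (Finset.inter_subset_right (s₁ := W) (s₂ := f'))
        rw [h.two f' (h.inE hB hf')] at this
        exact this)
      (hcard f (h.inE hB hf))
    have hXW : X ⊆ W := hX2.trans Finset.sdiff_subset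
    have hc' : 2 ≤ (W \ X).card := by
      have := Finset.le_card_sdiff X W
      omega
    refine h.claim_pair hB hf hf' hd (X := X) (X' := W \ X) (h.good_two hXW (by omega) ?_)
      (h.good_two Finset.sdiff_subset hc' ?_) Finset.disjoint_sdiff
    · rw [Finset.disjoint_left]
      intro x hx
      exact (Finset.mem_sdiff.1 (hX2 hx)).2
    · rw [Finset.disjoint_left]
      intro x hx hxf
      rw [Finset.mem_sdiff] at hx
      exact hx.2 (hX1 (Finset.mem_inter.2 ⟨hx.1, hxf⟩))

lemma case0 (h : Sit E v W 𝓑) (hdeg : ∀ u, (E.filter fun e => u ∈ e).card ≤ W.card)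
    (hW : W.card = 0) : False := by
  apply h.finish
  intro e he _
  exfalso
  obtain ⟨u, hu⟩ : e.Nonempty := Finset.card_pos.1 (by rw [h.two e he]; norm_num)
  have h1 : 0 < (E.filter fun e => u ∈ e).card :=
    Finset.card_pos.2 ⟨e, Finset.mem_filter.2 ⟨he, hu⟩⟩
  have h2 := hdeg u
  omega

lemma other_ne_v (h : Sit E v W 𝓑) {w x : V} (hs : ({({w, x} : Finset V)} : Finset (Finset V)) ∈ 𝓑) :
    w ≠ v ∧ x ≠ v := by
  have := h.notin hs (e := {w, x}) (by simp)
  constructor
  · rintro rfl; exact this (by simp)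
  · rintro rfl; exact this (by simp)

lemma case1 (h : Sit E v W 𝓑) (hdeg : ∀ u, (E.filter fun e => u ∈ e).card ≤ W.card)
    (hW : W.card = 1) : False := by
  obtain ⟨w, hWw⟩ := Finset.card_eq_one.1 hW
  have hw : w ∈ W := by rw [hWw]; simp
  obtain ⟨s, hs, hws⟩ := h.claim0 hw
  obtain ⟨x, hxw, rfl⟩ := exists_other (h.single_two hs) hws
  have h1 := h.other_ne_v hs
  have h2 : ({v, x} : Finset V).card ≤ W.card := by
    apply nbrs hdeg (u := w)
    intro p hp
    rcases Finset.mem_insert.1 hp with rfl | hp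
    · exact ⟨h1.1.symm, by rw [Finset.pair_comm]; exact ((h.memW w).1 hw).2⟩
    · rw [Finset.mem_singleton] at hp
      subst hp
      exact ⟨hxw, h.inE hs (by simp)⟩
  rw [Finset.card_pair h1.2.symm] at h2
  omega

end Sit

end Pool.Agent.N425.KG
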