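import Pool.Agent.N425.KG1

set_option autoImplicit false
set_option linter.unusedSectionVars false

namespace Pool.Agent.N425.KG

variable {V : Type} [DecidableEq V]
variable {E : Finset (Finset V)} {v : V} {W : Finset V} {𝓑 : Finset (Finset (Finset V))}

namespace Sit

lemma not_disj_mem {x : V} {e f : Finset V} (he : x ∈ e) (hf : x ∈ f) : ¬ Disjoint e f :=
  fun hd => Finset.disjoint_left.1 hd he hf

lemma not_disj_self (h : Sit E v W 𝓑) {e : Finset V} (he : e ∈ E) : ¬ Disjoint e e := by
  intro hd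
  rw [disjoint_self] at hd
  have := h.two e he
  rw [hd] at this
  simp at this

lemma disj_single (h : Sit E v W 𝓑) {s t : Finset V} (hs : ({s} : Finset (Finset V)) ∈ 𝓑)
    (ht : ({t} : Finset (Finset V)) ∈ 𝓑) (hne : s ≠ t) : Disjoint s t := by
  rw [Finset.disjoint_left]
  intro x hx hx'
  exact hne (h.single_eq hs ht hx hx')

/-- edges at `u` when the neighbourhood is full -/
lemma edge_at (h : Sit E v W 𝓑) (hdeg : ∀ u, (E.filter fun e => u ∈ e).card ≤ W.card) {u : V}
    {P : Finset V} (hP : ∀ p ∈ P, p ≠ u ∧ ({u, p} : Finset V) ∈ E) (hc : W.card ≤ P.card)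
    {f : Finset V} (hf : f ∈ E) (hu : u ∈ f) : ∃ p ∈ P, f = {u, p} := by
  obtain ⟨q, hq, rfl⟩ := exists_other (h.two f hf) hu
  exact ⟨q, nbr_mem hdeg hP hc hq hf, rfl⟩

lemma case2 (h : Sit E v W 𝓑) (hdeg : ∀ u, (E.filter fun e => u ∈ e).card ≤ W.card)
    (hW : W.card = 2) : False := by
  obtain ⟨w1, w2, h12, hWw⟩ := Finset.card_eq_two.1 hW
  have hw1 : w1 ∈ W := by rw [hWw]; simp
  have hw2 : w2 ∈ W := by rw [hWw]; simp
  obtain ⟨s1, hs1, hws1⟩ := h.claim0 hw1
  obtain ⟨s2, hs2, hws2⟩ := h.claim0 hw2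
  obtain ⟨x1, hx1w, rfl⟩ := exists_other (h.single_two hs1) hws1
  obtain ⟨x2, hx2w, rfl⟩ := exists_other (h.single_two hs2) hws2
  have hv1 := h.other_ne_v hs1
  have hv2 := h.other_ne_v hs2
  have e1 : ∀ f ∈ E, v ∉ f → w1 ∈ f → f = {w1, x1} := by
    intro f hf hvf hwf
    obtain ⟨p, hp, rfl⟩ := h.edge_at hdeg (u := w1) (P := {v, x1}) (by
      intro p hp
      rcases Finset.mem_insert.1 hp with rfl | hp
      · exact ⟨hv1.1.symm, by rw [Finset.pair_comm]; exact ((h.memW w1).1 hw1).2⟩
      · rw [Finset.mem_singleton] at hp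
        subst hp
        exact ⟨hx1w, h.inE hs1 (by simp)⟩) (by rw [Finset.card_pair hv1.2.symm, hW]) hf hwf
    rcases Finset.mem_insert.1 hp with rfl | hp
    · exact absurd (by simp) hvf
    · rw [Finset.mem_singleton] at hp
      rw [hp]
  have e2 : ∀ f ∈ E, v ∉ f → w2 ∈ f → f = {w2, x2} := by
    intro f hf hvf hwf
    obtain ⟨p, hp, rfl⟩ := h.edge_at hdeg (u := w2) (P := {v, x2}) (by
      intro p hp
      rcases Finset.mem_insert.1 hp with rfl | hp
      · exact ⟨hv2.1.symm, by rw [Finset.pair_comm]; exact ((h.memW w2).1 hw2).2⟩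
      · rw [Finset.mem_singleton] at hp
        subst hp
        exact ⟨hx2w, h.inE hs2 (by simp)⟩) (by rw [Finset.card_pair hv2.2.symm, hW]) hf hwf
    rcases Finset.mem_insert.1 hp with rfl | hp
    · exact absurd (by simp) hvf
    · rw [Finset.mem_singleton] at hp
      rw [hp]
  have hun : ∀ f ∈ E, v ∉ f → ∃ B ∈ 𝓑, f ∈ B := by
    intro f hf hvf
    by_contra hcon
    push Not at hcon
    rcases h.claimU hf hvf hcon hw1 hw2 h12 with h1 | h1
    · rw [e1 f hf hvf h1] at hcon
      exact hcon _ hs1 (by simp)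
    · rw [e2 f hf hvf h1] at hcon
      exact hcon _ hs2 (by simp)
  have n1 : ∀ B ∈ 𝓑, 2 ≤ B.card → ∀ f ∈ B, w1 ∉ f := by
    intro B hB h2 f hf hwf
    exact h.ns_ne hB h2 hs1 hf (e1 f (h.inE hB hf) (h.notin hB hf) hwf)
  have n2 : ∀ B ∈ 𝓑, 2 ≤ B.card → ∀ f ∈ B, w2 ∉ f := by
    intro B hB h2 f hf hwf
    exact h.ns_ne hB h2 hs2 hf (e2 f (h.inE hB hf) (h.notin hB hf) hwf)
  by_cases hx : x1 = w2
  · subst hx
    apply h.finish' hun
    intro B hB h2
    obtain ⟨f, hf⟩ := (h.model.conn B hB).1
    obtain ⟨f', hf', -, hd⟩ := (h.model.conn B hB).nbr h2 hf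
    exact h.claim_pair hB hf hf' hd
      (h.good_one hw1 hs1 (by simp) (disj_pair (n1 B hB h2 f hf) (n2 B hB h2 f hf)))
      (h.good_one hw2 hs1 (by simp) (disj_pair (n1 B hB h2 f' hf') (n2 B hB h2 f' hf')))
      (by simpa using h12)
  have hx12 : x1 ≠ x2 := by
    intro h'
    have h1 : ({w1, x1} : Finset V) = {w2, x2} :=
      h.single_eq hs1 hs2 (x := x1) (by simp) (by simp [h'])
    have h2 : w2 ∈ ({w1, x1} : Finset V) := by rw [h1]; simp
    rcases Finset.mem_insert.1 h2 with h3 | h3
    · exact h12 h3.symm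
    · rw [Finset.mem_singleton] at h3
      exact hx h3.symm
  -- adjacent pairs contain g
  have key : ∀ B ∈ 𝓑, 2 ≤ B.card → ∀ f ∈ B, ∀ f' ∈ B, Disjoint f f' →
      f = {x1, x2} ∨ f' = {x1, x2} := by
    intro B hB h2 f hf f' hf' hd
    have c1 : x1 ∈ f ∨ x2 ∈ f' := by
      by_contra hcon
      push Not at hcon
      exact h.claim_pair hB hf hf' hd
        (h.good_one hw1 hs1 (by simp) (disj_pair (n1 B hB h2 f hf) hcon.1))
        (h.good_one hw2 hs2 (by simp) (disj_pair (n2 B hB h2 f' hf') hcon.2))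
        (by simpa using h12)
    have c2 : x2 ∈ f ∨ x1 ∈ f' := by
      by_contra hcon
      push Not at hcon
      exact h.claim_pair hB hf hf' hd
        (h.good_one hw2 hs2 (by simp) (disj_pair (n2 B hB h2 f hf) hcon.1))
        (h.good_one hw1 hs1 (by simp) (disj_pair (n1 B hB h2 f' hf') hcon.2))
        (by simpa using h12.symm)
    rcases c1 with c1 | c1 <;> rcases c2 with c2 | c2
    · left
      exact pair_eq (h.two f (h.inE hB hf)) c1 c2 hx12
    · exact absurd hd (not_disj_mem c1 c2)
    · exact absurd hd (not_disj_mem c2 c1)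
    · right
      exact pair_eq (h.two f' (h.inE hB hf')) c2 c1 hx12
  apply h.finish' hun
  intro B hB h2
  -- g ∈ B for every nonsingle B
  have hgB : ∀ B' ∈ 𝓑, 2 ≤ B'.card → ({x1, x2} : Finset V) ∈ B' := by
    intro B' hB' h2'
    obtain ⟨f, hf⟩ := (h.model.conn B' hB').1
    obtain ⟨f', hf', -, hd⟩ := (h.model.conn B' hB').nbr h2' hf
    rcases key B' hB' h2' f hf f' hf' hd with h1 | h1
    · rw [← h1]; exact hf
    · rw [← h1]; exact hf'
  have huniq : ∀ B' ∈ 𝓑, 2 ≤ B'.card → B' = B := by
    intro B' hB' h2'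
    by_contra hne
    exact Finset.disjoint_left.1 (h.model.disj B' hB' B hB hne) (hgB B' hB' h2') (hgB B hB h2)
  obtain ⟨r, hr, hrg, hgr⟩ := (h.model.conn B hB).nbr h2 (hgB B hB h2)
  have hrx1 : x1 ∉ r := fun h' => Finset.disjoint_left.1 hgr (by simp) h'
  have hrx2 : x2 ∉ r := fun h' => Finset.disjoint_left.1 hgr (by simp) h'
  have hr1 : Disjoint r ({w1, x1} : Finset V) := disj_pair (n1 B hB h2 r hr) hrx1
  have hr2 : Disjoint r ({w2, x2} : Finset V) := disj_pair (n2 B hB h2 r hr) hrx2
  have hgs : ∀ s, ({s} : Finset (Finset V)) ∈ 𝓑 → s ≠ {w1, x1} → s ≠ {w2, x2} →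
      Disjoint ({x1, x2} : Finset V) s := by
    intro s hs hne1 hne2
    rw [disjoint_comm]
    apply disj_pair
    · exact fun h' => hne1 (h.single_eq hs hs1 h' (by simp))
    · exact fun h' => hne2 (h.single_eq hs hs2 h' (by simp))
  have hBeq : B = {({x1, x2} : Finset V), r} := by
    by_contra hne
    refine h.min B hB {({x1, x2} : Finset V), r} ?_ (fun h' => hne h'.symm) (conn_pair hgr) ?_
    · intro e he
      rcases Finset.mem_insert.1 he with rfl | he
      · exact hgB B hB h2
      · rw [Finset.mem_singleton] at he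
        subst he
        exact hr
    · intro B' hB' hne'
      rcases h.card_ge hB' with ⟨s, rfl⟩ | h2'
      · by_cases h1 : s = {w1, x1}
        · subst h1
          exact ⟨r, by simp, _, by simp, hr1⟩
        · by_cases h3 : s = {w2, x2}
          · subst h3
            exact ⟨r, by simp, _, by simp, hr2⟩
          · exact ⟨{x1, x2}, by simp, s, by simp, hgs s hB' h1 h3⟩
      · exact absurd (huniq B' hB' h2') hne'
  -- r misses some single
  obtain ⟨s0, hs0, hrs0⟩ : ∃ s0, ({s0} : Finset (Finset V)) ∈ 𝓑 ∧ ¬ Disjoint r s0 := by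
    by_contra hcon
    push Not at hcon
    refine h.min B hB {r} (by simpa using hr) ?_ (conn_single r) ?_
    · intro h'
      rw [← h'] at h2
      simp at h2
    · intro B' hB' hne'
      rcases h.card_ge hB' with ⟨s, rfl⟩ | h2'
      · exact ⟨r, by simp, s, by simp, hcon s hB'⟩
      · exact absurd (huniq B' hB' h2') hne'
  have hs01 : s0 ≠ {w1, x1} := by rintro rfl; exact hrs0 hr1
  have hs02 : s0 ≠ {w2, x2} := by rintro rfl; exact hrs0 hr2
  refine h.covCl (fun B' => if B' = {({w1, x1} : Finset V)} then {{v, w1}, {w1, x1}}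
    else if B' = {({w2, x2} : Finset V)} then {{v, w2}, {w2, x2}}
    else if B' = {s0} then {r, s0} else if B' = B then {{x1, x2}} else B') ?_ ?_
  · intro B' hB' e he f hf
    split_ifs at he hf with h1 h2 h3 h4
    · have he' : w1 ∈ e := by
        rcases Finset.mem_insert.1 he with rfl | he
        · simp
        · rw [Finset.mem_singleton] at he; rw [he]; simp
      have hf' : w1 ∈ f := by
        rcases Finset.mem_insert.1 hf with rfl | hf
        · simp
        · rw [Finset.mem_singleton] at hf; rw [hf]; simp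
      exact not_disj_mem he' hf'
    · have he' : w2 ∈ e := by
        rcases Finset.mem_insert.1 he with rfl | he
        · simp
        · rw [Finset.mem_singleton] at he; rw [he]; simp
      have hf' : w2 ∈ f := by
        rcases Finset.mem_insert.1 hf with rfl | hf
        · simp
        · rw [Finset.mem_singleton] at hf; rw [hf]; simp
      exact not_disj_mem he' hf'
    · have hrE := h.not_disj_self (h.inE hB hr)
      have hsE := h.not_disj_self (h.inE hs0 (by simp : s0 ∈ ({s0} : Finset (Finset V))))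
      rcases Finset.mem_insert.1 he with rfl | he <;> rcases Finset.mem_insert.1 hf with h5 | hf
      · rw [h5]; exact hrE
      · rw [Finset.mem_singleton] at hf
        rw [hf]; exact hrs0
      · rw [Finset.mem_singleton] at he
        rw [he, h5]; exact fun h' => hrs0 h'.symm
      · rw [Finset.mem_singleton] at he hf
        rw [he, hf]; exact hsE
    · rw [Finset.mem_singleton] at he hf
      rw [he, hf]
      exact h.not_disj_self (h.inE hB (hgB B hB ‹2 ≤ B.card›))
    · rcases h.card_ge hB' with ⟨s, rfl⟩ | h2'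
      · rw [Finset.mem_singleton] at he hf
        rw [he, hf]
        exact h.not_disj_self (h.inE hB' (by simp))
      · exact absurd (huniq B' hB' h2') h4
  · intro e he
    have hB1 : B ≠ {({w1, x1} : Finset V)} := by
      intro h'; rw [h'] at h2; simp at h2
    have hB2 : B ≠ {({w2, x2} : Finset V)} := by
      intro h'; rw [h'] at h2; simp at h2
    have hB3 : B ≠ {s0} := by
      intro h'; rw [h'] at h2; simp at h2
    have hs12 : ({w2, x2} : Finset V) ≠ {w1, x1} := by
      intro h'
      have h3 : w2 ∈ ({w1, x1} : Finset V) := by rw [← h']; simp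
      rcases Finset.mem_insert.1 h3 with h3 | h3
      · exact h12 h3.symm
      · rw [Finset.mem_singleton] at h3
        exact hx h3.symm
    by_cases hve : v ∈ e
    · obtain ⟨w, hwv, rfl⟩ := exists_other (h.two e he) hve
      have hw : w ∈ W := (h.memW w).2 ⟨hwv, he⟩
      rw [hWw] at hw
      rcases Finset.mem_insert.1 hw with rfl | hw
      · exact ⟨_, hs1, by simp⟩
      · rw [Finset.mem_singleton] at hw
        subst hw
        exact ⟨_, hs2, by simp [hs12]⟩
    · obtain ⟨B', hB', heB'⟩ := hun e he hve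
      rcases h.card_ge hB' with ⟨s, rfl⟩ | h2'
      · rw [Finset.mem_singleton] at heB'
        subst heB'
        refine ⟨{e}, hB', ?_⟩
        split_ifs with h1 h2 h3 h4
        · rw [Finset.singleton_inj] at h1; rw [h1]; simp
        · rw [Finset.singleton_inj] at h2; rw [h2]; simp
        · rw [Finset.singleton_inj] at h3; rw [h3]; simp
        · have : ({x1, x2} : Finset V) ∈ ({e} : Finset (Finset V)) := by
            rw [h4, hBeq]; simp
          rw [Finset.mem_singleton] at this
          rw [this]; simp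
        · simp
      · rw [huniq B' hB' h2', hBeq] at heB'
        rcases Finset.mem_insert.1 heB' with rfl | heB'
        · refine ⟨B, hB, ?_⟩
          simp [hB1, hB2, hB3]
        · rw [Finset.mem_singleton] at heB'
          subst heB'
          refine ⟨{s0}, hs0, ?_⟩
          simp [hs01, hs02]

end Sit

end Pool.Agent.N425.KG
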