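import Pool.Agent.N425.KG2

set_option autoImplicit false
set_option linter.unusedSectionVars false

namespace Pool.Agent.N425.KG

variable {V : Type} [DecidableEq V]
variable {E : Finset (Finset V)} {v : V} {W : Finset V} {𝓑 : Finset (Finset (Finset V))}

namespace Sit

lemma good_pair (h : Sit E v W 𝓑) {f : Finset V} {p q : V} (hpq : p ≠ q) (hp : p ∈ W)
    (hq : q ∈ W) (hpf : p ∉ f) (hqf : q ∉ f) : Good W 𝓑 f {p, q} := by
  apply h.good_two
  · intro x hx
    rcases Finset.mem_insert.1 hx with rfl | hx
    · exact hp
    · rw [Finset.mem_singleton] at hx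
      subst hx; exact hq
  · rw [Finset.card_pair hpq]
  · exact (disj_pair hpf hqf).symm

lemma pairA (h : Sit E v W 𝓑) {a b c : V} (hab : a ≠ b) (hac : a ≠ c) (hbc : b ≠ c)
    (ha : a ∈ W) (hb : b ∈ W) (hc : c ∈ W) (hs : ({({a, b} : Finset V)} : Finset (Finset V)) ∈ 𝓑)
    {B : Finset (Finset V)} (hB : B ∈ 𝓑) (h2 : 2 ≤ B.card) {f f' : Finset V}
    (hf : f ∈ B) (hf' : f' ∈ B) (hd : Disjoint f f') :
    (a ∈ f ∧ b ∈ f') ∨ (b ∈ f ∧ a ∈ f') ∨ f = {a, c} ∨ f = {b, c} ∨ f' = {a, c} ∨ f' = {b, c} := by
  have hfs : f ≠ {a, b} := h.ns_ne hB h2 hs hf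
  have hfs' : f' ≠ {a, b} := h.ns_ne hB h2 hs hf'
  have c2 := h.two f (h.inE hB hf)
  have c2' := h.two f' (h.inE hB hf')
  have nd : ∀ x, x ∈ f → x ∉ f' := fun x hx => Finset.disjoint_left.1 hd hx
  by_cases hfa : a ∈ f
  · have hfb : b ∉ f := fun hfb => hfs (pair_eq c2 hfa hfb hab)
    by_cases hb' : b ∈ f'
    · exact Or.inl ⟨hfa, hb'⟩
    · have ga' : Disjoint f' ({a, b} : Finset V) := disj_pair (nd a hfa) hb'
      by_cases hcf : c ∈ f
      · exact Or.inr (Or.inr (Or.inl (pair_eq c2 hfa hcf hac)))
      · exact (h.claim_pair hB hf hf' hd (h.good_pair hbc hb hc hfb hcf)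
          (h.good_one ha hs (by simp) ga')
          (by rw [Finset.disjoint_singleton_right]; simp [hab, hac])).elim
  · by_cases hfb : b ∈ f
    · by_cases ha' : a ∈ f'
      · exact Or.inr (Or.inl ⟨hfb, ha'⟩)
      · have ga' : Disjoint f' ({a, b} : Finset V) := disj_pair ha' (nd b hfb)
        by_cases hcf : c ∈ f
        · exact Or.inr (Or.inr (Or.inr (Or.inl (pair_eq c2 hfb hcf hbc))))
        · exact (h.claim_pair hB hf hf' hd (h.good_pair hac ha hc hfa hcf)
            (h.good_one hb hs (by simp) ga')
            (by rw [Finset.disjoint_singleton_right]; simp [hab.symm, hbc])).elim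
    · have gf : Disjoint f ({a, b} : Finset V) := disj_pair hfa hfb
      by_cases hcf : c ∈ f'
      · by_cases ha' : a ∈ f'
        · exact Or.inr (Or.inr (Or.inr (Or.inr (Or.inl (pair_eq c2' ha' hcf hac)))))
        · by_cases hb' : b ∈ f'
          · exact Or.inr (Or.inr (Or.inr (Or.inr (Or.inr (pair_eq c2' hb' hcf hbc)))))
          · exact (h.claim_pair hB hf hf' hd (h.good_one hb hs (by simp) gf)
              (h.good_one ha hs (by simp) (disj_pair ha' hb')) (by simpa using hab.symm)).elim
      · by_cases ha' : a ∈ f'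
        · have hb' : b ∉ f' := fun hb' => hfs' (pair_eq c2' ha' hb' hab)
          exact (h.claim_pair hB hf hf' hd (h.good_one ha hs (by simp) gf)
            (h.good_pair hbc hb hc hb' hcf)
            (by rw [Finset.disjoint_singleton_left]; simp [hab, hac])).elim
        · exact (h.claim_pair hB hf hf' hd (h.good_one hb hs (by simp) gf)
            (h.good_pair hac ha hc ha' hcf)
            (by rw [Finset.disjoint_singleton_left]; simp [hab.symm, hbc])).elim

/-- an unused edge in case A -/
lemma unusedA (h : Sit E v W 𝓑) {a b c : V} (hab : a ≠ b) (hac : a ≠ c) (hbc : b ≠ c)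
    (ha : a ∈ W) (hb : b ∈ W) (hc : c ∈ W) (hs : ({({a, b} : Finset V)} : Finset (Finset V)) ∈ 𝓑)
    {f : Finset V} (hf : f ∈ E) (hv : v ∉ f) (hun : ∀ B ∈ 𝓑, f ∉ B) : f = {a, c} ∨ f = {b, c} := by
  have c2 := h.two f hf
  rcases h.claimU hf hv hun ha hb hab with h1 | h1
  · rcases h.claimU hf hv hun hb hc hbc with h3 | h3
    · exact absurd (show f ∈ ({({a, b} : Finset V)} : Finset (Finset V)) by
        rw [Finset.mem_singleton]; exact pair_eq c2 h1 h3 hab) (hun _ hs)
    · exact Or.inl (pair_eq c2 h1 h3 hac)
  · rcases h.claimU hf hv hun ha hc hac with h3 | h3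
    · exact absurd (show f ∈ ({({a, b} : Finset V)} : Finset (Finset V)) by
        rw [Finset.mem_singleton]; exact pair_eq c2 h3 h1 hab) (hun _ hs)
    · exact Or.inr (pair_eq c2 h1 h3 hbc)

lemma caseA1 (h : Sit E v W 𝓑) {a b c : V} (hab : a ≠ b) (hac : a ≠ c) (hbc : b ≠ c)
    (ha : a ∈ W) (hb : b ∈ W) (hc : c ∈ W) (hs : ({({a, b} : Finset V)} : Finset (Finset V)) ∈ 𝓑)
    (n1 : ({a, c} : Finset V) ∉ E) (n2 : ({b, c} : Finset V) ∉ E) : False := by
  apply h.finish'
  · intro f hf hv
    by_contra hcon
    push Not at hcon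
    rcases h.unusedA hab hac hbc ha hb hc hs hf hv hcon with h1 | h1
    · rw [h1] at hf; exact n1 hf
    · rw [h1] at hf; exact n2 hf
  · intro B hB h2
    have hne : B ≠ {({a, b} : Finset V)} := by
      intro h'; rw [h'] at h2; simp at h2
    obtain ⟨e, he, s, hs', hd⟩ := h.model.touch B hB _ hs hne
    rw [Finset.mem_singleton] at hs'
    subst hs'
    obtain ⟨f, hf, -, hd'⟩ := (h.model.conn B hB).nbr h2 he
    have hae : a ∉ e := fun h' => Finset.disjoint_left.1 hd h' (by simp)
    have hbe : b ∉ e := fun h' => Finset.disjoint_left.1 hd h' (by simp)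
    rcases h.pairA hab hac hbc ha hb hc hs hB h2 he hf hd' with h1 | h1 | h1 | h1 | h1 | h1
    · exact hae h1.1
    · exact hbe h1.1
    · exact hae (by rw [h1]; simp)
    · exact hbe (by rw [h1]; simp)
    · exact n1 (h1 ▸ h.inE hB hf)
    · exact n2 (h1 ▸ h.inE hB hf)

/-- the colouring in case A2 -/
lemma colA (h : Sit E v W 𝓑) {a b c x : V} (hac : a ≠ c)
    (hWw : ∀ w ∈ W, w = a ∨ w = b ∨ w = c)
    (hs : ({({a, b} : Finset V)} : Finset (Finset V)) ∈ 𝓑)
    (ht : ({({c, x} : Finset V)} : Finset (Finset V)) ∈ 𝓑)
    (hst : ({c, x} : Finset V) ≠ {a, b})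
    (hun : ∀ f ∈ E, v ∉ f → f ≠ {a, c} → ∃ B ∈ 𝓑, f ∈ B)
    (hone : ∀ B ∈ 𝓑, ∀ e ∈ B, ∀ f ∈ B, e ≠ {a, c} → f ≠ {a, c} → e = f) : False := by
  refine h.covCl (fun B' => if B' = {({a, b} : Finset V)} then {{v, a}, {v, b}, {a, b}}
    else if B' = {({c, x} : Finset V)} then {{v, c}, {c, x}, {a, c}}
    else B'.filter (fun e => e ≠ {a, c})) ?_ ?_
  · intro B' hB' e he f hf
    split_ifs at he hf with h1 h2
    · simp only [Finset.mem_insert, Finset.mem_singleton] at he hf
      rcases he with rfl | rfl | rfl <;> rcases hf with rfl | rfl | rfl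
      · exact not_disj_mem (x := v) (by simp) (by simp)
      · exact not_disj_mem (x := v) (by simp) (by simp)
      · exact not_disj_mem (x := a) (by simp) (by simp)
      · exact not_disj_mem (x := v) (by simp) (by simp)
      · exact not_disj_mem (x := v) (by simp) (by simp)
      · exact not_disj_mem (x := b) (by simp) (by simp)
      · exact not_disj_mem (x := a) (by simp) (by simp)
      · exact not_disj_mem (x := b) (by simp) (by simp)
      · exact not_disj_mem (x := a) (by simp) (by simp)
    · have he' : c ∈ e := by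
        simp only [Finset.mem_insert, Finset.mem_singleton] at he
        rcases he with rfl | rfl | rfl <;> simp
      have hf' : c ∈ f := by
        simp only [Finset.mem_insert, Finset.mem_singleton] at hf
        rcases hf with rfl | rfl | rfl <;> simp
      exact not_disj_mem he' hf'
    · rw [Finset.mem_filter] at he hf
      rw [hone B' hB' e he.1 f hf.1 he.2 hf.2]
      exact h.not_disj_self (h.inE hB' hf.1)
  · intro e he
    by_cases hve : v ∈ e
    · obtain ⟨w, hwv, rfl⟩ := exists_other (h.two e he) hve
      have hw : w ∈ W := (h.memW w).2 ⟨hwv, he⟩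
      rcases hWw w hw with rfl | rfl | rfl
      · exact ⟨_, hs, by simp⟩
      · exact ⟨_, hs, by simp⟩
      · exact ⟨_, ht, by simp [hst]⟩
    · by_cases hg : e = {a, c}
      · exact ⟨_, ht, by simp [hst, hg]⟩
      · obtain ⟨B', hB', heB'⟩ := hun e he hve hg
        refine ⟨B', hB', ?_⟩
        split_ifs with h1 h2
        · rw [h1, Finset.mem_singleton] at heB'
          rw [heB']; simp
        · rw [h2, Finset.mem_singleton] at heB'
          rw [heB']; simp
        · exact Finset.mem_filter.2 ⟨heB', hg⟩

lemma caseA2 (h : Sit E v W 𝓑) (hdeg : ∀ u, (E.filter fun e => u ∈ e).card ≤ W.card)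
    (hW : W.card = 3) {a b c x : V} (hab : a ≠ b) (hac : a ≠ c) (hbc : b ≠ c)
    (ha : a ∈ W) (hb : b ∈ W) (hc : c ∈ W)
    (hWw : ∀ w ∈ W, w = a ∨ w = b ∨ w = c)
    (hs : ({({a, b} : Finset V)} : Finset (Finset V)) ∈ 𝓑)
    (ht : ({({c, x} : Finset V)} : Finset (Finset V)) ∈ 𝓑) (hxc : x ≠ c)
    (hst : ({c, x} : Finset V) ≠ {a, b}) (hgE : ({a, c} : Finset V) ∈ E) : False := by
  have hvs := h.other_ne_v hs
  have hvt := h.other_ne_v ht
  have hxa : x ≠ a := by
    rintro rfl
    exact hst (h.single_eq ht hs (x := x) (by simp) (by simp))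
  have hxb : x ≠ b := by
    rintro rfl
    exact hst (h.single_eq ht hs (x := x) (by simp) (by simp))
  have hvaE := ((h.memW a).1 ha).2
  have hvbE := ((h.memW b).1 hb).2
  have hvcE := ((h.memW c).1 hc).2
  have eA : ∀ f ∈ E, v ∉ f → a ∈ f → f ≠ {a, b} → f = {a, c} := by
    intro f hf hvf haf hne
    obtain ⟨p, hp, rfl⟩ := h.edge_at hdeg (u := a) (P := {v, b, c}) (by
      intro p hp
      simp only [Finset.mem_insert, Finset.mem_singleton] at hp
      rcases hp with rfl | rfl | rfl
      · exact ⟨hvs.1.symm, by rw [Finset.pair_comm]; exact hvaE⟩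
      · exact ⟨hab.symm, h.inE hs (by simp)⟩
      · exact ⟨hac.symm, hgE⟩) (by
        rw [Finset.card_insert_of_notMem (by simp [hvs.2.symm, hvt.1.symm]), Finset.card_pair hbc,
          hW]) hf haf
    simp only [Finset.mem_insert, Finset.mem_singleton] at hp
    rcases hp with rfl | rfl | rfl
    · exact absurd (by simp) hvf
    · exact absurd rfl hne
    · rfl
  have hbcE : ({b, c} : Finset V) ∉ E := by
    intro hbcE
    obtain ⟨p, hp, hpe⟩ := h.edge_at hdeg (u := c) (P := {v, x, a}) (by
      intro p hp
      simp only [Finset.mem_insert, Finset.mem_singleton] at hp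
      rcases hp with rfl | rfl | rfl
      · exact ⟨hvt.1.symm, by rw [Finset.pair_comm]; exact hvcE⟩
      · exact ⟨hxc, h.inE ht (by simp)⟩
      · exact ⟨hac, by rw [Finset.pair_comm]; exact hgE⟩) (by
        rw [Finset.card_insert_of_notMem (by simp [hvs.1.symm, hvt.2.symm]), Finset.card_pair hxa,
          hW]) hbcE (by simp)
    have hb' : b ∈ ({c, p} : Finset V) := by rw [← hpe]; simp
    simp only [Finset.mem_insert, Finset.mem_singleton] at hp hb'
    rcases hb' with hb' | hb'
    · exact hbc hb'
    · subst hb'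
      rcases hp with h1 | h1 | h1
      · exact hvs.2 h1
      · exact hxb h1.symm
      · exact hab h1.symm
  have key : ∀ B ∈ 𝓑, 2 ≤ B.card → ∀ f ∈ B, ∀ f' ∈ B, Disjoint f f' →
      f = {a, c} ∨ f' = {a, c} := by
    intro B hB h2 f hf f' hf' hd
    rcases h.pairA hab hac hbc ha hb hc hs hB h2 hf hf' hd with h1 | h1 | h1 | h1 | h1 | h1
    · exact Or.inl (eA f (h.inE hB hf) (h.notin hB hf) h1.1 (h.ns_ne hB h2 hs hf))
    · exact Or.inr (eA f' (h.inE hB hf') (h.notin hB hf') h1.2 (h.ns_ne hB h2 hs hf'))
    · exact Or.inl h1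
    · exact absurd (h1 ▸ h.inE hB hf) hbcE
    · exact Or.inr h1
    · exact absurd (h1 ▸ h.inE hB hf') hbcE
  have hun : ∀ f ∈ E, v ∉ f → f ≠ {a, c} → ∃ B ∈ 𝓑, f ∈ B := by
    intro f hf hvf hne
    by_contra hcon
    push Not at hcon
    rcases h.unusedA hab hac hbc ha hb hc hs hf hvf hcon with h1 | h1
    · exact hne h1
    · rw [h1] at hf; exact hbcE hf
  have hgB : ∀ B' ∈ 𝓑, 2 ≤ B'.card → ({a, c} : Finset V) ∈ B' := by
    intro B' hB' h2'
    obtain ⟨f, hf⟩ := (h.model.conn B' hB').1
    obtain ⟨f', hf', -, hd⟩ := (h.model.conn B' hB').nbr h2' hf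
    rcases key B' hB' h2' f hf f' hf' hd with h1 | h1
    · rw [← h1]; exact hf
    · rw [← h1]; exact hf'
  by_cases hns : ∃ B ∈ 𝓑, 2 ≤ B.card
  · obtain ⟨B, hB, h2⟩ := hns
    have huniq : ∀ B' ∈ 𝓑, 2 ≤ B'.card → B' = B := by
      intro B' hB' h2'
      by_contra hne
      exact Finset.disjoint_left.1 (h.model.disj B' hB' B hB hne) (hgB B' hB' h2') (hgB B hB h2)
    have hstar : ∀ r ∈ B, r ≠ {a, c} → Disjoint ({a, c} : Finset V) r := by
      intro r hr hne
      obtain ⟨f', hf', -, hd⟩ := (h.model.conn B hB).nbr h2 hr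
      rcases key B hB h2 r hr f' hf' hd with h1 | h1
      · exact absurd h1 hne
      · rw [← h1]; exact hd.symm
    have hgs : ∀ s, ({s} : Finset (Finset V)) ∈ 𝓑 → s ≠ {a, b} → s ≠ {c, x} →
        Disjoint ({a, c} : Finset V) s := by
      intro s hs' hne1 hne2
      rw [disjoint_comm]
      apply disj_pair
      · exact fun h' => hne1 (h.single_eq hs' hs h' (by simp))
      · exact fun h' => hne2 (h.single_eq hs' ht h' (by simp))
    by_cases hr : ∃ r ∈ B, r ≠ {a, c} ∧ Disjoint r ({a, b} : Finset V) ∧
        Disjoint r ({c, x} : Finset V)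
    · obtain ⟨r, hr, hrg, hr1, hr2⟩ := hr
      have hBeq : B = {({a, c} : Finset V), r} := by
        by_contra hne
        refine h.min B hB {({a, c} : Finset V), r} ?_ (fun h' => hne h'.symm)
          (conn_pair (hstar r hr hrg)) ?_
        · intro e he
          rcases Finset.mem_insert.1 he with rfl | he
          · exact hgB B hB h2
          · rw [Finset.mem_singleton] at he
            subst he
            exact hr
        · intro B' hB' hne'
          rcases h.card_ge hB' with ⟨s, rfl⟩ | h2'
          · by_cases h1 : s = {a, b}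
            · subst h1
              exact ⟨r, by simp, _, by simp, hr1⟩
            · by_cases h3 : s = {c, x}
              · subst h3
                exact ⟨r, by simp, _, by simp, hr2⟩
              · exact ⟨{a, c}, by simp, s, by simp, hgs s hB' h1 h3⟩
          · exact absurd (huniq B' hB' h2') hne'
      apply h.colA hac hWw hs ht hst hun
      intro B' hB' e he f hf heg hfg
      rcases h.card_ge hB' with ⟨s, rfl⟩ | h2'
      · rw [Finset.mem_singleton] at he hf
        rw [he, hf]
      · rw [huniq B' hB' h2', hBeq, Finset.mem_insert, Finset.mem_singleton] at he hf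
        rcases he with he | he
        · exact absurd he heg
        · rcases hf with hf | hf
          · exact absurd hf hfg
          · rw [he, hf]
    · push Not at hr
      have hrbx : ∀ r ∈ B, r ≠ {a, c} → b ∈ r ∨ x ∈ r := by
        intro r hrB hrg
        by_contra hcon
        push Not at hcon
        have h1 := hstar r hrB hrg
        have h3 : a ∉ r := fun h' => Finset.disjoint_left.1 h1 (by simp) h'
        have h4 : c ∉ r := fun h' => Finset.disjoint_left.1 h1 (by simp) h'
        exact hr r hrB hrg (disj_pair h3 hcon.1) (disj_pair h4 hcon.2)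
      have hB1 : B ≠ {({a, b} : Finset V)} := by
        intro h'; rw [h'] at h2; simp at h2
      have hB2 : B ≠ {({c, x} : Finset V)} := by
        intro h'; rw [h'] at h2; simp at h2
      refine h.covCl (fun B' => if B' = {({a, b} : Finset V)} then
          {{v, b}, {a, b}} ∪ B.filter (fun r => r ≠ {a, c} ∧ b ∈ r)
        else if B' = {({c, x} : Finset V)} then insert {c, x} (B.filter (fun r => r ≠ {a, c} ∧ x ∈ r))
        else if B' = B then {{v, a}, {v, c}, {a, c}} else B') ?_ ?_
      · intro B' hB' e he f hf
        split_ifs at he hf with h1 h3 h4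
        · have he' : b ∈ e := by
            simp only [Finset.mem_union, Finset.mem_insert, Finset.mem_singleton,
              Finset.mem_filter] at he
            rcases he with (rfl | rfl) | he
            · simp
            · simp
            · exact he.2.2
          have hf' : b ∈ f := by
            simp only [Finset.mem_union, Finset.mem_insert, Finset.mem_singleton,
              Finset.mem_filter] at hf
            rcases hf with (rfl | rfl) | hf
            · simp
            · simp
            · exact hf.2.2
          exact not_disj_mem he' hf'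
        · have he' : x ∈ e := by
            simp only [Finset.mem_insert, Finset.mem_filter] at he
            rcases he with rfl | he
            · simp
            · exact he.2.2
          have hf' : x ∈ f := by
            simp only [Finset.mem_insert, Finset.mem_filter] at hf
            rcases hf with rfl | hf
            · simp
            · exact hf.2.2
          exact not_disj_mem he' hf'
        · simp only [Finset.mem_insert, Finset.mem_singleton] at he hf
          rcases he with rfl | rfl | rfl <;> rcases hf with rfl | rfl | rfl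
          · exact not_disj_mem (x := v) (by simp) (by simp)
          · exact not_disj_mem (x := v) (by simp) (by simp)
          · exact not_disj_mem (x := a) (by simp) (by simp)
          · exact not_disj_mem (x := v) (by simp) (by simp)
          · exact not_disj_mem (x := v) (by simp) (by simp)
          · exact not_disj_mem (x := c) (by simp) (by simp)
          · exact not_disj_mem (x := a) (by simp) (by simp)
          · exact not_disj_mem (x := c) (by simp) (by simp)
          · exact not_disj_mem (x := a) (by simp) (by simp)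
        · rcases h.card_ge hB' with ⟨s, rfl⟩ | h2'
          · rw [Finset.mem_singleton] at he hf
            rw [he, hf]
            exact h.not_disj_self (h.inE hB' (by simp))
          · exact absurd (huniq B' hB' h2') h4
      · intro e he
        by_cases hve : v ∈ e
        · obtain ⟨w, hwv, rfl⟩ := exists_other (h.two e he) hve
          have hw : w ∈ W := (h.memW w).2 ⟨hwv, he⟩
          rcases hWw w hw with rfl | rfl | rfl
          · exact ⟨B, hB, by simp [hB1, hB2]⟩
          · exact ⟨_, hs, by simp⟩
          · exact ⟨B, hB, by simp [hB1, hB2]⟩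
        · by_cases hg : e = {a, c}
          · exact ⟨B, hB, by simp [hB1, hB2, hg]⟩
          · obtain ⟨B', hB', heB'⟩ := hun e he hve hg
            rcases h.card_ge hB' with ⟨s, rfl⟩ | h2'
            · rw [Finset.mem_singleton] at heB'
              subst heB'
              refine ⟨{e}, hB', ?_⟩
              split_ifs with h1 h3 h4
              · rw [Finset.singleton_inj] at h1; rw [h1]; simp
              · rw [Finset.singleton_inj] at h3; rw [h3]; simp
              · exfalso
                rw [← h4] at h2
                simp at h2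
              · simp
            · rw [huniq B' hB' h2'] at heB'
              rcases hrbx e heB' hg with h1 | h1
              · exact ⟨_, hs, by simp [heB', hg, h1]⟩
              · exact ⟨_, ht, by simp [hst, heB', hg, h1]⟩
  · push Not at hns
    apply h.colA hac hWw hs ht hst hun
    intro B' hB' e he f hf _ _
    rcases h.card_ge hB' with ⟨s, rfl⟩ | h2'
    · rw [Finset.mem_singleton] at he hf
      rw [he, hf]
    · have := hns B' hB'
      omega

end Sit

end Pool.Agent.N425.KG
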