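import Pool.Agent.N425.KG3

set_option autoImplicit false
set_option linter.unusedSectionVars false

namespace Pool.Agent.N425.KG

variable {V : Type} [DecidableEq V]
variable {E : Finset (Finset V)} {v : V} {W : Finset V} {𝓑 : Finset (Finset (Finset V))}

namespace Sit

lemma caseA (h : Sit E v W 𝓑) (hdeg : ∀ u, (E.filter fun e => u ∈ e).card ≤ W.card)
    (hW : W.card = 3) {a b c : V} (hab : a ≠ b) (hac : a ≠ c) (hbc : b ≠ c)
    (ha : a ∈ W) (hb : b ∈ W) (hc : c ∈ W)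
    (hWw : ∀ w ∈ W, w = a ∨ w = b ∨ w = c)
    (hs : ({({a, b} : Finset V)} : Finset (Finset V)) ∈ 𝓑) : False := by
  obtain ⟨t, ht, hct⟩ := h.claim0 hc
  obtain ⟨x, hxc, rfl⟩ := exists_other (h.single_two ht) hct
  have hst : ({c, x} : Finset V) ≠ {a, b} := by
    intro h'
    have h1 : c ∈ ({a, b} : Finset V) := by rw [← h']; simp
    simp only [Finset.mem_insert, Finset.mem_singleton] at h1
    rcases h1 with h1 | h1
    · exact hac h1.symm
    · exact hbc h1.symm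
  by_cases h1 : ({a, c} : Finset V) ∈ E
  · exact h.caseA2 hdeg hW hab hac hbc ha hb hc hWw hs ht hxc hst h1
  · by_cases h2 : ({b, c} : Finset V) ∈ E
    · refine h.caseA2 hdeg hW hab.symm hbc hac hb ha hc ?_ (Finset.pair_comm a b ▸ hs) ht hxc
        (Finset.pair_comm a b ▸ hst) h2
      intro w hw
      rcases hWw w hw with h3 | h3 | h3
      · exact Or.inr (Or.inl h3)
      · exact Or.inl h3
      · exact Or.inr (Or.inr h3)
    · exact h.caseA1 hab hac hbc ha hb hc hs h1 h2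

lemma pairB (h : Sit E v W 𝓑) {w1 w2 w3 x1 x2 x3 : V}
    (h12 : w1 ≠ w2) (h13 : w1 ≠ w3) (h23 : w2 ≠ w3)
    (hw1 : w1 ∈ W) (hw2 : w2 ∈ W) (hw3 : w3 ∈ W)
    (hx1 : x1 ∉ W) (hx2 : x2 ∉ W) (hx3 : x3 ∉ W)
    (hx12 : x1 ≠ x2) (hx13 : x1 ≠ x3) (hx23 : x2 ≠ x3)
    (hs1 : ({({w1, x1} : Finset V)} : Finset (Finset V)) ∈ 𝓑)
    (hs2 : ({({w2, x2} : Finset V)} : Finset (Finset V)) ∈ 𝓑)
    (hs3 : ({({w3, x3} : Finset V)} : Finset (Finset V)) ∈ 𝓑)
    {B : Finset (Finset V)} (hB : B ∈ 𝓑) {f f' : Finset V}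
    (hf : f ∈ B) (hf' : f' ∈ B) (hd : Disjoint f f') (hfree : Disjoint f ({w1, x1} : Finset V)) :
    ({w2, x3} : Finset V) ∈ B ∧ ({w3, x2} : Finset V) ∈ B := by
  have c2 := h.two f (h.inE hB hf)
  have c2' := h.two f' (h.inE hB hf')
  have nwx : ∀ w ∈ W, ∀ x, x ∉ W → w ≠ x := fun w hw x hx h' => hx (h' ▸ hw)
  have g1 : Good W 𝓑 f {w1} := h.good_one hw1 hs1 (by simp) hfree
  have m2 : w2 ∈ f' ∨ x2 ∈ f' := by
    by_contra hcon
    push Not at hcon
    exact h.claim_pair hB hf hf' hd g1 (h.good_one hw2 hs2 (by simp) (disj_pair hcon.1 hcon.2))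
      (by simpa using h12)
  have m3 : w3 ∈ f' ∨ x3 ∈ f' := by
    by_contra hcon
    push Not at hcon
    exact h.claim_pair hB hf hf' hd g1 (h.good_one hw3 hs3 (by simp) (disj_pair hcon.1 hcon.2))
      (by simpa using h13)
  -- f' consists of one element of each
  have hf'eq : ∃ p q, (p = w2 ∨ p = x2) ∧ (q = w3 ∨ q = x3) ∧ f' = {p, q} := by
    rcases m2 with m2 | m2 <;> rcases m3 with m3 | m3
    · exact ⟨w2, w3, Or.inl rfl, Or.inl rfl, pair_eq c2' m2 m3 h23⟩
    · exact ⟨w2, x3, Or.inl rfl, Or.inr rfl, pair_eq c2' m2 m3 (nwx w2 hw2 x3 hx3)⟩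
    · exact ⟨x2, w3, Or.inr rfl, Or.inl rfl, pair_eq c2' m2 m3 (nwx w3 hw3 x2 hx2).symm⟩
    · exact ⟨x2, x3, Or.inr rfl, Or.inr rfl, pair_eq c2' m2 m3 hx23⟩
  have n11 : w1 ∉ f' ∧ x1 ∉ f' := by
    obtain ⟨p, q, hp, hq, rfl⟩ := hf'eq
    constructor
    · intro h'
      simp only [Finset.mem_insert, Finset.mem_singleton] at h'
      rcases h' with rfl | rfl
      · rcases hp with h1 | h1
        · exact h12 h1
        · exact hx2 (h1 ▸ hw1)
      · rcases hq with h1 | h1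
        · exact h13 h1
        · exact hx3 (h1 ▸ hw1)
    · intro h'
      simp only [Finset.mem_insert, Finset.mem_singleton] at h'
      rcases h' with rfl | rfl
      · rcases hp with h1 | h1
        · exact hx1 (h1 ▸ hw2)
        · exact hx12 h1
      · rcases hq with h1 | h1
        · exact hx1 (h1 ▸ hw3)
        · exact hx13 h1
  have g1' : Good W 𝓑 f' {w1} := h.good_one hw1 hs1 (by simp) (disj_pair n11.1 n11.2)
  have m2' : w2 ∈ f ∨ x2 ∈ f := by
    by_contra hcon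
    push Not at hcon
    exact h.claim_pair hB hf' hf hd.symm g1'
      (h.good_one hw2 hs2 (by simp) (disj_pair hcon.1 hcon.2)) (by simpa using h12)
  have m3' : w3 ∈ f ∨ x3 ∈ f := by
    by_contra hcon
    push Not at hcon
    exact h.claim_pair hB hf' hf hd.symm g1'
      (h.good_one hw3 hs3 (by simp) (disj_pair hcon.1 hcon.2)) (by simpa using h13)
  have nd : ∀ x, x ∈ f → x ∉ f' := fun x hx => Finset.disjoint_left.1 hd hx
  have d1 : Disjoint ({w1} : Finset V) {w2, w3} := by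
    rw [Finset.disjoint_singleton_left]; simp [h12, h13]
  rcases m2' with m2' | m2' <;> rcases m3' with m3' | m3'
  · -- f = {w2,w3}: f' misses w2, w3
    exact (h.claim_pair hB hf hf' hd g1
      (h.good_pair h23 hw2 hw3 (nd _ m2') (nd _ m3')) d1).elim
  · -- f = {w2, x3}
    have h1 : f = {w2, x3} := pair_eq c2 m2' m3' (nwx w2 hw2 x3 hx3)
    have h2 : x2 ∈ f' := m2.resolve_left (nd _ m2')
    have h3 : w3 ∈ f' := m3.resolve_right (nd _ m3')
    have h4 : f' = {w3, x2} := pair_eq c2' h3 h2 (nwx w3 hw3 x2 hx2)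
    exact ⟨h1 ▸ hf, h4 ▸ hf'⟩
  · have h1 : f = {w3, x2} := pair_eq c2 m3' m2' (nwx w3 hw3 x2 hx2)
    have h2 : w2 ∈ f' := m2.resolve_right (nd _ m2')
    have h3 : x3 ∈ f' := m3.resolve_left (nd _ m3')
    have h4 : f' = {w2, x3} := pair_eq c2' h2 h3 (nwx w2 hw2 x3 hx3)
    exact ⟨h4 ▸ hf', h1 ▸ hf⟩
  · -- f = {x2, x3}
    have h1 : f = {x2, x3} := pair_eq c2 m2' m3' hx23
    have hw2f : w2 ∉ f := by
      rw [h1]; simp only [Finset.mem_insert, Finset.mem_singleton, not_or]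
      exact ⟨nwx w2 hw2 x2 hx2, nwx w2 hw2 x3 hx3⟩
    have hw3f : w3 ∉ f := by
      rw [h1]; simp only [Finset.mem_insert, Finset.mem_singleton, not_or]
      exact ⟨nwx w3 hw3 x2 hx2, nwx w3 hw3 x3 hx3⟩
    exact (h.claim_pair hB hf' hf hd.symm g1' (h.good_pair h23 hw2 hw3 hw2f hw3f) d1).elim

lemma caseB (h : Sit E v W 𝓑) (hdeg : ∀ u, (E.filter fun e => u ∈ e).card ≤ W.card)
    (hW : W.card = 3) {w1 w2 w3 x1 x2 x3 : V}
    (h12 : w1 ≠ w2) (h13 : w1 ≠ w3) (h23 : w2 ≠ w3)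
    (hw1 : w1 ∈ W) (hw2 : w2 ∈ W) (hw3 : w3 ∈ W)
    (hx1 : x1 ∉ W) (hx2 : x2 ∉ W) (hx3 : x3 ∉ W)
    (hx12 : x1 ≠ x2) (hx13 : x1 ≠ x3) (hx23 : x2 ≠ x3)
    (hs1 : ({({w1, x1} : Finset V)} : Finset (Finset V)) ∈ 𝓑)
    (hs2 : ({({w2, x2} : Finset V)} : Finset (Finset V)) ∈ 𝓑)
    (hs3 : ({({w3, x3} : Finset V)} : Finset (Finset V)) ∈ 𝓑) : False := by
  have nwx : ∀ w ∈ W, ∀ x, x ∉ W → w ≠ x := fun w hw x hx h' => hx (h' ▸ hw)
  have hv1 := h.other_ne_v hs1
  have hv2 := h.other_ne_v hs2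
  have hv3 := h.other_ne_v hs3
  apply h.finish'
  · intro f hf hv
    by_contra hcon
    push Not at hcon
    have c2 := h.two f hf
    have a1 := h.claimA hf hv hcon hw1 hs1 (by simp)
    have a2 := h.claimA hf hv hcon hw2 hs2 (by simp)
    have a3 := h.claimA hf hv hcon hw3 hs3 (by simp)
    rcases h.claimU hf hv hcon hw1 hw2 h12 with h1 | h1
    · rcases h.claimU hf hv hcon hw2 hw3 h23 with h3 | h3
      · apply a3
        rw [pair_eq c2 h1 h3 h12]
        refine disj_pair ?_ ?_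
        · simp [h13.symm, h23.symm]
        · simp only [Finset.mem_insert, Finset.mem_singleton, not_or]
          exact ⟨(nwx w1 hw1 x3 hx3).symm, (nwx w2 hw2 x3 hx3).symm⟩
      · apply a2
        rw [pair_eq c2 h1 h3 h13]
        refine disj_pair ?_ ?_
        · simp [h12.symm, h23]
        · simp only [Finset.mem_insert, Finset.mem_singleton, not_or]
          exact ⟨(nwx w1 hw1 x2 hx2).symm, (nwx w3 hw3 x2 hx2).symm⟩
    · rcases h.claimU hf hv hcon hw1 hw3 h13 with h3 | h3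
      · apply a3
        rw [pair_eq c2 h3 h1 h12]
        refine disj_pair ?_ ?_
        · simp [h13.symm, h23.symm]
        · simp only [Finset.mem_insert, Finset.mem_singleton, not_or]
          exact ⟨(nwx w1 hw1 x3 hx3).symm, (nwx w2 hw2 x3 hx3).symm⟩
      · apply a1
        rw [pair_eq c2 h1 h3 h23]
        refine disj_pair ?_ ?_
        · simp [h12, h13]
        · simp only [Finset.mem_insert, Finset.mem_singleton, not_or]
          exact ⟨(nwx w2 hw2 x1 hx1).symm, (nwx w3 hw3 x1 hx1).symm⟩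
  · intro B hB h2
    have hB1 : B ≠ {({w1, x1} : Finset V)} := by
      intro h'; rw [h'] at h2; simp at h2
    have hB2 : B ≠ {({w2, x2} : Finset V)} := by
      intro h'; rw [h'] at h2; simp at h2
    have p1 : ({w3, x2} : Finset V) ∈ B := by
      obtain ⟨e, he, s, hs', hd⟩ := h.model.touch B hB _ hs1 hB1
      rw [Finset.mem_singleton] at hs'
      subst hs'
      obtain ⟨f, hf, -, hd'⟩ := (h.model.conn B hB).nbr h2 he
      exact (h.pairB h12 h13 h23 hw1 hw2 hw3 hx1 hx2 hx3 hx12 hx13 hx23 hs1 hs2 hs3 hB he hf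
        hd' hd).2
    have p2 : ({w3, x1} : Finset V) ∈ B := by
      obtain ⟨e, he, s, hs', hd⟩ := h.model.touch B hB _ hs2 hB2
      rw [Finset.mem_singleton] at hs'
      subst hs'
      obtain ⟨f, hf, -, hd'⟩ := (h.model.conn B hB).nbr h2 he
      exact (h.pairB h12.symm h23 h13 hw2 hw1 hw3 hx2 hx1 hx3 hx12.symm hx23 hx13 hs2 hs1 hs3 hB
        he hf hd' hd).2
    have h4 : ({v, x1, x2, x3} : Finset V).card ≤ W.card := by
      apply nbrs hdeg (u := w3)
      intro p hp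
      simp only [Finset.mem_insert, Finset.mem_singleton] at hp
      rcases hp with rfl | rfl | rfl | rfl
      · exact ⟨hv3.1.symm, by rw [Finset.pair_comm]; exact ((h.memW w3).1 hw3).2⟩
      · exact ⟨(nwx w3 hw3 _ hx1).symm, h.inE hB p2⟩
      · exact ⟨(nwx w3 hw3 _ hx2).symm, h.inE hB p1⟩
      · exact ⟨(nwx w3 hw3 _ hx3).symm, h.inE hs3 (by simp)⟩
    rw [Finset.card_insert_of_notMem (by simp [hv1.2.symm, hv2.2.symm, hv3.2.symm]),
      Finset.card_insert_of_notMem (by simp [hx12, hx13]), Finset.card_pair hx23] at h4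
    omega

lemma case3 (h : Sit E v W 𝓑) (hdeg : ∀ u, (E.filter fun e => u ∈ e).card ≤ W.card)
    (hW : W.card = 3) : False := by
  obtain ⟨a, b, c, hab, hac, hbc, hWw⟩ := Finset.card_eq_three.1 hW
  have ha : a ∈ W := by rw [hWw]; simp
  have hb : b ∈ W := by rw [hWw]; simp
  have hc : c ∈ W := by rw [hWw]; simp
  have hW' : ∀ w ∈ W, w = a ∨ w = b ∨ w = c := by
    intro w hw
    rw [hWw] at hw
    simpa using hw
  obtain ⟨s1, hs1, hm1⟩ := h.claim0 ha
  obtain ⟨s2, hs2, hm2⟩ := h.claim0 hb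
  obtain ⟨s3, hs3, hm3⟩ := h.claim0 hc
  by_cases hb1 : b ∈ s1
  · have := pair_eq (h.single_two hs1) hm1 hb1 hab
    rw [this] at hs1
    exact h.caseA hdeg hW hab hac hbc ha hb hc hW' hs1
  by_cases hc1 : c ∈ s1
  · have := pair_eq (h.single_two hs1) hm1 hc1 hac
    rw [this] at hs1
    refine h.caseA hdeg hW hac hab hbc.symm ha hc hb ?_ hs1
    intro w hw
    rcases hW' w hw with h3 | h3 | h3
    · exact Or.inl h3
    · exact Or.inr (Or.inr h3)
    · exact Or.inr (Or.inl h3)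
  by_cases hc2 : c ∈ s2
  · have := pair_eq (h.single_two hs2) hm2 hc2 hbc
    rw [this] at hs2
    refine h.caseA hdeg hW hbc hab.symm hac.symm hb hc ha ?_ hs2
    intro w hw
    rcases hW' w hw with h3 | h3 | h3
    · exact Or.inr (Or.inr h3)
    · exact Or.inl h3
    · exact Or.inr (Or.inl h3)
  have n12 : s1 ≠ s2 := by rintro rfl; exact hb1 hm2
  have n13 : s1 ≠ s3 := by rintro rfl; exact hc1 hm3
  have n23 : s2 ≠ s3 := by rintro rfl; exact hc2 hm3
  have d12 := h.disj_single hs1 hs2 n12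
  have d13 := h.disj_single hs1 hs3 n13
  have d23 := h.disj_single hs2 hs3 n23
  obtain ⟨x1, hx1, rfl⟩ := exists_other (h.single_two hs1) hm1
  obtain ⟨x2, hx2, rfl⟩ := exists_other (h.single_two hs2) hm2
  obtain ⟨x3, hx3, rfl⟩ := exists_other (h.single_two hs3) hm3
  have k12 : ∀ y, y ∈ ({a, x1} : Finset V) → y ∉ ({b, x2} : Finset V) :=
    fun y => fun hy => Finset.disjoint_left.1 d12 hy
  have k13 : ∀ y, y ∈ ({a, x1} : Finset V) → y ∉ ({c, x3} : Finset V) :=
    fun y => fun hy => Finset.disjoint_left.1 d13 hy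
  have k23 : ∀ y, y ∈ ({b, x2} : Finset V) → y ∉ ({c, x3} : Finset V) :=
    fun y => fun hy => Finset.disjoint_left.1 d23 hy
  have hx1W : x1 ∉ W := by
    intro h'
    rcases hW' _ h' with h3 | h3 | h3
    · exact hx1 h3
    · exact hb1 (by simp [h3])
    · exact hc1 (by simp [h3])
  have hx2W : x2 ∉ W := by
    intro h'
    rcases hW' _ h' with h3 | h3 | h3
    · exact k12 a (by simp) (by simp [h3])
    · exact hx2 h3
    · exact hc2 (by simp [h3])
  have hx3W : x3 ∉ W := by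
    intro h'
    rcases hW' _ h' with h3 | h3 | h3
    · exact k13 a (by simp) (by simp [h3])
    · exact k23 b (by simp) (by simp [h3])
    · exact hx3 h3
  have hx12 : x1 ≠ x2 := by
    intro h'
    exact k12 x1 (by simp) (by simp [h'])
  have hx13 : x1 ≠ x3 := by
    intro h'
    exact k13 x1 (by simp) (by simp [h'])
  have hx23 : x2 ≠ x3 := by
    intro h'
    exact k23 x2 (by simp) (by simp [h'])
  exact h.caseB hdeg hW hab hac hbc ha hb hc hx1W hx2W hx3W hx12 hx13 hx23 hs1 hs2 hs3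

lemma contra (h : Sit E v W 𝓑) (hdeg : ∀ u, (E.filter fun e => u ∈ e).card ≤ W.card) :
    False := by
  have h5 : W.card = 0 ∨ W.card = 1 ∨ W.card = 2 ∨ W.card = 3 ∨ 4 ≤ W.card := by omega
  rcases h5 with h5 | h5 | h5 | h5 | h5
  · exact h.case0 hdeg h5
  · exact h.case1 hdeg h5
  · exact h.case2 hdeg h5
  · exact h.case3 hdeg h5
  · exact h.case4 h5

end Sit

end Pool.Agent.N425.KG
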