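import Pool.Agent.N425.KG4

set_option autoImplicit false
set_option linter.unusedSectionVars false

namespace Pool.Agent.N425.KG

variable {V : Type} [DecidableEq V]

/-- the main theorem for sets of pairs -/
theorem main (n : ℕ) : ∀ (E : Finset (Finset V)) (k : ℕ), E.card = n → (∀ e ∈ E, e.card = 2) →
    ¬ Cov E k → ∃ 𝓑, Model E 𝓑 ∧ 𝓑.card = k + 1 := by
  induction n using Nat.strong_induction_on with
  | _ n ih =>
  intro E k hn htwo hcov
  by_contra hno
  -- every model is small
  have hsmall : ∀ 𝓒, Model E 𝓒 → 𝓒.card ≤ k := by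
    intro 𝓒 h𝓒
    by_contra hlt
    push Not at hlt
    obtain ⟨𝓓, h𝓓, hc⟩ := Finset.exists_subset_card_eq (s := 𝓒) (n := k + 1) hlt
    exact hno ⟨𝓓, h𝓒.mono h𝓓, hc⟩
  have hEne : E.Nonempty := by
    rw [Finset.nonempty_iff_ne_empty]
    rintro rfl
    exact hcov ⟨∅, by simp, by simp, by simp⟩
  have hVne : (E.biUnion id).Nonempty := by
    obtain ⟨e, he⟩ := hEne
    obtain ⟨u, hu⟩ : e.Nonempty := Finset.card_pos.1 (by rw [htwo e he]; norm_num)
    exact ⟨u, Finset.mem_biUnion.2 ⟨e, he, hu⟩⟩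
  obtain ⟨v, hv, hmax⟩ := Finset.exists_max_image (E.biUnion id)
    (fun u => (E.filter fun e => u ∈ e).card) hVne
  obtain ⟨ev, hev, hvev⟩ := Finset.mem_biUnion.1 hv
  have hvev' : v ∈ ev := hvev
  set W : Finset V := (E.biUnion id).filter (fun w => w ≠ v ∧ ({v, w} : Finset V) ∈ E) with hW
  have memW : ∀ w, w ∈ W ↔ w ≠ v ∧ ({v, w} : Finset V) ∈ E := by
    intro w
    rw [hW, Finset.mem_filter]
    refine ⟨fun h' => h'.2, fun h' => ⟨Finset.mem_biUnion.2 ⟨_, h'.2, ?_⟩, h'⟩⟩
    show w ∈ ({v, w} : Finset V)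
    simp
  have hdegv : (E.filter fun e => v ∈ e).card ≤ W.card := by
    refine le_trans (Finset.card_le_card ?_) (Finset.card_image_le (s := W)
      (f := fun w => ({v, w} : Finset V)))
    intro e he
    rw [Finset.mem_filter] at he
    obtain ⟨w, hwv, rfl⟩ := exists_other (htwo e he.1) he.2
    exact Finset.mem_image.2 ⟨w, (memW w).2 ⟨hwv, he.1⟩, rfl⟩
  have hdeg : ∀ u, (E.filter fun e => u ∈ e).card ≤ W.card := by
    intro u
    by_cases hu : u ∈ E.biUnion id
    · exact (hmax u hu).trans hdegv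
    · have : E.filter (fun e => u ∈ e) = ∅ := by
        rw [Finset.filter_eq_empty_iff]
        intro e he hue
        exact hu (Finset.mem_biUnion.2 ⟨e, he, hue⟩)
      rw [this]; simp
  -- positive k
  obtain ⟨k', rfl⟩ : ∃ k', k = k' + 1 := by
    rcases k with _ | k'
    · exfalso
      obtain ⟨e, he⟩ := hEne
      have hm : Model E {({e} : Finset (Finset V))} := by
        refine ⟨?_, ?_, ?_, ?_⟩
        · intro B hB
          rw [Finset.mem_singleton] at hB
          subst hB
          simpa using he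
        · intro B hB
          rw [Finset.mem_singleton] at hB
          subst hB
          exact conn_single e
        · intro B hB C hC hne
          rw [Finset.mem_singleton] at hB hC
          exact absurd (hB.trans hC.symm) hne
        · intro B hB C hC hne
          rw [Finset.mem_singleton] at hB hC
          exact absurd (hB.trans hC.symm) hne
      have := hsmall _ hm
      simp at this
    · exact ⟨k', rfl⟩
  -- the induction hypothesis
  have hlt : (E.filter fun e => v ∉ e).card < n := by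
    rw [← hn]
    apply Finset.card_lt_card
    refine ⟨Finset.filter_subset _ _, fun h' => ?_⟩
    exact (Finset.mem_filter.1 (h' hev)).2 hvev'
  have hcov' : ¬ Cov (E.filter fun e => v ∉ e) k' := by
    rintro ⟨P, hP1, hP2, hP3⟩
    apply hcov
    refine ⟨insert (E.filter fun e => v ∈ e) P, ?_, ?_, ?_⟩
    · exact (Finset.card_insert_le _ _).trans (by omega)
    · intro C hC e he f hf
      rcases Finset.mem_insert.1 hC with h1 | hC
      · rw [h1] at he hf
        exact Sit.not_disj_mem (Finset.mem_filter.1 he).2 (Finset.mem_filter.1 hf).2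
      · exact hP2 C hC e he f hf
    · intro e he
      by_cases hve : v ∈ e
      · exact ⟨_, Finset.mem_insert_self _ _, Finset.mem_filter.2 ⟨he, hve⟩⟩
      · obtain ⟨C, hC, heC⟩ := hP3 e (Finset.mem_filter.2 ⟨he, hve⟩)
        exact ⟨C, Finset.mem_insert_of_mem hC, heC⟩
  obtain ⟨𝓑0, h𝓑0, hc0⟩ := ih _ hlt (E.filter fun e => v ∉ e) k' rfl
    (fun e he => htwo e (Finset.mem_filter.1 he).1) hcov'
  -- choose a minimal model
  have hex : ∃ m, ∃ 𝓑, Model (E.filter fun e => v ∉ e) 𝓑 ∧ 𝓑.card = k' + 1 ∧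
      ∑ B ∈ 𝓑, B.card = m := ⟨_, 𝓑0, h𝓑0, hc0, rfl⟩
  classical
  obtain ⟨𝓑, h𝓑, hcB, hsum⟩ := Nat.find_spec hex
  have hmin := fun m (hm : m < Nat.find hex) => Nat.find_min hex hm
  have hsit : Sit E v W 𝓑 := by
    refine ⟨htwo, memW, h𝓑, ?_, ?_, ?_⟩
    · intro 𝓒 h𝓒
      rw [hcB]
      exact hsmall 𝓒 h𝓒
    · intro B hB C hCB hne hC ht
      have h1 := (h𝓑.mono (Finset.erase_subset B 𝓑)).ext (N := C) (hCB.trans (h𝓑.sub B hB)) hC
        (fun B' hB' => by
          rw [Finset.mem_erase] at hB'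
          exact Finset.disjoint_of_subset_left hCB (h𝓑.disj B hB B' hB'.2 hB'.1.symm))
        (fun B' hB' => by
          rw [Finset.mem_erase] at hB'
          exact ht B' hB'.2 hB'.1)
      have hCnot : C ∉ 𝓑.erase B := by
        intro h'
        rw [Finset.mem_erase] at h'
        obtain ⟨e, he⟩ := hC.1
        exact Finset.disjoint_left.1 (h𝓑.disj C h'.2 B hB h'.1) he (hCB he)
      have h2 : ∑ B' ∈ insert C (𝓑.erase B), B'.card < Nat.find hex := by
        rw [← hsum, Finset.sum_insert hCnot, ← Finset.add_sum_erase 𝓑 _ hB]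
        have : C.card < B.card := Finset.card_lt_card (Finset.ssubset_iff_subset_ne.2 ⟨hCB, hne⟩)
        omega
      refine hmin _ h2 ⟨insert C (𝓑.erase B), h1.1, ?_, rfl⟩
      rw [h1.2, Finset.card_erase_of_mem hB, hcB]
      simp
    · rw [hcB]
      exact hcov
  exact hsit.contra hdeg

end Pool.Agent.N425.KG
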