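import Mathlib

set_option autoImplicit false
set_option linter.unusedSectionVars false

open Classical

namespace Pool.Agent.N425.KR

variable {U : Type} (G : SimpleGraph U)

/-- `B` is nonempty and connected in `G` -/
def Conn (B : Finset U) : Prop :=
  B.Nonempty ∧ ∀ C ⊆ B, C.Nonempty → C ≠ B → ∃ e ∈ C, ∃ f ∈ B \ C, G.Adj e f

def Touch (B C : Finset U) : Prop := ∃ e ∈ B, ∃ f ∈ C, G.Adj e f

structure Model (F : Finset U) (𝓑 : Finset (Finset U)) : Prop where
  sub : ∀ B ∈ 𝓑, B ⊆ F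
  conn : ∀ B ∈ 𝓑, Conn G B
  disj : ∀ B ∈ 𝓑, ∀ C ∈ 𝓑, B ≠ C → Disjoint B C
  touch : ∀ B ∈ 𝓑, ∀ C ∈ 𝓑, B ≠ C → Touch G B C

def Cov (F : Finset U) (k : ℕ) : Prop :=
  ∃ P : Finset (Finset U), P.card ≤ k ∧
    (∀ C ∈ P, ∀ e ∈ C, ∀ f ∈ C, ¬ G.Adj e f) ∧ ∀ e ∈ F, ∃ C ∈ P, e ∈ C

/-- Hadwiger's conjecture for the induced subgraph on `F` -/
def Had (F : Finset U) : Prop := ∃ 𝓑, Model G F 𝓑 ∧ Cov G F 𝓑.card

variable {G}

lemma Touch.symm {B C : Finset U} (h : Touch G B C) : Touch G C B := by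
  obtain ⟨e, he, f, hf, hd⟩ := h
  exact ⟨f, hf, e, he, hd.symm⟩

lemma conn_star (c : U) (R : Finset U) (h : ∀ r ∈ R, G.Adj c r) :
    Conn G (insert c R) := by
  refine ⟨⟨c, by simp⟩, ?_⟩
  intro C hC hne hneq
  by_cases hc : c ∈ C
  · obtain ⟨r, hr, hrC⟩ : ∃ r ∈ insert c R, r ∉ C := by
      by_contra hcon
      push Not at hcon
      exact hneq (Finset.Subset.antisymm hC hcon)
    have hrc : r ≠ c := fun h => hrC (h ▸ hc)
    have hrR : r ∈ R := by
      rcases Finset.mem_insert.1 hr with h | h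
      · exact absurd h hrc
      · exact h
    exact ⟨c, hc, r, Finset.mem_sdiff.2 ⟨hr, hrC⟩, h r hrR⟩
  · obtain ⟨e, he⟩ := hne
    have hec : e ≠ c := fun h => hc (h ▸ he)
    have heR : e ∈ R := by
      rcases Finset.mem_insert.1 (hC he) with h | h
      · exact absurd h hec
      · exact h
    exact ⟨e, he, c, Finset.mem_sdiff.2 ⟨by simp, hc⟩, (h e heR).symm⟩

lemma conn_single (c : U) : Conn G ({c} : Finset U) := by
  have := conn_star (G := G) c ∅ (by simp)
  simpa using this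

lemma conn_pair {c d : U} (h : G.Adj c d) : Conn G ({c, d} : Finset U) := by
  have := conn_star (G := G) c {d} (by simpa using h)
  simpa using this

lemma Conn.nbr {B : Finset U} (h : Conn G B) (h2 : 2 ≤ B.card) {e : U}
    (he : e ∈ B) : ∃ f ∈ B, G.Adj e f := by
  obtain ⟨e', he', f, hf, hd⟩ := h.2 {e} (by simpa using he) ⟨e, by simp⟩ (by
    intro h'
    rw [← h'] at h2
    simp at h2)
  rw [Finset.mem_singleton] at he'
  subst he'
  rw [Finset.mem_sdiff] at hf
  exact ⟨f, hf.1, hd⟩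

lemma Model.mono {F : Finset U} {𝓑 𝓒 : Finset (Finset U)}
    (h : Model G F 𝓑) (hs : 𝓒 ⊆ 𝓑) : Model G F 𝓒 :=
  ⟨fun B hB => h.sub B (hs hB), fun B hB => h.conn B (hs hB),
    fun B hB C hC => h.disj B (hs hB) C (hs hC), fun B hB C hC => h.touch B (hs hB) C (hs hC)⟩

lemma Model.le {E F : Finset U} {𝓑 : Finset (Finset U)}
    (h : Model G E 𝓑) (hs : E ⊆ F) : Model G F 𝓑 :=
  ⟨fun B hB => (h.sub B hB).trans hs, h.conn, h.disj, h.touch⟩

lemma Model.ext {F : Finset U} {𝓑 : Finset (Finset U)}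
    (h : Model G F 𝓑) {N : Finset U} (hN : N ⊆ F) (hc : Conn G N)
    (hd : ∀ B ∈ 𝓑, Disjoint N B) (ht : ∀ B ∈ 𝓑, Touch G N B) :
    Model G F (insert N 𝓑) ∧ (insert N 𝓑).card = 𝓑.card + 1 := by
  have hN' : N ∉ 𝓑 := by
    intro hmem
    have := hd N hmem
    rw [disjoint_self] at this
    exact hc.1.ne_empty this
  refine ⟨⟨?_, ?_, ?_, ?_⟩, Finset.card_insert_of_notMem hN'⟩
  · intro B hB
    rcases Finset.mem_insert.1 hB with rfl | hB
    · exact hN
    · exact h.sub B hB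
  · intro B hB
    rcases Finset.mem_insert.1 hB with rfl | hB
    · exact hc
    · exact h.conn B hB
  · intro B hB C hC hne
    rcases Finset.mem_insert.1 hB with h1 | hB <;> rcases Finset.mem_insert.1 hC with h2 | hC
    · exact absurd (h1.trans h2.symm) hne
    · rw [h1]; exact hd C hC
    · rw [h2]; exact (hd B hB).symm
    · exact h.disj B hB C hC hne
  · intro B hB C hC hne
    rcases Finset.mem_insert.1 hB with h1 | hB <;> rcases Finset.mem_insert.1 hC with h2 | hC
    · exact absurd (h1.trans h2.symm) hne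
    · rw [h1]; exact ht C hC
    · rw [h2]; exact (ht B hB).symm
    · exact h.touch B hB C hC hne

lemma Model.ofFn {κ : Type} (ι : Finset κ) (B : κ → Finset U) {F : Finset U}
    (hs : ∀ i ∈ ι, B i ⊆ F) (hc : ∀ i ∈ ι, Conn G (B i))
    (hd : ∀ i ∈ ι, ∀ j ∈ ι, i ≠ j → Disjoint (B i) (B j))
    (ht : ∀ i ∈ ι, ∀ j ∈ ι, i ≠ j → Touch G (B i) (B j)) :
    Model G F (ι.image B) ∧ (ι.image B).card = ι.card := by
  refine ⟨⟨?_, ?_, ?_, ?_⟩, ?_⟩
  · intro C hC
    obtain ⟨i, hi, rfl⟩ := Finset.mem_image.1 hC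
    exact hs i hi
  · intro C hC
    obtain ⟨i, hi, rfl⟩ := Finset.mem_image.1 hC
    exact hc i hi
  · intro C hC D hD hne
    obtain ⟨i, hi, rfl⟩ := Finset.mem_image.1 hC
    obtain ⟨j, hj, rfl⟩ := Finset.mem_image.1 hD
    exact hd i hi j hj (fun h => hne (by rw [h]))
  · intro C hC D hD hne
    obtain ⟨i, hi, rfl⟩ := Finset.mem_image.1 hC
    obtain ⟨j, hj, rfl⟩ := Finset.mem_image.1 hD
    exact ht i hi j hj (fun h => hne (by rw [h]))
  · apply Finset.card_image_of_injOn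
    intro i hi j hj hij
    by_contra hne
    have h1 := hd i hi j hj hne
    have h2 : B i = B j := hij
    rw [h2, disjoint_self] at h1
    exact (hc j hj).1.ne_empty h1

lemma Model.union {E F : Finset U} {𝓑 𝓒 : Finset (Finset U)}
    (h : Model G E 𝓑) (h' : Model G F 𝓒) (hEF : Disjoint E F)
    (ht : ∀ B ∈ 𝓑, ∀ C ∈ 𝓒, Touch G B C) :
    Model G (E ∪ F) (𝓑 ∪ 𝓒) ∧ (𝓑 ∪ 𝓒).card = 𝓑.card + 𝓒.card := by
  have hd : ∀ B ∈ 𝓑, ∀ C ∈ 𝓒, Disjoint B C := fun B hB C hC =>
    Finset.disjoint_of_subset_left (h.sub B hB)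
      (Finset.disjoint_of_subset_right (h'.sub C hC) hEF)
  refine ⟨⟨?_, ?_, ?_, ?_⟩, ?_⟩
  · intro B hB
    rcases Finset.mem_union.1 hB with hB | hB
    · exact (h.sub B hB).trans Finset.subset_union_left
    · exact (h'.sub B hB).trans Finset.subset_union_right
  · intro B hB
    rcases Finset.mem_union.1 hB with hB | hB
    · exact h.conn B hB
    · exact h'.conn B hB
  · intro B hB C hC hne
    rcases Finset.mem_union.1 hB with hB | hB <;> rcases Finset.mem_union.1 hC with hC | hC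
    · exact h.disj B hB C hC hne
    · exact hd B hB C hC
    · exact (hd C hC B hB).symm
    · exact h'.disj B hB C hC hne
  · intro B hB C hC hne
    rcases Finset.mem_union.1 hB with hB | hB <;> rcases Finset.mem_union.1 hC with hC | hC
    · exact h.touch B hB C hC hne
    · exact ht B hB C hC
    · exact (ht C hC B hB).symm
    · exact h'.touch B hB C hC hne
  · apply Finset.card_union_of_disjoint
    rw [Finset.disjoint_left]
    intro B hB hB'
    have := hd B hB B hB'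
    rw [disjoint_self] at this
    exact (h.conn B hB).1.ne_empty this

lemma Cov.mono {F : Finset U} {k l : ℕ} (h : Cov G F k) (hkl : k ≤ l) : Cov G F l := by
  obtain ⟨P, h1, h2, h3⟩ := h
  exact ⟨P, h1.trans hkl, h2, h3⟩

lemma Cov.le {E F : Finset U} {k : ℕ} (h : Cov G F k) (hEF : E ⊆ F) : Cov G E k := by
  obtain ⟨P, h1, h2, h3⟩ := h
  exact ⟨P, h1, h2, fun e he => h3 e (hEF he)⟩

lemma Cov.union {E F : Finset U} {k l : ℕ} (h : Cov G E k) (h' : Cov G F l) :
    Cov G (E ∪ F) (k + l) := by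
  obtain ⟨P, h1, h2, h3⟩ := h
  obtain ⟨P', h1', h2', h3'⟩ := h'
  refine ⟨P ∪ P', (Finset.card_union_le _ _).trans (by omega), ?_, ?_⟩
  · intro C hC
    rcases Finset.mem_union.1 hC with hC | hC
    · exact h2 C hC
    · exact h2' C hC
  · intro e he
    rcases Finset.mem_union.1 he with he | he
    · obtain ⟨C, hC, heC⟩ := h3 e he
      exact ⟨C, Finset.mem_union_left _ hC, heC⟩
    · obtain ⟨C, hC, heC⟩ := h3' e he
      exact ⟨C, Finset.mem_union_right _ hC, heC⟩

lemma Cov.ind {T : Finset U} (h : ∀ t ∈ T, ∀ t' ∈ T, ¬ G.Adj t t') : Cov G T 1 :=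
  ⟨{T}, by simp, by simpa using h, fun e he => ⟨T, by simp, he⟩⟩

lemma Cov.triv (F : Finset U) : Cov G F F.card := by
  refine ⟨F.image fun u => {u}, Finset.card_image_le, ?_, ?_⟩
  · intro C hC
    obtain ⟨u, hu, rfl⟩ := Finset.mem_image.1 hC
    intro e he f hf
    rw [Finset.mem_singleton] at he hf
    rw [he, hf]
    exact G.irrefl
  · intro e he
    exact ⟨{e}, Finset.mem_image.2 ⟨e, he, rfl⟩, by simp⟩

/-- the singletons of a clique -/
lemma Model.clique {J : Finset U} (h : ∀ a ∈ J, ∀ b ∈ J, a ≠ b → G.Adj a b) :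
    Model G J (J.image fun u => ({u} : Finset U)) ∧
      (J.image fun u => ({u} : Finset U)).card = J.card := by
  apply Model.ofFn
  · intro i hi
    simpa using hi
  · intro i _
    exact conn_single i
  · intro i _ j _ hij
    simpa using hij
  · intro i hi j hj hij
    exact ⟨i, by simp, j, by simp, h i hi j hj hij⟩

/-- universal vertices -/
lemma Had.univ {F J : Finset U} (hFJ : Disjoint F J)
    (hJ : ∀ a ∈ J, ∀ b ∈ J, a ≠ b → G.Adj a b) (hJF : ∀ a ∈ J, ∀ b ∈ F, G.Adj a b)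
    (h : Had G F) : Had G (F ∪ J) := by
  obtain ⟨𝓑, hM, hC⟩ := h
  obtain ⟨h1, h2⟩ := Model.clique hJ
  obtain ⟨h3, h4⟩ := hM.union h1 hFJ (by
    intro B hB C hC
    obtain ⟨u, hu, rfl⟩ := Finset.mem_image.1 hC
    obtain ⟨b, hb⟩ := (hM.conn B hB).1
    exact ⟨b, hb, u, by simp, (hJF u hu b (hM.sub B hB hb)).symm⟩)
  refine ⟨_, h3, ?_⟩
  rw [h4, h2]
  exact hC.union (Cov.triv J)

/-- domination -/
lemma dom {T X : Finset U} {q : ℕ} {g : U} (hX : X ⊆ T)
    (hq : (T.filter fun t => ¬ G.Adj g t).card ≤ q) (hc : q + 1 ≤ X.card) :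
    ∃ t ∈ X, G.Adj g t := by
  by_contra hcon
  push Not at hcon
  have h1 : X ⊆ T.filter fun t => ¬ G.Adj g t := fun t ht =>
    Finset.mem_filter.2 ⟨hX ht, hcon t ht⟩
  have h2 := Finset.card_le_card h1
  omega

lemma nb_card {T : Finset U} {q : ℕ} {g : U}
    (hq : (T.filter fun t => ¬ G.Adj g t).card ≤ q) :
    T.card ≤ (T.filter fun t => G.Adj g t).card + q := by
  have h1 := Finset.card_filter_add_card_filter_not (s := T) (fun t => G.Adj g t)
  omega

/-- the core step -/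
lemma core {F T : Finset U} {q : ℕ} (hFT : Disjoint F T)
    (hq : ∀ f ∈ F, (T.filter fun t => ¬ G.Adj f t).card ≤ q) (hc : 4 * q + 2 ≤ T.card)
    {𝓑 : Finset (Finset U)} (hM : Model G F 𝓑) :
    (∃ 𝓒, Model G (F ∪ T) 𝓒 ∧ 𝓒.card = 𝓑.card + 1) ∨
      ((∀ f ∈ F, ({f} : Finset U) ∈ 𝓑) ∧ (∀ B ∈ 𝓑, ∃ f, B = {f}) ∧
        ∀ t ∈ T, ∃ f ∈ F, ¬ G.Adj t f) := by
  have hML := hM.le (Finset.subset_union_left (s₁ := F) (s₂ := T))
  have hTd : ∀ B ∈ 𝓑, ∀ X ⊆ T, Disjoint X B := fun B hB X hX =>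
    (Finset.disjoint_of_subset_left (hM.sub B hB)
      (Finset.disjoint_of_subset_right hX hFT)).symm
  by_cases hun : ∃ f ∈ F, ∀ B ∈ 𝓑, f ∉ B
  · left
    obtain ⟨f, hf, hfB⟩ := hun
    set X := T.filter fun t => G.Adj f t with hX
    have hXT : X ⊆ T := Finset.filter_subset _ _
    have hXc : q + 1 ≤ X.card := by
      have h0 : T.card ≤ X.card + q := nb_card (hq f hf)
      omega
    obtain ⟨h1, h2⟩ := hML.ext (N := insert f X)
      (Finset.insert_subset (Finset.mem_union_left _ hf) (hXT.trans Finset.subset_union_right))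
      (conn_star f X (fun r hr => (Finset.mem_filter.1 hr).2))
      (fun B hB => by
        rw [Finset.disjoint_insert_left]
        exact ⟨hfB B hB, hTd B hB X hXT⟩)
      (fun B hB => by
        obtain ⟨g, hg⟩ := (hM.conn B hB).1
        obtain ⟨t, ht, hgt⟩ := dom hXT (hq g (hM.sub B hB hg)) hXc
        exact ⟨t, Finset.mem_insert_of_mem ht, g, hg, hgt.symm⟩)
    exact ⟨_, h1, h2⟩
  by_cases hns : ∃ B ∈ 𝓑, 2 ≤ B.card
  · left
    obtain ⟨B, hB, h2B⟩ := hns
    obtain ⟨f, hf⟩ := (hM.conn B hB).1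
    obtain ⟨f', hf', hff'⟩ := (hM.conn B hB).nbr h2B hf
    have hfF := hM.sub B hB hf
    have hfF' := hM.sub B hB hf'
    set Y := (T.filter fun t => G.Adj f t).filter fun t => G.Adj f' t with hY
    have hYT : Y ⊆ T := (Finset.filter_subset _ _).trans (Finset.filter_subset _ _)
    have hYc : 2 * q + 2 ≤ Y.card := by
      have h1 := nb_card (hq f hfF)
      have h2 : ((T.filter fun t => G.Adj f t).filter fun t => ¬ G.Adj f' t).card ≤ q := by
        refine le_trans (Finset.card_le_card ?_) (hq f' hfF')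
        intro t ht
        rw [Finset.mem_filter, Finset.mem_filter] at ht
        exact Finset.mem_filter.2 ⟨ht.1.1, ht.2⟩
      have h3 : (T.filter fun t => G.Adj f t).card ≤ Y.card + q := nb_card h2
      omega
    obtain ⟨X, hXY, hXc⟩ := Finset.exists_subset_card_eq (s := Y) (n := q + 1) (by omega)
    have hXc' : q + 1 ≤ (Y \ X).card := by
      have := Finset.le_card_sdiff X Y
      omega
    have hadj : ∀ t ∈ Y, G.Adj f t ∧ G.Adj f' t := by
      intro t ht
      rw [hY, Finset.mem_filter, Finset.mem_filter] at ht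
      exact ⟨ht.1.2, ht.2⟩
    have hout : ∀ g ∈ B, ∀ B' ∈ 𝓑.erase B, g ∉ B' := by
      intro g hg B' hB' hgB'
      rw [Finset.mem_erase] at hB'
      exact Finset.disjoint_left.1 (hM.disj B' hB'.2 B hB hB'.1) hgB' hg
    have hXT : X ⊆ T := hXY.trans hYT
    have hXT' : Y \ X ⊆ T := Finset.sdiff_subset.trans hYT
    have hfX : ∀ g ∈ F, g ∉ T := fun g hg => Finset.disjoint_left.1 hFT hg
    obtain ⟨m1, c1⟩ := (hML.mono (Finset.erase_subset B 𝓑)).ext (N := insert f X)
      (Finset.insert_subset (Finset.mem_union_left _ hfF) (hXT.trans Finset.subset_union_right))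
      (conn_star f X (fun r hr => (hadj r (hXY hr)).1))
      (fun B' hB' => by
        rw [Finset.disjoint_insert_left]
        exact ⟨hout f hf B' hB', hTd B' (Finset.mem_of_mem_erase hB') X hXT⟩)
      (fun B' hB' => by
        have hB'' := Finset.mem_of_mem_erase hB'
        obtain ⟨g, hg⟩ := (hM.conn B' hB'').1
        obtain ⟨t, ht, hgt⟩ := dom hXT (hq g (hM.sub B' hB'' hg)) (by omega)
        exact ⟨t, Finset.mem_insert_of_mem ht, g, hg, hgt.symm⟩)
    obtain ⟨m2, c2⟩ := m1.ext (N := insert f' (Y \ X))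
      (Finset.insert_subset (Finset.mem_union_left _ hfF') (hXT'.trans Finset.subset_union_right))
      (conn_star f' (Y \ X) (fun r hr => (hadj r (Finset.mem_sdiff.1 hr).1).2))
      (fun B' hB' => by
        rcases Finset.mem_insert.1 hB' with rfl | hB'
        · rw [Finset.disjoint_insert_left, Finset.disjoint_insert_right]
          refine ⟨?_, ?_, Finset.sdiff_disjoint⟩
          · intro h'
            rcases Finset.mem_insert.1 h' with h' | h'
            · exact hff'.ne h'.symm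
            · exact hfX f' hfF' (hXT h')
          · exact fun h' => hfX f hfF (hXT' h')
        · rw [Finset.disjoint_insert_left]
          exact ⟨hout f' hf' B' hB', hTd B' (Finset.mem_of_mem_erase hB') _ hXT'⟩)
      (fun B' hB' => by
        rcases Finset.mem_insert.1 hB' with rfl | hB'
        · exact ⟨f', by simp, f, by simp, hff'.symm⟩
        · have hB'' := Finset.mem_of_mem_erase hB'
          obtain ⟨g, hg⟩ := (hM.conn B' hB'').1
          obtain ⟨t, ht, hgt⟩ := dom hXT' (hq g (hM.sub B' hB'' hg)) hXc'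
          exact ⟨t, Finset.mem_insert_of_mem ht, g, hg, hgt.symm⟩)
    refine ⟨_, m2, ?_⟩
    rw [c2, c1, Finset.card_erase_of_mem hB]
    have : 0 < 𝓑.card := Finset.card_pos.2 ⟨B, hB⟩
    omega
  have hone : ∀ B ∈ 𝓑, ∃ f, B = {f} := by
    intro B hB
    have h1 : 1 ≤ B.card := Finset.card_pos.2 (hM.conn B hB).1
    push Not at hns
    have h2 := hns B hB
    exact Finset.card_eq_one.1 (by omega)
  have hused : ∀ f ∈ F, ({f} : Finset U) ∈ 𝓑 := by
    intro f hf
    push Not at hun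
    obtain ⟨B, hB, hfB⟩ := hun f hf
    obtain ⟨g, rfl⟩ := hone B hB
    rw [Finset.mem_singleton] at hfB
    rw [hfB]
    exact hB
  by_cases ht : ∃ t ∈ T, ∀ f ∈ F, G.Adj t f
  · left
    obtain ⟨t, ht, htf⟩ := ht
    obtain ⟨h1, h2⟩ := hML.ext (N := {t}) (by
        simpa using Or.inr ht) (conn_single t)
      (fun B hB => hTd B hB {t} (by simpa using ht))
      (fun B hB => by
        obtain ⟨g, hg⟩ := (hM.conn B hB).1
        exact ⟨t, by simp, g, hg, htf g (hM.sub B hB hg)⟩)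
    exact ⟨_, h1, h2⟩
  · right
    push Not at ht
    exact ⟨hused, hone, ht⟩

/-- a star of at least `4 q + 2` vertices preserves Hadwiger's conjecture -/
lemma step {F T : Finset U} {q : ℕ} (hT : ∀ t ∈ T, ∀ t' ∈ T, ¬ G.Adj t t') (hFT : Disjoint F T)
    (hq : ∀ f ∈ F, (T.filter fun t => ¬ G.Adj f t).card ≤ q) (hc : 4 * q + 2 ≤ T.card)
    (h : Had G F) : Had G (F ∪ T) := by
  obtain ⟨𝓑, hM, hC⟩ := h
  rcases core hFT hq hc hM with ⟨𝓒, h1, h2⟩ | ⟨h1, h2, h3⟩
  · refine ⟨𝓒, h1, ?_⟩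
    rw [h2]
    exact hC.union (Cov.ind hT)
  · refine ⟨𝓑, hM.le Finset.subset_union_left, ?_⟩
    refine ⟨𝓑.image fun B => B ∪ T.filter fun t => ∃ f ∈ B, ¬ G.Adj t f,
      Finset.card_image_le, ?_, ?_⟩
    · intro C hC
      obtain ⟨B, hB, rfl⟩ := Finset.mem_image.1 hC
      obtain ⟨f, rfl⟩ := h2 B hB
      have key : ∀ e ∈ ({f} : Finset U) ∪ T.filter (fun t => ∃ f' ∈ ({f} : Finset U), ¬ G.Adj t f'),
          e = f ∨ (e ∈ T ∧ ¬ G.Adj e f) := by
        intro e he
        rcases Finset.mem_union.1 he with he | he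
        · left; simpa using he
        · right
          rw [Finset.mem_filter] at he
          obtain ⟨h4, f', hf', h5⟩ := he
          rw [Finset.mem_singleton] at hf'
          rw [hf'] at h5
          exact ⟨h4, h5⟩
      intro e he e' he'
      rcases key e he with h4 | h4 <;> rcases key e' he' with h5 | h5
      · rw [h4, h5]; exact G.irrefl
      · rw [h4]; exact fun h' => h5.2 h'.symm
      · rw [h5]; exact h4.2
      · exact hT e h4.1 e' h5.1
    · intro e he
      rcases Finset.mem_union.1 he with he | he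
      · exact ⟨_, Finset.mem_image.2 ⟨{e}, h1 e he, rfl⟩, Finset.mem_union_left _ (by simp)⟩
      · obtain ⟨f, hf, hef⟩ := h3 e he
        exact ⟨_, Finset.mem_image.2 ⟨{f}, h1 f hf, rfl⟩,
          Finset.mem_union_right _ (Finset.mem_filter.2 ⟨he, f, by simp, hef⟩)⟩

/-- if `F` is not a clique then a star gives a larger minor -/
lemma gain {F T : Finset U} {q : ℕ} (hFT : Disjoint F T)
    (hq : ∀ f ∈ F, (T.filter fun t => ¬ G.Adj f t).card ≤ q) (hc : 4 * q + 2 ≤ T.card)
    {a b : U} (ha : a ∈ F) (hb : b ∈ F) (hab : a ≠ b) (hnab : ¬ G.Adj a b)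
    {𝓑 : Finset (Finset U)} (hM : Model G F 𝓑) :
    ∃ 𝓒, Model G (F ∪ T) 𝓒 ∧ 𝓒.card = 𝓑.card + 1 := by
  rcases core hFT hq hc hM with h | ⟨h1, h2, h3⟩
  · exact h
  · exfalso
    obtain ⟨e, he, f, hf, hef⟩ := hM.touch {a} (h1 a ha) {b} (h1 b hb) (by simpa using hab)
    rw [Finset.mem_singleton] at he hf
    rw [he, hf] at hef
    exact hnab hef

end Pool.Agent.N425.KR
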