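import Pool.Agent.N425.KR1

set_option autoImplicit false
set_option linter.unusedSectionVars false

open Classical

namespace Pool.Agent.N425.KR

variable {U : Type} {G : SimpleGraph U}

/-- cliques -/
def Cl (G : SimpleGraph U) (C : Finset U) : Prop := ∀ a ∈ C, ∀ b ∈ C, a ≠ b → G.Adj a b

/-- `χ ≤ (n + ω) / 2` -/
lemma cov_half (w n : ℕ) : ∀ (F : Finset U), F.card = n →
    (∀ C ⊆ F, (∀ a ∈ C, ∀ b ∈ C, a ≠ b → G.Adj a b) → C.card ≤ w) →
    Cov G F ((F.card + w) / 2) := by
  induction n using Nat.strong_induction_on with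
  | _ n ih =>
  intro F hn hw
  by_cases hcl : ∀ a ∈ F, ∀ b ∈ F, a ≠ b → G.Adj a b
  · have := hw F (Finset.Subset.refl _) hcl
    exact (Cov.triv F).mono (by omega)
  · push Not at hcl
    obtain ⟨a, ha, b, hb, hab, hnab⟩ := hcl
    have h1 : ((F.erase a).erase b).card = F.card - 1 - 1 := by
      rw [Finset.card_erase_of_mem (Finset.mem_erase.2 ⟨hab.symm, hb⟩),
        Finset.card_erase_of_mem ha]
    have h2 : 2 ≤ F.card := by
      have h3 := Finset.one_lt_card.2 ⟨a, ha, b, hb, hab⟩
      omega
    have hsub : (F.erase a).erase b ⊆ F := (Finset.erase_subset _ _).trans (Finset.erase_subset _ _)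
    have h3 := ih _ (by omega) ((F.erase a).erase b) rfl (fun C hC => hw C (hC.trans hsub))
    have h4 : Cov G ({a, b} : Finset U) 1 := by
      apply Cov.ind
      intro t ht t' ht'
      simp only [Finset.mem_insert, Finset.mem_singleton] at ht ht'
      rcases ht with rfl | rfl <;> rcases ht' with rfl | rfl
      · exact G.irrefl
      · exact hnab
      · exact fun h => hnab h.symm
      · exact G.irrefl
    have h5 := (h3.union h4).le (E := F) (by
      intro x hx
      by_cases hxa : x = a
      · rw [hxa]; simp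
      · by_cases hxb : x = b
        · rw [hxb]; simp
        · exact Finset.mem_union_left _ (by
            rw [Finset.mem_erase, Finset.mem_erase]; exact ⟨hxb, hxa, hx⟩))
    apply h5.mono
    rw [h1]
    omega

/-- bounded number of non-neighbours, no universal vertex, many vertices -/
lemma near {D : ℕ} {Q : Finset U}
    (h1 : ∀ u ∈ Q, ∃ w ∈ Q, w ≠ u ∧ ¬ G.Adj u w)
    (hD : ∀ u ∈ Q, (Q.filter fun w => w ≠ u ∧ ¬ G.Adj u w).card ≤ D)
    (hQ : (D + 1) * (4 * (D * D + D) + 3) ≤ Q.card) : Had G Q := by
  obtain ⟨I, hI, hImax⟩ := Finset.exists_max_image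
    (Q.powerset.filter fun C => Cl G C) (fun C => C.card)
    ⟨∅, Finset.mem_filter.2 ⟨by simp, fun a ha => absurd ha (by simp)⟩⟩
  rw [Finset.mem_filter, Finset.mem_powerset] at hI
  obtain ⟨hIQ, hIcl⟩ := hI
  have hw : ∀ C ⊆ Q, (∀ a ∈ C, ∀ b ∈ C, a ≠ b → G.Adj a b) → C.card ≤ I.card := by
    intro C hC hcl
    exact hImax C (by rw [Finset.mem_filter, Finset.mem_powerset]; exact ⟨hC, hcl⟩)
  have hcov := cov_half I.card _ Q rfl hw
  set R := Q \ I with hR
  have hQc : Q.card = I.card + R.card := by
    rw [hR, Finset.card_sdiff_of_subset hIQ]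
    have := Finset.card_le_card hIQ
    omega
  have hIc : I.card ≤ R.card * D := by
    have hsub : I ⊆ R.biUnion fun w => Q.filter fun u => u ≠ w ∧ ¬ G.Adj w u := by
      intro i hi
      obtain ⟨w, hw, hwi, hnadj⟩ := h1 i (hIQ hi)
      refine Finset.mem_biUnion.2 ⟨w, Finset.mem_sdiff.2 ⟨hw, ?_⟩,
        Finset.mem_filter.2 ⟨hIQ hi, hwi.symm, fun h => hnadj h.symm⟩⟩
      exact fun hwI => hnadj (hIcl i hi w hwI hwi.symm)
    refine (Finset.card_le_card hsub).trans (Finset.card_biUnion_le_card_mul _ _ _ ?_)
    intro w hw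
    exact hD w (Finset.mem_sdiff.1 hw).1
  set t := D * D + D with ht
  have hRc : 4 * t + 3 ≤ R.card := by
    have h2 : (D + 1) * (4 * t + 3) ≤ (D + 1) * R.card := by
      refine hQ.trans ?_
      rw [hQc, Nat.add_mul, one_mul, mul_comm D R.card]
      omega
    exact Nat.le_of_mul_le_mul_left h2 (Nat.succ_pos D)
  obtain ⟨R1, hR1, hR1c⟩ := Finset.exists_subset_card_eq (s := R) (n := R.card / 2) (by omega)
  obtain ⟨R2, hR2, hR2c⟩ := Finset.exists_subset_card_eq (s := R \ R1) (n := R.card / 2) (by
    rw [Finset.card_sdiff_of_subset hR1]; omega)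
  have hR12 : Disjoint R1 R2 :=
    Finset.disjoint_of_subset_right hR2 Finset.disjoint_sdiff
  have hR2R : R2 ⊆ R := hR2.trans Finset.sdiff_subset
  have hRQ : R ⊆ Q := Finset.sdiff_subset
  set compat : U → U → Prop := fun w w' => G.Adj w w' ∧
    ∀ z ∈ Q, z ≠ w → z ≠ w' → (G.Adj z w ∨ G.Adj z w') with hcompat
  have hsymm : ∀ w w', compat w w' → compat w' w := by
    intro w w' h
    exact ⟨h.1.symm, fun z hz h2 h3 => (h.2 z hz h3 h2).symm⟩
  have hinc : ∀ w ∈ Q, ∀ A ⊆ Q, (∀ a ∈ A, a ≠ w ∧ ¬ compat w a) → A.card ≤ t := by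
    intro w hw A hAQ hA
    have hsub : A ⊆ (Q.filter fun u => u ≠ w ∧ ¬ G.Adj w u).biUnion
        (fun z => Q.filter fun u => u ≠ z ∧ ¬ G.Adj z u) ∪ (Q.filter fun u => u ≠ w ∧ ¬ G.Adj w u) := by
      intro a ha
      obtain ⟨haw, hna⟩ := hA a ha
      by_cases hadj : G.Adj w a
      · have h2 : ∃ z ∈ Q, z ≠ w ∧ z ≠ a ∧ ¬ G.Adj z w ∧ ¬ G.Adj z a := by
          by_contra hcon
          push Not at hcon
          apply hna
          refine ⟨hadj, fun z hz h3 h4 => ?_⟩
          by_cases h5 : G.Adj z w
          · exact Or.inl h5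
          · exact Or.inr (hcon z hz h3 h4 h5)
        obtain ⟨z, hz, hzw, hza, h3, h4⟩ := h2
        refine Finset.mem_union_left _ (Finset.mem_biUnion.2 ⟨z, ?_, ?_⟩)
        · exact Finset.mem_filter.2 ⟨hz, hzw, fun h => h3 h.symm⟩
        · exact Finset.mem_filter.2 ⟨hAQ ha, hza.symm, h4⟩
      · exact Finset.mem_union_right _ (Finset.mem_filter.2 ⟨hAQ ha, haw, hadj⟩)
    refine (Finset.card_le_card hsub).trans ((Finset.card_union_le _ _).trans ?_)
    have h3 := Finset.card_biUnion_le_card_mul (Q.filter fun u => u ≠ w ∧ ¬ G.Adj w u)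
      (fun z => Q.filter fun u => u ≠ z ∧ ¬ G.Adj z u) D
      (fun z hz => hD z (Finset.mem_filter.1 hz).1)
    have h4 := hD w hw
    have h5 : (Q.filter fun u => u ≠ w ∧ ¬ G.Adj w u).card * D ≤ D * D :=
      Nat.mul_le_mul_right D h4
    omega
  have hall : ∃ f : {x // x ∈ R1} → U, Function.Injective f ∧
      ∀ x, f x ∈ R2.filter fun y => compat x.1 y := by
    rw [← Finset.all_card_le_biUnion_card_iff_exists_injective]
    intro s
    rcases s.eq_empty_or_nonempty with rfl | ⟨x, hx⟩
    · simp
    have hR1Q : ∀ y : {x // x ∈ R1}, y.1 ∈ Q := fun y => hRQ (hR1 y.2)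
    have hne : ∀ y : {x // x ∈ R1}, ∀ z ∈ R2, z ≠ y.1 := by
      intro y z hz h
      exact Finset.disjoint_left.1 hR12 y.2 (h ▸ hz)
    by_cases hs : s.card + t ≤ R.card / 2
    · have h2 : (R2.filter fun y => compat x.1 y) ⊆
          s.biUnion fun x => R2.filter fun y => compat x.1 y :=
        Finset.subset_biUnion_of_mem (fun x : {x // x ∈ R1} => R2.filter fun y => compat x.1 y) hx
      have h3 := Finset.card_le_card h2
      have h4 := hinc x.1 (hR1Q x) (R2.filter fun y => ¬ compat x.1 y)
        ((Finset.filter_subset _ _).trans (hR2R.trans hRQ)) (by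
          intro a ha
          rw [Finset.mem_filter] at ha
          exact ⟨hne x a ha.1, ha.2⟩)
      have h5 := Finset.card_filter_add_card_filter_not (s := R2) (fun y => compat x.1 y)
      omega
    · have h2 : R2 ⊆ s.biUnion fun x => R2.filter fun y => compat x.1 y := by
        intro y hy
        by_contra hcon
        rw [Finset.mem_biUnion] at hcon
        push Not at hcon
        have h3 := hinc y (hRQ (hR2R hy)) (s.image fun x => x.1) (by
          intro a ha
          obtain ⟨b, _, rfl⟩ := Finset.mem_image.1 ha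
          exact hR1Q b) (by
          intro a ha
          obtain ⟨b, hb, rfl⟩ := Finset.mem_image.1 ha
          refine ⟨(hne b y hy).symm, fun h => ?_⟩
          exact hcon b hb (Finset.mem_filter.2 ⟨hy, hsymm _ _ h⟩))
        rw [Finset.card_image_of_injective _ Subtype.val_injective] at h3
        omega
      have h3 := Finset.card_le_card h2
      have h4 : s.card ≤ R1.card := by
        have h5 := Finset.card_le_univ s
        rw [Fintype.card_coe] at h5
        exact h5
      omega
  obtain ⟨f, hfinj, hf⟩ := hall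
  let g : U → U := fun u => if h : u ∈ R1 then f ⟨u, h⟩ else u
  have hg : ∀ u ∈ R1, g u ∈ R2 ∧ compat u (g u) := by
    intro u hu
    have : g u = f ⟨u, hu⟩ := dif_pos hu
    rw [this]
    exact Finset.mem_filter.1 (hf ⟨u, hu⟩)
  have hginj : ∀ u ∈ R1, ∀ w ∈ R1, g u = g w → u = w := by
    intro u hu w hw h
    have e1 : g u = f ⟨u, hu⟩ := dif_pos hu
    have e2 : g w = f ⟨w, hw⟩ := dif_pos hw
    rw [e1, e2] at h
    exact congrArg Subtype.val (hfinj h)
  have hIR : ∀ u ∈ I, u ∉ R := fun u hu h => (Finset.mem_sdiff.1 h).2 hu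
  have hR1I : ∀ u ∈ R1, u ∉ I := fun u hu h => hIR u h (hR1 hu)
  obtain ⟨m1, c1⟩ := Model.ofFn (G := G) (I ∪ R1)
    (fun u => if u ∈ I then ({u} : Finset U) else {u, g u}) (F := Q) (by
      intro u hu
      by_cases hI : u ∈ I
      · rw [if_pos hI]
        simpa using hIQ hI
      · rw [if_neg hI]
        have hu1 : u ∈ R1 := (Finset.mem_union.1 hu).resolve_left hI
        intro x hx
        rcases Finset.mem_insert.1 hx with rfl | hx
        · exact hRQ (hR1 hu1)
        · rw [Finset.mem_singleton] at hx
          rw [hx]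
          exact hRQ (hR2R (hg u hu1).1)) (by
      intro u hu
      by_cases hI : u ∈ I
      · rw [if_pos hI]
        exact conn_single u
      · rw [if_neg hI]
        have hu1 : u ∈ R1 := (Finset.mem_union.1 hu).resolve_left hI
        exact conn_pair (hg u hu1).2.1) (by
      intro u hu w hw huw
      by_cases hI : u ∈ I
      · rw [if_pos hI]
        by_cases hI' : w ∈ I
        · rw [if_pos hI']
          simpa using huw
        · rw [if_neg hI']
          have hw1 : w ∈ R1 := (Finset.mem_union.1 hw).resolve_left hI'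
          rw [Finset.disjoint_singleton_left, Finset.mem_insert, Finset.mem_singleton]
          rintro (h | h)
          · exact huw h
          · exact hIR u hI (h ▸ hR2R (hg w hw1).1)
      · rw [if_neg hI]
        have hu1 : u ∈ R1 := (Finset.mem_union.1 hu).resolve_left hI
        by_cases hI' : w ∈ I
        · rw [if_pos hI', Finset.disjoint_singleton_right, Finset.mem_insert, Finset.mem_singleton]
          rintro (h | h)
          · exact huw h.symm
          · exact hIR w hI' (h ▸ hR2R (hg u hu1).1)
        · rw [if_neg hI']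
          have hw1 : w ∈ R1 := (Finset.mem_union.1 hw).resolve_left hI'
          rw [Finset.disjoint_left]
          intro x hx hx'
          simp only [Finset.mem_insert, Finset.mem_singleton] at hx hx'
          rcases hx with hx | hx <;> rcases hx' with hx' | hx'
          · exact huw (hx.symm.trans hx')
          · exact Finset.disjoint_left.1 hR12 hu1 (by rw [← hx, hx']; exact (hg w hw1).1)
          · exact Finset.disjoint_left.1 hR12 hw1 (by rw [← hx', hx]; exact (hg u hu1).1)
          · exact huw (hginj u hu1 w hw1 (hx.symm.trans hx'))) (by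
      intro u hu w hw huw
      by_cases hI' : w ∈ I
      · rw [if_pos hI']
        by_cases hI : u ∈ I
        · rw [if_pos hI]
          exact ⟨u, by simp, w, by simp, hIcl u hI w hI' huw⟩
        · rw [if_neg hI]
          have hu1 : u ∈ R1 := (Finset.mem_union.1 hu).resolve_left hI
          have hwg : w ≠ g u := by
            intro h
            exact hIR w hI' (h ▸ hR2R (hg u hu1).1)
          rcases (hg u hu1).2.2 w (hIQ hI') huw.symm hwg with h | h
          · exact ⟨u, by simp, w, by simp, h.symm⟩
          · exact ⟨g u, by simp, w, by simp, h.symm⟩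
      · rw [if_neg hI']
        have hw1 : w ∈ R1 := (Finset.mem_union.1 hw).resolve_left hI'
        have huQ : u ∈ Q := by
          rcases Finset.mem_union.1 hu with h | h
          · exact hIQ h
          · exact hRQ (hR1 h)
        have hug : u ≠ g w := by
          intro h
          have h2 := (hg w hw1).1
          rw [← h] at h2
          rcases Finset.mem_union.1 hu with h3 | h3
          · exact hIR u h3 (hR2R h2)
          · exact Finset.disjoint_left.1 hR12 h3 h2
        have huB : u ∈ (if u ∈ I then ({u} : Finset U) else {u, g u}) := by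
          split_ifs <;> simp
        rcases (hg w hw1).2.2 u huQ huw hug with h | h
        · exact ⟨u, huB, w, by simp, h⟩
        · exact ⟨u, huB, g w, by simp, h⟩)
  refine ⟨_, m1, hcov.mono ?_⟩
  rw [c1, Finset.card_union_of_disjoint (Finset.disjoint_left.2 fun u hu h => hIR u hu (hR1 h)),
    hQc, hR1c]
  omega

end Pool.Agent.N425.KR
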