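import Pool.Agent.N425.KR2

set_option autoImplicit false
set_option linter.unusedSectionVars false

open Classical

noncomputable section

namespace Pool.Agent.N425.KR

variable {U P : Type} [Fintype U] {G : SimpleGraph U} {s : U → Finset P} {r q : ℕ}

/-- the hypotheses on the graph -/
structure Sys (G : SimpleGraph U) (s : U → Finset P) (r q : ℕ) : Prop where
  card_le : ∀ u, (s u).card ≤ r
  adj : ∀ u w, G.Adj u w ↔ u ≠ w ∧ Disjoint (s u) (s w)
  few : ∀ x u, x ∉ s u →
    (Finset.univ.filter fun w => x ∈ s w ∧ ¬ Disjoint (s u) (s w)).card ≤ q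

/-- members of `F` containing `x` -/
def star (s : U → Finset P) (x : P) (F : Finset U) : Finset U := F.filter fun w => x ∈ s w

/-- members of `F` not containing `x` -/
def rest (s : U → Finset P) (x : P) (F : Finset U) : Finset U := F.filter fun w => x ∉ s w

/-- vertices of `F` with a non-neighbour in `F` -/
def Qp (G : SimpleGraph U) (F : Finset U) : Finset U :=
  F.filter fun u => ∃ w ∈ F, w ≠ u ∧ ¬ G.Adj u w

/-- vertices of `F` adjacent to all others of `F` -/
def Jp (G : SimpleGraph U) (F : Finset U) : Finset U :=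
  F.filter fun u => ¬ ∃ w ∈ F, w ≠ u ∧ ¬ G.Adj u w

def N1 (D : ℕ) : ℕ := (D + 1) * (4 * (D * D + D) + 3)

lemma mem_star {x : P} {F : Finset U} {u : U} : u ∈ star s x F ↔ u ∈ F ∧ x ∈ s u :=
  Finset.mem_filter

lemma mem_rest {x : P} {F : Finset U} {u : U} : u ∈ rest s x F ↔ u ∈ F ∧ x ∉ s u :=
  Finset.mem_filter

lemma rest_union_star (x : P) (F : Finset U) : rest s x F ∪ star s x F = F := by
  ext u
  rw [Finset.mem_union, mem_rest, mem_star]
  constructor
  · rintro (h | h) <;> exact h.1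
  · intro h
    by_cases hx : x ∈ s u
    · exact Or.inr ⟨h, hx⟩
    · exact Or.inl ⟨h, hx⟩

lemma disj_rest_star (x : P) (F : Finset U) : Disjoint (rest s x F) (star s x F) := by
  rw [Finset.disjoint_left]
  intro u hu hu'
  exact (mem_rest.1 hu).2 (mem_star.1 hu').2

lemma Sys.indep (h : Sys G s r q) {x : P} {T : Finset U} (hT : ∀ t ∈ T, x ∈ s t) :
    ∀ t ∈ T, ∀ t' ∈ T, ¬ G.Adj t t' := by
  intro t ht t' ht' hadj
  exact Finset.disjoint_left.1 ((h.adj t t').1 hadj).2 (hT t ht) (hT t' ht')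

lemma Sys.few' (h : Sys G s r q) {x : P} {T : Finset U} (hT : ∀ t ∈ T, x ∈ s t) {f : U}
    (hf : x ∉ s f) : (T.filter fun t => ¬ G.Adj f t).card ≤ q := by
  refine le_trans (Finset.card_le_card ?_) (h.few x f hf)
  intro t ht
  rw [Finset.mem_filter] at ht
  refine Finset.mem_filter.2 ⟨Finset.mem_univ _, hT t ht.1, fun hd => ht.2 ?_⟩
  exact (h.adj f t).2 ⟨fun heq => hf (heq ▸ hT t ht.1), hd⟩

lemma Qp_Jp (F : Finset U) : Qp G F ∪ Jp G F = F := by
  ext u
  rw [Finset.mem_union, Qp, Jp, Finset.mem_filter, Finset.mem_filter]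
  by_cases h : ∃ w ∈ F, w ≠ u ∧ ¬ G.Adj u w
  · exact ⟨fun h' => h'.elim (fun h1 => h1.1) (fun h1 => h1.1), fun h' => Or.inl ⟨h', h⟩⟩
  · exact ⟨fun h' => h'.elim (fun h1 => h1.1) (fun h1 => h1.1), fun h' => Or.inr ⟨h', h⟩⟩

lemma disj_Qp_Jp (F : Finset U) : Disjoint (Qp G F) (Jp G F) := by
  rw [Finset.disjoint_left]
  intro u hu hu'
  exact (Finset.mem_filter.1 hu').2 (Finset.mem_filter.1 hu).2

lemma Jp_adj {F : Finset U} {a b : U} (ha : a ∈ Jp G F) (hb : b ∈ F) (hab : a ≠ b) :
    G.Adj a b := by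
  by_contra hcon
  exact (Finset.mem_filter.1 ha).2 ⟨b, hb, hab.symm, hcon⟩

lemma Jp_sub (F : Finset U) : Jp G F ⊆ F := Finset.filter_subset _ _

lemma Qp_sub (F : Finset U) : Qp G F ⊆ F := Finset.filter_subset _ _

lemma Jp_cl (F : Finset U) : Cl G (Jp G F) := fun _ ha _ hb hab => Jp_adj ha (Jp_sub F hb) hab

lemma had_of_Qp {F : Finset U} (h : Had G (Qp G F)) : Had G F := by
  have := h.univ (disj_Qp_Jp F) (Jp_cl F) (fun a ha b hb => by
    apply Jp_adj ha (Qp_sub F hb)
    rintro rfl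
    exact Finset.disjoint_left.1 (disj_Qp_Jp F) hb ha)
  rwa [Qp_Jp] at this

lemma had_clique {F : Finset U} (h : Cl G F) : Had G F := by
  obtain ⟨h1, h2⟩ := Model.clique h
  refine ⟨_, h1, ?_⟩
  rw [h2]
  exact Cov.triv F

lemma cl_of_Qp {F : Finset U} (h : Qp G F = ∅) : Cl G F := by
  intro a ha b hb hab
  by_contra hcon
  have : a ∈ Qp G F := Finset.mem_filter.2 ⟨ha, b, hb, hab.symm, hcon⟩
  rw [h] at this
  simp at this

lemma bounded (h : Sys G s r q) {F : Finset U} {C : ℕ} (hC : ∀ x, (star s x F).card ≤ C) :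
    Had G F ∨ (Qp G F).card < N1 (r * C) := by
  by_cases hN : N1 (r * C) ≤ (Qp G F).card
  · left
    apply had_of_Qp
    apply near (D := r * C) _ _ hN
    · intro u hu
      obtain ⟨huF, w, hw, hwu, hn⟩ := Finset.mem_filter.1 hu
      exact ⟨w, Finset.mem_filter.2 ⟨hw, u, huF, hwu.symm, fun h' => hn h'.symm⟩, hwu, hn⟩
    · intro u hu
      have hsub : ((Qp G F).filter fun w => w ≠ u ∧ ¬ G.Adj u w) ⊆
          (s u).biUnion fun x => star s x F := by
        intro w hw
        obtain ⟨hwQ, hwu, hn⟩ := Finset.mem_filter.1 hw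
        have h1 : ¬ Disjoint (s u) (s w) := fun hd => hn ((h.adj u w).2 ⟨hwu.symm, hd⟩)
        rw [Finset.not_disjoint_iff] at h1
        obtain ⟨x, hx, hx'⟩ := h1
        exact Finset.mem_biUnion.2 ⟨x, hx, mem_star.2 ⟨Qp_sub F hwQ, hx'⟩⟩
      refine (Finset.card_le_card hsub).trans
        ((Finset.card_biUnion_le_card_mul _ _ C (fun x _ => hC x)).trans ?_)
      exact Nat.mul_le_mul_right C (h.card_le u)
  · right
    omega

/-- successive removal of stars with at least `c` members -/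
inductive Peel (s : U → Finset P) (c : ℕ) : Finset U → ℕ → Finset U → Prop
  | refl (F : Finset U) : Peel s c F 0 F
  | step {F : Finset U} {m : ℕ} {E : Finset U} (x : P) (hc : c ≤ (star s x F).card)
      (h : Peel s c (rest s x F) m E) : Peel s c F (m + 1) E

lemma peel_exists (c : ℕ) (hc : 1 ≤ c) (n : ℕ) : ∀ F : Finset U, F.card = n →
    ∃ m E, Peel s c F m E ∧ ∀ x, (star s x E).card ≤ c := by
  induction n using Nat.strong_induction_on with
  | _ n ih =>
  intro F hF
  by_cases h : ∀ x, (star s x F).card ≤ c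
  · exact ⟨0, F, Peel.refl F, h⟩
  · push Not at h
    obtain ⟨x, hx⟩ := h
    have hlt : (rest s x F).card < n := by
      have h1 := Finset.card_union_of_disjoint (disj_rest_star (s := s) x F)
      rw [rest_union_star] at h1
      omega
    obtain ⟨m, E, h1, h2⟩ := ih _ hlt (rest s x F) rfl
    exact ⟨m + 1, E, Peel.step x hx.le h1, h2⟩

lemma Peel.sub {c : ℕ} {F : Finset U} {m : ℕ} {E : Finset U} (h : Peel s c F m E) : E ⊆ F := by
  induction h with
  | refl F => exact Finset.Subset.refl _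
  | step x hc h ih => exact ih.trans (Finset.filter_subset _ _)

lemma Peel.had (hS : Sys G s r q) {F : Finset U} {m : ℕ} {E : Finset U}
    (h : Peel s (4 * q + 2) F m E) (hE : Had G E) : Had G F := by
  induction h with
  | refl F => exact hE
  | step x hc h ih =>
    rename_i F' _ _
    have := Pool.Agent.N425.KR.step (G := G) (q := q) (hS.indep (x := x) (T := star s x F') fun t ht => (mem_star.1 ht).2)
      (disj_rest_star x F')
      (fun f hf => hS.few' (fun t ht => (mem_star.1 ht).2) (mem_rest.1 hf).2) hc (ih hE)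
    rwa [rest_union_star] at this

lemma Peel.cov (hS : Sys G s r q) {c : ℕ} {F : Finset U} {m : ℕ} {E : Finset U} {k : ℕ}
    (h : Peel s c F m E) (hE : Cov G E k) : Cov G F (k + m) := by
  induction h with
  | refl F => exact hE
  | step x hc h ih =>
    rename_i F' _ _
    have := (ih hE).union (Cov.ind (hS.indep (x := x) (T := star s x F') fun t ht =>
      (mem_star.1 ht).2))
    rwa [rest_union_star] at this

lemma Peel.model (hS : Sys G s r q) {F : Finset U} {m : ℕ} {E : Finset U}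
    (h : Peel s (4 * q + 2) F m E) {J : Finset U} (hJE : J ⊆ E) (hJ : Cl G J) :
    ∃ 𝓑, Model G (F \ (E \ J)) 𝓑 ∧ J.card + m ≤ 𝓑.card + 1 ∧ J.card ≤ 𝓑.card ∧
      (1 ≤ m → ∃ a ∈ F \ (E \ J), ∃ b ∈ F \ (E \ J), a ≠ b ∧ ¬ G.Adj a b) := by
  induction h with
  | refl F =>
    obtain ⟨h1, h2⟩ := Model.clique hJ
    refine ⟨_, h1.le ?_, by omega, by omega, fun h => absurd h (by omega)⟩
    intro x hx
    rw [Finset.mem_sdiff, Finset.mem_sdiff]
    exact ⟨hJE hx, fun h => h.2 hx⟩
  | step x hc h ih =>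
    rename_i F' m' E'
    obtain ⟨𝓑, hM, hc1, hc2, hnc⟩ := ih hJE
    have hEr := h.sub
    have hTi := hS.indep (x := x) (T := star s x F') fun t ht => (mem_star.1 ht).2
    have hset : rest s x F' \ (E' \ J) ∪ star s x F' = F' \ (E' \ J) := by
      ext u
      simp only [Finset.mem_union, Finset.mem_sdiff]
      constructor
      · rintro (h1 | h1)
        · exact ⟨(mem_rest.1 h1.1).1, h1.2⟩
        · refine ⟨(mem_star.1 h1).1, fun h2 => ?_⟩
          exact (mem_rest.1 (hEr h2.1)).2 (mem_star.1 h1).2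
      · intro h1
        by_cases hx : x ∈ s u
        · exact Or.inr (mem_star.2 ⟨h1.1, hx⟩)
        · exact Or.inl ⟨mem_rest.2 ⟨h1.1, hx⟩, h1.2⟩
    have hpair : ∃ a ∈ F' \ (E' \ J), ∃ b ∈ F' \ (E' \ J), a ≠ b ∧ ¬ G.Adj a b := by
      obtain ⟨a, ha, b, hb, hab⟩ := Finset.one_lt_card.1 (show 1 < (star s x F').card by omega)
      have hsub : ∀ y ∈ star s x F', y ∈ F' \ (E' \ J) := by
        intro y hy
        rw [← hset]
        exact Finset.mem_union_right _ hy
      exact ⟨a, hsub a ha, b, hsub b hb, hab, hTi a ha b hb⟩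
    by_cases hm : 1 ≤ m'
    · obtain ⟨a, ha, b, hb, hab, hnab⟩ := hnc hm
      obtain ⟨𝓒, hM', hc'⟩ := gain (G := G) (q := q) (T := star s x F')
        (Finset.disjoint_of_subset_left Finset.sdiff_subset (disj_rest_star x F'))
        (fun f hf => hS.few' (fun t ht => (mem_star.1 ht).2)
          (mem_rest.1 (Finset.mem_sdiff.1 hf).1).2) hc ha hb hab hnab hM
      rw [hset] at hM'
      exact ⟨𝓒, hM', by omega, by omega, fun _ => hpair⟩
    · refine ⟨𝓑, hM.le ?_, by omega, hc2, fun _ => hpair⟩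
      rw [← hset]
      exact Finset.subset_union_left

lemma blocks (b : ℕ) (Q : Finset U) : ∀ T : Finset U, b * Q.card ≤ T.card →
    ∃ Y : U → Finset U, (∀ f ∈ Q, Y f ⊆ T ∧ (Y f).card = b) ∧
      ∀ f ∈ Q, ∀ f' ∈ Q, f ≠ f' → Disjoint (Y f) (Y f') := by
  induction Q using Finset.induction_on with
  | empty => intro T _; exact ⟨fun _ => ∅, by simp, by simp⟩
  | insert a Q ha ih =>
    intro T hT
    rw [Finset.card_insert_of_notMem ha, Nat.mul_add, Nat.mul_one] at hT
    obtain ⟨Z, hZT, hZc⟩ := Finset.exists_subset_card_eq (s := T) (n := b) (by omega)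
    obtain ⟨Y, hY1, hY2⟩ := ih (T \ Z) (by
      rw [Finset.card_sdiff_of_subset hZT]; omega)
    have hne : ∀ f ∈ Q, f ≠ a := fun f hf h => ha (h ▸ hf)
    refine ⟨fun f => if f = a then Z else Y f, ?_, ?_⟩
    · intro f hf
      dsimp only
      rcases Finset.mem_insert.1 hf with rfl | hf
      · rw [if_pos rfl]
        exact ⟨hZT, hZc⟩
      · rw [if_neg (hne f hf)]
        exact ⟨(hY1 f hf).1.trans Finset.sdiff_subset, (hY1 f hf).2⟩
    · intro f hf f' hf' hff
      dsimp only
      rcases Finset.mem_insert.1 hf with h1 | hf <;> rcases Finset.mem_insert.1 hf' with h2 | hf'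
      · exact absurd (h1.trans h2.symm) hff
      · rw [if_pos h1, if_neg (hne f' hf')]
        exact Finset.disjoint_of_subset_right (hY1 f' hf').1 Finset.disjoint_sdiff
      · rw [if_neg (hne f hf), if_pos h2]
        exact Finset.disjoint_of_subset_left (hY1 f hf).1 Finset.sdiff_disjoint
      · rw [if_neg (hne f hf), if_neg (hne f' hf')]
        exact hY2 f hf f' hf' hff

lemma cov_pred {Q : Finset U} {a b : U} (ha : a ∈ Q) (hb : b ∈ Q) (hab : a ≠ b)
    (hn : ¬ G.Adj a b) : Cov G Q (Q.card - 1) := by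
  have h1 : ((Q.erase a).erase b).card = Q.card - 1 - 1 := by
    rw [Finset.card_erase_of_mem (Finset.mem_erase.2 ⟨hab.symm, hb⟩),
      Finset.card_erase_of_mem ha]
  have h2 : 2 ≤ Q.card := by
    have h3 := Finset.one_lt_card.2 ⟨a, ha, b, hb, hab⟩
    omega
  have h4 : Cov G ({a, b} : Finset U) 1 := by
    apply Cov.ind
    intro t ht t' ht'
    simp only [Finset.mem_insert, Finset.mem_singleton] at ht ht'
    rcases ht with rfl | rfl <;> rcases ht' with rfl | rfl
    · exact G.irrefl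
    · exact hn
    · exact fun h => hn h.symm
    · exact G.irrefl
  have h5 := ((Cov.triv (G := G) ((Q.erase a).erase b)).union h4).le (E := Q) (by
    intro x hx
    by_cases hxa : x = a
    · rw [hxa]; simp
    · by_cases hxb : x = b
      · rw [hxb]; simp
      · exact Finset.mem_union_left _ (by
          rw [Finset.mem_erase, Finset.mem_erase]; exact ⟨hxb, hxa, hx⟩))
  apply h5.mono
  rw [h1]
  omega

/-- colouring of `F` from `Qp F` and `Jp F` -/
lemma cov_QJ {F : Finset U} (hQ : (Qp G F).Nonempty) :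
    Cov G F ((Qp G F).card - 1 + (Jp G F).card) := by
  obtain ⟨a, ha⟩ := hQ
  obtain ⟨haF, b, hb, hba, hn⟩ := Finset.mem_filter.1 ha
  have hbQ : b ∈ Qp G F := Finset.mem_filter.2 ⟨hb, a, haF, hba.symm, fun h => hn h.symm⟩
  have := (cov_pred ha hbQ hba.symm hn).union (Cov.triv (G := G) (Jp G F))
  rwa [Qp_Jp] at this

end Pool.Agent.N425.KR
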