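import Pool.Agent.N425.KR3

set_option autoImplicit false
set_option linter.unusedSectionVars false

open Classical

noncomputable section

namespace Pool.Agent.N425.KR

variable {U P : Type} [Fintype U] {G : SimpleGraph U} {s : U → Finset P} {r q : ℕ}

lemma Model.union2 {F : Finset U} {𝓑 𝓒 : Finset (Finset U)}
    (h : Model G F 𝓑) (h' : Model G F 𝓒) (hd : ∀ B ∈ 𝓑, ∀ C ∈ 𝓒, Disjoint B C)
    (ht : ∀ B ∈ 𝓑, ∀ C ∈ 𝓒, Touch G B C) :
    Model G F (𝓑 ∪ 𝓒) ∧ (𝓑 ∪ 𝓒).card = 𝓑.card + 𝓒.card := by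
  refine ⟨⟨?_, ?_, ?_, ?_⟩, ?_⟩
  · intro B hB
    rcases Finset.mem_union.1 hB with hB | hB
    · exact h.sub B hB
    · exact h'.sub B hB
  · intro B hB
    rcases Finset.mem_union.1 hB with hB | hB
    · exact h.conn B hB
    · exact h'.conn B hB
  · intro B hB C hC hne
    rcases Finset.mem_union.1 hB with hB | hB <;> rcases Finset.mem_union.1 hC with hC | hC
    · exact h.disj B hB C hC hne
    · exact hd B hB C hC
    · exact (hd C hC B hB).symm
    · exact h'.disj B hB C hC hne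
  · intro B hB C hC hne
    rcases Finset.mem_union.1 hB with hB | hB <;> rcases Finset.mem_union.1 hC with hC | hC
    · exact h.touch B hB C hC hne
    · exact ht B hB C hC
    · exact (ht C hC B hB).symm
    · exact h'.touch B hB C hC hne
  · apply Finset.card_union_of_disjoint
    rw [Finset.disjoint_left]
    intro B hB hB'
    have := hd B hB B hB'
    rw [disjoint_self] at this
    exact (h.conn B hB).1.ne_empty this

/-- one huge star and few other vertices with non-neighbours -/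
lemma one_star (hS : Sys G s r q) {F : Finset U} (x : P) (hQ : (Qp G (rest s x F)).Nonempty)
    (hT : (2 * q + 1) * (Qp G (rest s x F)).card ≤ (star s x F).card) : Had G F := by
  obtain ⟨Y, hY1, hY2⟩ := blocks (2 * q + 1) (Qp G (rest s x F)) (star s x F) hT
  have hTx : ∀ t ∈ star s x F, x ∈ s t := fun t ht => (mem_star.1 ht).2
  have hQx : ∀ f ∈ Qp G (rest s x F), x ∉ s f := fun f hf => (mem_rest.1 (Qp_sub _ hf)).2
  have hQF : ∀ f ∈ Qp G (rest s x F), f ∈ F := fun f hf => (mem_rest.1 (Qp_sub _ hf)).1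
  have hJF : ∀ f ∈ Jp G (rest s x F), f ∈ F := fun f hf => (mem_rest.1 (Jp_sub _ hf)).1
  have hXT : ∀ f ∈ Qp G (rest s x F), (Y f).filter (fun t => G.Adj f t) ⊆ star s x F :=
    fun f hf => (Finset.filter_subset _ _).trans (hY1 f hf).1
  have hXc : ∀ f ∈ Qp G (rest s x F), q + 1 ≤ ((Y f).filter fun t => G.Adj f t).card := by
    intro f hf
    have h1 := nb_card (hS.few' (T := Y f) (fun t ht => hTx t ((hY1 f hf).1 ht)) (hQx f hf))
    rw [(hY1 f hf).2] at h1
    omega
  obtain ⟨m1, c1⟩ := Model.ofFn (G := G) (Qp G (rest s x F))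
    (fun f => insert f ((Y f).filter fun t => G.Adj f t)) (F := F) (by
      intro f hf
      exact Finset.insert_subset (hQF f hf) ((hXT f hf).trans (Finset.filter_subset _ _))) (by
      intro f hf
      exact conn_star f _ (fun t ht => (Finset.mem_filter.1 ht).2)) (by
      intro f hf f' hf' hne
      rw [Finset.disjoint_insert_left, Finset.disjoint_insert_right]
      refine ⟨?_, ?_, ?_⟩
      · intro h
        rcases Finset.mem_insert.1 h with h | h
        · exact hne h
        · exact hQx f hf (hTx f (hXT f' hf' h))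
      · intro h
        exact hQx f' hf' (hTx f' (hXT f hf h))
      · exact Finset.disjoint_of_subset_left (Finset.filter_subset _ _)
          (Finset.disjoint_of_subset_right (Finset.filter_subset _ _) (hY2 f hf f' hf' hne))) (by
      intro f hf f' hf' hne
      obtain ⟨t, ht, hadj⟩ := dom (hXT f hf) (hS.few' hTx (hQx f' hf')) (hXc f hf)
      exact ⟨t, Finset.mem_insert_of_mem ht, f', by simp, hadj.symm⟩)
  obtain ⟨m2, c2⟩ := Model.clique (Jp_cl (G := G) (rest s x F))
  obtain ⟨m3, c3⟩ := m1.union2 (m2.le (fun f hf => hJF f hf)) (by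
      intro B hB C hC
      obtain ⟨f, hf, rfl⟩ := Finset.mem_image.1 hB
      obtain ⟨j, hj, rfl⟩ := Finset.mem_image.1 hC
      rw [Finset.disjoint_singleton_right]
      intro h
      rcases Finset.mem_insert.1 h with h | h
      · rw [h] at hj
        exact Finset.disjoint_left.1 (disj_Qp_Jp _) hf hj
      · exact (mem_rest.1 (Jp_sub _ hj)).2 (hTx j (hXT f hf h))) (by
      intro B hB C hC
      obtain ⟨f, hf, rfl⟩ := Finset.mem_image.1 hB
      obtain ⟨j, hj, rfl⟩ := Finset.mem_image.1 hC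
      refine ⟨f, by simp, j, by simp, (Jp_adj hj (Qp_sub _ hf) ?_).symm⟩
      rintro rfl
      exact Finset.disjoint_left.1 (disj_Qp_Jp _) hf hj)
  refine ⟨_, m3, ?_⟩
  have h1 := (cov_QJ hQ).union (Cov.ind (hS.indep (x := x) (T := star s x F) hTx))
  rw [rest_union_star] at h1
  apply h1.mono
  rw [c3, c1, c2]
  have := Finset.card_pos.2 hQ
  omega

/-- two huge stars -/
lemma two_star (hS : Sys G s r q) {F : Finset U} (x1 x2 : P) {m : ℕ} {E : Finset U}
    (hP : Peel s (4 * q + 2) (rest s x2 (rest s x1 F)) m E) (hQ : (Qp G E).Nonempty)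
    (hT1 : (2 * q + 1) * (Qp G E).card + q + (4 * q + 2) ≤ (star s x1 F).card)
    (hT2 : (2 * q + 1) * (Qp G E).card + q + (4 * q + 2) ≤ (star s x2 (rest s x1 F)).card) :
    Had G F := by
  set T1 := star s x1 F with hT1d
  set T2 := star s x2 (rest s x1 F) with hT2d
  set F2 := rest s x2 (rest s x1 F) with hF2d
  set Q := Qp G E with hQd
  set J := Jp G E with hJd
  have hEF2 : E ⊆ F2 := hP.sub
  have hQE : Q ⊆ E := Qp_sub E
  have hJE : J ⊆ E := Jp_sub E
  have hT1x : ∀ t ∈ T1, x1 ∈ s t := fun t ht => (mem_star.1 ht).2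
  have hT2x : ∀ t ∈ T2, x2 ∈ s t := fun t ht => (mem_star.1 ht).2
  have hT2x1 : ∀ t ∈ T2, x1 ∉ s t := fun t ht => (mem_rest.1 (mem_star.1 ht).1).2
  have hF2x2 : ∀ t ∈ F2, x2 ∉ s t := fun t ht => (mem_rest.1 ht).2
  have hF2x1 : ∀ t ∈ F2, x1 ∉ s t := fun t ht => (mem_rest.1 (mem_rest.1 ht).1).2
  have hT1F : T1 ⊆ F := Finset.filter_subset _ _
  have hT2F : T2 ⊆ F := (Finset.filter_subset _ _).trans (Finset.filter_subset _ _)
  have hF2F : F2 ⊆ F := (Finset.filter_subset _ _).trans (Finset.filter_subset _ _)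
  obtain ⟨Y1, hY1, hY1'⟩ := blocks (2 * q + 1) Q T1 (by omega)
  obtain ⟨Y2, hY2, hY2'⟩ := blocks (2 * q + 1) Q T2 (by omega)
  set S1 := (T1 \ Q.biUnion Y1).filter fun t => x2 ∉ s t with hS1d
  set S2 := T2 \ Q.biUnion Y2 with hS2d
  have hbi1 : (Q.biUnion Y1).card ≤ Q.card * (2 * q + 1) :=
    Finset.card_biUnion_le_card_mul _ _ _ (fun f hf => (hY1 f hf).2.le)
  have hbi2 : (Q.biUnion Y2).card ≤ Q.card * (2 * q + 1) :=
    Finset.card_biUnion_le_card_mul _ _ _ (fun f hf => (hY2 f hf).2.le)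
  rw [mul_comm] at hbi1 hbi2
  have hS2c : 4 * q + 2 ≤ S2.card := by
    have := Finset.le_card_sdiff (Q.biUnion Y2) T2
    rw [← hS2d] at this
    omega
  have hS1c : 4 * q + 2 ≤ S1.card := by
    have h1 := Finset.le_card_sdiff (Q.biUnion Y1) T1
    have h2 : ((T1 \ Q.biUnion Y1).filter fun t => ¬ x2 ∉ s t).card ≤ q := by
      obtain ⟨g, hg⟩ : T2.Nonempty := Finset.card_pos.1 (by omega)
      refine le_trans (Finset.card_le_card ?_) (hS.few x1 g (hT2x1 g hg))
      intro t ht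
      rw [Finset.mem_filter, Finset.mem_sdiff, not_not] at ht
      refine Finset.mem_filter.2 ⟨Finset.mem_univ _, hT1x t ht.1.1, fun hd => ?_⟩
      exact Finset.disjoint_left.1 hd (hT2x g hg) ht.2
    have h3 := Finset.card_filter_add_card_filter_not (s := T1 \ Q.biUnion Y1)
      (fun t => x2 ∉ s t)
    rw [← hS1d] at h3
    omega
  have hS1T1 : S1 ⊆ T1 := (Finset.filter_subset _ _).trans Finset.sdiff_subset
  have hS2T2 : S2 ⊆ T2 := Finset.sdiff_subset
  have hS1x1 : ∀ t ∈ S1, x1 ∈ s t := fun t ht => hT1x t (hS1T1 ht)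
  have hS2x2 : ∀ t ∈ S2, x2 ∈ s t := fun t ht => hT2x t (hS2T2 ht)
  have hS1x2 : ∀ t ∈ S1, x2 ∉ s t := fun t ht => (Finset.mem_filter.1 ht).2
  -- the model on the rest
  obtain ⟨𝓑, hM, hc1, hc2, hnc⟩ := hP.model hS hJE (Jp_cl (G := G) E)
  have hZF2 : F2 \ (E \ J) ⊆ F2 := Finset.sdiff_subset
  have hd2 : Disjoint (F2 \ (E \ J)) S2 := by
    rw [Finset.disjoint_left]
    intro z hz hz'
    exact hF2x2 z (hZF2 hz) (hS2x2 z hz')
  have hd1 : Disjoint (F2 \ (E \ J) ∪ S2) S1 := by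
    rw [Finset.disjoint_left]
    intro z hz hz'
    rcases Finset.mem_union.1 hz with hz | hz
    · exact hF2x1 z (hZF2 hz) (hS1x1 z hz')
    · exact hT2x1 z (hS2T2 hz) (hS1x1 z hz')
  have hx1 : ∀ f ∈ F2 \ (E \ J) ∪ S2, x1 ∉ s f := by
    intro z hz
    rcases Finset.mem_union.1 hz with hz | hz
    · exact hF2x1 z (hZF2 hz)
    · exact hT2x1 z (hS2T2 hz)
  have hstep2 : ∃ 𝓒, Model G (F2 \ (E \ J) ∪ S2) 𝓒 ∧ J.card + m ≤ 𝓒.card := by
    by_cases hm : 1 ≤ m
    · obtain ⟨a, ha, b, hb, hab, hnab⟩ := hnc hm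
      obtain ⟨𝓒, h1, h2⟩ := gain (G := G) (q := q) hd2
        (fun f hf => hS.few' hS2x2 (hF2x2 f (hZF2 hf))) hS2c ha hb hab hnab hM
      exact ⟨𝓒, h1, by omega⟩
    · exact ⟨𝓑, hM.le Finset.subset_union_left, by omega⟩
  obtain ⟨𝓒, hM2, hc3⟩ := hstep2
  obtain ⟨a, ha, b, hb, hab⟩ := Finset.one_lt_card.1 (show 1 < S2.card by omega)
  obtain ⟨𝓓, hM3, hc4⟩ := gain (G := G) (q := q) hd1
    (fun f hf => hS.few' hS1x1 (hx1 f hf)) hS1c (Finset.mem_union_right _ ha)
    (Finset.mem_union_right _ hb) hab (hS.indep hS2x2 a ha b hb) hM2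
  -- the branch sets with helpers
  have hQx1 : ∀ f ∈ Q, x1 ∉ s f := fun f hf => hF2x1 f (hEF2 (hQE hf))
  have hQx2 : ∀ f ∈ Q, x2 ∉ s f := fun f hf => hF2x2 f (hEF2 (hQE hf))
  have hX1T : ∀ f ∈ Q, (Y1 f).filter (fun t => G.Adj f t) ⊆ T1 :=
    fun f hf => (Finset.filter_subset _ _).trans (hY1 f hf).1
  have hX2T : ∀ f ∈ Q, (Y2 f).filter (fun t => G.Adj f t) ⊆ T2 :=
    fun f hf => (Finset.filter_subset _ _).trans (hY2 f hf).1
  have hX1c : ∀ f ∈ Q, q + 1 ≤ ((Y1 f).filter fun t => G.Adj f t).card := by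
    intro f hf
    have h1 := nb_card (hS.few' (T := Y1 f) (fun t ht => hT1x t ((hY1 f hf).1 ht)) (hQx1 f hf))
    rw [(hY1 f hf).2] at h1
    omega
  have hX2c : ∀ f ∈ Q, q + 1 ≤ ((Y2 f).filter fun t => G.Adj f t).card := by
    intro f hf
    have h1 := nb_card (hS.few' (T := Y2 f) (fun t ht => hT2x t ((hY2 f hf).1 ht)) (hQx2 f hf))
    rw [(hY2 f hf).2] at h1
    omega
  obtain ⟨m1, c1⟩ := Model.ofFn (G := G) Q
    (fun f => insert f ((Y1 f).filter (fun t => G.Adj f t) ∪ (Y2 f).filter fun t => G.Adj f t))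
    (F := F) (by
      intro f hf
      refine Finset.insert_subset (hF2F (hEF2 (hQE hf))) (Finset.union_subset ?_ ?_)
      · exact (hX1T f hf).trans hT1F
      · exact (hX2T f hf).trans hT2F) (by
      intro f hf
      apply conn_star f
      intro t ht
      rcases Finset.mem_union.1 ht with ht | ht
      · exact (Finset.mem_filter.1 ht).2
      · exact (Finset.mem_filter.1 ht).2) (by
      intro f hf f' hf' hne
      rw [Finset.disjoint_left]
      intro z hz hz'
      simp only [Finset.mem_insert, Finset.mem_union] at hz hz'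
      rcases hz with hz | hz | hz <;> rcases hz' with hz' | hz' | hz'
      · exact hne (hz.symm.trans hz')
      · exact hQx1 f hf (hz ▸ hT1x z (hX1T f' hf' hz'))
      · exact hQx2 f hf (hz ▸ hT2x z (hX2T f' hf' hz'))
      · exact hQx1 f' hf' (hz' ▸ hT1x z (hX1T f hf hz))
      · exact Finset.disjoint_left.1 (hY1' f hf f' hf' hne) (Finset.mem_filter.1 hz).1
          (Finset.mem_filter.1 hz').1
      · exact hT2x1 z (hX2T f' hf' hz') (hT1x z (hX1T f hf hz))
      · exact hQx2 f' hf' (hz' ▸ hT2x z (hX2T f hf hz))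
      · exact hT2x1 z (hX2T f hf hz) (hT1x z (hX1T f' hf' hz'))
      · exact Finset.disjoint_left.1 (hY2' f hf f' hf' hne) (Finset.mem_filter.1 hz).1
          (Finset.mem_filter.1 hz').1) (by
      intro f hf f' hf' hne
      obtain ⟨t, ht, hadj⟩ := dom (hX1T f hf) (hS.few' hT1x (hQx1 f' hf')) (hX1c f hf)
      exact ⟨t, Finset.mem_insert_of_mem (Finset.mem_union_left _ ht), f', by simp, hadj.symm⟩)
  have hZF : F2 \ (E \ J) ∪ S2 ∪ S1 ⊆ F :=
    Finset.union_subset (Finset.union_subset (hZF2.trans hF2F) (hS2T2.trans hT2F))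
      (hS1T1.trans hT1F)
  obtain ⟨m3, c3⟩ := (hM3.le hZF).union2 m1 (by
      intro B hB C hC
      obtain ⟨f, hf, rfl⟩ := Finset.mem_image.1 hC
      rw [Finset.disjoint_left]
      intro z hz hz'
      have hz := hM3.sub B hB hz
      simp only [Finset.mem_insert, Finset.mem_union] at hz hz'
      rcases hz' with hz' | hz' | hz'
      · rw [hz'] at hz
        rcases hz with (hz | hz) | hz
        · rw [Finset.mem_sdiff, Finset.mem_sdiff] at hz
          exact hz.2 ⟨hQE hf, fun hfJ => Finset.disjoint_left.1 (disj_Qp_Jp E) hf hfJ⟩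
        · exact hQx2 f hf (hS2x2 f hz)
        · exact hQx1 f hf (hS1x1 f hz)
      · have hz1 := hT1x z (hX1T f hf hz')
        rcases hz with (hz | hz) | hz
        · exact hF2x1 z (hZF2 hz) hz1
        · exact hT2x1 z (hS2T2 hz) hz1
        · have h1 := (Finset.mem_sdiff.1 (Finset.mem_filter.1 hz).1).2
          exact h1 (Finset.mem_biUnion.2 ⟨f, hf, (Finset.mem_filter.1 hz').1⟩)
      · have hz2 := hT2x z (hX2T f hf hz')
        rcases hz with (hz | hz) | hz
        · exact hF2x2 z (hZF2 hz) hz2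
        · exact (Finset.mem_sdiff.1 hz).2
            (Finset.mem_biUnion.2 ⟨f, hf, (Finset.mem_filter.1 hz').1⟩)
        · exact hS1x2 z hz hz2) (by
      intro B hB C hC
      obtain ⟨f, hf, rfl⟩ := Finset.mem_image.1 hC
      obtain ⟨z, hz⟩ := (hM3.conn B hB).1
      rcases Finset.mem_union.1 (hM3.sub B hB hz) with h1 | h1
      · obtain ⟨t, ht, hadj⟩ := dom (hX1T f hf) (hS.few' hT1x (hx1 z h1)) (hX1c f hf)
        exact ⟨z, hz, t, Finset.mem_insert_of_mem (Finset.mem_union_left _ ht), hadj⟩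
      · obtain ⟨t, ht, hadj⟩ := dom (hX2T f hf) (hS.few' hT2x (hS1x2 z h1)) (hX2c f hf)
        exact ⟨z, hz, t, Finset.mem_insert_of_mem (Finset.mem_union_right _ ht), hadj⟩)
  refine ⟨_, m3, ?_⟩
  have h1 := ((hP.cov hS (cov_QJ hQ)).union (Cov.ind (hS.indep hT2x))).union
    (Cov.ind (hS.indep hT1x))
  rw [hF2d, hT2d, rest_union_star, hT1d, rest_union_star] at h1
  apply h1.mono
  rw [c3, c1, hc4]
  have h2 := Finset.card_pos.2 hQ
  rw [← hQd, ← hJd]
  omega

/-- the bound -/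
def bd (r q : ℕ) : ℕ :=
  N1 (r * ((2 * q + 1) * N1 (r * ((2 * q + 1) * N1 (r * (4 * q + 2)) + q + (4 * q + 2))) +
    ((2 * q + 1) * N1 (r * (4 * q + 2)) + q + (4 * q + 2))))

theorem main (hS : Sys G s r q) (F : Finset U) (hF : bd r q ≤ (Qp G F).card) : Had G F := by
  set A0 := N1 (r * (4 * q + 2)) with hA0
  set C1 := (2 * q + 1) * A0 + q + (4 * q + 2) with hC1
  set A1 := N1 (r * C1) with hA1
  set C2 := (2 * q + 1) * A1 + C1 with hC2
  have hbd : bd r q = N1 (r * C2) := rfl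
  by_cases h1 : ∀ x, (star s x F).card ≤ C2
  · rcases bounded hS h1 with h2 | h2
    · exact h2
    · omega
  push Not at h1
  obtain ⟨x1, hx1⟩ := h1
  have hstep : Had G (rest s x1 F) → Had G F := by
    intro h2
    have := Pool.Agent.N425.KR.step (G := G) (q := q)
      (hS.indep (x := x1) (T := star s x1 F) fun t ht => (mem_star.1 ht).2)
      (disj_rest_star x1 F)
      (fun f hf => hS.few' (fun t ht => (mem_star.1 ht).2) (mem_rest.1 hf).2) (by omega) h2
    rwa [rest_union_star] at this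
  by_cases h2 : ∀ x, (star s x (rest s x1 F)).card ≤ C1
  · rcases bounded hS h2 with h3 | h3
    · exact hstep h3
    · rcases (Qp G (rest s x1 F)).eq_empty_or_nonempty with h4 | h4
      · exact hstep (had_clique (cl_of_Qp h4))
      · apply one_star hS x1 h4
        have h5 : (2 * q + 1) * (Qp G (rest s x1 F)).card ≤ (2 * q + 1) * A1 :=
          Nat.mul_le_mul_left _ h3.le
        omega
  push Not at h2
  obtain ⟨x2, hx2⟩ := h2
  have hstep2 : Had G (rest s x2 (rest s x1 F)) → Had G F := by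
    intro h3
    apply hstep
    have := Pool.Agent.N425.KR.step (G := G) (q := q)
      (hS.indep (x := x2) (T := star s x2 (rest s x1 F)) fun t ht => (mem_star.1 ht).2)
      (disj_rest_star x2 (rest s x1 F))
      (fun f hf => hS.few' (fun t ht => (mem_star.1 ht).2) (mem_rest.1 hf).2) (by omega) h3
    rwa [rest_union_star] at this
  obtain ⟨m, E, hP, hE⟩ := peel_exists (s := s) (4 * q + 2) (by omega) _
    (rest s x2 (rest s x1 F)) rfl
  rcases bounded hS hE with h3 | h3
  · exact hstep2 (hP.had hS h3)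
  rcases (Qp G E).eq_empty_or_nonempty with h4 | h4
  · exact hstep2 (hP.had hS (had_clique (cl_of_Qp h4)))
  · have h5 : (2 * q + 1) * (Qp G E).card ≤ (2 * q + 1) * A0 := Nat.mul_le_mul_left _ h3.le
    exact two_star hS x1 x2 hP h4 (by omega) (by omega)

end Pool.Agent.N425.KR
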