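import Pool.Agent.N425.KR1

set_option autoImplicit false
set_option linter.unusedSectionVars false

open Classical

namespace Pool.Agent.N425.KR

variable {U : Type} {G : SimpleGraph U}

lemma Conn.connected {B : Finset U} (h : Conn G B) :
    (G.induce {u | u ∈ B}).Connected := by
  obtain ⟨x0, hx0⟩ := h.1
  let f : ∀ e, e ∈ B → ↥{u | u ∈ B} := fun e he => ⟨e, he⟩
  set R : Finset U := B.filter (fun e => ∃ he : e ∈ B,
    (G.induce {u | u ∈ B}).Reachable (f x0 hx0) (f e he)) with hR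
  have hRC : R = B := by
    by_contra hne
    obtain ⟨e, he, g, hg, hd⟩ := h.2 R (Finset.filter_subset _ _)
      ⟨x0, Finset.mem_filter.2 ⟨hx0, hx0, SimpleGraph.Reachable.refl _⟩⟩ hne
    obtain ⟨heC, heC', hreach⟩ := Finset.mem_filter.1 he
    rw [Finset.mem_sdiff] at hg
    apply hg.2
    refine Finset.mem_filter.2 ⟨hg.1, hg.1, hreach.trans (SimpleGraph.Adj.reachable ?_)⟩
    rw [SimpleGraph.comap_adj]
    exact hd
  have hall : ∀ y : ↥{u | u ∈ B}, (G.induce {u | u ∈ B}).Reachable (f x0 hx0) y := by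
    rintro ⟨y, hy⟩
    have h1 : y ∈ R := by rw [hRC]; exact hy
    obtain ⟨-, he', hr⟩ := Finset.mem_filter.1 h1
    exact hr
  exact { preconnected := fun y z => (hall y).symm.trans (hall z), nonempty := ⟨f x0 hx0⟩ }

/-- a model gives a clique minor -/
lemma Model.minor {F : Finset U} {𝓑 : Finset (Finset U)} (hM : Model G F 𝓑) {m : ℕ}
    (hm : m ≤ 𝓑.card) : ∃ B : Fin m → Set U,
      (∀ i, (G.induce (B i)).Connected) ∧
      (∀ i j, i ≠ j → Disjoint (B i) (B j)) ∧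
      (∀ i j, i ≠ j → ∃ u ∈ B i, ∃ w ∈ B j, G.Adj u w) := by
  obtain ⟨𝓒, h𝓒, hc⟩ := Finset.exists_subset_card_eq (s := 𝓑) (n := m) hm
  have hM' := hM.mono h𝓒
  let φ : Fin m ≃ {B // B ∈ 𝓒} := (𝓒.equivFinOfCardEq hc).symm
  have hne : ∀ i j, i ≠ j → (φ i).1 ≠ (φ j).1 := fun i j hij h' =>
    hij (φ.injective (Subtype.ext h'))
  refine ⟨fun i => {u | u ∈ (φ i).1}, fun i => (hM'.conn _ (φ i).2).connected, ?_, ?_⟩
  · intro i j hij
    rw [Set.disjoint_left]
    intro u hu hu'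
    exact Finset.disjoint_left.1 (hM'.disj _ (φ i).2 _ (φ j).2 (hne i j hij)) hu hu'
  · intro i j hij
    obtain ⟨e, he, g, hg, hd⟩ := hM'.touch _ (φ i).2 _ (φ j).2 (hne i j hij)
    exact ⟨e, he, g, hg, hd⟩

lemma Cov.colorable [Fintype U] {k : ℕ} (h : Cov G Finset.univ k) : G.Colorable k := by
  obtain ⟨P, hP1, hP2, hP3⟩ := h
  have hc : ∀ u : U, ∃ C : {C // C ∈ P}, u ∈ C.1 := by
    intro u
    obtain ⟨C, hC, hu⟩ := hP3 u (Finset.mem_univ u)
    exact ⟨⟨C, hC⟩, hu⟩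
  choose c hc using hc
  have hcol : G.Colorable (Fintype.card {C // C ∈ P}) :=
    (SimpleGraph.Coloring.mk c (fun {u w} huw heq =>
      hP2 (c u).1 (c u).2 u (hc u) w (heq ▸ hc w) huw)).colorable
  rw [Fintype.card_coe] at hcol
  exact hcol.mono hP1

lemma Had.minor [Fintype U] (h : Had G Finset.univ) {k : ℕ} (hk : ¬ G.Colorable k) :
    ∃ B : Fin (k + 1) → Set U,
      (∀ i, (G.induce (B i)).Connected) ∧
      (∀ i j, i ≠ j → Disjoint (B i) (B j)) ∧
      (∀ i j, i ≠ j → ∃ u ∈ B i, ∃ w ∈ B j, G.Adj u w) := by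
  obtain ⟨𝓑, hM, hC⟩ := h
  apply hM.minor
  by_contra hlt
  exact hk (hC.colorable.mono (by omega))

end Pool.Agent.N425.KR
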