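import Pool.Agent.N425.KR3

set_option autoImplicit false
set_option linter.unusedSectionVars false

open Classical

noncomputable section

namespace Pool.Agent.N425.KS

open Pool.Agent.N425.KR

variable {P : Type}

/-- sunflower with kernel `K` -/
def Sun {κ : Type} (a : κ → Finset P) (K : Finset P) (T : Finset κ) : Prop :=
  (∀ i ∈ T, K ⊆ a i) ∧ ∀ i ∈ T, ∀ j ∈ T, i ≠ j → a i ∩ a j = K

lemma Sun.mono {κ : Type} {a : κ → Finset P} {K : Finset P} {S T : Finset κ} (h : Sun a K T)
    (hS : S ⊆ T) : Sun a K S :=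
  ⟨fun i hi => h.1 i (hS hi), fun i hi j hj => h.2 i (hS hi) j (hS hj)⟩

def Db (r : ℕ) (c : ℕ → ℕ) : ℕ → ℕ
  | 0 => 0
  | n + 1 => c (r - n) + r * c (r - n) * Db r c n

lemma sunflower {κ : Type} (a : κ → Finset P) (r : ℕ) (c : ℕ → ℕ) (n : ℕ) :
    ∀ (K0 : Finset P) (A : Finset κ), K0.card + n = r + 1 →
      (∀ i ∈ A, K0 ⊆ a i ∧ (a i).card ≤ r) → Db r c n < A.card →
      ∃ K, K0 ⊆ K ∧ ∃ T ⊆ A, Sun a K T ∧ T.card = c K.card := by
  induction n with
  | zero =>
    intro K0 A hK hA hc
    obtain ⟨i, hi⟩ := Finset.card_pos.1 (show 0 < A.card by omega)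
    have h1 := Finset.card_le_card (hA i hi).1
    have h2 := (hA i hi).2
    omega
  | succ n ih =>
    intro K0 A hK hA hc
    obtain ⟨T, hT, hTmax⟩ := Finset.exists_max_image (A.powerset.filter fun T => Sun a K0 T)
      (fun T => T.card) ⟨∅, Finset.mem_filter.2 ⟨by simp, by simp [Sun]⟩⟩
    rw [Finset.mem_filter, Finset.mem_powerset] at hT
    obtain ⟨hTA, hTs⟩ := hT
    have hK' : K0.card = r - n := by omega
    by_cases hTc : c K0.card ≤ T.card
    · obtain ⟨S, hS, hSc⟩ := Finset.exists_subset_card_eq hTc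
      exact ⟨K0, Finset.Subset.refl _, S, hS.trans hTA, hTs.mono hS, hSc⟩
    push Not at hTc
    set Y := T.biUnion a \ K0 with hY
    have hYc : Y.card ≤ T.card * r :=
      (Finset.card_le_card Finset.sdiff_subset).trans
        (Finset.card_biUnion_le_card_mul _ _ _ (fun i hi => (hA i (hTA hi)).2))
    have hcov : A ⊆ T ∪ Y.biUnion fun y => A.filter fun w => y ∈ a w := by
      intro w hw
      by_cases hwT : w ∈ T
      · exact Finset.mem_union_left _ hwT
      apply Finset.mem_union_right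
      have hns : ¬ Sun a K0 (insert w T) := by
        intro hs
        have h1 := hTmax (insert w T) (Finset.mem_filter.2
          ⟨Finset.mem_powerset.2 (Finset.insert_subset hw hTA), hs⟩)
        rw [Finset.card_insert_of_notMem hwT] at h1
        omega
      have h2 : ∃ i ∈ T, ∃ y, y ∈ a w ∧ y ∈ a i ∧ y ∉ K0 := by
        by_contra hcon
        push Not at hcon
        apply hns
        have key : ∀ i ∈ T, a w ∩ a i = K0 := by
          intro i hi
          apply Finset.Subset.antisymm
          · intro y hy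
            rw [Finset.mem_inter] at hy
            exact hcon i hi y hy.1 hy.2
          · exact Finset.subset_inter (hA w hw).1 (hTs.1 i hi)
        refine ⟨?_, ?_⟩
        · intro i hi
          rcases Finset.mem_insert.1 hi with rfl | hi
          · exact (hA i hw).1
          · exact hTs.1 i hi
        · intro i hi j hj hij
          rcases Finset.mem_insert.1 hi with h1 | hi <;> rcases Finset.mem_insert.1 hj with h2 | hj
          · exact absurd (h1.trans h2.symm) hij
          · rw [h1]; exact key j hj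
          · rw [h2, Finset.inter_comm]; exact key i hi
          · exact hTs.2 i hi j hj hij
      obtain ⟨i, hi, y, hyw, hyi, hyK⟩ := h2
      exact Finset.mem_biUnion.2 ⟨y, Finset.mem_sdiff.2 ⟨Finset.mem_biUnion.2 ⟨i, hi, hyi⟩, hyK⟩,
        Finset.mem_filter.2 ⟨hw, hyw⟩⟩
    by_cases hall : ∀ y ∈ Y, (A.filter fun w => y ∈ a w).card ≤ Db r c n
    · exfalso
      have h1 := (Finset.card_le_card hcov).trans ((Finset.card_union_le _ _).trans
        (Nat.add_le_add_left (Finset.card_biUnion_le_card_mul Y _ _ hall) _))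
      have h2 : Y.card * Db r c n ≤ (T.card * r) * Db r c n := Nat.mul_le_mul_right _ hYc
      have h3 : (T.card * r) * Db r c n ≤ (c K0.card * r) * Db r c n :=
        Nat.mul_le_mul_right _ (Nat.mul_le_mul_right _ hTc.le)
      have h4 : Db r c (n + 1) = c (r - n) + r * c (r - n) * Db r c n := rfl
      rw [h4, ← hK', mul_comm r] at hc
      omega
    · push Not at hall
      obtain ⟨y, hy, hyc⟩ := hall
      have hyK : y ∉ K0 := (Finset.mem_sdiff.1 hy).2
      obtain ⟨K, hK1, T', hT', h1, h2⟩ := ih (insert y K0) (A.filter fun w => y ∈ a w)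
        (by rw [Finset.card_insert_of_notMem hyK]; omega)
        (by
          intro i hi
          rw [Finset.mem_filter] at hi
          exact ⟨Finset.insert_subset hi.2 (hA i hi.1).1, (hA i hi.1).2⟩) hyc
      exact ⟨K, (Finset.subset_insert _ _).trans hK1, T', hT'.trans (Finset.filter_subset _ _),
        h1, h2⟩

/-- in a sunflower some petal avoids a small set -/
lemma avoid {κ : Type} {a : κ → Finset P} {K : Finset P} {T : Finset κ} (h : Sun a K T)
    (Z : Finset P) (hZ : Z.card < T.card) : ∃ i ∈ T, Disjoint (a i \ K) Z := by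
  by_contra hcon
  push Not at hcon
  have h1 : ∀ i ∈ T, ∃ z, z ∈ Z ∧ z ∈ a i ∧ z ∉ K := by
    intro i hi
    have h2 := hcon i hi
    rw [Finset.not_disjoint_iff] at h2
    obtain ⟨z, hz, hz'⟩ := h2
    rw [Finset.mem_sdiff] at hz
    exact ⟨z, hz', hz.1, hz.2⟩
  have hne : Nonempty P := by
    obtain ⟨i, hi⟩ := Finset.card_pos.1 (show 0 < T.card by omega)
    obtain ⟨z, _⟩ := h1 i hi
    exact ⟨z⟩
  choose! f hf using h1
  obtain ⟨i, hi, j, hj, hij, hfij⟩ := Finset.exists_ne_map_eq_of_card_lt_of_maps_to hZ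
    (f := f) (fun i hi => (hf i hi).1)
  have h3 : f i ∈ a i ∩ a j := Finset.mem_inter.2 ⟨(hf i hi).2.1, hfij ▸ (hf j hj).2.1⟩
  rw [h.2 i hi j hj hij] at h3
  exact (hf i hi).2.2 h3

variable {U : Type} [Fintype U] {G : SimpleGraph U} {s : U → Finset P} {r b : ℕ}

def cc (r b : ℕ) (j : ℕ) : ℕ := b * (2 * r + 1) ^ j

def Rich (s : U → Finset P) (r b : ℕ) (K : Finset P) : Prop :=
  K.Nonempty ∧ ∃ T : Finset U, Sun s K T ∧ T.card = cc r b K.card

def MinRich (s : U → Finset P) (r b : ℕ) (K : Finset P) : Prop :=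
  Rich s r b K ∧ ∀ K' ⊆ K, Rich s r b K' → K' = K

lemma cc_le (hb : 1 ≤ b) (j : ℕ) : b ≤ cc r b j := by
  have : 1 ≤ (2 * r + 1) ^ j := Nat.one_le_pow _ _ (by omega)
  unfold cc
  nlinarith

lemma cc_succ {i j : ℕ} (hij : i < j) (hb : 1 ≤ b) : 2 * r * cc r b i < cc r b j := by
  have h1 : (2 * r + 1) ^ (i + 1) ≤ (2 * r + 1) ^ j := Nat.pow_le_pow_right (by omega) hij
  have h2 : cc r b (i + 1) ≤ cc r b j := Nat.mul_le_mul_left b h1
  have h3 : cc r b (i + 1) = 2 * r * cc r b i + cc r b i := by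
    unfold cc
    ring
  have h4 := cc_le (r := r) hb i
  omega

lemma exists_min {K : Finset P} (h : Rich s r b K) : ∃ K' ⊆ K, MinRich s r b K' := by
  obtain ⟨K', hK', hmin⟩ := Finset.exists_min_image (K.powerset.filter fun L => Rich s r b L)
    (fun L => L.card) ⟨K, Finset.mem_filter.2 ⟨by simp, h⟩⟩
  rw [Finset.mem_filter, Finset.mem_powerset] at hK'
  refine ⟨K', hK'.1, hK'.2, ?_⟩
  intro L hL hLr
  have h1 := hmin L (Finset.mem_filter.2 ⟨Finset.mem_powerset.2 (hL.trans hK'.1), hLr⟩)
  exact Finset.eq_of_subset_of_card_le hL h1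

/-- lifting a sunflower of kernels -/
lemma lift (hr : ∀ u, (s u).card ≤ r) (hb : 1 ≤ b) {K : Finset P} {T : Finset (Finset P)}
    (hT : Sun id K T) (hTr : ∀ L ∈ T, Rich s r b L) (hTK : ∀ L ∈ T, L ≠ K)
    (hTc : T.card = cc r b K.card) :
    ∃ T' : Finset U, Sun s K T' ∧ T'.card = T.card := by
  have hcard : ∀ L ∈ T, L.card ≤ r := by
    intro L hL
    obtain ⟨-, S, hS, hSc⟩ := hTr L hL
    have h1 := cc_le (r := r) hb L.card
    obtain ⟨u, hu⟩ := Finset.card_pos.1 (show 0 < S.card by omega)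
    exact (Finset.card_le_card (hS.1 u hu)).trans (hr u)
  have hZ0 : (T.biUnion id).card ≤ T.card * r := Finset.card_biUnion_le_card_mul _ _ _ hcard
  have main : ∀ 𝒯 : Finset (Finset P), 𝒯 ⊆ T → ∃ e : Finset P → U,
      (∀ L ∈ 𝒯, L ⊆ s (e L) ∧ Disjoint (s (e L) \ L) (T.biUnion id)) ∧
      ∀ L ∈ 𝒯, ∀ M ∈ 𝒯, L ≠ M → Disjoint (s (e L) \ L) (s (e M)) := by
    intro 𝒯
    induction 𝒯 using Finset.induction_on with
    | empty =>
      intro _
      have hne : Nonempty U := by
        have h1 := cc_le (r := r) hb K.card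
        obtain ⟨L, hL⟩ := Finset.card_pos.1 (show 0 < T.card by omega)
        obtain ⟨-, S, hS, hSc⟩ := hTr L hL
        have h2 := cc_le (r := r) hb L.card
        obtain ⟨u, hu⟩ := Finset.card_pos.1 (show 0 < S.card by omega)
        exact ⟨u⟩
      exact ⟨fun _ => hne.some, by simp, by simp⟩
    | insert L 𝒯 hL ih =>
      intro hsub
      have hLT : L ∈ T := hsub (Finset.mem_insert_self _ _)
      have h𝒯T : 𝒯 ⊆ T := (Finset.subset_insert _ _).trans hsub
      obtain ⟨e, he1, he2⟩ := ih h𝒯T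
      obtain ⟨-, S, hS, hSc⟩ := hTr L hLT
      have hZ1 : (𝒯.biUnion fun M => s (e M)).card ≤ T.card * r :=
        (Finset.card_biUnion_le_card_mul _ _ r (fun M _ => hr _)).trans
          (Nat.mul_le_mul_right r (Finset.card_le_card h𝒯T))
      have hlt : K.card < L.card := by
        have h1 : K ⊆ L := hT.1 L hLT
        exact Finset.card_lt_card (Finset.ssubset_iff_subset_ne.2 ⟨h1, (hTK L hLT).symm⟩)
      have hcs := cc_succ (r := r) hlt hb
      obtain ⟨u, hu, hud⟩ := avoid hS (T.biUnion id ∪ 𝒯.biUnion fun M => s (e M)) (by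
        refine lt_of_le_of_lt (Finset.card_union_le _ _) ?_
        rw [hSc]
        refine lt_of_le_of_lt (Nat.add_le_add hZ0 hZ1) ?_
        rw [hTc]
        have : cc r b K.card * r + cc r b K.card * r = 2 * r * cc r b K.card := by ring
        omega)
      rw [Finset.disjoint_union_right] at hud
      have hneL : ∀ M ∈ 𝒯, M ≠ L := fun M hM h => hL (h ▸ hM)
      refine ⟨fun M => if M = L then u else e M, ?_, ?_⟩
      · intro M hM
        dsimp only
        rcases Finset.mem_insert.1 hM with rfl | hM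
        · rw [if_pos rfl]
          exact ⟨hS.1 u hu, hud.1⟩
        · rw [if_neg (hneL M hM)]
          exact he1 M hM
      · intro M hM N hN hMN
        dsimp only
        rcases Finset.mem_insert.1 hM with h1 | hM <;> rcases Finset.mem_insert.1 hN with h2 | hN
        · exact absurd (h1.trans h2.symm) hMN
        · rw [if_pos h1, if_neg (hneL N hN), h1]
          exact Finset.disjoint_of_subset_right (fun x hx => Finset.mem_biUnion.2 ⟨N, hN, hx⟩) hud.2
        · rw [if_neg (hneL M hM), if_pos h2]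
          rw [Finset.disjoint_left]
          intro x hx hxu
          rw [Finset.mem_sdiff] at hx
          by_cases hxL : x ∈ L
          · have h3 := (he1 M hM).2
            exact Finset.disjoint_left.1 h3 (Finset.mem_sdiff.2 hx)
              (Finset.mem_biUnion.2 ⟨L, hLT, hxL⟩)
          · exact Finset.disjoint_left.1 hud.2 (Finset.mem_sdiff.2 ⟨hxu, hxL⟩)
              (Finset.mem_biUnion.2 ⟨M, hM, hx.1⟩)
        · rw [if_neg (hneL M hM), if_neg (hneL N hN)]
          exact he2 M hM N hN hMN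
  obtain ⟨e, he1, he2⟩ := main T (Finset.Subset.refl _)
  have hint : ∀ L ∈ T, ∀ M ∈ T, L ≠ M → s (e L) ∩ s (e M) = K := by
    intro L hL M hM hLM
    apply Finset.Subset.antisymm
    · intro x hx
      rw [Finset.mem_inter] at hx
      have hLM' : L ∩ M = K := hT.2 L hL M hM hLM
      by_cases hxL : x ∈ L
      · by_cases hxM : x ∈ M
        · rw [← hLM']
          exact Finset.mem_inter.2 ⟨hxL, hxM⟩
        · exact absurd (Finset.mem_biUnion.2 ⟨L, hL, hxL⟩)
            (Finset.disjoint_left.1 (he1 M hM).2 (Finset.mem_sdiff.2 ⟨hx.2, hxM⟩))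
      · exact absurd hx.2 (Finset.disjoint_left.1 (he2 L hL M hM hLM)
          (Finset.mem_sdiff.2 ⟨hx.1, hxL⟩))
    · exact Finset.subset_inter ((hT.1 L hL).trans (he1 L hL).1)
        ((hT.1 M hM).trans (he1 M hM).1)
  have hinj : Set.InjOn e T := by
    intro L hL M hM hLM
    by_contra hne
    have h1 := hint L hL M hM hne
    rw [← hLM, Finset.inter_self] at h1
    have h2 : L ⊆ K := by rw [← h1]; exact (he1 L hL).1
    exact hTK L hL (Finset.Subset.antisymm h2 (hT.1 L hL))
  refine ⟨T.image e, ⟨?_, ?_⟩, Finset.card_image_of_injOn hinj⟩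
  · intro u hu
    obtain ⟨L, hL, rfl⟩ := Finset.mem_image.1 hu
    exact (hT.1 L hL).trans (he1 L hL).1
  · intro u hu w hw huw
    obtain ⟨L, hL, rfl⟩ := Finset.mem_image.1 hu
    obtain ⟨M, hM, rfl⟩ := Finset.mem_image.1 hw
    exact hint L hL M hM (fun h => huw (by rw [h]))

end Pool.Agent.N425.KS
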