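import Pool.Agent.N425.KS1
import Pool.Agent.N425.KR4

set_option autoImplicit false
set_option linter.unusedSectionVars false

open Classical

noncomputable section

namespace Pool.Agent.N425.KS

open Pool.Agent.N425.KR

variable {P U : Type} [Fintype U] {G : SimpleGraph U} {s : U → Finset P} {r b : ℕ}

/-- the minimal rich kernels -/
def ker (s : U → Finset P) (r b : ℕ) : Finset (Finset P) :=
  (Finset.univ.biUnion fun u => (s u).powerset).filter fun K => MinRich s r b K

/-- the poor vertices -/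
def poor (s : U → Finset P) (r b : ℕ) : Finset U :=
  Finset.univ.filter fun u => ¬ ∃ K ⊆ s u, Rich s r b K

lemma Rich.member (hb : 1 ≤ b) {K : Finset P} (h : Rich s r b K) : ∃ u, K ⊆ s u := by
  obtain ⟨-, T, hT, hTc⟩ := h
  have h1 := cc_le (r := r) hb K.card
  obtain ⟨u, hu⟩ := Finset.card_pos.1 (show 0 < T.card by omega)
  exact ⟨u, hT.1 u hu⟩

lemma mem_ker (hb : 1 ≤ b) {K : Finset P} : K ∈ ker s r b ↔ MinRich s r b K := by
  unfold ker
  rw [Finset.mem_filter]
  refine ⟨fun h => h.2, fun h => ⟨?_, h⟩⟩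
  obtain ⟨u, hu⟩ := h.1.member hb
  exact Finset.mem_biUnion.2 ⟨u, Finset.mem_univ _, Finset.mem_powerset.2 hu⟩

lemma ker_of_not_poor (hb : 1 ≤ b) {u : U} (hu : u ∉ poor s r b) :
    ∃ K ∈ ker s r b, K ⊆ s u := by
  unfold poor at hu
  rw [Finset.mem_filter] at hu
  push Not at hu
  obtain ⟨K, hK, hKr⟩ := hu (Finset.mem_univ _)
  obtain ⟨K', hK', hm⟩ := exists_min hKr
  exact ⟨K', (mem_ker hb).2 hm, hK'.trans hK⟩

lemma not_poor {K : Finset P} (hK : Rich s r b K) {u : U} (hu : K ⊆ s u) : u ∉ poor s r b := by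
  intro h
  exact (Finset.mem_filter.1 h).2 ⟨K, hu, hK⟩

lemma poor_deg (hr : ∀ u, (s u).card ≤ r) (hb : 1 ≤ b) (x : P) :
    (star s x (poor s r b)).card ≤ Db r (cc r b) r := by
  by_contra hcon
  push Not at hcon
  obtain ⟨K, hK, T, hT, hTs, hTc⟩ := sunflower s r (cc r b) r {x} (star s x (poor s r b))
    (by rw [Finset.card_singleton]; omega)
    (fun u hu => ⟨by simpa using (mem_star.1 hu).2, hr u⟩) hcon
  have hKne : K.Nonempty := ⟨x, hK (by simp)⟩
  have hKr : Rich s r b K := ⟨hKne, T, hTs, hTc⟩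
  have h1 := cc_le (r := r) hb K.card
  obtain ⟨u, hu⟩ := Finset.card_pos.1 (show 0 < T.card by omega)
  exact not_poor hKr (hTs.1 u hu) (mem_star.1 (hT hu)).1

lemma ker_card (hr : ∀ u, (s u).card ≤ r) (hb : 1 ≤ b) {K : Finset P} (hK : K ∈ ker s r b) :
    K.card ≤ r := by
  obtain ⟨u, hu⟩ := ((mem_ker hb).1 hK).1.member hb
  exact (Finset.card_le_card hu).trans (hr u)

lemma ker_deg (hr : ∀ u, (s u).card ≤ r) (hb : 2 ≤ b) (x : P) :
    ((ker s r b).filter fun K => x ∈ K).card ≤ Db r (cc r b) r := by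
  have hb1 : 1 ≤ b := by omega
  by_contra hcon
  push Not at hcon
  obtain ⟨K, hK, T, hT, hTs, hTc⟩ := sunflower (id : Finset P → Finset P) r (cc r b) r {x}
    ((ker s r b).filter fun K => x ∈ K)
    (by rw [Finset.card_singleton]; omega)
    (fun L hL => ⟨by simpa using (Finset.mem_filter.1 hL).2,
      ker_card hr hb1 (Finset.mem_filter.1 hL).1⟩) hcon
  have hKne : K.Nonempty := ⟨x, hK (by simp)⟩
  have hmin : ∀ L ∈ T, MinRich s r b L := fun L hL =>
    (mem_ker hb1).1 (Finset.mem_filter.1 (hT hL)).1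
  have h1 := cc_le (r := r) hb1 K.card
  have hTK : ∀ L ∈ T, L ≠ K := by
    intro L hL hLK
    obtain ⟨M, hM, hML⟩ : ∃ M ∈ T, M ≠ L := by
      obtain ⟨M, hM, N, hN, hMN⟩ := Finset.one_lt_card.1 (show 1 < T.card by omega)
      by_cases h2 : M = L
      · exact ⟨N, hN, fun h3 => hMN (h2.trans h3.symm)⟩
      · exact ⟨M, hM, h2⟩
    have h3 : L ⊆ M := by rw [hLK]; exact hTs.1 M hM
    exact hML ((hmin M hM).2 L h3 (hmin L hL).1).symm
  obtain ⟨T', hT's, hT'c⟩ := lift hr hb1 hTs (fun L hL => (hmin L hL).1) hTK hTc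
  have hKr : Rich s r b K := ⟨hKne, T', hT's, by rw [hT'c, hTc]⟩
  obtain ⟨L, hL⟩ := Finset.card_pos.1 (show 0 < T.card by omega)
  exact hTK L hL ((hmin L hL).2 K (hTs.1 L hL) hKr).symm


/-- the graph is the disjointness graph of the sets -/
structure Dis (G : SimpleGraph U) (s : U → Finset P) (r : ℕ) : Prop where
  card_le : ∀ u, (s u).card ≤ r
  adj : ∀ u w, G.Adj u w ↔ u ≠ w ∧ Disjoint (s u) (s w)

lemma Dis.sys (h : Dis G s r) : Sys G s r (Fintype.card U) :=
  ⟨h.card_le, h.adj, fun _ _ _ => Finset.card_le_univ _⟩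

/-- a clique with `r + 1` vertices in a set with small stars -/
lemma exists_clique (h : Dis G s r) {R : Finset U} {δ : ℕ} (hne : ∀ u ∈ R, (s u).Nonempty)
    (hδ : ∀ x, (star s x R).card ≤ δ) (hR : r * r * δ < R.card) :
    ∃ A ⊆ R, A.card = r + 1 ∧ Cl G A := by
  obtain ⟨A, hA, hAmax⟩ := Finset.exists_max_image
    (R.powerset.filter fun C => Cl G C) (fun C => C.card)
    ⟨∅, Finset.mem_filter.2 ⟨by simp, fun a ha => absurd ha (by simp)⟩⟩
  rw [Finset.mem_filter, Finset.mem_powerset] at hA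
  by_cases hAc : r + 1 ≤ A.card
  · obtain ⟨B, hB, hBc⟩ := Finset.exists_subset_card_eq hAc
    exact ⟨B, hB.trans hA.1, hBc, fun a ha b hb hab => hA.2 a (hB ha) b (hB hb) hab⟩
  exfalso
  have hcov : R ⊆ (A.biUnion s).biUnion fun x => star s x R := by
    intro u hu
    by_cases huA : u ∈ A
    · obtain ⟨x, hx⟩ := hne u hu
      exact Finset.mem_biUnion.2 ⟨x, Finset.mem_biUnion.2 ⟨u, huA, hx⟩, mem_star.2 ⟨hu, hx⟩⟩
    · have hn : ¬ Cl G (insert u A) := by
        intro hcl
        have h1 := hAmax (insert u A) (Finset.mem_filter.2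
          ⟨Finset.mem_powerset.2 (Finset.insert_subset hu hA.1), hcl⟩)
        rw [Finset.card_insert_of_notMem huA] at h1
        omega
      have h2 : ∃ a ∈ A, ¬ G.Adj u a := by
        by_contra hcon
        push Not at hcon
        apply hn
        intro a ha b hb hab
        rcases Finset.mem_insert.1 ha with h3 | ha <;> rcases Finset.mem_insert.1 hb with h4 | hb
        · exact absurd (h3.trans h4.symm) hab
        · rw [h3]; exact hcon b hb
        · rw [h4]; exact (hcon a ha).symm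
        · exact hA.2 a ha b hb hab
      obtain ⟨a, ha, hua⟩ := h2
      have h3 : ¬ Disjoint (s u) (s a) := by
        intro hd
        exact hua ((h.adj u a).2 ⟨fun h4 => huA (h4 ▸ ha), hd⟩)
      rw [Finset.not_disjoint_iff] at h3
      obtain ⟨x, hx, hx'⟩ := h3
      exact Finset.mem_biUnion.2 ⟨x, Finset.mem_biUnion.2 ⟨a, ha, hx'⟩, mem_star.2 ⟨hu, hx⟩⟩
  have h1 := (Finset.card_le_card hcov).trans
    (Finset.card_biUnion_le_card_mul _ _ δ (fun x _ => hδ x))
  have h2 : (A.biUnion s).card ≤ A.card * r :=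
    Finset.card_biUnion_le_card_mul _ _ r (fun u _ => h.card_le u)
  have h3 : A.card * r ≤ r * r := Nat.mul_le_mul_right r (by omega)
  have h4 := Nat.mul_le_mul_right δ (h2.trans h3)
  omega

lemma pack (h : Dis G s r) {δ : ℕ} (m : ℕ) : ∀ R : Finset U, (∀ u ∈ R, (s u).Nonempty) →
    (∀ x, (star s x R).card ≤ δ) → r * r * δ + (r + 1) * m ≤ R.card →
    ∃ 𝒜 : Finset (Finset U), 𝒜.card = m ∧ (∀ A ∈ 𝒜, A ⊆ R ∧ A.card = r + 1 ∧ Cl G A) ∧
      ∀ A ∈ 𝒜, ∀ B ∈ 𝒜, A ≠ B → Disjoint A B := by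
  induction m with
  | zero => intro R _ _ _; exact ⟨∅, by simp, by simp, by simp⟩
  | succ m ih =>
    intro R hne hδ hR
    rw [Nat.mul_add, Nat.mul_one] at hR
    obtain ⟨A, hAR, hAc, hAcl⟩ := exists_clique h hne hδ (by omega)
    obtain ⟨𝒜, h1, h2, h3⟩ := ih (R \ A) (fun u hu => hne u (Finset.mem_sdiff.1 hu).1)
      (fun x => (Finset.card_le_card (Finset.filter_subset_filter _ Finset.sdiff_subset)).trans
        (hδ x)) (by rw [Finset.card_sdiff_of_subset hAR]; omega)
    have hAd : ∀ B ∈ 𝒜, Disjoint A B := fun B hB =>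
      Finset.disjoint_of_subset_right (h2 B hB).1 Finset.disjoint_sdiff
    have hAn : A ∉ 𝒜 := by
      intro hA
      have := hAd A hA
      rw [disjoint_self] at this
      rw [this] at hAc
      simp at hAc
    refine ⟨insert A 𝒜, by rw [Finset.card_insert_of_notMem hAn, h1], ?_, ?_⟩
    · intro B hB
      rcases Finset.mem_insert.1 hB with rfl | hB
      · exact ⟨hAR, hAc, hAcl⟩
      · exact ⟨(h2 B hB).1.trans Finset.sdiff_subset, (h2 B hB).2⟩
    · intro B hB C hC hBC
      rcases Finset.mem_insert.1 hB with h4 | hB <;> rcases Finset.mem_insert.1 hC with h5 | hC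
      · exact absurd (h4.trans h5.symm) hBC
      · rw [h4]; exact hAd C hC
      · rw [h5]; exact (hAd B hB).symm
      · exact h3 B hB C hC hBC

/-- a clique with `r + 1` vertices dominates everything -/
lemma clique_dom (h : Dis G s r) {A : Finset U} (hA : Cl G A) (hAc : A.card = r + 1) {w : U}
    (hw : w ∉ A) : ∃ a ∈ A, G.Adj w a := by
  by_contra hcon
  push Not at hcon
  have h1 : ∀ a ∈ A, ∃ x, x ∈ s w ∧ x ∈ s a := by
    intro a ha
    have h2 : ¬ Disjoint (s w) (s a) := fun hd =>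
      hcon a ha ((h.adj w a).2 ⟨fun h3 => hw (h3 ▸ ha), hd⟩)
    rw [Finset.not_disjoint_iff] at h2
    exact h2
  have hne : Nonempty P := by
    obtain ⟨a, ha⟩ := Finset.card_pos.1 (show 0 < A.card by omega)
    obtain ⟨x, _⟩ := h1 a ha
    exact ⟨x⟩
  choose! f hf using h1
  have h3 := h.card_le w
  obtain ⟨a, ha, a', ha', haa, hfa⟩ := Finset.exists_ne_map_eq_of_card_lt_of_maps_to
    (show (s w).card < A.card by omega) (f := f) (fun a ha => (hf a ha).1)
  have h4 := ((h.adj a a').1 (hA a ha a' ha' haa)).2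
  exact Finset.disjoint_left.1 h4 (hf a ha).2 (hfa ▸ (hf a' ha').2)

lemma clique_conn {A : Finset U} (hA : Cl G A) (hne : A.Nonempty) : Conn G A := by
  refine ⟨hne, ?_⟩
  intro C hC hCne hCA
  obtain ⟨e, he⟩ := hCne
  obtain ⟨f, hf, hfC⟩ : ∃ f ∈ A, f ∉ C := by
    by_contra hcon
    push Not at hcon
    exact hCA (Finset.Subset.antisymm hC hcon)
  exact ⟨e, he, f, Finset.mem_sdiff.2 ⟨hf, hfC⟩, hA e (hC he) f hf (fun h => hfC (h ▸ he))⟩

lemma pack_model (h : Dis G s r) {𝒜 : Finset (Finset U)}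
    (h2 : ∀ A ∈ 𝒜, A.card = r + 1 ∧ Cl G A) (h3 : ∀ A ∈ 𝒜, ∀ B ∈ 𝒜, A ≠ B → Disjoint A B) :
    Model G Finset.univ 𝒜 := by
  have hne : ∀ A ∈ 𝒜, A.Nonempty := fun A hA =>
    Finset.card_pos.1 (by rw [(h2 A hA).1]; omega)
  refine ⟨fun A _ => Finset.subset_univ A, fun A hA => clique_conn (h2 A hA).2 (hne A hA), h3, ?_⟩
  intro A hA B hB hAB
  obtain ⟨b, hb⟩ := hne B hB
  obtain ⟨a, ha, hab⟩ := clique_dom h (h2 A hA).2 (h2 A hA).1
    (fun hbA => Finset.disjoint_left.1 (h3 A hA B hB hAB) hbA hb)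
  exact ⟨a, ha, b, hb, hab.symm⟩

/-- choose `b` members of the sunflower of every minimal kernel -/
lemma choose_R (hr : ∀ u, (s u).card ≤ r) (hb : 2 ≤ b) : ∃ R : Finset U,
    (∀ u ∈ R, (s u).Nonempty ∧ u ∉ poor s r b) ∧ (ker s r b).card * b ≤ R.card * 2 ^ r ∧
      ∀ x, (star s x R).card ≤ (ker s r b).card + b * Db r (cc r b) r := by
  have hb1 : 1 ≤ b := by omega
  have hex : ∀ K ∈ ker s r b, ∃ B : Finset U, Sun s K B ∧ B.card = b := by
    intro K hK
    obtain ⟨-, T, hT, hTc⟩ := ((mem_ker hb1).1 hK).1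
    have h1 := cc_le (r := r) hb1 K.card
    obtain ⟨B, hB, hBc⟩ := Finset.exists_subset_card_eq (s := T) (n := b) (by omega)
    exact ⟨B, hT.mono hB, hBc⟩
  choose! B hB using hex
  refine ⟨(ker s r b).biUnion B, ?_, ?_, ?_⟩
  · intro u hu
    obtain ⟨K, hK, huB⟩ := Finset.mem_biUnion.1 hu
    have hKr := ((mem_ker hb1).1 hK).1
    have h1 := (hB K hK).1.1 u huB
    exact ⟨hKr.1.mono h1, not_poor hKr h1⟩
  · apply Finset.card_mul_le_card_mul (fun (K : Finset P) (u : U) => u ∈ B K)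
    · intro K hK
      have h1 : B K ⊆ Finset.bipartiteAbove (fun (K : Finset P) (u : U) => u ∈ B K)
          ((ker s r b).biUnion B) K := by
        intro u hu
        rw [Finset.mem_bipartiteAbove]
        exact ⟨Finset.mem_biUnion.2 ⟨K, hK, hu⟩, hu⟩
      have h2 := Finset.card_le_card h1
      rw [(hB K hK).2] at h2
      exact h2
    · intro u _
      have h1 : Finset.bipartiteBelow (fun (K : Finset P) (u : U) => u ∈ B K) (ker s r b) u ⊆
          (s u).powerset := by
        intro K hK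
        rw [Finset.mem_bipartiteBelow] at hK
        exact Finset.mem_powerset.2 ((hB K hK.1).1.1 u hK.2)
      refine (Finset.card_le_card h1).trans ?_
      rw [Finset.card_powerset]
      exact Nat.pow_le_pow_right (by norm_num) (hr u)
  · intro x
    have hsub : star s x ((ker s r b).biUnion B) ⊆
        (((ker s r b).filter fun K => x ∈ K).biUnion B) ∪
          ((ker s r b).biUnion fun K => (B K).filter fun u => x ∈ s u ∧ x ∉ K) := by
      intro u hu
      obtain ⟨hu1, hxu⟩ := mem_star.1 hu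
      obtain ⟨K, hK, huB⟩ := Finset.mem_biUnion.1 hu1
      by_cases hxK : x ∈ K
      · exact Finset.mem_union_left _ (Finset.mem_biUnion.2 ⟨K, Finset.mem_filter.2 ⟨hK, hxK⟩, huB⟩)
      · exact Finset.mem_union_right _ (Finset.mem_biUnion.2
          ⟨K, hK, Finset.mem_filter.2 ⟨huB, hxu, hxK⟩⟩)
    have h1 : (((ker s r b).filter fun K => x ∈ K).biUnion B).card ≤
        ((ker s r b).filter fun K => x ∈ K).card * b :=
      Finset.card_biUnion_le_card_mul _ _ b
        (fun K hK => (hB K (Finset.mem_filter.1 hK).1).2.le)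
    have h2 : ((ker s r b).biUnion fun K => (B K).filter fun u => x ∈ s u ∧ x ∉ K).card ≤
        (ker s r b).card * 1 := by
      apply Finset.card_biUnion_le_card_mul
      intro K hK
      rw [Finset.card_le_one]
      intro u hu w hw
      by_contra huw
      rw [Finset.mem_filter] at hu hw
      have h3 := (hB K hK).1.2 u hu.1 w hw.1 huw
      have h4 : x ∈ s u ∩ s w := Finset.mem_inter.2 ⟨hu.2.1, hw.2.1⟩
      rw [h3] at h4
      exact hu.2.2 h4
    have h3 := ker_deg hr hb x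
    have h4 := Nat.mul_le_mul_right b h3
    have h5 := (Finset.card_le_card hsub).trans (Finset.card_union_le _ _)
    have h6 : Db r (cc r b) r * b = b * Db r (cc r b) r := mul_comm _ _
    omega

/-- `b` -/
def bb (r : ℕ) : ℕ := 2 ^ r * (r * r + r + 2)

/-- the additive constant -/
def CC (r : ℕ) : ℕ :=
  N1 (r * Db r (cc r (bb r)) r) + r * r * (bb r * Db r (cc r (bb r)) r)

theorem main (h : Dis G s r) :
    ∃ 𝓑, Model G Finset.univ 𝓑 ∧ Cov G Finset.univ (𝓑.card + CC r) := by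
  have hb2 : 2 ≤ bb r := by
    have h1 : 1 ≤ 2 ^ r := Nat.one_le_two_pow
    unfold bb
    nlinarith
  have hb1 : 1 ≤ bb r := by omega
  set D := Db r (cc r (bb r)) r with hD
  set t := (ker s r (bb r)).card with ht
  -- the poor part
  obtain ⟨𝓑, hM, hC⟩ : ∃ 𝓑, Model G (poor s r (bb r)) 𝓑 ∧
      Cov G (poor s r (bb r)) (𝓑.card + N1 (r * D)) := by
    rcases bounded h.sys (fun x => poor_deg h.card_le hb1 x) with ⟨𝓑, h1, h2⟩ | h1
    · exact ⟨𝓑, h1, h2.mono (by omega)⟩
    · obtain ⟨h2, h3⟩ := Model.clique (Jp_cl (G := G) (poor s r (bb r)))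
      refine ⟨_, h2.le (Jp_sub _), ?_⟩
      have h4 := (Cov.triv (G := G) (Qp G (poor s r (bb r)))).union
        (Cov.triv (G := G) (Jp G (poor s r (bb r))))
      rw [Qp_Jp] at h4
      apply h4.mono
      rw [h3]
      have h5 : (Qp G (poor s r (bb r))).card < N1 (r * D) := h1
      omega
  -- the rich part
  have hrich : Cov G (Finset.univ \ poor s r (bb r)) t := by
    refine ⟨(ker s r (bb r)).image fun K => Finset.univ.filter fun u => K ⊆ s u,
      Finset.card_image_le, ?_, ?_⟩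
    · intro C hC
      obtain ⟨K, hK, rfl⟩ := Finset.mem_image.1 hC
      obtain ⟨x, hx⟩ := ((mem_ker hb1).1 hK).1.1
      intro u hu w hw hadj
      exact Finset.disjoint_left.1 ((h.adj u w).1 hadj).2 ((Finset.mem_filter.1 hu).2 hx)
        ((Finset.mem_filter.1 hw).2 hx)
    · intro u hu
      obtain ⟨K, hK, hKu⟩ := ker_of_not_poor hb1 (Finset.mem_sdiff.1 hu).2
      exact ⟨_, Finset.mem_image.2 ⟨K, hK, rfl⟩, Finset.mem_filter.2 ⟨Finset.mem_univ _, hKu⟩⟩
  have hcov : Cov G Finset.univ (𝓑.card + N1 (r * D) + t) := by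
    have h1 := hC.union hrich
    rwa [Finset.union_sdiff_of_subset (Finset.subset_univ _)] at h1
  have hCC : CC r = N1 (r * D) + r * r * (bb r * D) := rfl
  by_cases hT : t ≤ r * r * (bb r * D)
  · exact ⟨𝓑, hM.le (Finset.subset_univ _), hcov.mono (by omega)⟩
  push Not at hT
  obtain ⟨R, hR1, hR2, hR3⟩ := choose_R (s := s) (b := bb r) h.card_le hb2
  have hRc : t * (r * r + r + 2) ≤ R.card := by
    have h1 : 2 ^ r * (t * (r * r + r + 2)) ≤ 2 ^ r * R.card := by
      have h2 : 2 ^ r * (t * (r * r + r + 2)) = t * bb r := by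
        unfold bb; ring
      rw [h2, mul_comm (2 ^ r) R.card]
      exact hR2
    exact Nat.le_of_mul_le_mul_left h1 (by positivity)
  obtain ⟨𝒜, hA1, hA2, hA3⟩ := pack h (δ := t + bb r * D) t R (fun u hu => (hR1 u hu).1) hR3 (by
    refine le_trans ?_ hRc
    have h1 : r * r * (t + bb r * D) = r * r * t + r * r * (bb r * D) := by ring
    have h2 : t * (r * r + r + 2) = r * r * t + t + (r + 1) * t := by ring
    rw [h1, h2]
    omega)
  have hMA := pack_model h (fun A hA => (hA2 A hA).2) hA3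
  obtain ⟨m1, c1⟩ := (hM.le (Finset.subset_univ _)).union2 hMA (by
      intro B hB A hA
      rw [Finset.disjoint_left]
      intro u hu hu'
      exact (hR1 u ((hA2 A hA).1 hu')).2 (hM.sub B hB hu)) (by
      intro B hB A hA
      obtain ⟨u, hu⟩ := (hM.conn B hB).1
      have huA : u ∉ A := fun hu' => (hR1 u ((hA2 A hA).1 hu')).2 (hM.sub B hB hu)
      obtain ⟨a, ha, hua⟩ := clique_dom h (hA2 A hA).2.2 (hA2 A hA).2.1 huA
      exact ⟨u, hu, a, ha, hua⟩)
  refine ⟨_, m1, hcov.mono ?_⟩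
  rw [c1, hA1, hCC]
  omega

end Pool.Agent.N425.KS
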