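import Pool.Agent.N425.KS2

set_option autoImplicit false
set_option linter.unusedSectionVars false

open Classical

noncomputable section

namespace Pool.Agent.N425.KR

variable {U : Type} {G : SimpleGraph U}

/-- bounded number of non-neighbours, no universal vertex, many vertices -/
lemma near_model {D : ℕ} {Q : Finset U}
    (h1 : ∀ u ∈ Q, ∃ w ∈ Q, w ≠ u ∧ ¬ G.Adj u w)
    (hD : ∀ u ∈ Q, (Q.filter fun w => w ≠ u ∧ ¬ G.Adj u w).card ≤ D)
    (hQ : (D + 1) * (4 * (D * D + D) + 3) ≤ Q.card) :
    ∃ w, (∀ C ⊆ Q, Cl G C → C.card ≤ w) ∧ ∃ 𝓑, Model G Q 𝓑 ∧ Q.card + w ≤ 2 * 𝓑.card + 1 := by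
  obtain ⟨I, hI, hImax⟩ := Finset.exists_max_image
    (Q.powerset.filter fun C => Cl G C) (fun C => C.card)
    ⟨∅, Finset.mem_filter.2 ⟨by simp, fun a ha => absurd ha (by simp)⟩⟩
  rw [Finset.mem_filter, Finset.mem_powerset] at hI
  obtain ⟨hIQ, hIcl⟩ := hI
  have hw : ∀ C ⊆ Q, (∀ a ∈ C, ∀ b ∈ C, a ≠ b → G.Adj a b) → C.card ≤ I.card := by
    intro C hC hcl
    exact hImax C (by rw [Finset.mem_filter, Finset.mem_powerset]; exact ⟨hC, hcl⟩)
  set R := Q \ I with hR
  have hQc : Q.card = I.card + R.card := by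
    rw [hR, Finset.card_sdiff_of_subset hIQ]
    have := Finset.card_le_card hIQ
    omega
  have hIc : I.card ≤ R.card * D := by
    have hsub : I ⊆ R.biUnion fun w => Q.filter fun u => u ≠ w ∧ ¬ G.Adj w u := by
      intro i hi
      obtain ⟨w, hw, hwi, hnadj⟩ := h1 i (hIQ hi)
      refine Finset.mem_biUnion.2 ⟨w, Finset.mem_sdiff.2 ⟨hw, ?_⟩,
        Finset.mem_filter.2 ⟨hIQ hi, hwi.symm, fun h => hnadj h.symm⟩⟩
      exact fun hwI => hnadj (hIcl i hi w hwI hwi.symm)
    refine (Finset.card_le_card hsub).trans (Finset.card_biUnion_le_card_mul _ _ _ ?_)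
    intro w hw
    exact hD w (Finset.mem_sdiff.1 hw).1
  set t := D * D + D with ht
  have hRc : 4 * t + 3 ≤ R.card := by
    have h2 : (D + 1) * (4 * t + 3) ≤ (D + 1) * R.card := by
      refine hQ.trans ?_
      rw [hQc, Nat.add_mul, one_mul, mul_comm D R.card]
      omega
    exact Nat.le_of_mul_le_mul_left h2 (Nat.succ_pos D)
  obtain ⟨R1, hR1, hR1c⟩ := Finset.exists_subset_card_eq (s := R) (n := R.card / 2) (by omega)
  obtain ⟨R2, hR2, hR2c⟩ := Finset.exists_subset_card_eq (s := R \ R1) (n := R.card / 2) (by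
    rw [Finset.card_sdiff_of_subset hR1]; omega)
  have hR12 : Disjoint R1 R2 :=
    Finset.disjoint_of_subset_right hR2 Finset.disjoint_sdiff
  have hR2R : R2 ⊆ R := hR2.trans Finset.sdiff_subset
  have hRQ : R ⊆ Q := Finset.sdiff_subset
  set compat : U → U → Prop := fun w w' => G.Adj w w' ∧
    ∀ z ∈ Q, z ≠ w → z ≠ w' → (G.Adj z w ∨ G.Adj z w') with hcompat
  have hsymm : ∀ w w', compat w w' → compat w' w := by
    intro w w' h
    exact ⟨h.1.symm, fun z hz h2 h3 => (h.2 z hz h3 h2).symm⟩
  have hinc : ∀ w ∈ Q, ∀ A ⊆ Q, (∀ a ∈ A, a ≠ w ∧ ¬ compat w a) → A.card ≤ t := by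
    intro w hw A hAQ hA
    have hsub : A ⊆ (Q.filter fun u => u ≠ w ∧ ¬ G.Adj w u).biUnion
        (fun z => Q.filter fun u => u ≠ z ∧ ¬ G.Adj z u) ∪ (Q.filter fun u => u ≠ w ∧ ¬ G.Adj w u) := by
      intro a ha
      obtain ⟨haw, hna⟩ := hA a ha
      by_cases hadj : G.Adj w a
      · have h2 : ∃ z ∈ Q, z ≠ w ∧ z ≠ a ∧ ¬ G.Adj z w ∧ ¬ G.Adj z a := by
          by_contra hcon
          push Not at hcon
          apply hna
          refine ⟨hadj, fun z hz h3 h4 => ?_⟩
          by_cases h5 : G.Adj z w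
          · exact Or.inl h5
          · exact Or.inr (hcon z hz h3 h4 h5)
        obtain ⟨z, hz, hzw, hza, h3, h4⟩ := h2
        refine Finset.mem_union_left _ (Finset.mem_biUnion.2 ⟨z, ?_, ?_⟩)
        · exact Finset.mem_filter.2 ⟨hz, hzw, fun h => h3 h.symm⟩
        · exact Finset.mem_filter.2 ⟨hAQ ha, hza.symm, h4⟩
      · exact Finset.mem_union_right _ (Finset.mem_filter.2 ⟨hAQ ha, haw, hadj⟩)
    refine (Finset.card_le_card hsub).trans ((Finset.card_union_le _ _).trans ?_)
    have h3 := Finset.card_biUnion_le_card_mul (Q.filter fun u => u ≠ w ∧ ¬ G.Adj w u)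
      (fun z => Q.filter fun u => u ≠ z ∧ ¬ G.Adj z u) D
      (fun z hz => hD z (Finset.mem_filter.1 hz).1)
    have h4 := hD w hw
    have h5 : (Q.filter fun u => u ≠ w ∧ ¬ G.Adj w u).card * D ≤ D * D :=
      Nat.mul_le_mul_right D h4
    omega
  have hall : ∃ f : {x // x ∈ R1} → U, Function.Injective f ∧
      ∀ x, f x ∈ R2.filter fun y => compat x.1 y := by
    rw [← Finset.all_card_le_biUnion_card_iff_exists_injective]
    intro s
    rcases s.eq_empty_or_nonempty with rfl | ⟨x, hx⟩
    · simp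
    have hR1Q : ∀ y : {x // x ∈ R1}, y.1 ∈ Q := fun y => hRQ (hR1 y.2)
    have hne : ∀ y : {x // x ∈ R1}, ∀ z ∈ R2, z ≠ y.1 := by
      intro y z hz h
      exact Finset.disjoint_left.1 hR12 y.2 (h ▸ hz)
    by_cases hs : s.card + t ≤ R.card / 2
    · have h2 : (R2.filter fun y => compat x.1 y) ⊆
          s.biUnion fun x => R2.filter fun y => compat x.1 y :=
        Finset.subset_biUnion_of_mem (fun x : {x // x ∈ R1} => R2.filter fun y => compat x.1 y) hx
      have h3 := Finset.card_le_card h2
      have h4 := hinc x.1 (hR1Q x) (R2.filter fun y => ¬ compat x.1 y)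
        ((Finset.filter_subset _ _).trans (hR2R.trans hRQ)) (by
          intro a ha
          rw [Finset.mem_filter] at ha
          exact ⟨hne x a ha.1, ha.2⟩)
      have h5 := Finset.card_filter_add_card_filter_not (s := R2) (fun y => compat x.1 y)
      omega
    · have h2 : R2 ⊆ s.biUnion fun x => R2.filter fun y => compat x.1 y := by
        intro y hy
        by_contra hcon
        rw [Finset.mem_biUnion] at hcon
        push Not at hcon
        have h3 := hinc y (hRQ (hR2R hy)) (s.image fun x => x.1) (by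
          intro a ha
          obtain ⟨b, _, rfl⟩ := Finset.mem_image.1 ha
          exact hR1Q b) (by
          intro a ha
          obtain ⟨b, hb, rfl⟩ := Finset.mem_image.1 ha
          refine ⟨(hne b y hy).symm, fun h => ?_⟩
          exact hcon b hb (Finset.mem_filter.2 ⟨hy, hsymm _ _ h⟩))
        rw [Finset.card_image_of_injective _ Subtype.val_injective] at h3
        omega
      have h3 := Finset.card_le_card h2
      have h4 : s.card ≤ R1.card := by
        have h5 := Finset.card_le_univ s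
        rw [Fintype.card_coe] at h5
        exact h5
      omega
  obtain ⟨f, hfinj, hf⟩ := hall
  let g : U → U := fun u => if h : u ∈ R1 then f ⟨u, h⟩ else u
  have hg : ∀ u ∈ R1, g u ∈ R2 ∧ compat u (g u) := by
    intro u hu
    have : g u = f ⟨u, hu⟩ := dif_pos hu
    rw [this]
    exact Finset.mem_filter.1 (hf ⟨u, hu⟩)
  have hginj : ∀ u ∈ R1, ∀ w ∈ R1, g u = g w → u = w := by
    intro u hu w hw h
    have e1 : g u = f ⟨u, hu⟩ := dif_pos hu
    have e2 : g w = f ⟨w, hw⟩ := dif_pos hw
    rw [e1, e2] at h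
    exact congrArg Subtype.val (hfinj h)
  have hIR : ∀ u ∈ I, u ∉ R := fun u hu h => (Finset.mem_sdiff.1 h).2 hu
  have hR1I : ∀ u ∈ R1, u ∉ I := fun u hu h => hIR u h (hR1 hu)
  obtain ⟨m1, c1⟩ := Model.ofFn (G := G) (I ∪ R1)
    (fun u => if u ∈ I then ({u} : Finset U) else {u, g u}) (F := Q) (by
      intro u hu
      by_cases hI : u ∈ I
      · rw [if_pos hI]
        simpa using hIQ hI
      · rw [if_neg hI]
        have hu1 : u ∈ R1 := (Finset.mem_union.1 hu).resolve_left hI
        intro x hx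
        rcases Finset.mem_insert.1 hx with rfl | hx
        · exact hRQ (hR1 hu1)
        · rw [Finset.mem_singleton] at hx
          rw [hx]
          exact hRQ (hR2R (hg u hu1).1)) (by
      intro u hu
      by_cases hI : u ∈ I
      · rw [if_pos hI]
        exact conn_single u
      · rw [if_neg hI]
        have hu1 : u ∈ R1 := (Finset.mem_union.1 hu).resolve_left hI
        exact conn_pair (hg u hu1).2.1) (by
      intro u hu w hw huw
      by_cases hI : u ∈ I
      · rw [if_pos hI]
        by_cases hI' : w ∈ I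
        · rw [if_pos hI']
          simpa using huw
        · rw [if_neg hI']
          have hw1 : w ∈ R1 := (Finset.mem_union.1 hw).resolve_left hI'
          rw [Finset.disjoint_singleton_left, Finset.mem_insert, Finset.mem_singleton]
          rintro (h | h)
          · exact huw h
          · exact hIR u hI (h ▸ hR2R (hg w hw1).1)
      · rw [if_neg hI]
        have hu1 : u ∈ R1 := (Finset.mem_union.1 hu).resolve_left hI
        by_cases hI' : w ∈ I
        · rw [if_pos hI', Finset.disjoint_singleton_right, Finset.mem_insert, Finset.mem_singleton]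
          rintro (h | h)
          · exact huw h.symm
          · exact hIR w hI' (h ▸ hR2R (hg u hu1).1)
        · rw [if_neg hI']
          have hw1 : w ∈ R1 := (Finset.mem_union.1 hw).resolve_left hI'
          rw [Finset.disjoint_left]
          intro x hx hx'
          simp only [Finset.mem_insert, Finset.mem_singleton] at hx hx'
          rcases hx with hx | hx <;> rcases hx' with hx' | hx'
          · exact huw (hx.symm.trans hx')
          · exact Finset.disjoint_left.1 hR12 hu1 (by rw [← hx, hx']; exact (hg w hw1).1)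
          · exact Finset.disjoint_left.1 hR12 hw1 (by rw [← hx', hx]; exact (hg u hu1).1)
          · exact huw (hginj u hu1 w hw1 (hx.symm.trans hx'))) (by
      intro u hu w hw huw
      by_cases hI' : w ∈ I
      · rw [if_pos hI']
        by_cases hI : u ∈ I
        · rw [if_pos hI]
          exact ⟨u, by simp, w, by simp, hIcl u hI w hI' huw⟩
        · rw [if_neg hI]
          have hu1 : u ∈ R1 := (Finset.mem_union.1 hu).resolve_left hI
          have hwg : w ≠ g u := by
            intro h
            exact hIR w hI' (h ▸ hR2R (hg u hu1).1)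
          rcases (hg u hu1).2.2 w (hIQ hI') huw.symm hwg with h | h
          · exact ⟨u, by simp, w, by simp, h.symm⟩
          · exact ⟨g u, by simp, w, by simp, h.symm⟩
      · rw [if_neg hI']
        have hw1 : w ∈ R1 := (Finset.mem_union.1 hw).resolve_left hI'
        have huQ : u ∈ Q := by
          rcases Finset.mem_union.1 hu with h | h
          · exact hIQ h
          · exact hRQ (hR1 h)
        have hug : u ≠ g w := by
          intro h
          have h2 := (hg w hw1).1
          rw [← h] at h2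
          rcases Finset.mem_union.1 hu with h3 | h3
          · exact hIR u h3 (hR2R h2)
          · exact Finset.disjoint_left.1 hR12 h3 h2
        have huB : u ∈ (if u ∈ I then ({u} : Finset U) else {u, g u}) := by
          split_ifs <;> simp
        rcases (hg w hw1).2.2 u huQ huw hug with h | h
        · exact ⟨u, huB, w, by simp, h⟩
        · exact ⟨u, huB, g w, by simp, h⟩)
  refine ⟨I.card, hw, _, m1, ?_⟩
  rw [c1, Finset.card_union_of_disjoint (Finset.disjoint_left.2 fun u hu h => hIR u hu (hR1 h)),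
    hQc, hR1c]
  omega

/-- a clique in a set with few non-neighbours -/
lemma greedy_clique {D : ℕ} {B : Finset U}
    (hD : ∀ u ∈ B, (B.filter fun w => w ≠ u ∧ ¬ G.Adj u w).card ≤ D) :
    ∃ C ⊆ B, Cl G C ∧ B.card ≤ (D + 1) * C.card := by
  obtain ⟨C, hC, hCmax⟩ := Finset.exists_max_image
    (B.powerset.filter fun C => Cl G C) (fun C => C.card)
    ⟨∅, Finset.mem_filter.2 ⟨by simp, fun a ha => absurd ha (by simp)⟩⟩
  rw [Finset.mem_filter, Finset.mem_powerset] at hC
  obtain ⟨hCB, hcl⟩ := hC
  refine ⟨C, hCB, hcl, ?_⟩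
  have hcov : B ⊆ C ∪ C.biUnion fun u => B.filter fun w => w ≠ u ∧ ¬ G.Adj u w := by
    intro w hw
    by_cases hwC : w ∈ C
    · exact Finset.mem_union_left _ hwC
    apply Finset.mem_union_right
    by_contra hcon
    rw [Finset.mem_biUnion] at hcon
    push Not at hcon
    have hadj : ∀ u ∈ C, G.Adj u w := by
      intro u hu
      by_contra hn
      exact hcon u hu (Finset.mem_filter.2 ⟨hw, fun h => hwC (h ▸ hu), hn⟩)
    have h1 := hCmax (insert w C) (by
      rw [Finset.mem_filter, Finset.mem_powerset]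
      refine ⟨Finset.insert_subset hw hCB, ?_⟩
      intro a ha b hb hab
      rcases Finset.mem_insert.1 ha with h1 | ha <;> rcases Finset.mem_insert.1 hb with h2 | hb
      · exact absurd (h1.trans h2.symm) hab
      · rw [h1]; exact (hadj b hb).symm
      · rw [h2]; exact hadj a ha
      · exact hcl a ha b hb hab)
    rw [Finset.card_insert_of_notMem hwC] at h1
    omega
  have h1 := (Finset.card_le_card hcov).trans ((Finset.card_union_le _ _).trans
    (Nat.add_le_add_left (Finset.card_biUnion_le_card_mul _ _ D (fun u hu => hD u (hCB hu))) _))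
  nlinarith

/-- matchings in the complement -/
def Mat (G : SimpleGraph U) (Q : Finset U) (M : Finset (Finset U)) : Prop :=
  (∀ C ∈ M, C ⊆ Q ∧ C.card = 2 ∧ ∀ a ∈ C, ∀ b ∈ C, ¬ G.Adj a b) ∧
    ∀ C ∈ M, ∀ C' ∈ M, C ≠ C' → Disjoint C C'

lemma Mat.mono {Q : Finset U} {M N : Finset (Finset U)} (h : Mat G Q M) (hN : N ⊆ M) :
    Mat G Q N :=
  ⟨fun C hC => h.1 C (hN hC), fun C hC C' hC' => h.2 C (hN hC) C' (hN hC')⟩

lemma Mat.add {Q : Finset U} {M : Finset (Finset U)} (h : Mat G Q M) {a b : U} (ha : a ∈ Q)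
    (hb : b ∈ Q) (hab : a ≠ b) (hn : ¬ G.Adj a b) (haM : ∀ C ∈ M, a ∉ C) (hbM : ∀ C ∈ M, b ∉ C) :
    Mat G Q (insert {a, b} M) ∧ (insert {a, b} M).card = M.card + 1 := by
  have hd : ∀ C ∈ M, Disjoint ({a, b} : Finset U) C := by
    intro C hC
    rw [Finset.disjoint_insert_left, Finset.disjoint_singleton_left]
    exact ⟨haM C hC, hbM C hC⟩
  refine ⟨⟨?_, ?_⟩, Finset.card_insert_of_notMem ?_⟩
  · intro C hC
    rcases Finset.mem_insert.1 hC with rfl | hC
    · refine ⟨?_, Finset.card_pair hab, ?_⟩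
      · intro x hx
        rcases Finset.mem_insert.1 hx with rfl | hx
        · exact ha
        · rw [Finset.mem_singleton] at hx; rw [hx]; exact hb
      · intro x hx y hy
        simp only [Finset.mem_insert, Finset.mem_singleton] at hx hy
        rcases hx with rfl | rfl <;> rcases hy with rfl | rfl
        · exact G.irrefl
        · exact hn
        · exact fun h' => hn h'.symm
        · exact G.irrefl
    · exact h.1 C hC
  · intro C hC C' hC' hne
    rcases Finset.mem_insert.1 hC with h1 | hC <;> rcases Finset.mem_insert.1 hC' with h2 | hC'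
    · exact absurd (h1.trans h2.symm) hne
    · rw [h1]; exact hd C' hC'
    · rw [h2]; exact (hd C hC).symm
    · exact h.2 C hC C' hC' hne
  · intro hmem
    exact haM _ hmem (by simp)

/-- `χ ≤ (n + ω - e) / 2` with `e` proportional to `n` -/
lemma gap {D w : ℕ} {Q : Finset U}
    (h1 : ∀ u ∈ Q, ∃ w ∈ Q, w ≠ u ∧ ¬ G.Adj u w)
    (hD : ∀ u ∈ Q, (Q.filter fun w => w ≠ u ∧ ¬ G.Adj u w).card ≤ D)
    (hw : ∀ C ⊆ Q, Cl G C → C.card ≤ w) :
    ∃ k e, Cov G Q k ∧ 2 * k + e ≤ Q.card + w ∧ Q.card ≤ 2 * (D + 1) * (D + 1) * e := by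
  obtain ⟨M, hM, hMmax⟩ := Finset.exists_max_image
    (Q.powerset.powerset.filter fun M => Mat G Q M) (fun M => M.card)
    ⟨∅, Finset.mem_filter.2 ⟨by simp, ⟨by simp, by simp⟩⟩⟩
  rw [Finset.mem_filter] at hM
  obtain ⟨-, hM⟩ := hM
  have hmax : ∀ N, Mat G Q N → N.card ≤ M.card := by
    intro N hN
    exact hMmax N (Finset.mem_filter.2 ⟨Finset.mem_powerset.2 fun C hC =>
      Finset.mem_powerset.2 (hN.1 C hC).1, hN⟩)
  set V := M.biUnion id with hV
  have hVQ : V ⊆ Q := by
    intro x hx
    obtain ⟨C, hC, hxC⟩ := Finset.mem_biUnion.1 hx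
    exact (hM.1 C hC).1 hxC
  have hVc : V.card = 2 * M.card := by
    have e1 : V.card = ∑ C ∈ M, (id C).card :=
      Finset.card_biUnion (fun C hC C' hC' hne => hM.2 C hC C' hC' hne)
    have e2 : ∑ C ∈ M, (id C).card = ∑ _C ∈ M, 2 :=
      Finset.sum_congr rfl (fun C hC => (hM.1 C hC).2.1)
    rw [e1, e2, Finset.sum_const, smul_eq_mul, mul_comm]
  set W := Q \ V with hW
  have hWQ : W ⊆ Q := Finset.sdiff_subset
  have hQc : Q.card = 2 * M.card + W.card := by
    have h2 := Finset.card_le_card hVQ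
    rw [hW, Finset.card_sdiff_of_subset hVQ, hVc]
    omega
  have hWM : ∀ u ∈ W, ∀ C ∈ M, u ∉ C := by
    intro u hu C hC huC
    exact (Finset.mem_sdiff.1 hu).2 (Finset.mem_biUnion.2 ⟨C, hC, huC⟩)
  have hWcl : Cl G W := by
    intro a ha b hb hab
    by_contra hn
    obtain ⟨h2, h3⟩ := hM.add (hWQ ha) (hWQ hb) hab hn (hWM a ha) (hWM b hb)
    have h4 := hmax _ h2
    omega
  -- pairs of the second type
  have haug : ∀ C ∈ M, ∀ a ∈ C, ∀ b ∈ C, a ≠ b → ∀ u ∈ W, ∀ u' ∈ W, ¬ G.Adj a u → ¬ G.Adj b u' →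
      u = u' := by
    intro C hC a ha b hb hab u hu u' hu' hau hbu
    by_contra hne
    have hM' := hM.mono (Finset.erase_subset C M)
    have hCM : ∀ C' ∈ M.erase C, ∀ x ∈ C, x ∉ C' := by
      intro C' hC' x hx hx'
      rw [Finset.mem_erase] at hC'
      exact Finset.disjoint_left.1 (hM.2 C' hC'.2 C hC hC'.1) hx' hx
    have hane : a ≠ u := fun h => hWM u hu C hC (h ▸ ha)
    have hbne : b ≠ u' := fun h => hWM u' hu' C hC (h ▸ hb)
    have hane' : a ≠ u' := fun h => hWM u' hu' C hC (h ▸ ha)
    have hbne' : b ≠ u := fun h => hWM u hu C hC (h ▸ hb)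
    obtain ⟨h2, h3⟩ := hM'.add ((hM.1 C hC).1 ha) (hWQ hu) hane hau
      (fun C' hC' => hCM C' hC' a ha) (fun C' hC' => hWM u hu C' (Finset.mem_of_mem_erase hC'))
    obtain ⟨h4, h5⟩ := h2.add ((hM.1 C hC).1 hb) (hWQ hu') hbne hbu (by
        intro C' hC'
        rcases Finset.mem_insert.1 hC' with rfl | hC'
        · simp only [Finset.mem_insert, Finset.mem_singleton]
          rintro (h | h)
          · exact hab h.symm
          · exact hbne' h
        · exact hCM C' hC' b hb) (by
        intro C' hC'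
        rcases Finset.mem_insert.1 hC' with rfl | hC'
        · simp only [Finset.mem_insert, Finset.mem_singleton]
          rintro (h | h)
          · exact hane' h.symm
          · exact hne h.symm
        · exact hWM u' hu' C' (Finset.mem_of_mem_erase hC'))
    have h6 := hmax _ h4
    have h7 : 0 < M.card := Finset.card_pos.2 ⟨C, hC⟩
    rw [h5, h3, Finset.card_erase_of_mem hC] at h6
    omega
  set T := M.filter fun C => ∃ u ∈ W, ∀ a ∈ C, ¬ G.Adj a u with hT
  have hTf : ∀ C ∈ T, ∃ u, u ∈ W ∧ ∀ a ∈ C, ¬ G.Adj a u := fun C hC => (Finset.mem_filter.1 hC).2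
  by_cases hQ0 : Q = ∅
  · refine ⟨0, 0, ⟨∅, by simp, by simp, by simp [hQ0]⟩, by omega, by simp [hQ0]⟩
  have hneU : Nonempty U := by
    obtain ⟨x, _⟩ := Finset.nonempty_iff_ne_empty.2 hQ0
    exact ⟨x⟩
  choose! f hf using hTf
  have hfW : T.image f ⊆ W := by
    intro u hu
    obtain ⟨C, hC, rfl⟩ := Finset.mem_image.1 hu
    exact (hf C hC).1
  -- many images
  have hTc : T.card ≤ D * (T.image f).card := by
    refine Finset.card_le_mul_card_image T D ?_
    intro u hu
    -- the pairs mapped to `u` give distinct non-neighbours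
    have hTM : ∀ C ∈ T, C ∈ M := fun C hC => (Finset.mem_filter.1 hC).1
    have huW : u ∈ W := hfW hu
    have hx : ∀ C ∈ M, ∃ a, a ∈ C := by
      intro C hC
      exact Finset.card_pos.1 (by rw [(hM.1 C hC).2.1]; norm_num)
    choose! g hg using hx
    have h2 : ((T.filter fun C => f C = u).image g) ⊆ Q.filter fun w => w ≠ u ∧ ¬ G.Adj u w := by
      intro x hx
      obtain ⟨C, hC, rfl⟩ := Finset.mem_image.1 hx
      rw [Finset.mem_filter] at hC
      have hCM := hTM C hC.1
      refine Finset.mem_filter.2 ⟨(hM.1 C hCM).1 (hg C hCM), ?_, ?_⟩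
      · intro h
        exact hWM u huW C hCM (h ▸ hg C hCM)
      · intro h
        have h3 := (hf C hC.1).2 (g C) (hg C hCM)
        rw [hC.2] at h3
        exact h3 h.symm
    have h3 : ((T.filter fun C => f C = u).image g).card = (T.filter fun C => f C = u).card := by
      apply Finset.card_image_of_injOn
      intro C hC C' hC' hgg
      have hC := hTM C (Finset.mem_filter.1 hC).1
      have hC' := hTM C' (Finset.mem_filter.1 hC').1
      by_contra hne
      have hgg' : g C = g C' := hgg
      exact Finset.disjoint_left.1 (hM.2 C hC C' hC' hne) (hg C hC) (hgg' ▸ hg C' hC')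
    rw [← h3]
    exact (Finset.card_le_card h2).trans (hD u (hWQ huW))
  -- endpoints of the pairs of the first type
  have hend : ∀ C ∈ M \ T, ∃ b, b ∈ C ∧ ∀ u ∈ W, G.Adj b u := by
    intro C hC
    rw [Finset.mem_sdiff] at hC
    obtain ⟨a, b, hab, hCab⟩ := Finset.card_eq_two.1 (hM.1 C hC.1).2.1
    by_contra hcon
    push Not at hcon
    have haC : a ∈ C := by rw [hCab]; simp
    have hbC : b ∈ C := by rw [hCab]; simp
    obtain ⟨u, hu, hau⟩ := hcon a haC
    obtain ⟨u', hu', hbu⟩ := hcon b hbC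
    have h2 := haug C hC.1 a haC b hbC hab u hu u' hu' hau hbu
    apply hC.2
    refine Finset.mem_filter.2 ⟨hC.1, u, hu, ?_⟩
    intro x hx
    rw [hCab] at hx
    simp only [Finset.mem_insert, Finset.mem_singleton] at hx
    rcases hx with rfl | rfl
    · exact hau
    · rw [h2]; exact hbu
  choose! g hg using hend
  have hginj : ∀ C ∈ M \ T, ∀ C' ∈ M \ T, g C = g C' → C = C' := by
    intro C hC C' hC' hgg
    by_contra hne
    exact Finset.disjoint_left.1 (hM.2 C (Finset.mem_sdiff.1 hC).1 C' (Finset.mem_sdiff.1 hC').1 hne)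
      (hg C hC).1 (hgg ▸ (hg C' hC').1)
  set B := (M \ T).image g with hB
  have hBQ : B ⊆ Q := by
    intro x hx
    obtain ⟨C, hC, rfl⟩ := Finset.mem_image.1 hx
    exact (hM.1 C (Finset.mem_sdiff.1 hC).1).1 (hg C hC).1
  have hBc : B.card = M.card - T.card := by
    rw [hB, Finset.card_image_of_injOn (fun C hC C' hC' h => hginj C hC C' hC' h),
      Finset.card_sdiff_of_subset (Finset.filter_subset _ _)]
  obtain ⟨Z, hZB, hZcl, hZc⟩ := greedy_clique (G := G) (D := D) (B := B) (by
    intro u hu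
    refine (Finset.card_le_card ?_).trans (hD u (hBQ hu))
    exact Finset.filter_subset_filter _ hBQ)
  have hWB : ∀ u ∈ W, ∀ x ∈ B, G.Adj x u := by
    intro u hu x hx
    obtain ⟨C, hC, rfl⟩ := Finset.mem_image.1 hx
    exact (hg C hC).2 u hu
  have hWZ : W.card + Z.card ≤ w := by
    have hdis : Disjoint W Z := by
      rw [Finset.disjoint_left]
      intro x hx hx'
      exact G.irrefl (hWB x hx x (hZB hx'))
    rw [← Finset.card_union_of_disjoint hdis]
    apply hw
    · exact Finset.union_subset hWQ (hZB.trans hBQ)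
    · intro a ha b hb hab
      rcases Finset.mem_union.1 ha with ha | ha <;> rcases Finset.mem_union.1 hb with hb | hb
      · exact hWcl a ha b hb hab
      · exact (hWB a ha b (hZB hb)).symm
      · exact hWB b hb a (hZB ha)
      · exact hZcl a ha b hb hab
  -- the cover
  have hcov : Cov G Q (M.card + (W \ T.image f).card) := by
    refine ⟨(M.image fun C => if C ∈ T then insert (f C) C else C) ∪
      (W \ T.image f).image fun u => {u}, ?_, ?_, ?_⟩
    · exact (Finset.card_union_le _ _).trans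
        (Nat.add_le_add Finset.card_image_le Finset.card_image_le)
    · intro C' hC'
      rcases Finset.mem_union.1 hC' with hC' | hC'
      · obtain ⟨C, hC, rfl⟩ := Finset.mem_image.1 hC'
        by_cases hCT : C ∈ T
        · rw [if_pos hCT]
          intro x hx y hy
          have h2 := (hf C hCT).2
          have h3 := (hM.1 C hC).2.2
          rcases Finset.mem_insert.1 hx with h4 | hx <;> rcases Finset.mem_insert.1 hy with h5 | hy
          · rw [h4, h5]; exact G.irrefl
          · rw [h4]; exact fun h => h2 y hy h.symm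
          · rw [h5]; exact h2 x hx
          · exact h3 x hx y hy
        · rw [if_neg hCT]
          exact (hM.1 C hC).2.2
      · obtain ⟨u, _, rfl⟩ := Finset.mem_image.1 hC'
        intro x hx y hy
        rw [Finset.mem_singleton] at hx hy
        rw [hx, hy]
        exact G.irrefl
    · intro x hx
      by_cases hxV : x ∈ V
      · obtain ⟨C, hC, hxC⟩ := Finset.mem_biUnion.1 hxV
        refine ⟨_, Finset.mem_union_left _ (Finset.mem_image.2 ⟨C, hC, rfl⟩), ?_⟩
        split_ifs
        · exact Finset.mem_insert_of_mem hxC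
        · exact hxC
      · have hxW : x ∈ W := Finset.mem_sdiff.2 ⟨hx, hxV⟩
        by_cases hxT : x ∈ T.image f
        · obtain ⟨C, hC, rfl⟩ := Finset.mem_image.1 hxT
          refine ⟨_, Finset.mem_union_left _ (Finset.mem_image.2
            ⟨C, (Finset.mem_filter.1 hC).1, rfl⟩), ?_⟩
          rw [if_pos hC]
          simp
        · exact ⟨{x}, Finset.mem_union_right _ (Finset.mem_image.2
            ⟨x, Finset.mem_sdiff.2 ⟨hxW, hxT⟩, rfl⟩), by simp⟩
  -- many pairs
  have hWc : W.card ≤ V.card * D := by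
    have hsub : W ⊆ V.biUnion fun x => Q.filter fun w => w ≠ x ∧ ¬ G.Adj x w := by
      intro u hu
      obtain ⟨x, hx, hxu, hn⟩ := h1 u (hWQ hu)
      have hxV : x ∈ V := by
        by_contra hxV
        exact hn (hWcl u hu x (Finset.mem_sdiff.2 ⟨hx, hxV⟩) hxu.symm)
      exact Finset.mem_biUnion.2 ⟨x, hxV, Finset.mem_filter.2 ⟨hWQ hu, hxu.symm, fun h => hn h.symm⟩⟩
    exact (Finset.card_le_card hsub).trans
      (Finset.card_biUnion_le_card_mul _ _ D (fun x hx => hD x (hVQ hx)))
  refine ⟨_, Z.card + 2 * (T.image f).card, hcov, ?_, ?_⟩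
  · rw [Finset.card_sdiff_of_subset hfW]
    have h2 := Finset.card_le_card hfW
    omega
  · have hTM : T.card ≤ M.card := Finset.card_le_card (Finset.filter_subset _ _)
    rw [hBc] at hZc
    have h3 : M.card ≤ (D + 1) * (Z.card + 2 * (T.image f).card) := by
      have h4 : M.card ≤ T.card + (D + 1) * Z.card := by omega
      nlinarith
    rw [hVc] at hWc
    calc Q.card = 2 * M.card + W.card := hQc
      _ ≤ 2 * M.card + 2 * M.card * D := by omega
      _ = 2 * (D + 1) * M.card := by ring
      _ ≤ 2 * (D + 1) * ((D + 1) * (Z.card + 2 * (T.image f).card)) := Nat.mul_le_mul_left _ h3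
      _ = _ := by ring

/-- the size from which on the excess is at least `E` -/
def N2 (D E : ℕ) : ℕ := N1 D + 2 * (D + 1) * (D + 1) * (2 * E + 2)

/-- bounded number of non-neighbours and many vertices: the clique minor beats the chromatic number
by any constant -/
lemma excess {D E : ℕ} {Q : Finset U}
    (h1 : ∀ u ∈ Q, ∃ w ∈ Q, w ≠ u ∧ ¬ G.Adj u w)
    (hD : ∀ u ∈ Q, (Q.filter fun w => w ≠ u ∧ ¬ G.Adj u w).card ≤ D)
    (hQ : N2 D E ≤ Q.card) : ∃ 𝓑 k, Model G Q 𝓑 ∧ Cov G Q k ∧ k + E ≤ 𝓑.card := by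
  obtain ⟨w, hw, 𝓑, hM, hc⟩ := near_model h1 hD (by
    have : N1 D = (D + 1) * (4 * (D * D + D) + 3) := rfl
    unfold N2 at hQ
    omega)
  obtain ⟨k, e, hk, h2, h3⟩ := gap h1 hD hw
  refine ⟨𝓑, k, hM, hk, ?_⟩
  have h4 : 2 * E + 2 ≤ e := by
    have h5 : 2 * (D + 1) * (D + 1) * (2 * E + 2) ≤ 2 * (D + 1) * (D + 1) * e := by
      unfold N2 at hQ
      omega
    exact Nat.le_of_mul_le_mul_left h5 (by positivity)
  omega

end Pool.Agent.N425.KR
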