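import Pool.Agent.N425.KT1

set_option autoImplicit false
set_option linter.unusedSectionVars false

open Classical

noncomputable section

namespace Pool.Agent.N425.KS

open Pool.Agent.N425.KR

variable {P U : Type} [Fintype U] {G : SimpleGraph U} {s : U → Finset P} {r b : ℕ}

lemma rich_cov (h : Dis G s r) (hb1 : 1 ≤ b) :
    Cov G (Finset.univ \ poor s r b) (ker s r b).card := by
  refine ⟨(ker s r b).image fun K => Finset.univ.filter fun u => K ⊆ s u,
    Finset.card_image_le, ?_, ?_⟩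
  · intro C hC
    obtain ⟨K, hK, rfl⟩ := Finset.mem_image.1 hC
    obtain ⟨x, hx⟩ := ((mem_ker hb1).1 hK).1.1
    intro u hu w hw hadj
    exact Finset.disjoint_left.1 ((h.adj u w).1 hadj).2 ((Finset.mem_filter.1 hu).2 hx)
      ((Finset.mem_filter.1 hw).2 hx)
  · intro u hu
    obtain ⟨K, hK, hKu⟩ := ker_of_not_poor hb1 (Finset.mem_sdiff.1 hu).2
    exact ⟨_, Finset.mem_image.2 ⟨K, hK, rfl⟩, Finset.mem_filter.2 ⟨Finset.mem_univ _, hKu⟩⟩

lemma Qp_self {F : Finset U} : ∀ u ∈ Qp G F, ∃ w ∈ Qp G F, w ≠ u ∧ ¬ G.Adj u w := by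
  intro u hu
  obtain ⟨huF, w, hw, hwu, hn⟩ := Finset.mem_filter.1 hu
  exact ⟨w, Finset.mem_filter.2 ⟨hw, u, huF, hwu.symm, fun h' => hn h'.symm⟩, hwu, hn⟩

lemma Qp_deg (h : Dis G s r) {F : Finset U} {C : ℕ} (hC : ∀ x, (star s x F).card ≤ C) :
    ∀ u ∈ Qp G F, ((Qp G F).filter fun w => w ≠ u ∧ ¬ G.Adj u w).card ≤ r * C := by
  intro u hu
  have hsub : ((Qp G F).filter fun w => w ≠ u ∧ ¬ G.Adj u w) ⊆
      (s u).biUnion fun x => star s x F := by
    intro w hw
    obtain ⟨hwQ, hwu, hn⟩ := Finset.mem_filter.1 hw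
    have h1 : ¬ Disjoint (s u) (s w) := fun hd => hn ((h.adj u w).2 ⟨hwu.symm, hd⟩)
    rw [Finset.not_disjoint_iff] at h1
    obtain ⟨x, hx, hx'⟩ := h1
    exact Finset.mem_biUnion.2 ⟨x, hx, mem_star.2 ⟨Qp_sub F hwQ, hx'⟩⟩
  refine (Finset.card_le_card hsub).trans
    ((Finset.card_biUnion_le_card_mul _ _ C (fun x _ => hC x)).trans ?_)
  exact Nat.mul_le_mul_right C (h.card_le u)

/-- the parameter of the sunflowers -/
def bs (r c : ℕ) : ℕ := 2 ^ r * (r * r + 2 * r + 3 + c)

def DD (r b : ℕ) : ℕ := Db r (cc r b) r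

def TT (r b E : ℕ) : ℕ := r * r * (b * DD r b) + N1 (r * DD r b) + E

def MM (r b E : ℕ) : ℕ := N2 (r * DD r b) (TT r b E + E)

lemma bs_ge (r c : ℕ) : 2 ≤ bs r c ∧ c ≤ bs r c := by
  have h1 : 1 ≤ 2 ^ r := Nat.one_le_two_pow
  have h2 : r * r + 2 * r + 3 + c ≤ bs r c := by
    unfold bs
    exact Nat.le_mul_of_pos_left _ h1
  constructor <;> omega

theorem scale (h : Dis G s r) (c E : ℕ) :
    (∃ 𝓑 k, Model G Finset.univ 𝓑 ∧ Cov G Finset.univ k ∧ k + E ≤ 𝓑.card) ∨
      ((ker s r (bs r c)).card < TT r (bs r c) E ∧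
        (Qp G (poor s r (bs r c))).card < MM r (bs r c) E) := by
  have hb2 : 2 ≤ bs r c := (bs_ge r c).1
  have hb1 : 1 ≤ bs r c := by omega
  have hbs : bs r c = 2 ^ r * (r * r + 2 * r + 3 + c) := rfl
  set b := bs r c with hb
  set D := Db r (cc r b) r with hD
  have hDD : DD r b = D := rfl
  set t := (ker s r b).card with ht
  have hrich := rich_cov (b := b) h hb1
  by_cases hT : t < TT r b E
  · by_cases hQ : (Qp G (poor s r b)).card < MM r b E
    · exact Or.inr ⟨hT, hQ⟩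
    · left
      push Not at hQ
      obtain ⟨𝓑, k, hM, hk, hc⟩ := excess (E := TT r b E + E) (Qp_self (G := G) (F := poor s r b))
        (Qp_deg h (fun x => poor_deg h.card_le hb1 x)) hQ
      obtain ⟨m1, c1⟩ := Model.clique (Jp_cl (G := G) (poor s r b))
      obtain ⟨m2, c2⟩ := hM.union m1 (disj_Qp_Jp _) (by
        intro B hB C hC
        obtain ⟨j, hj, rfl⟩ := Finset.mem_image.1 hC
        obtain ⟨q, hq⟩ := (hM.conn B hB).1
        refine ⟨q, hq, j, by simp, (Jp_adj hj (Qp_sub _ (hM.sub B hB hq)) ?_).symm⟩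
        rintro rfl
        exact Finset.disjoint_left.1 (disj_Qp_Jp _) (hM.sub B hB hq) hj)
      have h1 := (hk.union (Cov.triv (G := G) (Jp G (poor s r b))))
      rw [Qp_Jp] at h1
      have h2 := h1.union hrich
      rw [Finset.union_sdiff_of_subset (Finset.subset_univ _)] at h2
      refine ⟨_, _, m2.le (Finset.subset_univ _), h2, ?_⟩
      rw [c2, c1]
      omega
  · left
    push Not at hT
    obtain ⟨𝓑, hM, hC⟩ : ∃ 𝓑, Model G (poor s r b) 𝓑 ∧
        Cov G (poor s r b) (𝓑.card + N1 (r * D)) := by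
      rcases bounded h.sys (fun x => poor_deg h.card_le hb1 x) with ⟨𝓑, h1, h2⟩ | h1
      · exact ⟨𝓑, h1, h2.mono (by omega)⟩
      · obtain ⟨h2, h3⟩ := Model.clique (Jp_cl (G := G) (poor s r b))
        refine ⟨_, h2.le (Jp_sub _), ?_⟩
        have h4 := (Cov.triv (G := G) (Qp G (poor s r b))).union
          (Cov.triv (G := G) (Jp G (poor s r b)))
        rw [Qp_Jp] at h4
        apply h4.mono
        rw [h3]
        have h5 : (Qp G (poor s r b)).card < N1 (r * D) := h1
        omega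
    have hcov : Cov G Finset.univ (𝓑.card + N1 (r * D) + t) := by
      have h1 := hC.union hrich
      rwa [Finset.union_sdiff_of_subset (Finset.subset_univ _)] at h1
    have hTT : TT r b E = r * r * (b * D) + N1 (r * D) + E := rfl
    obtain ⟨R, hR1, hR2, hR3⟩ := choose_R (s := s) (b := b) h.card_le hb2
    have hRc : t * (r * r + 2 * r + 3) ≤ R.card := by
      have h1 : 2 ^ r * (t * (r * r + 2 * r + 3)) ≤ 2 ^ r * R.card := by
        have h2 : 2 ^ r * (t * (r * r + 2 * r + 3 + c)) = t * b := by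
          rw [hbs]; ring
        have h3 : 2 ^ r * (t * (r * r + 2 * r + 3)) ≤ 2 ^ r * (t * (r * r + 2 * r + 3 + c)) :=
          Nat.mul_le_mul_left _ (Nat.mul_le_mul_left _ (by omega))
        refine h3.trans ?_
        rw [h2, mul_comm (2 ^ r) R.card]
        exact hR2
      exact Nat.le_of_mul_le_mul_left h1 (by positivity)
    obtain ⟨𝒜, hA1, hA2, hA3⟩ := pack h (δ := t + b * D) (2 * t) R (fun u hu => (hR1 u hu).1) hR3 (by
      refine le_trans ?_ hRc
      have h1 : r * r * (t + b * D) = r * r * t + r * r * (b * D) := by ring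
      have h2 : t * (r * r + 2 * r + 3) = r * r * t + t + (r + 1) * (2 * t) := by ring
      rw [h1, h2]
      omega)
    have hMA := pack_model h (fun A hA => (hA2 A hA).2) hA3
    obtain ⟨m1, c1⟩ := (hM.le (Finset.subset_univ _)).union2 hMA (by
        intro B hB A hA
        rw [Finset.disjoint_left]
        intro u hu hu'
        exact (hR1 u ((hA2 A hA).1 hu')).2 (hM.sub B hB hu)) (by
        intro B hB A hA
        obtain ⟨u, hu⟩ := (hM.conn B hB).1
        have huA : u ∉ A := fun hu' => (hR1 u ((hA2 A hA).1 hu')).2 (hM.sub B hB hu)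
        obtain ⟨a, ha, hua⟩ := clique_dom h (hA2 A hA).2.2 (hA2 A hA).2.1 huA
        exact ⟨u, hu, a, ha, hua⟩)
    refine ⟨_, _, m1, hcov, ?_⟩
    rw [c1, hA1]
    omega

/-- few members of a sunflower meet a set that avoids the kernel -/
lemma few_meet {κ : Type} {a : κ → Finset P} {K Z : Finset P} {T : Finset κ} (h : Sun a K T)
    (hZ : Disjoint K Z) : (T.filter fun i => ¬ Disjoint (a i) Z).card ≤ Z.card := by
  have h1 : ∀ i ∈ T.filter (fun i => ¬ Disjoint (a i) Z), ∃ z, z ∈ Z ∧ z ∈ a i := by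
    intro i hi
    have h2 := (Finset.mem_filter.1 hi).2
    rw [Finset.not_disjoint_iff] at h2
    obtain ⟨z, hz, hz'⟩ := h2
    exact ⟨z, hz', hz⟩
  by_contra hcon
  push Not at hcon
  have hne : Nonempty P := by
    obtain ⟨i, hi⟩ := Finset.card_pos.1 (show 0 < (T.filter fun i => ¬ Disjoint (a i) Z).card by omega)
    obtain ⟨z, _⟩ := h1 i hi
    exact ⟨z⟩
  choose! f hf using h1
  obtain ⟨i, hi, j, hj, hij, hfij⟩ := Finset.exists_ne_map_eq_of_card_lt_of_maps_to hcon
    (f := f) (fun i hi => (hf i hi).1)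
  have h3 : f i ∈ a i ∩ a j := Finset.mem_inter.2 ⟨(hf i hi).2, hfij ▸ (hf j hj).2⟩
  rw [h.2 i (Finset.mem_filter.1 hi).1 j (Finset.mem_filter.1 hj).1 hij] at h3
  exact Finset.disjoint_left.1 hZ h3 (hf i hi).1

/-- two large sunflowers with disjoint kernels and a clique -/
lemma two_kernels (h : Dis G s r) {L1 L2 : Finset P} {S1 S2 J : Finset U} (m : ℕ)
    (hL : Disjoint L1 L2) (hL1 : L1.card ≤ r) (hL2 : L2.card ≤ r) (hL2n : L2.Nonempty)
    (hS1 : Sun s L1 S1) (hS2 : Sun s L2 S2) (hS1n : ∀ u ∈ S1, u ∉ J) (hS2n : ∀ u ∈ S2, u ∉ J)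
    (hJ : Cl G J) (h1 : (r + 1) * m + r ≤ S1.card) (h2 : m + r * ((r + 1) * m) ≤ S2.card) :
    ∃ 𝓑, Model G Finset.univ 𝓑 ∧ J.card + m ≤ 𝓑.card + r := by
  -- members of the first sunflower
  obtain ⟨X, hX, hXc⟩ : ∃ X ⊆ S1.filter (fun u => Disjoint (s u) L2), X.card = (r + 1) * m := by
    apply Finset.exists_subset_card_eq
    have h3 := few_meet hS1 hL
    have h4 := Finset.card_filter_add_card_filter_not (s := S1) (fun u => Disjoint (s u) L2)
    omega
  have hXS : ∀ x ∈ X, x ∈ S1 := fun x hx => (Finset.mem_filter.1 (hX hx)).1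
  have hXL : ∀ x ∈ X, Disjoint (s x) L2 := fun x hx => (Finset.mem_filter.1 (hX hx)).2
  -- members of the second sunflower
  obtain ⟨W, hW, hWc⟩ : ∃ W ⊆ S2.filter (fun u => Disjoint (s u) (X.biUnion s)), W.card = m := by
    apply Finset.exists_subset_card_eq
    have h3 := few_meet (Z := X.biUnion s) hS2 (by
      rw [Finset.disjoint_left]
      intro z hz hz'
      obtain ⟨x, hx, hzx⟩ := Finset.mem_biUnion.1 hz'
      exact Finset.disjoint_left.1 (hXL x hx) hzx hz)
    have h4 := Finset.card_filter_add_card_filter_not (s := S2)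
      (fun u => Disjoint (s u) (X.biUnion s))
    have h5 : (X.biUnion s).card ≤ X.card * r :=
      Finset.card_biUnion_le_card_mul _ _ r (fun u _ => h.card_le u)
    rw [hXc, mul_comm _ r] at h5
    omega
  have hWS : ∀ x ∈ W, x ∈ S2 := fun x hx => (Finset.mem_filter.1 (hW hx)).1
  have hWX : ∀ w ∈ W, ∀ x ∈ X, Disjoint (s w) (s x) := fun w hw x hx =>
    Finset.disjoint_of_subset_right (fun z hz => Finset.mem_biUnion.2 ⟨x, hx, hz⟩)
      (Finset.mem_filter.1 (hW hw)).2
  have hne : ∀ w ∈ W, ∀ x ∈ X, w ≠ x := by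
    rintro w hw x hx rfl
    have h3 := hWX w hw w hx
    rw [disjoint_self] at h3
    obtain ⟨z, hz⟩ := hL2n
    have h4 := hS2.1 w (hWS w hw) hz
    rw [h3] at h4
    exact absurd h4 (Finset.notMem_empty z)
  have hadj : ∀ w ∈ W, ∀ x ∈ X, G.Adj w x := fun w hw x hx =>
    (h.adj w x).2 ⟨hne w hw x hx, hWX w hw x hx⟩
  obtain ⟨Y, hY1, hY2⟩ := blocks (r + 1) W X (by rw [hWc, hXc])
  -- the clique
  set J' := J.filter fun u => Disjoint (s u) L1 with hJ'
  have hJc : J.card ≤ J'.card + r := by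
    have h3 : Sun s (∅ : Finset P) J := by
      refine ⟨fun _ _ => Finset.empty_subset _, ?_⟩
      intro i hi j hj hij
      exact Finset.disjoint_iff_inter_eq_empty.1 ((h.adj i j).1 (hJ i hi j hj hij)).2
    have h4 := few_meet (Z := L1) h3 (Finset.disjoint_empty_left _)
    have h5 := Finset.card_filter_add_card_filter_not (s := J) (fun u => Disjoint (s u) L1)
    rw [← hJ'] at h5
    omega
  have hJJ : ∀ j ∈ J', j ∈ J := fun j hj => (Finset.mem_filter.1 hj).1
  obtain ⟨m1, c1⟩ := Model.ofFn (G := G) W (fun w => insert w (Y w)) (F := Finset.univ)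
    (fun _ _ => Finset.subset_univ _)
    (fun w hw => conn_star w _ (fun x hx => hadj w hw x ((hY1 w hw).1 hx))) (by
      intro w hw w' hw' hww
      rw [Finset.disjoint_insert_left, Finset.disjoint_insert_right]
      refine ⟨?_, ?_, hY2 w hw w' hw' hww⟩
      · intro h3
        rcases Finset.mem_insert.1 h3 with h3 | h3
        · exact hww h3
        · exact hne w hw w ((hY1 w' hw').1 h3) rfl
      · intro h3
        exact hne w' hw' w' ((hY1 w hw).1 h3) rfl) (by
      intro w hw w' hw' hww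
      obtain ⟨x, hx⟩ := Finset.card_pos.1 (show 0 < (Y w').card by rw [(hY1 w' hw').2]; omega)
      exact ⟨w, by simp, x, Finset.mem_insert_of_mem hx, hadj w hw x ((hY1 w' hw').1 hx)⟩)
  obtain ⟨m2, c2⟩ := Model.clique (G := G) (J := J')
    (fun a ha b hb hab => hJ a (hJJ a ha) b (hJJ b hb) hab)
  obtain ⟨m3, c3⟩ := m1.union2 (m2.le (Finset.subset_univ _)) (by
      intro B hB C hC
      obtain ⟨w, hw, rfl⟩ := Finset.mem_image.1 hB
      obtain ⟨j, hj, rfl⟩ := Finset.mem_image.1 hC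
      rw [Finset.disjoint_singleton_right, Finset.mem_insert]
      rintro (h3 | h3)
      · exact hS2n w (hWS w hw) (h3 ▸ hJJ j hj)
      · exact hS1n j (hXS j ((hY1 w hw).1 h3)) (hJJ j hj)) (by
      intro B hB C hC
      obtain ⟨w, hw, rfl⟩ := Finset.mem_image.1 hB
      obtain ⟨j, hj, rfl⟩ := Finset.mem_image.1 hC
      have h3 : Sun s L1 (Y w) := hS1.mono (fun x hx => hXS x ((hY1 w hw).1 hx))
      have h4 := few_meet (Z := s j) h3 (Finset.mem_filter.1 hj).2.symm
      have h5 := h.card_le j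
      have h6 := Finset.card_filter_add_card_filter_not (s := Y w) (fun u => Disjoint (s u) (s j))
      rw [(hY1 w hw).2] at h6
      obtain ⟨x, hx⟩ := Finset.card_pos.1 (show 0 < ((Y w).filter fun u => Disjoint (s u) (s j)).card by
        omega)
      rw [Finset.mem_filter] at hx
      refine ⟨x, Finset.mem_insert_of_mem hx.1, j, by simp, (h.adj x j).2 ⟨?_, hx.2⟩⟩
      rintro rfl
      exact hS1n x (hXS x ((hY1 w hw).1 hx.1)) (hJJ x hj))
  refine ⟨_, m3, ?_⟩
  rw [c3, c1, c2, hWc]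
  omega

lemma Rich.anti {b b' : ℕ} (hb : b ≤ b') {K : Finset P} (h : Rich s r b' K) : Rich s r b K := by
  obtain ⟨h1, T, hT, hTc⟩ := h
  have h2 : cc r b K.card ≤ T.card := by
    rw [hTc]
    exact Nat.mul_le_mul_right _ hb
  obtain ⟨S, hS, hSc⟩ := Finset.exists_subset_card_eq h2
  exact ⟨h1, S, hT.mono hS, hSc⟩

/-- pairwise intersecting kernels: a critical graph has few vertices with non-neighbours -/
lemma critical_small (h : Dis G s r) (hb1 : 1 ≤ b) {k : ℕ}
    (hK : ∀ K ∈ ker s r b, ∀ L ∈ ker s r b, ¬ Disjoint K L)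
    (hk : ¬ Cov G Finset.univ k) (hcrit : ∀ v, Cov G (Finset.univ.erase v) k) :
    (Qp G Finset.univ).card ≤ (Qp G (poor s r b)).card + 2 ^ (Qp G (poor s r b)).card := by
  set F := poor s r b with hF
  have hRi : ∀ u, u ∉ F → ∀ w, w ∉ F → ¬ G.Adj u w := by
    intro u hu w hw hadj
    obtain ⟨K, hK1, hK2⟩ := ker_of_not_poor hb1 hu
    obtain ⟨L, hL1, hL2⟩ := ker_of_not_poor hb1 hw
    exact hK K hK1 L hL1 (Finset.disjoint_of_subset_left hK2
      (Finset.disjoint_of_subset_right hL2 ((h.adj u w).1 hadj).2))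
  -- vertices outside `F` are complete to `Jp F`
  have hcomp : ∀ v, v ∉ F → ∀ j ∈ Jp G F, G.Adj v j := by
    by_contra hcon
    push Not at hcon
    obtain ⟨v, hv, j0, hj0, hvj0⟩ := hcon
    apply hk
    obtain ⟨C, hC1, hC2, hC3⟩ := hcrit v
    set X : Finset U := Finset.univ.filter fun u => u ∈ F ∨ ∀ j ∈ Jp G F, G.Adj u j with hX
    have hXj : ∀ j ∈ Jp G F, ∀ x ∈ X, x ≠ j → G.Adj x j := by
      intro j hj x hx hxj
      rcases (Finset.mem_filter.1 hx).2 with h1 | h1
      · exact (Jp_adj hj h1 hxj.symm).symm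
      · exact h1 j hj
    have hvX : v ∉ X := by
      intro h1
      rcases (Finset.mem_filter.1 h1).2 with h1 | h1
      · exact hv h1
      · exact hvj0 (h1 j0 hj0)
    refine ⟨C.image fun A => (A.filter fun u => u ∈ X) ∪
      Finset.univ.filter fun u => u ∉ X ∧ ∃ j ∈ Jp G F, j ∈ A ∧ ¬ G.Adj u j,
      Finset.card_image_le.trans hC1, ?_, ?_⟩
    · intro A' hA'
      obtain ⟨A, hA, rfl⟩ := Finset.mem_image.1 hA'
      have hnF : ∀ u, u ∉ X → u ∉ F := fun u hu huF =>
        hu (Finset.mem_filter.2 ⟨Finset.mem_univ _, Or.inl huF⟩)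
      have key : ∀ e, e ∈ A ∧ e ∈ X → ∀ f, f ∉ X ∧ (∃ j ∈ Jp G F, j ∈ A ∧ ¬ G.Adj f j) →
          ¬ G.Adj e f := by
        rintro e ⟨heA, heX⟩ f ⟨hfX, j, hj, hjA, hfj⟩ hef
        by_cases hej : e = j
        · rw [hej] at hef
          exact hfj hef.symm
        · exact hC2 A hA e heA j hjA (hXj j hj e heX hej)
      intro e he f hf
      simp only [Finset.mem_union, Finset.mem_filter, Finset.mem_univ, true_and] at he hf
      rcases he with he | he <;> rcases hf with hf | hf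
      · exact hC2 A hA e he.1 f hf.1
      · exact key e he f hf
      · exact fun h' => key f hf e he h'.symm
      · exact hRi e (hnF e he.1) f (hnF f hf.1)
    · intro u _
      by_cases huX : u ∈ X
      · obtain ⟨A, hA, huA⟩ := hC3 u (Finset.mem_erase.2 ⟨fun h1 => hvX (h1 ▸ huX), Finset.mem_univ _⟩)
        exact ⟨_, Finset.mem_image.2 ⟨A, hA, rfl⟩,
          Finset.mem_union_left _ (Finset.mem_filter.2 ⟨huA, huX⟩)⟩
      · have h1 : ∃ j ∈ Jp G F, ¬ G.Adj u j := by
          by_contra hcon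
          push Not at hcon
          exact huX (Finset.mem_filter.2 ⟨Finset.mem_univ _, Or.inr hcon⟩)
        obtain ⟨j, hj, huj⟩ := h1
        have hjX : j ∈ X := Finset.mem_filter.2 ⟨Finset.mem_univ _, Or.inl (Jp_sub _ hj)⟩
        obtain ⟨A, hA, hjA⟩ := hC3 j (Finset.mem_erase.2 ⟨fun h1 => hvX (h1 ▸ hjX), Finset.mem_univ _⟩)
        exact ⟨_, Finset.mem_image.2 ⟨A, hA, rfl⟩, Finset.mem_union_right _
          (Finset.mem_filter.2 ⟨Finset.mem_univ _, huX, j, hj, hjA, huj⟩)⟩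
  -- the trace on `Qp F` is injective
  have hinj : ∀ u, u ∉ F → ∀ w, w ∉ F → u ≠ w →
      (Qp G F).filter (fun x => G.Adj u x) ≠ (Qp G F).filter (fun x => G.Adj w x) := by
    intro u hu w hw huw heq
    have hnb : ∀ x, G.Adj x u → G.Adj x w := by
      intro x hxu
      by_cases hxF : x ∈ F
      · rw [← Qp_Jp (G := G) F] at hxF
        rcases Finset.mem_union.1 hxF with h1 | h1
        · have h2 : x ∈ (Qp G F).filter (fun x => G.Adj u x) := Finset.mem_filter.2 ⟨h1, hxu.symm⟩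
          rw [heq] at h2
          exact (Finset.mem_filter.1 h2).2.symm
        · exact (hcomp w hw x h1).symm
      · exact absurd hxu (hRi x hxF u hu)
    apply hk
    obtain ⟨C, hC1, hC2, hC3⟩ := hcrit u
    refine ⟨C.image fun A => (A.erase u) ∪ (if w ∈ A then {u} else ∅),
      Finset.card_image_le.trans hC1, ?_, ?_⟩
    · intro A' hA'
      obtain ⟨A, hA, rfl⟩ := Finset.mem_image.1 hA'
      have key : ∀ e, e ∈ A → w ∈ A → ¬ G.Adj e u := fun e he hwA hadj =>
        hC2 A hA e he w hwA (hnb e hadj)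
      by_cases hwA : w ∈ A
      · rw [if_pos hwA]
        intro e he f hf
        simp only [Finset.mem_union, Finset.mem_erase, Finset.mem_singleton] at he hf
        rcases he with he | he <;> rcases hf with hf | hf
        · exact hC2 A hA e he.2 f hf.2
        · rw [hf]; exact key e he.2 hwA
        · rw [he]; exact fun h' => key f hf.2 hwA h'.symm
        · rw [he, hf]; exact G.irrefl
      · rw [if_neg hwA, Finset.union_empty]
        intro e he f hf
        exact hC2 A hA e (Finset.mem_of_mem_erase he) f (Finset.mem_of_mem_erase hf)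
    · intro x _
      by_cases hxu : x = u
      · obtain ⟨A, hA, hwA⟩ := hC3 w (Finset.mem_erase.2 ⟨huw.symm, Finset.mem_univ _⟩)
        refine ⟨_, Finset.mem_image.2 ⟨A, hA, rfl⟩, Finset.mem_union_right _ ?_⟩
        rw [if_pos hwA, hxu]
        simp
      · obtain ⟨A, hA, hxA⟩ := hC3 x (Finset.mem_erase.2 ⟨hxu, Finset.mem_univ _⟩)
        exact ⟨_, Finset.mem_image.2 ⟨A, hA, rfl⟩,
          Finset.mem_union_left _ (Finset.mem_erase.2 ⟨hxu, hxA⟩)⟩
  have hsub : Qp G Finset.univ ⊆ Qp G F ∪ (Finset.univ \ F) := by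
    intro u hu
    by_cases huF : u ∈ F
    · apply Finset.mem_union_left
      rw [← Qp_Jp (G := G) F] at huF
      rcases Finset.mem_union.1 huF with h1 | h1
      · exact h1
      · exfalso
        obtain ⟨-, w, -, hwu, hn⟩ := Finset.mem_filter.1 hu
        by_cases hwF : w ∈ F
        · exact hn (Jp_adj h1 hwF hwu.symm)
        · exact hn (hcomp w hwF u h1).symm
    · exact Finset.mem_union_right _ (Finset.mem_sdiff.2 ⟨Finset.mem_univ _, huF⟩)
  refine (Finset.card_le_card hsub).trans ((Finset.card_union_le _ _).trans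
    (Nat.add_le_add_left ?_ _))
  rw [← Finset.card_powerset]
  apply Finset.card_le_card_of_injOn (fun u => (Qp G F).filter (fun x => G.Adj u x))
  · intro u _
    exact Finset.mem_coe.2 (Finset.mem_powerset.2 (Finset.filter_subset _ _))
  · intro u hu w hw heq
    by_contra hne
    rw [Finset.mem_coe, Finset.mem_sdiff] at hu hw
    exact hinj u hu.2 w hw.2 hne heq

/-- number of branch sets needed from the two sunflowers -/
def m1 (r E : ℕ) : ℕ := TT r (bs r 0) E + MM r (bs r 0) E + r + E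

def c2 (r E : ℕ) : ℕ := m1 r E + r * ((r + 1) * m1 r E) + (r + 1) * m1 r E + r

def NN (r E : ℕ) : ℕ := MM r (bs r (c2 r E)) E + 2 ^ MM r (bs r (c2 r E)) E

/-- large critical graphs -/
theorem critical (h : Dis G s r) (E : ℕ) {k : ℕ} (hk : ¬ Cov G Finset.univ k)
    (hcrit : ∀ v, Cov G (Finset.univ.erase v) k) (hN : NN r E ≤ (Qp G Finset.univ).card) :
    ∃ 𝓑, Model G Finset.univ 𝓑 ∧ k + 1 + E ≤ 𝓑.card := by
  have fin : (∃ 𝓑 k', Model G Finset.univ 𝓑 ∧ Cov G Finset.univ k' ∧ k' + E ≤ 𝓑.card) →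
      ∃ 𝓑, Model G Finset.univ 𝓑 ∧ k + 1 + E ≤ 𝓑.card := by
    rintro ⟨𝓑, k', h1, h2, h3⟩
    have h4 : k < k' := by
      by_contra hcon
      exact hk (h2.mono (by omega))
    exact ⟨𝓑, h1, by omega⟩
  rcases scale h 0 E with h1 | ⟨h1, h2⟩
  · exact fin h1
  rcases scale h (c2 r E) E with h3 | ⟨-, h3⟩
  · exact fin h3
  set b1 := bs r 0 with hb1
  set b2 := bs r (c2 r E) with hb2
  have hb1' : 1 ≤ b1 := by have := (bs_ge r 0).1; omega
  have hb2' : 1 ≤ b2 := by have := (bs_ge r (c2 r E)).1; omega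
  have hb2c : c2 r E ≤ b2 := (bs_ge r (c2 r E)).2
  have hb12 : b1 ≤ b2 := by
    rw [hb1, hb2]
    unfold bs
    exact Nat.mul_le_mul_left _ (by omega)
  by_cases hdis : ∃ K ∈ ker s r b2, ∃ L ∈ ker s r b2, Disjoint K L
  · obtain ⟨L1, hL1, L2, hL2, hL⟩ := hdis
    obtain ⟨hR1, -⟩ := (mem_ker hb2').1 hL1
    obtain ⟨hR2, -⟩ := (mem_ker hb2').1 hL2
    have hr1 := ker_card h.card_le hb2' hL1
    have hr2 := ker_card h.card_le hb2' hL2
    have hnp1 := hR1.anti hb12
    have hnp2 := hR2.anti hb12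
    obtain ⟨-, S1, hS1, hS1c⟩ := hR1
    obtain ⟨hL2n, S2, hS2, hS2c⟩ := hR2
    have hc1 := cc_le (r := r) hb2' L1.card
    have hc2 := cc_le (r := r) hb2' L2.card
    have hc : c2 r E = m1 r E + r * ((r + 1) * m1 r E) + (r + 1) * m1 r E + r := rfl
    obtain ⟨𝓑, hM, hMc⟩ := two_kernels h (J := Jp G (poor s r b1)) (m1 r E) hL hr1 hr2 hL2n hS1 hS2
      (fun u hu hJ => not_poor hnp1 (hS1.1 u hu) (Jp_sub _ hJ))
      (fun u hu hJ => not_poor hnp2 (hS2.1 u hu) (Jp_sub _ hJ))
      (Jp_cl _) (by omega) (by omega)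
    apply fin
    have h4 := ((Cov.triv (G := G) (Qp G (poor s r b1))).union
      (Cov.triv (G := G) (Jp G (poor s r b1))))
    rw [Qp_Jp] at h4
    have h5 := h4.union (rich_cov h hb1')
    rw [Finset.union_sdiff_of_subset (Finset.subset_univ _)] at h5
    refine ⟨𝓑, _, hM, h5, ?_⟩
    have h6 : m1 r E = TT r b1 E + MM r b1 E + r + E := rfl
    omega
  · exfalso
    push Not at hdis
    have h4 := critical_small h hb2' hdis hk hcrit
    have h5 : 2 ^ (Qp G (poor s r b2)).card ≤ 2 ^ MM r b2 E := Nat.pow_le_pow_right (by norm_num) h3.le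
    have h6 : NN r E = MM r b2 E + 2 ^ MM r b2 E := rfl
    omega

/-- the same without `Finset.erase` -/
theorem critical' (h : Dis G s r) (E : ℕ) {k : ℕ} (hk : ¬ Cov G Finset.univ k)
    (hcrit : ∀ v, ∃ A : Finset U, (∀ x, x ≠ v → x ∈ A) ∧ Cov G A k)
    (hN : NN r E ≤ (Qp G Finset.univ).card) :
    ∃ 𝓑, Model G Finset.univ 𝓑 ∧ k + 1 + E ≤ 𝓑.card := by
  refine critical h E hk (fun v => ?_) hN
  obtain ⟨A, hA, hc⟩ := hcrit v
  exact hc.le fun x hx => hA x (Finset.mem_erase.1 hx).1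

end Pool.Agent.N425.KS
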