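import Pool.Agent.N425.KT2
import Pool.Agent.N425.KR5

set_option autoImplicit false
set_option linter.unusedSectionVars false

open Classical

noncomputable section

namespace Pool.Agent.N425.KT

open Pool.Agent.N425.KR Pool.Agent.N425.KS

variable {U P : Type} {G : SimpleGraph U}

/-- clique minors indexed by a type -/
def Mnr {U : Type} (G : SimpleGraph U) (ι : Type) : Prop :=
  ∃ B : ι → Set U,
    (∀ i, (G.induce (B i)).Connected) ∧
    (∀ i j, i ≠ j → Disjoint (B i) (B j)) ∧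
    (∀ i j, i ≠ j → ∃ u ∈ B i, ∃ w ∈ B j, G.Adj u w)

lemma Mnr.comap {ι κ : Type} (h : Mnr G ι) (f : κ → ι) (hf : Function.Injective f) : Mnr G κ := by
  obtain ⟨B, h1, h2, h3⟩ := h
  exact ⟨fun i => B (f i), fun i => h1 _, fun i j hij => h2 _ _ (fun h => hij (hf h)),
    fun i j hij => h3 _ _ (fun h => hij (hf h))⟩

lemma Mnr.of_induce {S : Set U} {ι : Type} (h : Mnr (G.induce S) ι) :
    ∃ B : ι → Set U, (∀ i, B i ⊆ S) ∧
    (∀ i, (G.induce (B i)).Connected) ∧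
    (∀ i j, i ≠ j → Disjoint (B i) (B j)) ∧
    (∀ i j, i ≠ j → ∃ u ∈ B i, ∃ w ∈ B j, G.Adj u w) := by
  obtain ⟨B, h1, h2, h3⟩ := h
  refine ⟨fun i => Subtype.val '' B i, ?_, ?_, ?_, ?_⟩
  · rintro i _ ⟨x, _, rfl⟩
    exact x.2
  · intro i
    let f : (G.induce S).induce (B i) →g G.induce (Subtype.val '' B i) :=
      { toFun := fun x => ⟨x.1.1, x.1, x.2, rfl⟩
        map_rel' := fun {a b} hab => hab }
    refine (h1 i).map f ?_
    rintro ⟨_, x, hx, rfl⟩
    exact ⟨⟨x, hx⟩, rfl⟩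
  · intro i j hij
    exact (Set.disjoint_image_iff Subtype.val_injective).2 (h2 i j hij)
  · intro i j hij
    obtain ⟨u, hu, w, hw, huw⟩ := h3 i j hij
    exact ⟨u.1, ⟨u, hu, rfl⟩, w.1, ⟨w, hw, rfl⟩, huw⟩

lemma single_connected (u : U) : (G.induce ({u} : Set U)).Connected := by
  have := (conn_single (G := G) u).connected
  have e : {x : U | x ∈ ({u} : Finset U)} = ({u} : Set U) := by
    ext x; simp
  rwa [e] at this

/-- add a complete set of vertices to a minor -/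
lemma Mnr.add {X Y : Set U} {ι : Type} (h : Mnr (G.induce X) ι) (hXY : Disjoint X Y)
    (hY : ∀ a ∈ Y, ∀ b ∈ Y, a ≠ b → G.Adj a b) (hYX : ∀ a ∈ Y, ∀ b ∈ X, G.Adj a b) :
    Mnr G (ι ⊕ Y) := by
  obtain ⟨B, h0, h1, h2, h3⟩ := h.of_induce
  have hB : ∀ i, ∃ x, x ∈ B i := by
    intro i
    obtain ⟨x⟩ := (h1 i).nonempty
    exact ⟨x.1, x.2⟩
  refine ⟨fun i => match i with
    | Sum.inl i => B i
    | Sum.inr y => {y.1}, ?_, ?_, ?_⟩
  · rintro (i | y)
    · exact h1 i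
    · exact single_connected _
  · rintro (i | y) (j | z) hij
    · exact h2 i j (fun h => hij (by rw [h]))
    · rw [Set.disjoint_singleton_right]
      exact fun h => Set.disjoint_left.1 hXY (h0 i h) z.2
    · rw [Set.disjoint_singleton_left]
      exact fun h => Set.disjoint_left.1 hXY (h0 j h) y.2
    · rw [Set.disjoint_singleton_left, Set.mem_singleton_iff]
      exact fun h => hij (by rw [Subtype.ext h])
  · rintro (i | y) (j | z) hij
    · exact h3 i j (fun h => hij (by rw [h]))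
    · obtain ⟨x, hx⟩ := hB i
      exact ⟨x, hx, z.1, rfl, (hYX z.1 z.2 x (h0 i hx)).symm⟩
    · obtain ⟨x, hx⟩ := hB j
      exact ⟨y.1, rfl, x, hx, hYX y.1 y.2 x (h0 j hx)⟩
    · refine ⟨y.1, rfl, z.1, rfl, hY y.1 y.2 z.1 z.2 ?_⟩
      exact fun h => hij (by rw [Subtype.ext h])

lemma Cov.of_colorable {F : Finset U} {k : ℕ} (h : (G.induce {u | u ∈ F}).Colorable k) :
    Cov G F k := by
  obtain ⟨C⟩ := h
  refine ⟨(Finset.univ : Finset (Fin k)).image (fun i => F.filter (fun u => ∃ h : u ∈ F,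
    C ⟨u, h⟩ = i)), ?_, ?_, ?_⟩
  · refine Finset.card_image_le.trans ?_
    rw [Finset.card_univ, Fintype.card_fin]
  · intro A hA e he f hf hef
    obtain ⟨i, _, rfl⟩ := Finset.mem_image.1 hA
    obtain ⟨-, he, hei⟩ := Finset.mem_filter.1 he
    obtain ⟨-, hf, hfi⟩ := Finset.mem_filter.1 hf
    have h1 : (G.induce {u | u ∈ F}).Adj ⟨e, he⟩ ⟨f, hf⟩ := hef
    exact C.valid h1 (hei.trans hfi.symm)
  · intro e he
    exact ⟨_, Finset.mem_image.2 ⟨C ⟨e, he⟩, Finset.mem_univ _, rfl⟩,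
      Finset.mem_filter.2 ⟨he, he, rfl⟩⟩

lemma Cov.colorable_on {F : Finset U} {k : ℕ} (h : Cov G F k) :
    (G.induce {u | u ∈ F}).Colorable k := by
  obtain ⟨P, hP1, hP2, hP3⟩ := h
  have hc : ∀ u : {u | u ∈ F}, ∃ C : {C // C ∈ P}, u.1 ∈ C.1 := by
    intro u
    obtain ⟨C, hC, hu⟩ := hP3 u.1 u.2
    exact ⟨⟨C, hC⟩, hu⟩
  choose c hc using hc
  have hcol : (G.induce {u | u ∈ F}).Colorable (Fintype.card {C // C ∈ P}) :=
    (SimpleGraph.Coloring.mk c (fun {u w} huw heq =>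
      hP2 (c u).1 (c u).2 u (hc u) w (heq ▸ hc w) huw)).colorable
  rw [Fintype.card_coe] at hcol
  exact hcol.mono hP1

/-- covers of the induced graph on a subset -/
lemma Cov.up {F : Finset U} {A : Finset {u | u ∈ F}} {k : ℕ}
    (h : Cov (G.induce {u | u ∈ F}) A k) : Cov G (A.image Subtype.val) k := by
  obtain ⟨P, hP1, hP2, hP3⟩ := h
  refine ⟨P.image fun C => C.image Subtype.val, Finset.card_image_le.trans hP1, ?_, ?_⟩
  · intro C' hC' e he f hf hef
    obtain ⟨C, hC, rfl⟩ := Finset.mem_image.1 hC'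
    obtain ⟨e', he', rfl⟩ := Finset.mem_image.1 he
    obtain ⟨f', hf', rfl⟩ := Finset.mem_image.1 hf
    exact hP2 C hC e' he' f' hf' hef
  · intro e he
    obtain ⟨e', he', rfl⟩ := Finset.mem_image.1 he
    obtain ⟨C, hC, heC⟩ := hP3 e' he'
    exact ⟨_, Finset.mem_image.2 ⟨C, hC, rfl⟩, Finset.mem_image_of_mem _ heC⟩

lemma Cov.down {F : Finset U} {A : Finset {u | u ∈ F}} {k : ℕ}
    (h : Cov G (A.image Subtype.val) k) : Cov (G.induce {u | u ∈ F}) A k := by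
  obtain ⟨P, hP1, hP2, hP3⟩ := h
  refine ⟨P.image fun C => A.filter fun u => u.1 ∈ C, Finset.card_image_le.trans hP1, ?_, ?_⟩
  · intro C' hC' e he f hf hef
    obtain ⟨C, hC, rfl⟩ := Finset.mem_image.1 hC'
    exact hP2 C hC e.1 (Finset.mem_filter.1 he).2 f.1 (Finset.mem_filter.1 hf).2 hef
  · intro e he
    obtain ⟨C, hC, heC⟩ := hP3 e.1 (Finset.mem_image_of_mem _ he)
    exact ⟨_, Finset.mem_image.2 ⟨C, hC, rfl⟩, Finset.mem_filter.2 ⟨he, heC⟩⟩

lemma mem_Qp {V : Type} {H : SimpleGraph V} {F : Finset V} {u : V} :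
    u ∈ Qp H F ↔ u ∈ F ∧ ∃ w ∈ F, w ≠ u ∧ ¬ H.Adj u w := by
  unfold Qp
  exact Finset.mem_filter

/-- the main dichotomy -/
theorem dichotomy {U : Type} [Fintype U] {G : SimpleGraph U} {s : U → Finset P} {r : ℕ}
    (h : Dis G s r) (E k : ℕ) (hk : ¬ G.Colorable k) :
    Mnr G (Fin (k + 1 + E)) ∨ ∃ F : Finset U, ¬ Cov G F k ∧ (Qp G F).card ≤ NN r E := by
  have hk' : ¬ Cov G Finset.univ k := fun h => hk h.colorable
  obtain ⟨F, hF, hFmin⟩ := Finset.exists_min_image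
    ((Finset.univ : Finset (Finset U)).filter fun F => ¬ Cov G F k) (fun F => F.card)
    ⟨Finset.univ, Finset.mem_filter.2 ⟨Finset.mem_univ _, hk'⟩⟩
  have hFk : ¬ Cov G F k := (Finset.mem_filter.1 hF).2
  have hmin : ∀ v ∈ F, Cov G (F.erase v) k := by
    intro v hv
    by_contra hcon
    have h1 := hFmin (F.erase v) (Finset.mem_filter.2 ⟨Finset.mem_univ _, hcon⟩)
    have h2 := Finset.card_erase_lt_of_mem hv
    omega
  by_cases hN : (Qp G F).card ≤ NN r E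
  · exact Or.inr ⟨F, hFk, hN⟩
  left
  push Not at hN
  have hD : Dis (G.induce {u | u ∈ F}) (fun u : {u | u ∈ F} => s u.1) r := by
    refine ⟨fun u => h.card_le u.1, ?_⟩
    intro u w
    have h1 : (G.induce {u | u ∈ F}).Adj u w ↔ G.Adj u.1 w.1 := Iff.rfl
    rw [h1, h.adj, ne_eq, ne_eq, Subtype.ext_iff]
  have himg : (Finset.univ : Finset {u | u ∈ F}).image Subtype.val = F := by
    ext x
    simp
  have hk1 : ¬ Cov (G.induce {u | u ∈ F}) Finset.univ k := by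
    intro h1
    have h2 := Cov.up h1
    rw [himg] at h2
    exact hFk h2
  have hcrit : ∀ v, ∃ A : Finset {u | u ∈ F}, (∀ x, x ≠ v → x ∈ A) ∧
      Cov (G.induce {u | u ∈ F}) A k := by
    intro v
    refine ⟨Finset.univ.filter fun x => x ≠ v, fun x hx => Finset.mem_filter.2
      ⟨Finset.mem_univ _, hx⟩, ?_⟩
    apply Cov.down
    refine (hmin v.1 v.2).le ?_
    intro x hx
    obtain ⟨y, hy, rfl⟩ := Finset.mem_image.1 hx
    rw [Finset.mem_erase]
    exact ⟨fun h1 => (Finset.mem_filter.1 hy).2 (Subtype.ext h1), y.2⟩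
  have hQ : Qp G F ⊆ (Qp (G.induce {u | u ∈ F}) Finset.univ).image Subtype.val := by
    intro u hu
    obtain ⟨huF, w, hw, hwu, hn⟩ := Finset.mem_filter.1 hu
    refine Finset.mem_image.2 ⟨⟨u, huF⟩, ?_, rfl⟩
    rw [mem_Qp]
    exact ⟨Finset.mem_univ _, ⟨w, hw⟩, Finset.mem_univ _, fun h1 => hwu (congrArg Subtype.val h1), hn⟩
  have hQc := (Finset.card_le_card hQ).trans Finset.card_image_le
  obtain ⟨𝓑, hM, hMc⟩ := critical' hD E hk1 hcrit (by omega)
  obtain ⟨B, h1, h2, h3⟩ := hM.minor hMc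
  obtain ⟨B', -, h1', h2', h3'⟩ := Mnr.of_induce (G := G) (S := {u | u ∈ F}) ⟨B, h1, h2, h3⟩
  exact ⟨B', h1', h2', h3'⟩

end Pool.Agent.N425.KT
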