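import Pool.Agent.N425.KT3

set_option autoImplicit false
set_option linter.unusedSectionVars false

open Classical

noncomputable section

namespace Pool.Agent.N425.KU

open Pool.Agent.N425.KR Pool.Agent.N425.KS

variable {U I : Type} [Fintype U] {G : SimpleGraph U} {c : U → I} {D b : ℕ}

/-- the members of a class -/
def fib (c : U → I) (i : I) : Finset U := Finset.univ.filter fun u => c u = i

/-- the classes that are not completely joined to the class `i` -/
def nb (G : SimpleGraph U) (c : U → I) (i : I) : Finset I :=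
  (Finset.univ.filter fun w => ∃ u, c u = i ∧ u ≠ w ∧ ¬ G.Adj u w).image c

structure Cell (G : SimpleGraph U) (c : U → I) (D : ℕ) : Prop where
  same : ∀ u w, c u = c w → ¬ G.Adj u w
  few : ∀ i, (nb G c i).card ≤ D

lemma mem_fib {i : I} {u : U} : u ∈ fib c i ↔ c u = i := by
  unfold fib
  rw [Finset.mem_filter]
  exact ⟨fun h => h.2, fun h => ⟨Finset.mem_univ _, h⟩⟩

lemma mem_nb {u w : U} (hne : u ≠ w) (hn : ¬ G.Adj u w) : c w ∈ nb G c (c u) :=
  Finset.mem_image.2 ⟨w, Finset.mem_filter.2 ⟨Finset.mem_univ _, u, rfl, hne, hn⟩, rfl⟩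

lemma adj_of {u w : U} (hne : u ≠ w) (hn : c w ∉ nb G c (c u)) : G.Adj u w := by
  by_contra hcon
  exact hn (mem_nb hne hcon)

/-- classes with at least `b` members -/
def big (c : U → I) (b : ℕ) : Finset I :=
  (Finset.univ.image c).filter fun i => b ≤ (fib c i).card

/-- vertices in classes with less than `b` members -/
def por (c : U → I) (b : ℕ) : Finset U := Finset.univ.filter fun u => (fib c (c u)).card < b

lemma mem_por {u : U} : u ∈ por c b ↔ (fib c (c u)).card < b := by
  unfold por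
  rw [Finset.mem_filter]
  exact ⟨fun h => h.2, fun h => ⟨Finset.mem_univ _, h⟩⟩

lemma mem_big {i : I} : i ∈ big c b ↔ (∃ u, c u = i) ∧ b ≤ (fib c i).card := by
  unfold big
  rw [Finset.mem_filter, Finset.mem_image]
  constructor
  · rintro ⟨⟨u, -, hu⟩, h2⟩
    exact ⟨⟨u, hu⟩, h2⟩
  · rintro ⟨⟨u, hu⟩, h2⟩
    exact ⟨⟨u, Finset.mem_univ _, hu⟩, h2⟩

lemma big_of_not_por {u : U} (hu : u ∉ por c b) : c u ∈ big c b := by
  rw [mem_por, not_lt] at hu
  exact mem_big.2 ⟨⟨u, rfl⟩, hu⟩

lemma not_por_of_big {u : U} (hu : c u ∈ big c b) : u ∉ por c b := by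
  rw [mem_por, not_lt]
  exact (mem_big.1 hu).2

lemma big_cov (h : Cell G c D) : Cov G (Finset.univ \ por c b) (big c b).card := by
  refine ⟨(big c b).image (fib c), Finset.card_image_le, ?_, ?_⟩
  · intro C hC u hu w hw
    obtain ⟨i, hi, rfl⟩ := Finset.mem_image.1 hC
    rw [mem_fib] at hu hw
    exact h.same u w (hu.trans hw.symm)
  · intro u hu
    exact ⟨_, Finset.mem_image.2 ⟨c u, big_of_not_por (Finset.mem_sdiff.1 hu).2, rfl⟩,
      mem_fib.2 rfl⟩

lemma deg (h : Cell G c D) {R : Finset U} (hR : ∀ i, (R.filter fun w => c w = i).card ≤ b)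
    (u : U) : (R.filter fun w => w ≠ u ∧ ¬ G.Adj u w).card ≤ D * b := by
  have hsub : (R.filter fun w => w ≠ u ∧ ¬ G.Adj u w) ⊆
      (nb G c (c u)).biUnion fun j => R.filter fun w => c w = j := by
    intro w hw
    obtain ⟨hwR, hwu, hn⟩ := Finset.mem_filter.1 hw
    exact Finset.mem_biUnion.2 ⟨c w, mem_nb hwu.symm hn, Finset.mem_filter.2 ⟨hwR, rfl⟩⟩
  refine (Finset.card_le_card hsub).trans
    ((Finset.card_biUnion_le_card_mul _ _ b (fun i _ => hR i)).trans ?_)
  exact Nat.mul_le_mul_right b (h.few _)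

lemma por_fib (i : I) : ((por c b).filter fun w => c w = i).card ≤ b := by
  by_cases hi : (fib c i).card < b
  · refine le_trans (Finset.card_le_card ?_) hi.le
    intro w hw
    exact mem_fib.2 (Finset.mem_filter.1 hw).2
  · have : (por c b).filter (fun w => c w = i) = ∅ := by
      rw [Finset.filter_eq_empty_iff]
      intro w hw hwi
      rw [mem_por, hwi] at hw
      exact hi hw
    rw [this]
    simp

/-- a clique with `D + 1` vertices dominates everything -/
lemma dom' (h : Cell G c D) {A : Finset U} (hA : Cl G A) (hAc : D + 1 ≤ A.card) {w : U}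
    (hw : w ∉ A) : ∃ a ∈ A, G.Adj w a := by
  by_contra hcon
  push Not at hcon
  have h1 : (A.image c).card = A.card := by
    apply Finset.card_image_of_injOn
    intro a ha b hb hab
    by_contra hne
    exact h.same a b hab (hA a ha b hb hne)
  have h2 : A.image c ⊆ nb G c (c w) := by
    intro i hi
    obtain ⟨a, ha, rfl⟩ := Finset.mem_image.1 hi
    exact mem_nb (fun h3 => hw (h3 ▸ ha)) (hcon a ha)
  have h3 := Finset.card_le_card h2
  have h4 := h.few (c w)
  omega

lemma pack' (h : Cell G c D) {δ : ℕ} (m : ℕ) : ∀ R : Finset U,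
    (∀ u ∈ R, (R.filter fun w => w ≠ u ∧ ¬ G.Adj u w).card ≤ δ) →
    (δ + 1) * (D + 1) + (D + 1) * m ≤ R.card →
    ∃ 𝒜 : Finset (Finset U), 𝒜.card = m ∧ (∀ A ∈ 𝒜, A ⊆ R ∧ A.card = D + 1 ∧ Cl G A) ∧
      ∀ A ∈ 𝒜, ∀ B ∈ 𝒜, A ≠ B → Disjoint A B := by
  induction m with
  | zero => intro R _ _; exact ⟨∅, by simp, by simp, by simp⟩
  | succ m ih =>
    intro R hδ hR
    rw [Nat.mul_add (D + 1) m 1, Nat.mul_one] at hR
    obtain ⟨A0, hA0R, hA0cl, hA0c⟩ := greedy_clique hδ
    have h5 : D + 1 ≤ A0.card := by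
      have h6 : (δ + 1) * (D + 1) ≤ (δ + 1) * A0.card := by omega
      exact Nat.le_of_mul_le_mul_left h6 (Nat.succ_pos δ)
    obtain ⟨A, hAA, hAc⟩ := Finset.exists_subset_card_eq h5
    have hAR : A ⊆ R := hAA.trans hA0R
    have hAcl : Cl G A := fun a ha b hb hab => hA0cl a (hAA ha) b (hAA hb) hab
    obtain ⟨𝒜, h1, h2, h3⟩ := ih (R \ A) (fun u hu => (Finset.card_le_card
      (Finset.filter_subset_filter _ Finset.sdiff_subset)).trans (hδ u (Finset.mem_sdiff.1 hu).1))
      (by rw [Finset.card_sdiff_of_subset hAR]; omega)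
    have hAd : ∀ B ∈ 𝒜, Disjoint A B := fun B hB =>
      Finset.disjoint_of_subset_right (h2 B hB).1 Finset.disjoint_sdiff
    have hAn : A ∉ 𝒜 := by
      intro hA
      have := hAd A hA
      rw [disjoint_self] at this
      rw [this] at hAc
      simp at hAc
    refine ⟨insert A 𝒜, by rw [Finset.card_insert_of_notMem hAn, h1], ?_, ?_⟩
    · intro B hB
      rcases Finset.mem_insert.1 hB with rfl | hB
      · exact ⟨hAR, hAc, hAcl⟩
      · exact ⟨(h2 B hB).1.trans Finset.sdiff_subset, (h2 B hB).2⟩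
    · intro B hB C hC hBC
      rcases Finset.mem_insert.1 hB with h4 | hB <;> rcases Finset.mem_insert.1 hC with h5 | hC
      · exact absurd (h4.trans h5.symm) hBC
      · rw [h4]; exact hAd C hC
      · rw [h5]; exact (hAd B hB).symm
      · exact h3 B hB C hC hBC

lemma pack_model' (h : Cell G c D) {𝒜 : Finset (Finset U)}
    (h2 : ∀ A ∈ 𝒜, A.card = D + 1 ∧ Cl G A) (h3 : ∀ A ∈ 𝒜, ∀ B ∈ 𝒜, A ≠ B → Disjoint A B) :
    Model G Finset.univ 𝒜 := by
  have hne : ∀ A ∈ 𝒜, A.Nonempty := fun A hA =>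
    Finset.card_pos.1 (by rw [(h2 A hA).1]; omega)
  refine ⟨fun A _ => Finset.subset_univ A, fun A hA => clique_conn (h2 A hA).2 (hne A hA), h3, ?_⟩
  intro A hA B hB hAB
  obtain ⟨b, hb⟩ := hne B hB
  obtain ⟨a, ha, hab⟩ := dom' h (h2 A hA).2 (h2 A hA).1.ge
    (fun hbA => Finset.disjoint_left.1 (h3 A hA B hB hAB) hbA hb)
  exact ⟨a, ha, b, hb, hab.symm⟩

/-- choose `b` members of every big class -/
lemma choose_R' : ∃ R : Finset U, (∀ u ∈ R, u ∉ por c b) ∧ (big c b).card * b = R.card ∧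
      ∀ i, (R.filter fun w => c w = i).card ≤ b := by
  have hex : ∀ i ∈ big c b, ∃ B ⊆ fib c i, B.card = b := by
    intro i hi
    exact Finset.exists_subset_card_eq (mem_big.1 hi).2
  choose! B hB hBc using hex
  have hdis : ∀ i ∈ big c b, ∀ j ∈ big c b, i ≠ j → Disjoint (B i) (B j) := by
    intro i hi j hj hij
    rw [Finset.disjoint_left]
    intro u hu hu'
    exact hij ((mem_fib.1 (hB i hi hu)).symm.trans (mem_fib.1 (hB j hj hu')))
  refine ⟨(big c b).biUnion B, ?_, ?_, ?_⟩
  · intro u hu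
    obtain ⟨i, hi, hui⟩ := Finset.mem_biUnion.1 hu
    apply not_por_of_big
    rw [mem_fib.1 (hB i hi hui)]
    exact hi
  · rw [Finset.card_biUnion hdis, Finset.sum_congr rfl hBc, Finset.sum_const, smul_eq_mul]
  · intro i
    by_cases hi : i ∈ big c b
    · refine (Finset.card_le_card ?_).trans (hBc i hi).le
      intro w hw
      obtain ⟨h1, h2⟩ := Finset.mem_filter.1 hw
      obtain ⟨j, hj, hwj⟩ := Finset.mem_biUnion.1 h1
      rw [← h2, mem_fib.1 (hB j hj hwj)]
      exact hwj
    · have : ((big c b).biUnion B).filter (fun w => c w = i) = ∅ := by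
        rw [Finset.filter_eq_empty_iff]
        intro w hw hwi
        obtain ⟨j, hj, hwj⟩ := Finset.mem_biUnion.1 hw
        apply hi
        rw [← hwi, mem_fib.1 (hB j hj hwj)]
        exact hj
      rw [this]
      simp

def bs' (D m : ℕ) : ℕ := 2 * D + 3 + m

def TT' (D b E : ℕ) : ℕ := (D * b + 1) * (D + 1) + N1 (D * b) + E

def MM' (D b E : ℕ) : ℕ := N2 (D * b) (TT' D b E + E)

theorem scale' (h : Cell G c D) (m E : ℕ) :
    (∃ 𝓑 k, Model G Finset.univ 𝓑 ∧ Cov G Finset.univ k ∧ k + E ≤ 𝓑.card) ∨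
      ((big c (bs' D m)).card < TT' D (bs' D m) E ∧
        (Qp G (por c (bs' D m))).card < MM' D (bs' D m) E) := by
  have hbs : bs' D m = 2 * D + 3 + m := rfl
  set b := bs' D m with hb
  set t := (big c b).card with ht
  have hrich := big_cov (b := b) h
  have hdeg : ∀ u ∈ Qp G (por c b), ((Qp G (por c b)).filter fun w => w ≠ u ∧ ¬ G.Adj u w).card ≤
      D * b := fun u _ => deg h (fun i => (Finset.card_le_card
        (Finset.filter_subset_filter _ (Qp_sub _))).trans (por_fib i)) u
  by_cases hT : t < TT' D b E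
  · by_cases hQ : (Qp G (por c b)).card < MM' D b E
    · exact Or.inr ⟨hT, hQ⟩
    · left
      push Not at hQ
      obtain ⟨𝓑, k, hM, hk, hc⟩ := excess (E := TT' D b E + E) (Qp_self (G := G) (F := por c b))
        hdeg hQ
      obtain ⟨m1, c1⟩ := Model.clique (Jp_cl (G := G) (por c b))
      obtain ⟨m2, c2⟩ := hM.union m1 (disj_Qp_Jp _) (by
        intro B hB C hC
        obtain ⟨j, hj, rfl⟩ := Finset.mem_image.1 hC
        obtain ⟨q, hq⟩ := (hM.conn B hB).1
        refine ⟨q, hq, j, by simp, (Jp_adj hj (Qp_sub _ (hM.sub B hB hq)) ?_).symm⟩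
        rintro rfl
        exact Finset.disjoint_left.1 (disj_Qp_Jp _) (hM.sub B hB hq) hj)
      have h1 := (hk.union (Cov.triv (G := G) (Jp G (por c b))))
      rw [Qp_Jp] at h1
      have h2 := h1.union hrich
      rw [Finset.union_sdiff_of_subset (Finset.subset_univ _)] at h2
      refine ⟨_, _, m2.le (Finset.subset_univ _), h2, ?_⟩
      rw [c2, c1]
      omega
  · left
    push Not at hT
    obtain ⟨𝓑, hM, hC⟩ : ∃ 𝓑, Model G (por c b) 𝓑 ∧
        Cov G (por c b) (𝓑.card + N1 (D * b)) := by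
      by_cases hN : N1 (D * b) ≤ (Qp G (por c b)).card
      · obtain ⟨𝓑, h1, h2⟩ := had_of_Qp (near (Qp_self (G := G) (F := por c b)) hdeg hN)
        exact ⟨𝓑, h1, h2.mono (by omega)⟩
      · obtain ⟨h2, h3⟩ := Model.clique (Jp_cl (G := G) (por c b))
        refine ⟨_, h2.le (Jp_sub _), ?_⟩
        have h4 := (Cov.triv (G := G) (Qp G (por c b))).union
          (Cov.triv (G := G) (Jp G (por c b)))
        rw [Qp_Jp] at h4
        apply h4.mono
        rw [h3]
        omega
    have hcov : Cov G Finset.univ (𝓑.card + N1 (D * b) + t) := by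
      have h1 := hC.union hrich
      rwa [Finset.union_sdiff_of_subset (Finset.subset_univ _)] at h1
    have hTT : TT' D b E = (D * b + 1) * (D + 1) + N1 (D * b) + E := rfl
    obtain ⟨R, hR1, hR2, hR3⟩ := choose_R' (c := c) (b := b)
    obtain ⟨𝒜, hA1, hA2, hA3⟩ := pack' h (δ := D * b) (2 * t) R (fun u _ => deg h hR3 u) (by
      rw [← hR2, ← ht]
      have h1 : t * b = (D + 1) * (2 * t) + t + t * m := by
        rw [hbs]; ring
      omega)
    have hMA := pack_model' h (fun A hA => (hA2 A hA).2) hA3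
    obtain ⟨m1, c1⟩ := (hM.le (Finset.subset_univ _)).union2 hMA (by
        intro B hB A hA
        rw [Finset.disjoint_left]
        intro u hu hu'
        exact hR1 u ((hA2 A hA).1 hu') (hM.sub B hB hu)) (by
        intro B hB A hA
        obtain ⟨u, hu⟩ := (hM.conn B hB).1
        have huA : u ∉ A := fun hu' => hR1 u ((hA2 A hA).1 hu') (hM.sub B hB hu)
        obtain ⟨a, ha, hua⟩ := dom' h (hA2 A hA).2.2 (hA2 A hA).2.1.ge huA
        exact ⟨u, hu, a, ha, hua⟩)
    refine ⟨_, _, m1, hcov, ?_⟩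
    rw [c1, hA1]
    omega

/-- members of a clique in classes not completely joined to the class `i` -/
lemma cl_nb (h : Cell G c D) {J : Finset U} (hJ : Cl G J) (i : I) :
    (J.filter fun u => ¬ c u ∉ nb G c i).card ≤ D := by
  have h1 : ((J.filter fun u => ¬ c u ∉ nb G c i).image c).card =
      (J.filter fun u => ¬ c u ∉ nb G c i).card := by
    apply Finset.card_image_of_injOn
    intro a ha b hb hab
    by_contra hne
    exact h.same a b hab (hJ a (Finset.mem_filter.1 ha).1 b (Finset.mem_filter.1 hb).1 hne)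
  rw [← h1]
  refine (Finset.card_le_card ?_).trans (h.few i)
  intro j hj
  obtain ⟨u, hu, rfl⟩ := Finset.mem_image.1 hj
  exact not_not.1 (Finset.mem_filter.1 hu).2

/-- two big classes that are completely joined -/
lemma two_cells (h : Cell G c D) {i j : I} {J : Finset U} (m : ℕ) (hij : i ≠ j)
    (hn : j ∉ nb G c i) (hi : m ≤ (fib c i).card) (hj : m ≤ (fib c j).card)
    (hJi : ∀ u ∈ fib c i, u ∉ J) (hJj : ∀ u ∈ fib c j, u ∉ J) (hJ : Cl G J) :
    ∃ 𝓑, Model G Finset.univ 𝓑 ∧ J.card + m ≤ 𝓑.card + D := by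
  obtain ⟨X, hX, hXc⟩ := Finset.exists_subset_card_eq hi
  obtain ⟨W, hW, hWc⟩ := Finset.exists_subset_card_eq hj
  have hne : ∀ w ∈ W, ∀ x ∈ X, w ≠ x := by
    rintro w hw x hx rfl
    exact hij ((mem_fib.1 (hX hx)).symm.trans (mem_fib.1 (hW hw)))
  have hadj : ∀ w ∈ W, ∀ x ∈ X, G.Adj w x := by
    intro w hw x hx
    refine (adj_of (c := c) (hne w hw x hx).symm ?_).symm
    rw [mem_fib.1 (hX hx), mem_fib.1 (hW hw)]
    exact hn
  obtain ⟨Y, hY1, hY2⟩ := blocks 1 W X (by rw [hWc, hXc, one_mul])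
  set J' := J.filter fun u => c u ∉ nb G c i with hJ'
  have hJc : J.card ≤ J'.card + D := by
    have h4 := cl_nb h hJ i
    have h5 := Finset.card_filter_add_card_filter_not (s := J) (fun u => c u ∉ nb G c i)
    rw [← hJ'] at h5
    omega
  have hJJ : ∀ j ∈ J', j ∈ J := fun j hj => (Finset.mem_filter.1 hj).1
  obtain ⟨m1, c1⟩ := Model.ofFn (G := G) W (fun w => insert w (Y w)) (F := Finset.univ)
    (fun _ _ => Finset.subset_univ _)
    (fun w hw => conn_star w _ (fun x hx => hadj w hw x ((hY1 w hw).1 hx))) (by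
      intro w hw w' hw' hww
      rw [Finset.disjoint_insert_left, Finset.disjoint_insert_right]
      refine ⟨?_, ?_, hY2 w hw w' hw' hww⟩
      · intro h3
        rcases Finset.mem_insert.1 h3 with h3 | h3
        · exact hww h3
        · exact hne w hw w ((hY1 w' hw').1 h3) rfl
      · intro h3
        exact hne w' hw' w' ((hY1 w hw).1 h3) rfl) (by
      intro w hw w' hw' hww
      obtain ⟨x, hx⟩ := Finset.card_pos.1 (show 0 < (Y w').card by rw [(hY1 w' hw').2]; omega)
      exact ⟨w, by simp, x, Finset.mem_insert_of_mem hx, hadj w hw x ((hY1 w' hw').1 hx)⟩)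
  obtain ⟨m2, c2⟩ := Model.clique (G := G) (J := J')
    (fun a ha b hb hab => hJ a (hJJ a ha) b (hJJ b hb) hab)
  obtain ⟨m3, c3⟩ := m1.union2 (m2.le (Finset.subset_univ _)) (by
      intro B hB C hC
      obtain ⟨w, hw, rfl⟩ := Finset.mem_image.1 hB
      obtain ⟨j, hj, rfl⟩ := Finset.mem_image.1 hC
      rw [Finset.disjoint_singleton_right, Finset.mem_insert]
      rintro (h3 | h3)
      · exact hJj w (hW hw) (h3 ▸ hJJ j hj)
      · exact hJi j (hX ((hY1 w hw).1 h3)) (hJJ j hj)) (by
      intro B hB C hC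
      obtain ⟨w, hw, rfl⟩ := Finset.mem_image.1 hB
      obtain ⟨j, hj, rfl⟩ := Finset.mem_image.1 hC
      obtain ⟨x, hx⟩ := Finset.card_pos.1 (show 0 < (Y w).card by rw [(hY1 w hw).2]; omega)
      have hxX := (hY1 w hw).1 hx
      refine ⟨x, Finset.mem_insert_of_mem hx, j, by simp, adj_of (c := c) ?_ ?_⟩
      · rintro rfl
        exact hJi x (hX hxX) (hJJ x hj)
      · rw [mem_fib.1 (hX hxX)]
        exact (Finset.mem_filter.1 hj).2)
  refine ⟨_, m3, ?_⟩
  rw [c3, c1, c2, hWc]
  omega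

/-- number of branch sets needed -/
def mm (D E : ℕ) : ℕ := TT' D (bs' D 0) E + MM' D (bs' D 0) E + D + E

/-- the bound for the chromatic number -/
def CB (D E : ℕ) : ℕ := MM' D (bs' D (mm D E)) E + D * D + D

theorem cells (h : Cell G c D) (E : ℕ) :
    (∃ 𝓑 k, Model G Finset.univ 𝓑 ∧ Cov G Finset.univ k ∧ k + E ≤ 𝓑.card) ∨
      Cov G (Qp G Finset.univ) (CB D E) := by
  rcases scale' h 0 E with h1 | ⟨h1, h2⟩
  · exact Or.inl h1
  rcases scale' h (mm D E) E with h3 | ⟨-, h3⟩
  · exact Or.inl h3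
  set b1 := bs' D 0 with hb1
  set b2 := bs' D (mm D E) with hb2
  have hb1' : b1 = 2 * D + 3 + 0 := rfl
  have hb2' : b2 = 2 * D + 3 + mm D E := rfl
  have hself : ∀ i ∈ big c b2, i ∈ nb G c i := by
    intro i hi
    obtain ⟨-, h4⟩ := mem_big.1 hi
    obtain ⟨u, hu, w, hw, huw⟩ := Finset.one_lt_card.1 (show 1 < (fib c i).card by omega)
    rw [mem_fib] at hu hw
    have h5 := mem_nb (c := c) huw (h.same u w (hu.trans hw.symm))
    rwa [hu, hw] at h5
  by_cases hdis : ∃ i ∈ big c b2, ∃ j ∈ big c b2, j ∉ nb G c i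
  · left
    obtain ⟨i, hi, j, hj, hn⟩ := hdis
    have hij : i ≠ j := by
      rintro rfl
      exact hn (hself i hi)
    have hi' := (mem_big.1 hi).2
    have hj' := (mem_big.1 hj).2
    have hJp : ∀ l, b2 ≤ (fib c l).card → ∀ u ∈ fib c l, u ∉ Jp G (por c b1) := by
      intro l hl u hu hJ
      have h4 := mem_por.1 (Jp_sub _ hJ)
      rw [mem_fib.1 hu] at h4
      omega
    obtain ⟨𝓑, hM, hMc⟩ := two_cells h (J := Jp G (por c b1)) (mm D E) hij hn (by omega) (by omega)
      (hJp i hi') (hJp j hj') (Jp_cl _)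
    have h4 := ((Cov.triv (G := G) (Qp G (por c b1))).union
      (Cov.triv (G := G) (Jp G (por c b1))))
    rw [Qp_Jp] at h4
    have h5 := h4.union (big_cov (b := b1) h)
    rw [Finset.union_sdiff_of_subset (Finset.subset_univ _)] at h5
    refine ⟨𝓑, _, hM, h5, ?_⟩
    have h6 : mm D E = TT' D b1 E + MM' D b1 E + D + E := rfl
    omega
  · right
    push Not at hdis
    have hbc : (big c b2).card ≤ D := by
      rcases (big c b2).eq_empty_or_nonempty with h4 | ⟨i, hi⟩
      · rw [h4]; simp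
      · exact (Finset.card_le_card fun j hj => hdis i hi j hj).trans (h.few i)
    set J1 := (big c b2).biUnion fun i =>
      (Jp G (por c b2)).filter fun u => ¬ c u ∉ nb G c i with hJ1
    have hJ1c : J1.card ≤ D * D := by
      refine (Finset.card_biUnion_le_card_mul _ _ D
        (fun i _ => cl_nb h (Jp_cl _) i)).trans (Nat.mul_le_mul_right D hbc)
    have hsub : Qp G Finset.univ ⊆ (Qp G (por c b2) ∪ J1) ∪ (Finset.univ \ por c b2) := by
      intro u hu
      by_cases hup : u ∈ por c b2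
      · apply Finset.mem_union_left
        rw [← Qp_Jp (G := G) (por c b2)] at hup
        rcases Finset.mem_union.1 hup with h4 | h4
        · exact Finset.mem_union_left _ h4
        · apply Finset.mem_union_right
          by_contra hcon
          obtain ⟨-, w, -, hwu, hn⟩ := Finset.mem_filter.1 hu
          by_cases hwp : w ∈ por c b2
          · exact hn (Jp_adj h4 hwp hwu.symm)
          · have h5 := big_of_not_por hwp
            apply hcon
            refine Finset.mem_biUnion.2 ⟨c w, h5, Finset.mem_filter.2 ⟨h4, ?_⟩⟩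
            exact not_not.2 (mem_nb hwu (fun h6 => hn h6.symm))
      · exact Finset.mem_union_right _ (Finset.mem_sdiff.2 ⟨Finset.mem_univ _, hup⟩)
    have h4 := ((((Cov.triv (G := G) (Qp G (por c b2))).union (Cov.triv (G := G) J1)).union
      (big_cov (b := b2) h)).le hsub)
    apply h4.mono
    have h5 : CB D E = MM' D b2 E + D * D + D := rfl
    omega

end Pool.Agent.N425.KU
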