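import Pool.Agent.N425.KU1

set_option autoImplicit false
set_option linter.unusedSectionVars false

open Classical

noncomputable section

namespace Pool.Agent.N425.KU

open Pool.Agent.N425.KR Pool.Agent.N425.KS Pool.Agent.N425.KT

/-- the conclusion for one graph -/
def Concl {U : Type} (G : SimpleGraph U) (C E : ℕ) : Prop :=
  ((G.induce {u | ∃ w, w ≠ u ∧ ¬ G.Adj u w}).Colorable C ∨
      ∀ k, ¬ G.Colorable k → Mnr G (Fin (k + 1 + E))) ∧
    ∀ k, ¬ G.Colorable (k + C) → Mnr G (Fin (k + 1))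

theorem concl {U I : Type} [Fintype U] {G : SimpleGraph U} {c : U → I} {D : ℕ}
    (h : Cell G c D) (E : ℕ) : Concl G (CB D E) E := by
  rcases cells h E with ⟨𝓑, k', hM, hC, hc⟩ | hC
  · have key : ∀ k, ¬ G.Colorable k → Mnr G (Fin (k + 1 + E)) := by
      intro k hk
      have h1 : k < k' := by
        by_contra hcon
        exact hk (hC.mono (by omega)).colorable
      obtain ⟨B, h2, h3, h4⟩ := hM.minor (show k + 1 + E ≤ 𝓑.card by omega)
      exact ⟨B, h2, h3, h4⟩
    refine ⟨Or.inr key, ?_⟩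
    intro k hk
    refine (key _ hk).comap (Fin.castLE (by omega)) (Fin.castLE_injective _)
  · refine ⟨Or.inl ?_, ?_⟩
    · have h1 := Cov.colorable_on hC
      have e : {u | u ∈ Qp G Finset.univ} = {u | ∃ w, w ≠ u ∧ ¬ G.Adj u w} := by
        ext u
        simp [Qp]
      rwa [e] at h1
    · intro k hk
      have h1 := hC.union (Cov.triv (G := G) (Jp G Finset.univ))
      rw [Qp_Jp] at h1
      have h2 : k + 1 ≤ (Jp G Finset.univ).card := by
        by_contra hcon
        exact hk (h1.mono (by omega)).colorable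
      obtain ⟨m1, c1⟩ := Model.clique (Jp_cl (G := G) Finset.univ)
      obtain ⟨B, h2, h3, h4⟩ := m1.minor (m := k + 1) (by rw [c1]; exact h2)
      exact ⟨B, h2, h3, h4⟩

theorem concl_cells (D E : ℕ) {U I : Type} [Finite U] (G : SimpleGraph U) (c : U → I)
    (h1 : ∀ u w, c u = c w → ¬ G.Adj u w)
    (h2 : ∀ i, {j | ∃ u w, c u = i ∧ c w = j ∧ u ≠ w ∧ ¬ G.Adj u w}.ncard ≤ D) :
    Concl G (CB D E) E := by
  have := Fintype.ofFinite U
  refine concl (c := c) ⟨h1, fun i => ?_⟩ E
  refine le_trans (le_of_eq ?_) (h2 i)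
  rw [← Set.ncard_coe_finset]
  congr 1
  ext j
  simp only [nb, Finset.coe_image, Finset.coe_filter, Finset.mem_univ, true_and, Set.mem_image,
    Set.mem_setOf_eq]
  constructor
  · rintro ⟨w, ⟨u, hu, huw, hn⟩, rfl⟩
    exact ⟨u, w, hu, rfl, huw, hn⟩
  · rintro ⟨u, w, hu, rfl, huw, hn⟩
    exact ⟨w, ⟨u, hu, huw, hn⟩, rfl⟩

/-- a bound for the number of separated points in a ball -/
theorem separated (V : Type) [NormedAddCommGroup V] [NormedSpace ℝ V] [FiniteDimensional ℝ V] :
    ∃ D : ℕ, ∀ (U : Type) (p : U → V) (x : V) (N : Finset U),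
      (∀ a ∈ N, ∀ b ∈ N, a ≠ b → 1 / 2 < dist (p a) (p b)) → (∀ a ∈ N, dist x (p a) ≤ 2) →
      N.card ≤ D := by
  have : ProperSpace V := FiniteDimensional.proper ℝ V
  obtain ⟨t, -, ht, hcov⟩ := (isCompact_closedBall (0 : V) 2).finite_cover_balls
    (show (0 : ℝ) < 1 / 4 by norm_num)
  refine ⟨ht.toFinset.card, ?_⟩
  intro U p x N hN hx
  have h1 : ∀ a ∈ N, ∃ z, z ∈ t ∧ dist (p a - x) z < 1 / 4 := by
    intro a ha
    have h2 : p a - x ∈ Metric.closedBall (0 : V) 2 := by
      rw [mem_closedBall_zero_iff, ← dist_eq_norm, dist_comm]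
      exact hx a ha
    have h3 := hcov h2
    rw [Set.mem_iUnion₂] at h3
    obtain ⟨z, hz, hz'⟩ := h3
    exact ⟨z, hz, hz'⟩
  choose! f hf using h1
  apply Finset.card_le_card_of_injOn f
  · intro a ha
    exact ht.mem_toFinset.2 (hf a ha).1
  · intro a ha b hb hab
    by_contra hne
    have h2 := hN a ha b hb hne
    have h3 := (hf a ha).2
    have h4 := (hf b hb).2
    have hab' : f a = f b := hab
    rw [← hab'] at h4
    have h5 : dist (p a) (p b) = dist (p a - x) (p b - x) := by
      rw [dist_sub_right]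
    have h6 := dist_triangle_right (p a - x) (p b - x) (f a)
    linarith

theorem concl_space (V : Type) [NormedAddCommGroup V] [NormedSpace ℝ V] [FiniteDimensional ℝ V] :
    ∃ D : ℕ, ∀ (E : ℕ) (U : Type) [Finite U] (G : SimpleGraph U) (p : U → V),
      (∀ u w, G.Adj u w ↔ 1 < dist (p u) (p w)) → Concl G (CB D E) E := by
  obtain ⟨D, hD⟩ := separated V
  refine ⟨D, ?_⟩
  intro E U _ G p hG
  have := Fintype.ofFinite U
  obtain ⟨N, hN, hNmax⟩ := Finset.exists_max_image
    ((Finset.univ : Finset (Finset U)).filter fun N => ∀ a ∈ N, ∀ b ∈ N, a ≠ b →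
      1 / 2 < dist (p a) (p b)) (fun N => N.card)
    ⟨∅, Finset.mem_filter.2 ⟨Finset.mem_univ _, fun a ha => absurd ha (by simp)⟩⟩
  have hNs := (Finset.mem_filter.1 hN).2
  have hc : ∀ u, ∃ x, x ∈ N ∧ dist (p u) (p x) ≤ 1 / 2 := by
    intro u
    by_cases hu : u ∈ N
    · exact ⟨u, hu, by rw [dist_self]; norm_num⟩
    by_contra hcon
    push Not at hcon
    have h1 := hNmax (insert u N) (Finset.mem_filter.2 ⟨Finset.mem_univ _, by
      intro a ha b hb hab
      rcases Finset.mem_insert.1 ha with h1 | ha <;> rcases Finset.mem_insert.1 hb with h2 | hb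
      · exact absurd (h1.trans h2.symm) hab
      · rw [h1]; exact hcon b hb
      · rw [h2, dist_comm]; exact hcon a ha
      · exact hNs a ha b hb hab⟩)
    rw [Finset.card_insert_of_notMem hu] at h1
    omega
  choose c hc1 hc2 using hc
  refine concl_cells D E G c ?_ ?_
  · intro u w huw hadj
    rw [hG] at hadj
    have h1 := hc2 u
    have h2 := hc2 w
    rw [← huw] at h2
    have h3 := dist_triangle_right (p u) (p w) (p (c u))
    linarith
  · intro i
    have hsub : {j | ∃ u w, c u = i ∧ c w = j ∧ u ≠ w ∧ ¬ G.Adj u w} ⊆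
        (N.filter fun j => dist (p i) (p j) ≤ 2 : Finset U) := by
      rintro j ⟨u, w, rfl, rfl, -, hn⟩
      rw [hG, not_lt] at hn
      rw [Finset.mem_coe, Finset.mem_filter]
      refine ⟨hc1 w, ?_⟩
      have h1 := hc2 u
      have h2 := hc2 w
      have h3 := dist_triangle4 (p (c u)) (p u) (p w) (p (c w))
      rw [dist_comm (p (c u)) (p u)] at h3
      linarith
    refine (Set.ncard_le_ncard hsub (Finset.finite_toSet _)).trans ?_
    rw [Set.ncard_coe_finset]
    exact hD U p (p i) _ (fun a ha b hb hab => hNs a (Finset.mem_filter.1 ha).1 b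
      (Finset.mem_filter.1 hb).1 hab) (fun a ha => (Finset.mem_filter.1 ha).2)

end Pool.Agent.N425.KU
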