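import Pool.Agent.N425.KT3

set_option autoImplicit false
set_option linter.unusedSectionVars false

open Classical

noncomputable section

namespace Pool.Agent.N425.KV

open Pool.Agent.N425.KR Pool.Agent.N425.KS

variable {U : Type} [Fintype U] {G : SimpleGraph U} {r b : ℕ}

/-- the non-neighbours of `v` -/
def nn (G : SimpleGraph U) (v : U) : Finset U := Finset.univ.filter fun w => w ≠ v ∧ ¬ G.Adj v w

lemma mem_nn {v w : U} : w ∈ nn G v ↔ w ≠ v ∧ ¬ G.Adj v w := by
  unfold nn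
  rw [Finset.mem_filter]
  exact ⟨fun h => h.2, fun h => ⟨Finset.mem_univ _, h⟩⟩

/-- the non-neighbours of every vertex are coverable by `r` independent sets -/
def NC (G : SimpleGraph U) (r : ℕ) : Prop := ∀ v, Cov G (nn G v) r

lemma cl_cov {A : Finset U} (hA : Cl G A) {k : ℕ} (h : Cov G A k) : A.card ≤ k := by
  obtain ⟨P, h1, h2, h3⟩ := h
  by_contra hcon
  push Not at hcon
  choose! f hf using h3
  obtain ⟨a, ha, a', ha', haa, hff⟩ := Finset.exists_ne_map_eq_of_card_lt_of_maps_to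
    (show P.card < A.card by omega) (f := f) (fun a ha => (hf a ha).1)
  exact h2 (f a) (hf a ha).1 a (hf a ha).2 a' (hff ▸ (hf a' ha').2) (hA a ha a' ha' haa)

/-- a clique with `r + 1` vertices dominates everything -/
lemma dom2 (h : NC G r) {A : Finset U} (hA : Cl G A) (hAc : A.card = r + 1) {w : U}
    (hw : w ∉ A) : ∃ a ∈ A, G.Adj w a := by
  by_contra hcon
  push Not at hcon
  have h1 : A ⊆ nn G w := fun a ha => mem_nn.2 ⟨fun h2 => hw (h2 ▸ ha), hcon a ha⟩
  have h2 := cl_cov hA ((h w).le h1)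
  omega

lemma cov_biUnion {κ : Type} (I : Finset κ) (F : κ → Finset U) (k : ℕ)
    (h : ∀ i ∈ I, Cov G (F i) k) : Cov G (I.biUnion F) (I.card * k) := by
  induction I using Finset.induction_on with
  | empty => exact ⟨∅, by simp, by simp, by simp⟩
  | insert a I ha ih =>
    rw [Finset.biUnion_insert, Finset.card_insert_of_notMem ha, Nat.add_mul, one_mul, add_comm]
    exact (h a (Finset.mem_insert_self _ _)).union
      (ih fun i hi => h i (Finset.mem_insert_of_mem hi))

/-- the class is chi-bounded -/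
lemma chi_bdd (h : NC G r) {F : Finset U} {w : ℕ} (hw : ∀ C ⊆ F, Cl G C → C.card ≤ w) :
    Cov G F (w * (r + 1)) := by
  obtain ⟨C, hC, hCmax⟩ := Finset.exists_max_image
    (F.powerset.filter fun C => Cl G C) (fun C => C.card)
    ⟨∅, Finset.mem_filter.2 ⟨by simp, fun a ha => absurd ha (by simp)⟩⟩
  rw [Finset.mem_filter, Finset.mem_powerset] at hC
  obtain ⟨hCF, hCcl⟩ := hC
  have hsub : F ⊆ C ∪ C.biUnion fun a => nn G a := by
    intro x hx
    by_cases hxC : x ∈ C
    · exact Finset.mem_union_left _ hxC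
    apply Finset.mem_union_right
    by_contra hcon
    rw [Finset.mem_biUnion] at hcon
    push Not at hcon
    have hadj : ∀ a ∈ C, G.Adj a x := by
      intro a ha
      by_contra hn
      exact hcon a ha (mem_nn.2 ⟨fun h2 => hxC (h2 ▸ ha), hn⟩)
    have h1 := hCmax (insert x C) (by
      rw [Finset.mem_filter, Finset.mem_powerset]
      refine ⟨Finset.insert_subset hx hCF, ?_⟩
      intro a ha b hb hab
      rcases Finset.mem_insert.1 ha with h1 | ha <;> rcases Finset.mem_insert.1 hb with h2 | hb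
      · exact absurd (h1.trans h2.symm) hab
      · rw [h1]; exact (hadj b hb).symm
      · rw [h2]; exact hadj a ha
      · exact hCcl a ha b hb hab)
    rw [Finset.card_insert_of_notMem hxC] at h1
    omega
  have h2 := ((Cov.triv (G := G) C).union (cov_biUnion C (fun a => nn G a) r
    (fun a _ => h a))).le hsub
  apply h2.mono
  have h3 := hw C hCF hCcl
  have h4 : C.card * r ≤ w * r := Nat.mul_le_mul_right r h3
  rw [Nat.mul_add, Nat.mul_one]
  omega

/-- a set without large independent sets -/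
lemma small_alpha (h : NC G r) {E : Finset U}
    (hE : ∀ I ⊆ E, (∀ a ∈ I, ∀ c ∈ I, ¬ G.Adj a c) → I.card ≤ b) :
    ∃ 𝓑, Model G E 𝓑 ∧ Cov G E (𝓑.card + N1 (r * b)) := by
  have hdeg : ∀ u ∈ Qp G E, ((Qp G E).filter fun w => w ≠ u ∧ ¬ G.Adj u w).card ≤ r * b := by
    intro u _
    obtain ⟨P, h1, h2, h3⟩ := h u
    have hsub : ((Qp G E).filter fun w => w ≠ u ∧ ¬ G.Adj u w) ⊆
        P.biUnion fun C => E.filter fun w => w ∈ C := by
      intro w hw
      obtain ⟨hwQ, hwu⟩ := Finset.mem_filter.1 hw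
      obtain ⟨C, hC, hwC⟩ := h3 w (mem_nn.2 hwu)
      exact Finset.mem_biUnion.2 ⟨C, hC, Finset.mem_filter.2 ⟨Qp_sub _ hwQ, hwC⟩⟩
    refine (Finset.card_le_card hsub).trans ((Finset.card_biUnion_le_card_mul _ _ b ?_).trans
      (Nat.mul_le_mul_right b h1))
    intro C hC
    apply hE _ (Finset.filter_subset _ _)
    intro a ha c hc
    exact h2 C hC a (Finset.mem_filter.1 ha).2 c (Finset.mem_filter.1 hc).2
  by_cases hN : N1 (r * b) ≤ (Qp G E).card
  · obtain ⟨𝓑, h1, h2⟩ := had_of_Qp (near (Qp_self (G := G) (F := E)) hdeg hN)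
    exact ⟨𝓑, h1, h2.mono (by omega)⟩
  · obtain ⟨h2, h3⟩ := Model.clique (Jp_cl (G := G) E)
    refine ⟨_, h2.le (Jp_sub _), ?_⟩
    have h4 := (Cov.triv (G := G) (Qp G E)).union (Cov.triv (G := G) (Jp G E))
    rw [Qp_Jp] at h4
    apply h4.mono
    rw [h3]
    omega

/-- remove large independent sets -/
lemma peel (b n : ℕ) : ∀ F : Finset U, F.card = n → ∃ E ⊆ F, ∃ t, Cov G (F \ E) t ∧
    (b + 1) * t ≤ F.card ∧ ∀ I ⊆ E, (∀ a ∈ I, ∀ c ∈ I, ¬ G.Adj a c) → I.card ≤ b := by
  induction n using Nat.strong_induction_on with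
  | _ n ih =>
  intro F hF
  by_cases hall : ∀ I ⊆ F, (∀ a ∈ I, ∀ c ∈ I, ¬ G.Adj a c) → I.card ≤ b
  · exact ⟨F, Finset.Subset.refl _, 0, by
      rw [Finset.sdiff_self]
      exact ⟨∅, by simp, by simp, by simp⟩, by simp, hall⟩
  push Not at hall
  obtain ⟨I, hI, hIi, hIc⟩ := hall
  have hc : (F \ I).card = F.card - I.card := Finset.card_sdiff_of_subset hI
  have hle := Finset.card_le_card hI
  obtain ⟨E, hE, t, h1, h2, h3⟩ := ih (F \ I).card (by omega) (F \ I) rfl
  refine ⟨E, hE.trans Finset.sdiff_subset, t + 1, ?_, ?_, h3⟩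
  · refine (h1.union (Cov.ind hIi)).le ?_
    intro x hx
    rw [Finset.mem_sdiff] at hx
    by_cases hxI : x ∈ I
    · exact Finset.mem_union_right _ hxI
    · exact Finset.mem_union_left _ (Finset.mem_sdiff.2 ⟨Finset.mem_sdiff.2 ⟨hx.1, hxI⟩, hx.2⟩)
  · rw [Nat.mul_add, Nat.mul_one]
    omega

lemma peeled (h : NC G r) (b : ℕ) (F : Finset U) : ∃ 𝓑 t, Model G F 𝓑 ∧ (b + 1) * t ≤ F.card ∧
    Cov G F (𝓑.card + N1 (r * b) + t) := by
  obtain ⟨E, hE, t, h1, h2, h3⟩ := peel (G := G) b _ F rfl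
  obtain ⟨𝓑, h4, h5⟩ := small_alpha h h3
  refine ⟨𝓑, t, h4.le hE, h2, ?_⟩
  have h6 := h5.union h1
  rwa [Finset.union_sdiff_of_subset hE] at h6

/-- disjoint cliques with `r + 1` vertices in `W` -/
lemma packing (h : NC G r) (W : Finset U) (t : ℕ) :
    (∃ 𝒜 : Finset (Finset U), 𝒜.card = t ∧ (∀ A ∈ 𝒜, A ⊆ W ∧ A.card = r + 1 ∧ Cl G A) ∧
      ∀ A ∈ 𝒜, ∀ B ∈ 𝒜, A ≠ B → Disjoint A B) ∨
      ∃ A ⊆ W, A.card ≤ (r + 1) * t ∧ Cov G (W \ A) (r * (r + 1)) := by
  obtain ⟨𝒜, hA, hmax⟩ := Finset.exists_max_image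
    (W.powerset.powerset.filter fun 𝒜 => (∀ A ∈ 𝒜, A ⊆ W ∧ A.card = r + 1 ∧ Cl G A) ∧
      ∀ A ∈ 𝒜, ∀ B ∈ 𝒜, A ≠ B → Disjoint A B) (fun 𝒜 => 𝒜.card)
    ⟨∅, Finset.mem_filter.2 ⟨by simp, by simp, by simp⟩⟩
  rw [Finset.mem_filter] at hA
  obtain ⟨-, hA1, hA2⟩ := hA
  by_cases ht : t ≤ 𝒜.card
  · left
    obtain ⟨ℬ, hB, hBc⟩ := Finset.exists_subset_card_eq ht
    exact ⟨ℬ, hBc, fun A hA => hA1 A (hB hA), fun A hA B hB' => hA2 A (hB hA) B (hB hB')⟩
  · right
    push Not at ht
    refine ⟨𝒜.biUnion id, ?_, ?_, ?_⟩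
    · intro x hx
      obtain ⟨A, hA, hxA⟩ := Finset.mem_biUnion.1 hx
      exact (hA1 A hA).1 hxA
    · refine (Finset.card_biUnion_le_card_mul 𝒜 id (r + 1) (fun A hA => (hA1 A hA).2.1.le)).trans ?_
      rw [mul_comm]
      exact Nat.mul_le_mul_left _ ht.le
    · apply chi_bdd h
      intro C hC hCcl
      by_contra hcon
      push Not at hcon
      obtain ⟨A, hAC, hAc⟩ := Finset.exists_subset_card_eq (show r + 1 ≤ C.card by omega)
      have hAW : A ⊆ W := fun x hx => (Finset.mem_sdiff.1 (hC (hAC hx))).1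
      have hAd : ∀ B ∈ 𝒜, Disjoint A B := by
        intro B hB
        rw [Finset.disjoint_left]
        intro x hx hx'
        exact (Finset.mem_sdiff.1 (hC (hAC hx))).2 (Finset.mem_biUnion.2 ⟨B, hB, hx'⟩)
      have hAn : A ∉ 𝒜 := by
        intro hA
        have h1 := hAd A hA
        rw [disjoint_self] at h1
        rw [h1] at hAc
        simp at hAc
      have h1 := hmax (insert A 𝒜) (by
        rw [Finset.mem_filter]
        refine ⟨?_, ?_, ?_⟩
        · rw [Finset.mem_powerset]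
          intro B hB
          rw [Finset.mem_powerset]
          rcases Finset.mem_insert.1 hB with rfl | hB
          · exact hAW
          · exact (hA1 B hB).1
        · intro B hB
          rcases Finset.mem_insert.1 hB with rfl | hB
          · exact ⟨hAW, hAc, fun a ha b hb hab => hCcl a (hAC ha) b (hAC hb) hab⟩
          · exact hA1 B hB
        · intro B hB C hC hBC
          rcases Finset.mem_insert.1 hB with h4 | hB <;> rcases Finset.mem_insert.1 hC with h5 | hC
          · exact absurd (h4.trans h5.symm) hBC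
          · rw [h4]; exact hAd C hC
          · rw [h5]; exact (hAd B hB).symm
          · exact hA2 B hB C hC hBC)
      rw [Finset.card_insert_of_notMem hAn] at h1
      omega

lemma pack_model2 (h : NC G r) {𝒜 : Finset (Finset U)}
    (h2 : ∀ A ∈ 𝒜, A.card = r + 1 ∧ Cl G A) (h3 : ∀ A ∈ 𝒜, ∀ B ∈ 𝒜, A ≠ B → Disjoint A B) :
    Model G Finset.univ 𝒜 := by
  have hne : ∀ A ∈ 𝒜, A.Nonempty := fun A hA =>
    Finset.card_pos.1 (by rw [(h2 A hA).1]; omega)
  refine ⟨fun A _ => Finset.subset_univ A, fun A hA => clique_conn (h2 A hA).2 (hne A hA), h3, ?_⟩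
  intro A hA B hB hAB
  obtain ⟨b, hb⟩ := hne B hB
  obtain ⟨a, ha, hab⟩ := dom2 h (h2 A hA).2 (h2 A hA).1
    (fun hbA => Finset.disjoint_left.1 (h3 A hA B hB hAB) hbA hb)
  exact ⟨a, ha, b, hb, hab.symm⟩

/-- the main lemma: `k` is the chromatic number -/
theorem main (h : NC G r) (b k : ℕ) (hk : Cov G Finset.univ k) :
    ∃ 𝓑 t, Model G Finset.univ 𝓑 ∧ (b + 1) * t ≤ (r + 1) * k ∧
      Cov G Finset.univ (𝓑.card + N1 (r * b) + r * (r + 1) + t) := by
  obtain ⟨P, hP1, hP2, hP3⟩ := hk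
  choose c hc using fun u => hP3 u (Finset.mem_univ u)
  set fib : Finset U → Finset U := fun C => Finset.univ.filter fun u => c u = C with hfib
  set Sm := P.filter fun C => (fib C).card ≤ r + 1 with hSm
  set Bg := P.filter fun C => ¬ (fib C).card ≤ r + 1 with hBg
  have hsum : Sm.card + Bg.card = P.card := Finset.card_filter_add_card_filter_not _
  set V := Sm.biUnion fib with hV
  set W := Bg.biUnion fib with hW
  have hVW : V ∪ W = Finset.univ := by
    ext u
    simp only [Finset.mem_univ, iff_true]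
    by_cases hu : (fib (c u)).card ≤ r + 1
    · exact Finset.mem_union_left _ (Finset.mem_biUnion.2 ⟨c u,
        Finset.mem_filter.2 ⟨(hc u).1, hu⟩, Finset.mem_filter.2 ⟨Finset.mem_univ _, rfl⟩⟩)
    · exact Finset.mem_union_right _ (Finset.mem_biUnion.2 ⟨c u,
        Finset.mem_filter.2 ⟨(hc u).1, hu⟩, Finset.mem_filter.2 ⟨Finset.mem_univ _, rfl⟩⟩)
  have hVWd : ∀ u ∈ V, u ∉ W := by
    intro u hu hu'
    obtain ⟨C, hC, huC⟩ := Finset.mem_biUnion.1 hu
    obtain ⟨C', hC', huC'⟩ := Finset.mem_biUnion.1 hu'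
    have h1 : C = C' := (Finset.mem_filter.1 huC).2.symm.trans (Finset.mem_filter.1 huC').2
    rw [h1] at hC
    exact (Finset.mem_filter.1 hC').2 (Finset.mem_filter.1 hC).2
  have hVc : V.card ≤ Sm.card * (r + 1) :=
    Finset.card_biUnion_le_card_mul _ _ _ (fun C hC => (Finset.mem_filter.1 hC).2)
  have hWcov : Cov G W Bg.card := by
    refine ⟨Bg.image fib, Finset.card_image_le, ?_, ?_⟩
    · intro A hA e he f hf
      obtain ⟨C, hC, rfl⟩ := Finset.mem_image.1 hA
      have h1 := (Finset.mem_filter.1 he).2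
      have h2 := (Finset.mem_filter.1 hf).2
      exact hP2 C (Finset.mem_filter.1 hC).1 e (h1 ▸ (hc e).2) f (h2 ▸ (hc f).2)
    · intro u hu
      obtain ⟨C, hC, huC⟩ := Finset.mem_biUnion.1 hu
      exact ⟨_, Finset.mem_image_of_mem _ hC, huC⟩
  rcases packing h W Bg.card with ⟨𝒜, hA1, hA2, hA3⟩ | ⟨A, hAW, hAc, hAcov⟩
  · obtain ⟨𝓑, t, hM, ht, hcov⟩ := peeled h b V
    have hMA := pack_model2 h (fun A hA => (hA2 A hA).2) hA3
    obtain ⟨m1, c1⟩ := (hM.le (Finset.subset_univ _)).union2 hMA (by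
        intro B hB A hA
        rw [Finset.disjoint_left]
        intro u hu hu'
        exact hVWd u (hM.sub B hB hu) ((hA2 A hA).1 hu')) (by
        intro B hB A hA
        obtain ⟨u, hu⟩ := (hM.conn B hB).1
        have huA : u ∉ A := fun hu' => hVWd u (hM.sub B hB hu) ((hA2 A hA).1 hu')
        obtain ⟨a, ha, hua⟩ := dom2 h (hA2 A hA).2.2 (hA2 A hA).2.1 huA
        exact ⟨u, hu, a, ha, hua⟩)
    refine ⟨_, t, m1, ?_, ?_⟩
    · refine ht.trans (hVc.trans ?_)
      rw [mul_comm]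
      exact Nat.mul_le_mul_left _ (by omega)
    · have h1 := hcov.union hWcov
      rw [hVW] at h1
      apply h1.mono
      rw [c1, hA1]
      omega
  · obtain ⟨𝓑, t, hM, ht, hcov⟩ := peeled h b (V ∪ A)
    refine ⟨𝓑, t, hM.le (Finset.subset_univ _), ?_, ?_⟩
    · refine ht.trans ((Finset.card_union_le _ _).trans ?_)
      have h1 : V.card + A.card ≤ (r + 1) * (Sm.card + Bg.card) := by
        rw [Nat.mul_add, mul_comm (r + 1) Sm.card]
        omega
      exact h1.trans (Nat.mul_le_mul_left _ (by omega))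
    · have h1 := (hcov.union hAcov).le (E := Finset.univ) (by
        rw [← hVW]
        intro u hu
        by_cases huA : u ∈ A
        · exact Finset.mem_union_left _ (Finset.mem_union_right _ huA)
        · rcases Finset.mem_union.1 hu with h2 | h2
          · exact Finset.mem_union_left _ (Finset.mem_union_left _ h2)
          · exact Finset.mem_union_right _ (Finset.mem_sdiff.2 ⟨h2, huA⟩))
      apply h1.mono
      omega

end Pool.Agent.N425.KV
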