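import Pool.Agent.N425.KV1

set_option autoImplicit false
set_option linter.unusedSectionVars false

open Classical

noncomputable section

namespace Pool.Agent.N425.KW

open Pool.Agent.N425.KR Pool.Agent.N425.KS Pool.Agent.N425.KV

variable {U : Type} [Fintype U] {G : SimpleGraph U} {r b : ℕ}

/-- a small set meeting many large neighbourhoods -/
lemma hit (ℓ : ℕ) : ∀ (I 𝒢 : Finset U), I.Nonempty →
    (∀ g ∈ 𝒢, 2 * (I.filter fun i => ¬ G.Adj g i).card ≤ I.card) → 𝒢.card < 2 ^ ℓ →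
    ∃ T ⊆ I, T.card ≤ ℓ ∧ ∀ g ∈ 𝒢, ∃ t ∈ T, G.Adj g t := by
  induction ℓ with
  | zero =>
    intro I 𝒢 _ _ h
    have h1 : 𝒢 = ∅ := Finset.card_eq_zero.1 (by rw [pow_zero] at h; omega)
    exact ⟨∅, by simp, by simp, by simp [h1]⟩
  | succ ℓ ih =>
    intro I 𝒢 hI hg hc
    have key : ∃ i ∈ I, 2 * (𝒢.filter fun g => ¬ G.Adj g i).card ≤ 𝒢.card := by
      by_contra hcon
      push Not at hcon
      have h1 : ∑ i ∈ I, (𝒢.filter fun g => ¬ G.Adj g i).card =
          ∑ g ∈ 𝒢, (I.filter fun i => ¬ G.Adj g i).card := by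
        simp only [Finset.card_filter]
        exact Finset.sum_comm
      have h2 : ∑ g ∈ 𝒢, 2 * (I.filter fun i => ¬ G.Adj g i).card ≤ ∑ _g ∈ 𝒢, I.card :=
        Finset.sum_le_sum hg
      have h3 : ∑ _i ∈ I, 𝒢.card < ∑ i ∈ I, 2 * (𝒢.filter fun g => ¬ G.Adj g i).card :=
        Finset.sum_lt_sum_of_nonempty hI hcon
      rw [← Finset.mul_sum] at h2 h3
      rw [Finset.sum_const, smul_eq_mul] at h2 h3
      rw [h1] at h3
      have h4 : 𝒢.card * I.card = I.card * 𝒢.card := mul_comm _ _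
      omega
    obtain ⟨i, hi, hic⟩ := key
    obtain ⟨T, hT, hTc, hTh⟩ := ih I (𝒢.filter fun g => ¬ G.Adj g i) hI
      (fun g hg' => hg g (Finset.mem_filter.1 hg').1) (by
        rw [pow_succ] at hc
        omega)
    refine ⟨insert i T, Finset.insert_subset hi hT, (Finset.card_insert_le _ _).trans (by omega), ?_⟩
    intro g hg'
    by_cases hadj : G.Adj g i
    · exact ⟨i, by simp, hadj⟩
    · obtain ⟨t, ht, hgt⟩ := hTh g (Finset.mem_filter.2 ⟨hg', hadj⟩)
      exact ⟨t, Finset.mem_insert_of_mem ht, hgt⟩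

/-- disjoint helpers for all members of `X` -/
lemma hits {e ℓ : ℕ} {I Γ : Finset U} (hgood : ∀ g ∈ Γ, 8 * (I.filter fun i => ¬ G.Adj g i).card ≤ I.card)
    (hΓ : Γ.card < 2 ^ ℓ) (hI : 8 * (e * ℓ) ≤ I.card) (hIn : I.Nonempty) :
    ∀ X : Finset U, X ⊆ Γ → X.card ≤ e → ∃ T : U → Finset U,
      (∀ x ∈ X, T x ⊆ I ∧ (T x).card ≤ ℓ ∧ (∀ t ∈ T x, G.Adj x t) ∧ ∀ g ∈ Γ, ∃ t ∈ T x, G.Adj g t) ∧
      ∀ x ∈ X, ∀ y ∈ X, x ≠ y → Disjoint (T x) (T y) := by
  intro X
  induction X using Finset.induction_on with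
  | empty => intro _ _; exact ⟨fun _ => ∅, by simp, by simp⟩
  | insert a X ha ih =>
    intro hX hXc
    rw [Finset.card_insert_of_notMem ha] at hXc
    obtain ⟨T, hT1, hT2⟩ := ih ((Finset.subset_insert _ _).trans hX) (by omega)
    set Z := X.biUnion T with hZ
    have hZc : Z.card ≤ e * ℓ :=
      (Finset.card_biUnion_le_card_mul _ _ ℓ (fun x hx => (hT1 x hx).2.1)).trans
        (Nat.mul_le_mul_right ℓ (by omega))
    have haΓ : a ∈ Γ := hX (Finset.mem_insert_self _ _)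
    set I' := (I.filter fun i => G.Adj a i) \ Z with hI'
    have hI'c : I.card ≤ I'.card + (I.filter fun i => ¬ G.Adj a i).card + Z.card := by
      have h1 := Finset.card_filter_add_card_filter_not (s := I) (fun i => G.Adj a i)
      have h2 := Finset.le_card_sdiff Z (I.filter fun i => G.Adj a i)
      rw [← hI'] at h2
      omega
    have hga := hgood a haΓ
    have hpos : 0 < I.card := Finset.card_pos.2 hIn
    obtain ⟨S, hS, hSc, hSh⟩ := hit (G := G) ℓ I' Γ (Finset.card_pos.1 (by omega)) (by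
      intro g hg
      have h1 := hgood g hg
      have h2 : (I'.filter fun i => ¬ G.Adj g i).card ≤ (I.filter fun i => ¬ G.Adj g i).card :=
        Finset.card_le_card (Finset.filter_subset_filter _
          (Finset.sdiff_subset.trans (Finset.filter_subset _ _)))
      omega) hΓ
    have hSI : S ⊆ I := hS.trans (Finset.sdiff_subset.trans (Finset.filter_subset _ _))
    have hSZ : ∀ x ∈ X, Disjoint S (T x) := by
      intro x hx
      rw [Finset.disjoint_left]
      intro i hi hi'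
      exact (Finset.mem_sdiff.1 (hS hi)).2 (Finset.mem_biUnion.2 ⟨x, hx, hi'⟩)
    have hne : ∀ x ∈ X, x ≠ a := fun x hx h => ha (h ▸ hx)
    refine ⟨fun x => if x = a then S else T x, ?_, ?_⟩
    · intro x hx
      dsimp only
      rcases Finset.mem_insert.1 hx with rfl | hx
      · rw [if_pos rfl]
        refine ⟨hSI, hSc, ?_, hSh⟩
        intro t ht
        exact (Finset.mem_filter.1 (Finset.mem_sdiff.1 (hS ht)).1).2
      · rw [if_neg (hne x hx)]
        exact hT1 x hx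
    · intro x hx y hy hxy
      dsimp only
      rcases Finset.mem_insert.1 hx with h1 | hx <;> rcases Finset.mem_insert.1 hy with h2 | hy
      · exact absurd (h1.trans h2.symm) hxy
      · rw [if_pos h1, if_neg (hne y hy)]
        exact hSZ y hy
      · rw [if_neg (hne x hx), if_pos h2]
        exact (hSZ x hx).symm
      · rw [if_neg (hne x hx), if_neg (hne y hy)]
        exact hT2 x hx y hy hxy

/-- few vertices of a clique are not adjacent to a given vertex -/
lemma cl_nn (h : NC G r) {A : Finset U} (hA : Cl G A) (i : U) (hi : i ∉ A) :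
    (A.filter fun a => ¬ G.Adj a i).card ≤ r := by
  apply cl_cov (G := G) (fun a ha b hb hab => hA a (Finset.mem_filter.1 ha).1 b
    (Finset.mem_filter.1 hb).1 hab)
  refine (h i).le ?_
  intro a ha
  rw [Finset.mem_filter] at ha
  exact mem_nn.2 ⟨fun h1 => hi (h1 ▸ ha.1), fun h1 => ha.2 h1.symm⟩

/-- the vertices that are not adjacent to many members of an independent set -/
lemma bad_cov (h : NC G r) {I F : Finset U} (hF : Disjoint F I)
    (hbad : ∀ g ∈ F, I.card < 8 * (I.filter fun i => ¬ G.Adj g i).card) :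
    Cov G F (8 * r * (r + 1)) := by
  apply chi_bdd h
  intro A hAF hA
  by_contra hcon
  push Not at hcon
  have hAn : A.Nonempty := Finset.card_pos.1 (by omega)
  have h1 : ∑ i ∈ I, (A.filter fun g => ¬ G.Adj g i).card =
      ∑ g ∈ A, (I.filter fun i => ¬ G.Adj g i).card := by
    simp only [Finset.card_filter]
    exact Finset.sum_comm
  have h2 : ∑ _g ∈ A, I.card < ∑ g ∈ A, 8 * (I.filter fun i => ¬ G.Adj g i).card :=
    Finset.sum_lt_sum_of_nonempty hAn (fun g hg => hbad g (hAF hg))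
  have h3 : ∑ i ∈ I, (A.filter fun g => ¬ G.Adj g i).card ≤ ∑ _i ∈ I, r :=
    Finset.sum_le_sum fun i hi => cl_nn h hA i (fun hiA =>
      Finset.disjoint_left.1 hF (hAF hiA) hi)
  rw [← Finset.mul_sum, ← h1, Finset.sum_const, smul_eq_mul] at h2
  rw [Finset.sum_const, smul_eq_mul] at h3
  have h4 : (8 * r) * I.card ≤ A.card * I.card := Nat.mul_le_mul_right _ hcon.le
  have h5 : 8 * (I.card * r) = (8 * r) * I.card := by ring
  omega

lemma alpha_deg (h : NC G r) {E : Finset U}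
    (hE : ∀ I ⊆ E, (∀ a ∈ I, ∀ c ∈ I, ¬ G.Adj a c) → I.card ≤ b) :
    ∀ u ∈ E, (E.filter fun w => w ≠ u ∧ ¬ G.Adj u w).card ≤ r * b := by
  intro u _
  obtain ⟨P, h1, h2, h3⟩ := h u
  have hsub : (E.filter fun w => w ≠ u ∧ ¬ G.Adj u w) ⊆
      P.biUnion fun C => E.filter fun w => w ∈ C := by
    intro w hw
    obtain ⟨hwQ, hwu⟩ := Finset.mem_filter.1 hw
    obtain ⟨C, hC, hwC⟩ := h3 w (mem_nn.2 hwu)
    exact Finset.mem_biUnion.2 ⟨C, hC, Finset.mem_filter.2 ⟨hwQ, hwC⟩⟩
  refine (Finset.card_le_card hsub).trans ((Finset.card_biUnion_le_card_mul _ _ b ?_).trans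
    (Nat.mul_le_mul_right b h1))
  intro C hC
  apply hE _ (Finset.filter_subset _ _)
  intro a ha c hc
  exact h2 C hC a (Finset.mem_filter.1 ha).2 c (Finset.mem_filter.1 hc).2

/-- number of surplus branch sets -/
def ee (r : ℕ) : ℕ := 8 * r * (r + 1) + 2

lemma exists_n0 (c : ℕ) : ∃ n0 : ℕ, ∀ n, n0 ≤ n → N1 (c * (Nat.log 2 n + 1)) ≤ n := by
  have h1 := (tendsto_pow_const_div_const_pow_of_one_lt 3 (show (1 : ℝ) < 2 by norm_num))
  have h2 : (0 : ℝ) < 1 / (2 * (11 * ((c : ℝ) + 1) ^ 3)) := by positivity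
  obtain ⟨L0, hL0⟩ := (Filter.eventually_atTop.1 (h1.eventually (gt_mem_nhds h2)))
  refine ⟨2 ^ L0, ?_⟩
  intro n hn
  set L := Nat.log 2 n + 1 with hL
  have hn0 : n ≠ 0 := by
    have : 0 < 2 ^ L0 := by positivity
    omega
  have hLL : L0 ≤ L := by
    have h3 := Nat.le_log_of_pow_le (by norm_num) hn
    omega
  have h4 := hL0 L hLL
  rw [div_lt_div_iff₀ (by positivity) (by positivity), one_mul] at h4
  have h5 : (2 : ℝ) ^ L ≤ 2 * n := by
    have h6 : 2 ^ Nat.log 2 n ≤ n := Nat.pow_log_le_self 2 hn0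
    have h7 : 2 ^ L ≤ 2 * n := by rw [hL, pow_succ]; omega
    exact_mod_cast h7
  have h6 : 11 * (((c : ℝ) + 1) * L) ^ 3 ≤ n := by
    have h7 : (L : ℝ) ^ 3 * (2 * (11 * ((c : ℝ) + 1) ^ 3)) ≤ 2 * n := h4.le.trans h5
    have h8 : (11 * (((c : ℝ) + 1) * L) ^ 3) * 2 = (L : ℝ) ^ 3 * (2 * (11 * ((c : ℝ) + 1) ^ 3)) := by
      ring
    linarith
  have h7 : 11 * ((c + 1) * L) ^ 3 ≤ n := by exact_mod_cast h6
  refine le_trans ?_ h7
  have h8 : c * L + 1 ≤ (c + 1) * L := by
    have : 1 ≤ L := by omega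
    nlinarith
  set y := (c + 1) * L with hy
  have h9 : N1 (c * L) ≤ 11 * y ^ 3 := by
    unfold N1
    have h10 : 1 ≤ y := by omega
    have h11 : c * L ≤ y := by omega
    have h12 : c * L * (c * L) + c * L ≤ y * y := by
      have h13 : (c * L + 1) * (c * L) ≤ y * y := Nat.mul_le_mul h8 h11
      nlinarith
    have h14 : 4 * (c * L * (c * L) + c * L) + 3 ≤ 7 * (y * y) := by nlinarith
    have h15 : (c * L + 1) * (4 * (c * L * (c * L) + c * L) + 3) ≤ y * (7 * (y * y)) :=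
      Nat.mul_le_mul h8 h14
    nlinarith
  exact h9

theorem main (r : ℕ) : ∃ C : ℕ, ∀ (U : Type) [Fintype U] (G : SimpleGraph U), NC G r →
    ∀ F : Finset U, ∃ 𝓑, Model G F 𝓑 ∧ Cov G F (𝓑.card + C) := by
  obtain ⟨n0, hn0⟩ := exists_n0 (r * (8 * ee r))
  refine ⟨N1 (r * ee r) + 8 * r * (r + 1) + 1 + n0, ?_⟩
  intro U _ G h F
  set C := N1 (r * ee r) + 8 * r * (r + 1) + 1 + n0 with hC
  generalize hnF : F.card = n
  induction n using Nat.strong_induction_on generalizing F with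
  | _ n ih =>
  by_cases hJ : (Jp G F).Nonempty
  · -- universal vertices
    have hlt : (Qp G F).card < n := by
      have h1 := Finset.card_union_of_disjoint (disj_Qp_Jp (G := G) F)
      rw [Qp_Jp] at h1
      have h2 := Finset.card_pos.2 hJ
      omega
    obtain ⟨𝓑, hM, hc⟩ := ih _ hlt (Qp G F) rfl
    obtain ⟨m1, c1⟩ := Model.clique (Jp_cl (G := G) F)
    obtain ⟨m2, c2⟩ := hM.union m1 (disj_Qp_Jp _) (by
      intro B hB C hC
      obtain ⟨j, hj, rfl⟩ := Finset.mem_image.1 hC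
      obtain ⟨q, hq⟩ := (hM.conn B hB).1
      refine ⟨q, hq, j, by simp, (Jp_adj hj (Qp_sub _ (hM.sub B hB hq)) ?_).symm⟩
      rintro rfl
      exact Finset.disjoint_left.1 (disj_Qp_Jp _) (hM.sub B hB hq) hj)
    have h1 := (hc.union (Cov.triv (G := G) (Jp G F)))
    rw [Qp_Jp] at h1 m2
    refine ⟨_, m2, h1.mono ?_⟩
    rw [c2, c1]
    omega
  rw [Finset.not_nonempty_iff_eq_empty] at hJ
  have hQ : Qp G F = F := by
    have h1 := Qp_Jp (G := G) F
    rwa [hJ, Finset.union_empty] at h1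
  by_cases hsmall : n < n0
  · refine ⟨∅, ⟨by simp, by simp, by simp, by simp⟩, (Cov.triv F).mono ?_⟩
    rw [Finset.card_empty]
    omega
  push Not at hsmall
  set ℓ := Nat.log 2 n + 1 with hℓ
  by_cases hα : ∀ I ⊆ F, (∀ a ∈ I, ∀ c ∈ I, ¬ G.Adj a c) → I.card ≤ 8 * (ee r * ℓ)
  · -- no large independent set
    have h1 := alpha_deg h hα
    have h2 : Had G F := by
      apply near (D := r * (8 * (ee r * ℓ))) (Q := F) _ h1
      · have h3 := hn0 n hsmall
        have h4 : r * (8 * ee r) * (Nat.log 2 n + 1) = r * (8 * (ee r * ℓ)) := by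
          rw [hℓ]; ring
        rw [h4] at h3
        rw [hnF]
        exact h3
      · have h3 := Qp_self (G := G) (F := F)
        rwa [hQ] at h3
    obtain ⟨𝓑, h3, h4⟩ := h2
    exact ⟨𝓑, h3, h4.mono (by omega)⟩
  push Not at hα
  obtain ⟨I, hIF, hIi, hIc⟩ := hα
  have hIn : I.Nonempty := Finset.card_pos.1 (by omega)
  set Bd := (F \ I).filter fun g => ¬ 8 * (I.filter fun i => ¬ G.Adj g i).card ≤ I.card with hBd
  set Γ := (F \ I).filter fun g => 8 * (I.filter fun i => ¬ G.Adj g i).card ≤ I.card with hΓ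
  have hBcov : Cov G Bd (8 * r * (r + 1)) := by
    apply bad_cov h (I := I)
    · exact Finset.disjoint_of_subset_left (Finset.filter_subset _ _) Finset.sdiff_disjoint
    · intro g hg
      exact not_le.1 (Finset.mem_filter.1 hg).2
  have hΓF : Γ ⊆ F := (Finset.filter_subset _ _).trans Finset.sdiff_subset
  have hΓI : ∀ g ∈ Γ, g ∉ I := fun g hg => (Finset.mem_sdiff.1 (Finset.mem_filter.1 hg).1).2
  have hΓc : Γ.card < 2 ^ ℓ := by
    have h1 := Finset.card_le_card hΓF
    have h2 : n < 2 ^ ℓ := Nat.lt_pow_succ_log_self (by norm_num) n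
    omega
  have hFsplit : F ⊆ Γ ∪ (I ∪ Bd) := by
    intro u hu
    by_cases huI : u ∈ I
    · exact Finset.mem_union_right _ (Finset.mem_union_left _ huI)
    · by_cases hg : 8 * (I.filter fun i => ¬ G.Adj u i).card ≤ I.card
      · exact Finset.mem_union_left _ (Finset.mem_filter.2 ⟨Finset.mem_sdiff.2 ⟨hu, huI⟩, hg⟩)
      · exact Finset.mem_union_right _ (Finset.mem_union_right _
          (Finset.mem_filter.2 ⟨Finset.mem_sdiff.2 ⟨hu, huI⟩, hg⟩))
  have hIB := (Cov.ind hIi).union hBcov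
  by_cases hX : ∀ X ⊆ Γ, (∀ a ∈ X, ∀ c ∈ X, ¬ G.Adj a c) → X.card ≤ ee r
  · obtain ⟨𝓑, h1, h2⟩ := small_alpha h hX
    refine ⟨𝓑, h1.le hΓF, ((h2.union hIB).le hFsplit).mono ?_⟩
    omega
  push Not at hX
  obtain ⟨X0, hX0, hX0i, hX0c⟩ := hX
  obtain ⟨X, hXX, hXc⟩ := Finset.exists_subset_card_eq (show ee r ≤ X0.card by omega)
  have hXΓ : X ⊆ Γ := hXX.trans hX0
  have hXi : ∀ a ∈ X, ∀ c ∈ X, ¬ G.Adj a c := fun a ha c hc => hX0i a (hXX ha) c (hXX hc)
  obtain ⟨T, hT1, hT2⟩ := hits (G := G) (e := ee r) (ℓ := ℓ) (I := I) (Γ := Γ)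
    (fun g hg => (Finset.mem_filter.1 hg).2) hΓc (by omega) hIn X hXΓ hXc.le
  have hlt : (Γ \ X).card < n := by
    have h1 : (Γ \ X).card ≤ (F \ I).card :=
      Finset.card_le_card (Finset.sdiff_subset.trans (Finset.filter_subset _ _))
    rw [Finset.card_sdiff_of_subset hIF] at h1
    have h2 := Finset.card_pos.2 hIn
    have h3 := Finset.card_le_card hIF
    omega
  obtain ⟨𝓑, hM, hc⟩ := ih _ hlt (Γ \ X) rfl
  obtain ⟨m1, c1⟩ := Model.ofFn (G := G) X (fun x => insert x (T x)) (F := F)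
    (fun x hx => Finset.insert_subset (hΓF (hXΓ hx)) ((hT1 x hx).1.trans hIF))
    (fun x hx => conn_star x _ (hT1 x hx).2.2.1) (by
      intro x hx y hy hxy
      rw [Finset.disjoint_insert_left, Finset.disjoint_insert_right]
      refine ⟨?_, ?_, hT2 x hx y hy hxy⟩
      · intro h1
        rcases Finset.mem_insert.1 h1 with h1 | h1
        · exact hxy h1
        · exact hΓI x (hXΓ hx) ((hT1 y hy).1 h1)
      · intro h1
        exact hΓI y (hXΓ hy) ((hT1 x hx).1 h1)) (by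
      intro x hx y hy hxy
      obtain ⟨t, ht, hyt⟩ := (hT1 x hx).2.2.2 y (hXΓ hy)
      exact ⟨t, Finset.mem_insert_of_mem ht, y, by simp, hyt.symm⟩)
  obtain ⟨m2, c2⟩ := (hM.le (Finset.sdiff_subset.trans hΓF)).union2 m1 (by
      intro B hB A hA
      obtain ⟨x, hx, rfl⟩ := Finset.mem_image.1 hA
      rw [Finset.disjoint_left]
      intro u hu hu'
      have h1 := Finset.mem_sdiff.1 (hM.sub B hB hu)
      rcases Finset.mem_insert.1 hu' with h2 | h2
      · exact h1.2 (h2 ▸ hx)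
      · exact hΓI u h1.1 ((hT1 x hx).1 h2)) (by
      intro B hB A hA
      obtain ⟨x, hx, rfl⟩ := Finset.mem_image.1 hA
      obtain ⟨u, hu⟩ := (hM.conn B hB).1
      obtain ⟨t, ht, hut⟩ := (hT1 x hx).2.2.2 u (Finset.mem_sdiff.1 (hM.sub B hB hu)).1
      exact ⟨u, hu, t, Finset.mem_insert_of_mem ht, hut⟩)
  refine ⟨_, m2, ?_⟩
  have h1 := ((hc.union (Cov.ind hXi)).union hIB).le (E := F) (by
    intro u hu
    rcases Finset.mem_union.1 (hFsplit hu) with h2 | h2
    · by_cases huX : u ∈ X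
      · exact Finset.mem_union_left _ (Finset.mem_union_right _ huX)
      · exact Finset.mem_union_left _ (Finset.mem_union_left _ (Finset.mem_sdiff.2 ⟨h2, huX⟩))
    · exact Finset.mem_union_right _ h2)
  apply h1.mono
  rw [c2, c1, hXc]
  have h2 : ee r = 8 * r * (r + 1) + 2 := rfl
  omega

end Pool.Agent.N425.KW
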