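import Pool.Agent.N425.KW1

set_option autoImplicit false
set_option linter.unusedSectionVars false

open Classical

noncomputable section

namespace Pool.Agent.N425.KX

open Pool.Agent.N425.KR Pool.Agent.N425.KS Pool.Agent.N425.KV Pool.Agent.N425.KW

variable {U : Type} [Fintype U] {G : SimpleGraph U} {r b : ℕ}

lemma N2_le (D E t : ℕ) (h : 2 * (E + 1) ≤ t) : N2 D E ≤ N1 (D + t) := by
  obtain ⟨s, rfl⟩ := Nat.exists_eq_add_of_le h
  unfold N2 N1
  zify
  rw [← sub_nonneg]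
  ring_nf
  positivity

lemma exists_n0' (c E : ℕ) : ∃ n0 : ℕ, ∀ n, n0 ≤ n → N2 (c * (Nat.log 2 n + 1)) E ≤ n := by
  obtain ⟨n0, hn0⟩ := exists_n0 (c + 2 * (E + 1))
  refine ⟨n0, fun n hn => le_trans ?_ (hn0 n hn)⟩
  have h1 : (c + 2 * (E + 1)) * (Nat.log 2 n + 1) =
      c * (Nat.log 2 n + 1) + 2 * (E + 1) * (Nat.log 2 n + 1) := by ring
  rw [h1]
  apply N2_le
  exact Nat.le_mul_of_pos_right _ (Nat.succ_pos _)

/-- surplus `E` on `F` -/
def Sur (G : SimpleGraph U) (F : Finset U) (E : ℕ) : Prop :=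
  ∃ 𝓑 k, Model G F 𝓑 ∧ Cov G F k ∧ k + E ≤ 𝓑.card

/-- add the vertices of `F` adjacent to all others -/
lemma Sur.add {F : Finset U} {E : ℕ} (h : Sur G (Qp G F) E) : Sur G F E := by
  obtain ⟨𝓑, k, hM, hc, hk⟩ := h
  obtain ⟨m1, c1⟩ := Model.clique (Jp_cl (G := G) F)
  obtain ⟨m2, c2⟩ := hM.union m1 (disj_Qp_Jp _) (by
    intro B hB C hC
    obtain ⟨j, hj, rfl⟩ := Finset.mem_image.1 hC
    obtain ⟨q, hq⟩ := (hM.conn B hB).1
    refine ⟨q, hq, j, by simp, (Jp_adj hj (Qp_sub _ (hM.sub B hB hq)) ?_).symm⟩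
    rintro rfl
    exact Finset.disjoint_left.1 (disj_Qp_Jp _) (hM.sub B hB hq) hj)
  have h1 := (hc.union (Cov.triv (G := G) (Jp G F)))
  rw [Qp_Jp] at h1 m2
  refine ⟨_, _, m2, h1, ?_⟩
  rw [c2, c1]
  omega

/-- more colours and fewer surplus sets -/
lemma Sur.ext {F F' : Finset U} {E t : ℕ} (h : Sur G F (E + t)) (hF : F ⊆ F')
    (hc : Cov G (F' \ F) t) : Sur G F' E := by
  obtain ⟨𝓑, k, hM, hk, hkE⟩ := h
  refine ⟨𝓑, k + t, hM.le hF, ?_, by omega⟩
  have h1 := hk.union hc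
  rwa [Finset.union_sdiff_of_subset hF] at h1

/-- the dichotomy for sets in which every vertex has a non-neighbour -/
lemma dicho_core (r E : ℕ) : ∃ N : ℕ, ∀ (U : Type) [Fintype U] (G : SimpleGraph U), NC G r →
    ∀ F : Finset U, (∀ u ∈ F, ∃ w ∈ F, w ≠ u ∧ ¬ G.Adj u w) →
      Sur G F E ∨ ∃ K ⊆ F, Cl G K ∧ Cov G (F \ K) N := by
  obtain ⟨C, hC⟩ := KW.main r
  set f := 8 * r * (r + 1) with hf
  set e := f + 2 + C + E with he
  obtain ⟨n0, hn0⟩ := exists_n0' (r * (8 * e)) E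
  refine ⟨n0 + N2 (r * e) (E + (1 + f)) + (1 + f), ?_⟩
  intro U _ G h F hF
  generalize hnF : F.card = n
  by_cases hsmall : n < n0
  · refine Or.inr ⟨∅, Finset.empty_subset _, fun a ha => absurd ha (by simp), ?_⟩
    rw [Finset.sdiff_empty]
    exact (Cov.triv F).mono (by omega)
  push Not at hsmall
  set ℓ := Nat.log 2 n + 1 with hℓ
  by_cases hα : ∀ I ⊆ F, (∀ a ∈ I, ∀ c ∈ I, ¬ G.Adj a c) → I.card ≤ 8 * (e * ℓ)
  · left
    have h1 := alpha_deg h hα
    apply excess hF h1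
    have h3 := hn0 n hsmall
    have h4 : r * (8 * e) * (Nat.log 2 n + 1) = r * (8 * (e * ℓ)) := by
      rw [hℓ]; ring
    rw [h4] at h3
    rw [hnF]
    exact h3
  push Not at hα
  obtain ⟨I, hIF, hIi, hIc⟩ := hα
  have hIn : I.Nonempty := Finset.card_pos.1 (by omega)
  set Bd := (F \ I).filter fun g => ¬ 8 * (I.filter fun i => ¬ G.Adj g i).card ≤ I.card with hBd
  set Γ := (F \ I).filter fun g => 8 * (I.filter fun i => ¬ G.Adj g i).card ≤ I.card with hΓ
  have hBcov : Cov G Bd f := by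
    apply bad_cov h (I := I)
    · exact Finset.disjoint_of_subset_left (Finset.filter_subset _ _) Finset.sdiff_disjoint
    · intro g hg
      exact not_le.1 (Finset.mem_filter.1 hg).2
  have hΓF : Γ ⊆ F := (Finset.filter_subset _ _).trans Finset.sdiff_subset
  have hΓI : ∀ g ∈ Γ, g ∉ I := fun g hg => (Finset.mem_sdiff.1 (Finset.mem_filter.1 hg).1).2
  have hΓc : Γ.card < 2 ^ ℓ := by
    have h1 := Finset.card_le_card hΓF
    have h2 : n < 2 ^ ℓ := Nat.lt_pow_succ_log_self (by norm_num) n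
    omega
  have hFsplit : F ⊆ Γ ∪ (I ∪ Bd) := by
    intro u hu
    by_cases huI : u ∈ I
    · exact Finset.mem_union_right _ (Finset.mem_union_left _ huI)
    · by_cases hg : 8 * (I.filter fun i => ¬ G.Adj u i).card ≤ I.card
      · exact Finset.mem_union_left _ (Finset.mem_filter.2 ⟨Finset.mem_sdiff.2 ⟨hu, huI⟩, hg⟩)
      · exact Finset.mem_union_right _ (Finset.mem_union_right _
          (Finset.mem_filter.2 ⟨Finset.mem_sdiff.2 ⟨hu, huI⟩, hg⟩))
  have hIB : Cov G (I ∪ Bd) (1 + f) := (Cov.ind hIi).union hBcov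
  by_cases hX : ∀ X ⊆ Γ, (∀ a ∈ X, ∀ c ∈ X, ¬ G.Adj a c) → X.card ≤ e
  · by_cases hN : N2 (r * e) (E + (1 + f)) ≤ (Qp G Γ).card
    · left
      have h1 : Sur G (Qp G Γ) (E + (1 + f)) :=
        excess (Qp_self (G := G) (F := Γ))
          (alpha_deg h (fun I hI => hX I (hI.trans (Qp_sub _)))) hN
      refine h1.add.ext hΓF (hIB.le ?_)
      intro u hu
      rw [Finset.mem_sdiff] at hu
      exact (Finset.mem_union.1 (hFsplit hu.1)).resolve_left hu.2
    · right
      refine ⟨Jp G Γ, (Jp_sub _).trans hΓF, Jp_cl _, ?_⟩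
      have h1 := ((Cov.triv (G := G) (Qp G Γ)).union hIB).le (E := F \ Jp G Γ) (by
        intro u hu
        rw [Finset.mem_sdiff] at hu
        rcases Finset.mem_union.1 (hFsplit hu.1) with h2 | h2
        · rw [← Qp_Jp (G := G) Γ] at h2
          exact Finset.mem_union_left _ ((Finset.mem_union.1 h2).resolve_right hu.2)
        · exact Finset.mem_union_right _ h2)
      exact h1.mono (by omega)
  left
  push Not at hX
  obtain ⟨X0, hX0, hX0i, hX0c⟩ := hX
  obtain ⟨X, hXX, hXc⟩ := Finset.exists_subset_card_eq (show e ≤ X0.card by omega)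
  have hXΓ : X ⊆ Γ := hXX.trans hX0
  have hXi : ∀ a ∈ X, ∀ c ∈ X, ¬ G.Adj a c := fun a ha c hc => hX0i a (hXX ha) c (hXX hc)
  obtain ⟨T, hT1, hT2⟩ := hits (G := G) (e := e) (ℓ := ℓ) (I := I) (Γ := Γ)
    (fun g hg => (Finset.mem_filter.1 hg).2) hΓc (by omega) hIn X hXΓ hXc.le
  obtain ⟨𝓑, hM, hc⟩ := hC U G h (Γ \ X)
  obtain ⟨m1, c1⟩ := Model.ofFn (G := G) X (fun x => insert x (T x)) (F := F)
    (fun x hx => Finset.insert_subset (hΓF (hXΓ hx)) ((hT1 x hx).1.trans hIF))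
    (fun x hx => conn_star x _ (hT1 x hx).2.2.1) (by
      intro x hx y hy hxy
      rw [Finset.disjoint_insert_left, Finset.disjoint_insert_right]
      refine ⟨?_, ?_, hT2 x hx y hy hxy⟩
      · intro h1
        rcases Finset.mem_insert.1 h1 with h1 | h1
        · exact hxy h1
        · exact hΓI x (hXΓ hx) ((hT1 y hy).1 h1)
      · intro h1
        exact hΓI y (hXΓ hy) ((hT1 x hx).1 h1)) (by
      intro x hx y hy hxy
      obtain ⟨t, ht, hyt⟩ := (hT1 x hx).2.2.2 y (hXΓ hy)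
      exact ⟨t, Finset.mem_insert_of_mem ht, y, by simp, hyt.symm⟩)
  obtain ⟨m2, c2⟩ := (hM.le (Finset.sdiff_subset.trans hΓF)).union2 m1 (by
      intro B hB A hA
      obtain ⟨x, hx, rfl⟩ := Finset.mem_image.1 hA
      rw [Finset.disjoint_left]
      intro u hu hu'
      have h1 := Finset.mem_sdiff.1 (hM.sub B hB hu)
      rcases Finset.mem_insert.1 hu' with h2 | h2
      · exact h1.2 (h2 ▸ hx)
      · exact hΓI u h1.1 ((hT1 x hx).1 h2)) (by
      intro B hB A hA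
      obtain ⟨x, hx, rfl⟩ := Finset.mem_image.1 hA
      obtain ⟨u, hu⟩ := (hM.conn B hB).1
      obtain ⟨t, ht, hut⟩ := (hT1 x hx).2.2.2 u (Finset.mem_sdiff.1 (hM.sub B hB hu)).1
      exact ⟨u, hu, t, Finset.mem_insert_of_mem ht, hut⟩)
  have h1 := ((hc.union (Cov.ind hXi)).union hIB).le (E := F) (by
    intro u hu
    rcases Finset.mem_union.1 (hFsplit hu) with h2 | h2
    · by_cases huX : u ∈ X
      · exact Finset.mem_union_left _ (Finset.mem_union_right _ huX)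
      · exact Finset.mem_union_left _ (Finset.mem_union_left _ (Finset.mem_sdiff.2 ⟨h2, huX⟩))
    · exact Finset.mem_union_right _ h2)
  refine ⟨_, _, m2, h1, ?_⟩
  rw [c2, c1, hXc]
  omega

theorem dicho (r E : ℕ) : ∃ N : ℕ, ∀ (U : Type) [Fintype U] (G : SimpleGraph U), NC G r →
    ∀ F : Finset U, Sur G F E ∨ ∃ K ⊆ F, Cl G K ∧ Cov G (F \ K) N := by
  obtain ⟨N, hN⟩ := dicho_core r E
  refine ⟨N, ?_⟩
  intro U _ G h F
  rcases hN U G h (Qp G F) Qp_self with h1 | ⟨K, hK, hKc, hKN⟩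
  · exact Or.inl h1.add
  · right
    refine ⟨K ∪ Jp G F, Finset.union_subset (hK.trans (Qp_sub _)) (Jp_sub _), ?_, ?_⟩
    · intro a ha c hc hac
      rcases Finset.mem_union.1 ha with ha | ha
      · rcases Finset.mem_union.1 hc with hc | hc
        · exact hKc a ha c hc hac
        · exact (Jp_adj hc (Qp_sub _ (hK ha)) hac.symm).symm
      · rcases Finset.mem_union.1 hc with hc | hc
        · exact Jp_adj ha (Qp_sub _ (hK hc)) hac
        · exact Jp_adj ha (Jp_sub _ hc) hac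
    · refine hKN.le ?_
      intro u hu
      rw [Finset.mem_sdiff, Finset.mem_union, not_or] at hu
      rw [Finset.mem_sdiff]
      refine ⟨?_, hu.2.1⟩
      have h1 := hu.1
      rw [← Qp_Jp (G := G) F] at h1
      exact (Finset.mem_union.1 h1).resolve_right hu.2.2

end Pool.Agent.N425.KX
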