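import Pool.Agent.N425.KX1

set_option autoImplicit false
set_option linter.unusedSectionVars false

open Classical

noncomputable section

namespace Pool.Agent.N425.KY

open Pool.Agent.N425.KR Pool.Agent.N425.KS Pool.Agent.N425.KV Pool.Agent.N425.KW Pool.Agent.N425.KX

theorem main' (r n0 : ℕ) (hn0 : ∀ n, n0 ≤ n → N1 (r * (8 * ee r) * (Nat.log 2 n + 1)) ≤ n)
    {U : Type} [Fintype U] {G : SimpleGraph U} (h : NC G r) (F : Finset U) :
    ∃ 𝓑, Model G F 𝓑 ∧ Cov G F (𝓑.card + (N1 (r * ee r) + 8 * r * (r + 1) + 1 + n0)) := by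
  set C := N1 (r * ee r) + 8 * r * (r + 1) + 1 + n0 with hC
  generalize hnF : F.card = n
  induction n using Nat.strong_induction_on generalizing F with
  | _ n ih =>
  by_cases hJ : (Jp G F).Nonempty
  · -- universal vertices
    have hlt : (Qp G F).card < n := by
      have h1 := Finset.card_union_of_disjoint (disj_Qp_Jp (G := G) F)
      rw [Qp_Jp] at h1
      have h2 := Finset.card_pos.2 hJ
      omega
    obtain ⟨𝓑, hM, hc⟩ := ih _ hlt (Qp G F) rfl
    obtain ⟨m1, c1⟩ := Model.clique (Jp_cl (G := G) F)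
    obtain ⟨m2, c2⟩ := hM.union m1 (disj_Qp_Jp _) (by
      intro B hB C hC
      obtain ⟨j, hj, rfl⟩ := Finset.mem_image.1 hC
      obtain ⟨q, hq⟩ := (hM.conn B hB).1
      refine ⟨q, hq, j, by simp, (Jp_adj hj (Qp_sub _ (hM.sub B hB hq)) ?_).symm⟩
      rintro rfl
      exact Finset.disjoint_left.1 (disj_Qp_Jp _) (hM.sub B hB hq) hj)
    have h1 := (hc.union (Cov.triv (G := G) (Jp G F)))
    rw [Qp_Jp] at h1 m2
    refine ⟨_, m2, h1.mono ?_⟩
    rw [c2, c1]
    omega
  rw [Finset.not_nonempty_iff_eq_empty] at hJ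
  have hQ : Qp G F = F := by
    have h1 := Qp_Jp (G := G) F
    rwa [hJ, Finset.union_empty] at h1
  by_cases hsmall : n < n0
  · refine ⟨∅, ⟨by simp, by simp, by simp, by simp⟩, (Cov.triv F).mono ?_⟩
    rw [Finset.card_empty]
    omega
  push Not at hsmall
  set ℓ := Nat.log 2 n + 1 with hℓ
  by_cases hα : ∀ I ⊆ F, (∀ a ∈ I, ∀ c ∈ I, ¬ G.Adj a c) → I.card ≤ 8 * (ee r * ℓ)
  · -- no large independent set
    have h1 := alpha_deg h hα
    have h2 : Had G F := by
      apply near (D := r * (8 * (ee r * ℓ))) (Q := F) _ h1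
      · have h3 := hn0 n hsmall
        have h4 : r * (8 * ee r) * (Nat.log 2 n + 1) = r * (8 * (ee r * ℓ)) := by
          rw [hℓ]; ring
        rw [h4] at h3
        rw [hnF]
        exact h3
      · have h3 := Qp_self (G := G) (F := F)
        rwa [hQ] at h3
    obtain ⟨𝓑, h3, h4⟩ := h2
    exact ⟨𝓑, h3, h4.mono (by omega)⟩
  push Not at hα
  obtain ⟨I, hIF, hIi, hIc⟩ := hα
  have hIn : I.Nonempty := Finset.card_pos.1 (by omega)
  set Bd := (F \ I).filter fun g => ¬ 8 * (I.filter fun i => ¬ G.Adj g i).card ≤ I.card with hBd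
  set Γ := (F \ I).filter fun g => 8 * (I.filter fun i => ¬ G.Adj g i).card ≤ I.card with hΓ
  have hBcov : Cov G Bd (8 * r * (r + 1)) := by
    apply bad_cov h (I := I)
    · exact Finset.disjoint_of_subset_left (Finset.filter_subset _ _) Finset.sdiff_disjoint
    · intro g hg
      exact not_le.1 (Finset.mem_filter.1 hg).2
  have hΓF : Γ ⊆ F := (Finset.filter_subset _ _).trans Finset.sdiff_subset
  have hΓI : ∀ g ∈ Γ, g ∉ I := fun g hg => (Finset.mem_sdiff.1 (Finset.mem_filter.1 hg).1).2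
  have hΓc : Γ.card < 2 ^ ℓ := by
    have h1 := Finset.card_le_card hΓF
    have h2 : n < 2 ^ ℓ := Nat.lt_pow_succ_log_self (by norm_num) n
    omega
  have hFsplit : F ⊆ Γ ∪ (I ∪ Bd) := by
    intro u hu
    by_cases huI : u ∈ I
    · exact Finset.mem_union_right _ (Finset.mem_union_left _ huI)
    · by_cases hg : 8 * (I.filter fun i => ¬ G.Adj u i).card ≤ I.card
      · exact Finset.mem_union_left _ (Finset.mem_filter.2 ⟨Finset.mem_sdiff.2 ⟨hu, huI⟩, hg⟩)
      · exact Finset.mem_union_right _ (Finset.mem_union_right _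
          (Finset.mem_filter.2 ⟨Finset.mem_sdiff.2 ⟨hu, huI⟩, hg⟩))
  have hIB := (Cov.ind hIi).union hBcov
  by_cases hX : ∀ X ⊆ Γ, (∀ a ∈ X, ∀ c ∈ X, ¬ G.Adj a c) → X.card ≤ ee r
  · obtain ⟨𝓑, h1, h2⟩ := small_alpha h hX
    refine ⟨𝓑, h1.le hΓF, ((h2.union hIB).le hFsplit).mono ?_⟩
    omega
  push Not at hX
  obtain ⟨X0, hX0, hX0i, hX0c⟩ := hX
  obtain ⟨X, hXX, hXc⟩ := Finset.exists_subset_card_eq (show ee r ≤ X0.card by omega)
  have hXΓ : X ⊆ Γ := hXX.trans hX0
  have hXi : ∀ a ∈ X, ∀ c ∈ X, ¬ G.Adj a c := fun a ha c hc => hX0i a (hXX ha) c (hXX hc)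
  obtain ⟨T, hT1, hT2⟩ := hits (G := G) (e := ee r) (ℓ := ℓ) (I := I) (Γ := Γ)
    (fun g hg => (Finset.mem_filter.1 hg).2) hΓc (by omega) hIn X hXΓ hXc.le
  have hlt : (Γ \ X).card < n := by
    have h1 : (Γ \ X).card ≤ (F \ I).card :=
      Finset.card_le_card (Finset.sdiff_subset.trans (Finset.filter_subset _ _))
    rw [Finset.card_sdiff_of_subset hIF] at h1
    have h2 := Finset.card_pos.2 hIn
    have h3 := Finset.card_le_card hIF
    omega
  obtain ⟨𝓑, hM, hc⟩ := ih _ hlt (Γ \ X) rfl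
  obtain ⟨m1, c1⟩ := Model.ofFn (G := G) X (fun x => insert x (T x)) (F := F)
    (fun x hx => Finset.insert_subset (hΓF (hXΓ hx)) ((hT1 x hx).1.trans hIF))
    (fun x hx => conn_star x _ (hT1 x hx).2.2.1) (by
      intro x hx y hy hxy
      rw [Finset.disjoint_insert_left, Finset.disjoint_insert_right]
      refine ⟨?_, ?_, hT2 x hx y hy hxy⟩
      · intro h1
        rcases Finset.mem_insert.1 h1 with h1 | h1
        · exact hxy h1
        · exact hΓI x (hXΓ hx) ((hT1 y hy).1 h1)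
      · intro h1
        exact hΓI y (hXΓ hy) ((hT1 x hx).1 h1)) (by
      intro x hx y hy hxy
      obtain ⟨t, ht, hyt⟩ := (hT1 x hx).2.2.2 y (hXΓ hy)
      exact ⟨t, Finset.mem_insert_of_mem ht, y, by simp, hyt.symm⟩)
  obtain ⟨m2, c2⟩ := (hM.le (Finset.sdiff_subset.trans hΓF)).union2 m1 (by
      intro B hB A hA
      obtain ⟨x, hx, rfl⟩ := Finset.mem_image.1 hA
      rw [Finset.disjoint_left]
      intro u hu hu'
      have h1 := Finset.mem_sdiff.1 (hM.sub B hB hu)
      rcases Finset.mem_insert.1 hu' with h2 | h2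
      · exact h1.2 (h2 ▸ hx)
      · exact hΓI u h1.1 ((hT1 x hx).1 h2)) (by
      intro B hB A hA
      obtain ⟨x, hx, rfl⟩ := Finset.mem_image.1 hA
      obtain ⟨u, hu⟩ := (hM.conn B hB).1
      obtain ⟨t, ht, hut⟩ := (hT1 x hx).2.2.2 u (Finset.mem_sdiff.1 (hM.sub B hB hu)).1
      exact ⟨u, hu, t, Finset.mem_insert_of_mem ht, hut⟩)
  refine ⟨_, m2, ?_⟩
  have h1 := ((hc.union (Cov.ind hXi)).union hIB).le (E := F) (by
    intro u hu
    rcases Finset.mem_union.1 (hFsplit hu) with h2 | h2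
    · by_cases huX : u ∈ X
      · exact Finset.mem_union_left _ (Finset.mem_union_right _ huX)
      · exact Finset.mem_union_left _ (Finset.mem_union_left _ (Finset.mem_sdiff.2 ⟨h2, huX⟩))
    · exact Finset.mem_union_right _ h2)
  apply h1.mono
  rw [c2, c1, hXc]
  have h2 : ee r = 8 * r * (r + 1) + 2 := rfl
  omega

/-- the dichotomy for sets in which every vertex has a non-neighbour -/
lemma dicho_core' (r E C f e n0 : ℕ)
    (hC : ∀ (U : Type) [Fintype U] (G : SimpleGraph U), NC G r →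
      ∀ F : Finset U, ∃ 𝓑, Model G F 𝓑 ∧ Cov G F (𝓑.card + C))
    (hf : f = 8 * r * (r + 1)) (he : e = f + 2 + C + E)
    (hn0 : ∀ n, n0 ≤ n → N2 (r * (8 * e) * (Nat.log 2 n + 1)) E ≤ n)
    {U : Type} [Fintype U] {G : SimpleGraph U} (h : NC G r) (F : Finset U)
    (hF : ∀ u ∈ F, ∃ w ∈ F, w ≠ u ∧ ¬ G.Adj u w) :
      Sur G F E ∨ ∃ K ⊆ F, Cl G K ∧ Cov G (F \ K) (n0 + N2 (r * e) (E + (1 + f)) + (1 + f)) := by
  generalize hnF : F.card = n
  by_cases hsmall : n < n0
  · refine Or.inr ⟨∅, Finset.empty_subset _, fun a ha => absurd ha (by simp), ?_⟩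
    rw [Finset.sdiff_empty]
    exact (Cov.triv F).mono (by omega)
  push Not at hsmall
  set ℓ := Nat.log 2 n + 1 with hℓ
  by_cases hα : ∀ I ⊆ F, (∀ a ∈ I, ∀ c ∈ I, ¬ G.Adj a c) → I.card ≤ 8 * (e * ℓ)
  · left
    have h1 := alpha_deg h hα
    apply excess hF h1
    have h3 := hn0 n hsmall
    have h4 : r * (8 * e) * (Nat.log 2 n + 1) = r * (8 * (e * ℓ)) := by
      rw [hℓ]; ring
    rw [h4] at h3
    rw [hnF]
    exact h3
  push Not at hα
  obtain ⟨I, hIF, hIi, hIc⟩ := hα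
  have hIn : I.Nonempty := Finset.card_pos.1 (by omega)
  set Bd := (F \ I).filter fun g => ¬ 8 * (I.filter fun i => ¬ G.Adj g i).card ≤ I.card with hBd
  set Γ := (F \ I).filter fun g => 8 * (I.filter fun i => ¬ G.Adj g i).card ≤ I.card with hΓ
  have hBcov : Cov G Bd f := by
    rw [hf]
    apply bad_cov h (I := I)
    · exact Finset.disjoint_of_subset_left (Finset.filter_subset _ _) Finset.sdiff_disjoint
    · intro g hg
      exact not_le.1 (Finset.mem_filter.1 hg).2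
  have hΓF : Γ ⊆ F := (Finset.filter_subset _ _).trans Finset.sdiff_subset
  have hΓI : ∀ g ∈ Γ, g ∉ I := fun g hg => (Finset.mem_sdiff.1 (Finset.mem_filter.1 hg).1).2
  have hΓc : Γ.card < 2 ^ ℓ := by
    have h1 := Finset.card_le_card hΓF
    have h2 : n < 2 ^ ℓ := Nat.lt_pow_succ_log_self (by norm_num) n
    omega
  have hFsplit : F ⊆ Γ ∪ (I ∪ Bd) := by
    intro u hu
    by_cases huI : u ∈ I
    · exact Finset.mem_union_right _ (Finset.mem_union_left _ huI)
    · by_cases hg : 8 * (I.filter fun i => ¬ G.Adj u i).card ≤ I.card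
      · exact Finset.mem_union_left _ (Finset.mem_filter.2 ⟨Finset.mem_sdiff.2 ⟨hu, huI⟩, hg⟩)
      · exact Finset.mem_union_right _ (Finset.mem_union_right _
          (Finset.mem_filter.2 ⟨Finset.mem_sdiff.2 ⟨hu, huI⟩, hg⟩))
  have hIB : Cov G (I ∪ Bd) (1 + f) := (Cov.ind hIi).union hBcov
  by_cases hX : ∀ X ⊆ Γ, (∀ a ∈ X, ∀ c ∈ X, ¬ G.Adj a c) → X.card ≤ e
  · by_cases hN : N2 (r * e) (E + (1 + f)) ≤ (Qp G Γ).card
    · left
      have h1 : Sur G (Qp G Γ) (E + (1 + f)) :=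
        excess (Qp_self (G := G) (F := Γ))
          (alpha_deg h (fun I hI => hX I (hI.trans (Qp_sub _)))) hN
      refine h1.add.ext hΓF (hIB.le ?_)
      intro u hu
      rw [Finset.mem_sdiff] at hu
      exact (Finset.mem_union.1 (hFsplit hu.1)).resolve_left hu.2
    · right
      refine ⟨Jp G Γ, (Jp_sub _).trans hΓF, Jp_cl _, ?_⟩
      have h1 := ((Cov.triv (G := G) (Qp G Γ)).union hIB).le (E := F \ Jp G Γ) (by
        intro u hu
        rw [Finset.mem_sdiff] at hu
        rcases Finset.mem_union.1 (hFsplit hu.1) with h2 | h2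
        · rw [← Qp_Jp (G := G) Γ] at h2
          exact Finset.mem_union_left _ ((Finset.mem_union.1 h2).resolve_right hu.2)
        · exact Finset.mem_union_right _ h2)
      exact h1.mono (by omega)
  left
  push Not at hX
  obtain ⟨X0, hX0, hX0i, hX0c⟩ := hX
  obtain ⟨X, hXX, hXc⟩ := Finset.exists_subset_card_eq (show e ≤ X0.card by omega)
  have hXΓ : X ⊆ Γ := hXX.trans hX0
  have hXi : ∀ a ∈ X, ∀ c ∈ X, ¬ G.Adj a c := fun a ha c hc => hX0i a (hXX ha) c (hXX hc)
  obtain ⟨T, hT1, hT2⟩ := hits (G := G) (e := e) (ℓ := ℓ) (I := I) (Γ := Γ)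
    (fun g hg => (Finset.mem_filter.1 hg).2) hΓc (by omega) hIn X hXΓ hXc.le
  obtain ⟨𝓑, hM, hc⟩ := hC U G h (Γ \ X)
  obtain ⟨m1, c1⟩ := Model.ofFn (G := G) X (fun x => insert x (T x)) (F := F)
    (fun x hx => Finset.insert_subset (hΓF (hXΓ hx)) ((hT1 x hx).1.trans hIF))
    (fun x hx => conn_star x _ (hT1 x hx).2.2.1) (by
      intro x hx y hy hxy
      rw [Finset.disjoint_insert_left, Finset.disjoint_insert_right]
      refine ⟨?_, ?_, hT2 x hx y hy hxy⟩
      · intro h1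
        rcases Finset.mem_insert.1 h1 with h1 | h1
        · exact hxy h1
        · exact hΓI x (hXΓ hx) ((hT1 y hy).1 h1)
      · intro h1
        exact hΓI y (hXΓ hy) ((hT1 x hx).1 h1)) (by
      intro x hx y hy hxy
      obtain ⟨t, ht, hyt⟩ := (hT1 x hx).2.2.2 y (hXΓ hy)
      exact ⟨t, Finset.mem_insert_of_mem ht, y, by simp, hyt.symm⟩)
  obtain ⟨m2, c2⟩ := (hM.le (Finset.sdiff_subset.trans hΓF)).union2 m1 (by
      intro B hB A hA
      obtain ⟨x, hx, rfl⟩ := Finset.mem_image.1 hA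
      rw [Finset.disjoint_left]
      intro u hu hu'
      have h1 := Finset.mem_sdiff.1 (hM.sub B hB hu)
      rcases Finset.mem_insert.1 hu' with h2 | h2
      · exact h1.2 (h2 ▸ hx)
      · exact hΓI u h1.1 ((hT1 x hx).1 h2)) (by
      intro B hB A hA
      obtain ⟨x, hx, rfl⟩ := Finset.mem_image.1 hA
      obtain ⟨u, hu⟩ := (hM.conn B hB).1
      obtain ⟨t, ht, hut⟩ := (hT1 x hx).2.2.2 u (Finset.mem_sdiff.1 (hM.sub B hB hu)).1
      exact ⟨u, hu, t, Finset.mem_insert_of_mem ht, hut⟩)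
  have h1 := ((hc.union (Cov.ind hXi)).union hIB).le (E := F) (by
    intro u hu
    rcases Finset.mem_union.1 (hFsplit hu) with h2 | h2
    · by_cases huX : u ∈ X
      · exact Finset.mem_union_left _ (Finset.mem_union_right _ huX)
      · exact Finset.mem_union_left _ (Finset.mem_union_left _ (Finset.mem_sdiff.2 ⟨h2, huX⟩))
    · exact Finset.mem_union_right _ h2)
  refine ⟨_, _, m2, h1, ?_⟩
  rw [c2, c1, hXc]
  omega

theorem dicho_of_core {E N : ℕ} {U : Type} [Fintype U] {G : SimpleGraph U} (F : Finset U)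
    (hN : Sur G (Qp G F) E ∨ ∃ K ⊆ Qp G F, Cl G K ∧ Cov G (Qp G F \ K) N) :
    Sur G F E ∨ ∃ K ⊆ F, Cl G K ∧ Cov G (F \ K) N := by
  rcases hN with h1 | ⟨K, hK, hKc, hKN⟩
  · exact Or.inl h1.add
  · right
    refine ⟨K ∪ Jp G F, Finset.union_subset (hK.trans (Qp_sub _)) (Jp_sub _), ?_, ?_⟩
    · intro a ha c hc hac
      rcases Finset.mem_union.1 ha with ha | ha
      · rcases Finset.mem_union.1 hc with hc | hc
        · exact hKc a ha c hc hac
        · exact (Jp_adj hc (Qp_sub _ (hK ha)) hac.symm).symm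
      · rcases Finset.mem_union.1 hc with hc | hc
        · exact Jp_adj ha (Qp_sub _ (hK hc)) hac
        · exact Jp_adj ha (Jp_sub _ hc) hac
    · refine hKN.le ?_
      intro u hu
      rw [Finset.mem_sdiff, Finset.mem_union, not_or] at hu
      rw [Finset.mem_sdiff]
      refine ⟨?_, hu.2.1⟩
      have h1 := hu.1
      rw [← Qp_Jp (G := G) F] at h1
      exact (Finset.mem_union.1 h1).resolve_right hu.2.2


end Pool.Agent.N425.KY
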