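import Pool.Agent.N425.KY1

set_option autoImplicit false
set_option linter.unusedSectionVars false

open Classical

noncomputable section

namespace Pool.Agent.N425.KY

open Pool.Agent.N425.KR Pool.Agent.N425.KS Pool.Agent.N425.KV Pool.Agent.N425.KW Pool.Agent.N425.KX

lemma log_pow (m : ℕ) : ∃ A : ℕ, 1 ≤ A ∧ ∀ n : ℕ, 1 ≤ n → (Nat.log 2 n + 1) ^ m ≤ A * n := by
  obtain ⟨M, hM⟩ := (tendsto_pow_const_div_const_pow_of_one_lt m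
    (show (1 : ℝ) < 2 by norm_num)).bddAbove_range
  obtain ⟨B, hB⟩ := exists_nat_ge M
  refine ⟨2 * B + 1, by omega, ?_⟩
  intro n hn
  set L := Nat.log 2 n + 1 with hL
  have h1 : ((L : ℝ)) ^ m / 2 ^ L ≤ M := hM ⟨L, rfl⟩
  have h2 : (L : ℝ) ^ m ≤ B * 2 ^ L := by
    rw [div_le_iff₀ (by positivity)] at h1
    exact h1.trans (mul_le_mul_of_nonneg_right hB (by positivity))
  have h3 : L ^ m ≤ B * 2 ^ L := by exact_mod_cast h2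
  have h4 : 2 ^ L ≤ 2 * n := by
    have h6 : 2 ^ Nat.log 2 n ≤ n := Nat.pow_log_le_self 2 (by omega)
    rw [hL, pow_succ]
    omega
  calc L ^ m ≤ B * 2 ^ L := h3
    _ ≤ B * (2 * n) := Nat.mul_le_mul_left _ h4
    _ ≤ (2 * B + 1) * n := by nlinarith

lemma cube_le (m : ℕ) (hm : 1 ≤ m) : ∃ a : ℕ, ∀ R y n : ℕ, 1 ≤ R →
    y ^ (3 * (m + 1)) ≤ R ^ m → a * R ≤ n → 11 * (y * (Nat.log 2 n + 1)) ^ 3 ≤ n := by
  obtain ⟨A, hA, hL⟩ := log_pow (3 * (m + 1))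
  refine ⟨121 * A, ?_⟩
  intro R y n hR hy hn
  have hn1 : 1 ≤ n := by
    have h1 : 1 * 1 ≤ 121 * A * R := Nat.mul_le_mul (by omega) hR
    omega
  have hLn := hL n hn1
  set L := Nat.log 2 n + 1 with hLdef
  have h11 : 11 ^ (m + 1) ≤ 121 ^ m := by
    have h1 : (121 : ℕ) ^ m = 11 ^ (2 * m) := by rw [pow_mul]; norm_num
    rw [h1]
    exact Nat.pow_le_pow_right (by norm_num) (by omega)
  have hAm : A ≤ A ^ m := Nat.le_self_pow (by omega) A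
  have key : (11 * (y * L) ^ 3) ^ (m + 1) ≤ n ^ (m + 1) := by
    calc (11 * (y * L) ^ 3) ^ (m + 1) = 11 ^ (m + 1) * (y ^ (3 * (m + 1)) * L ^ (3 * (m + 1))) := by
          rw [mul_pow, ← pow_mul, mul_pow]
      _ ≤ 11 ^ (m + 1) * (R ^ m * (A * n)) :=
          Nat.mul_le_mul_left _ (Nat.mul_le_mul hy hLn)
      _ = (11 ^ (m + 1) * A * R ^ m) * n := by ring
      _ ≤ n ^ m * n := by
          apply Nat.mul_le_mul_right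
          calc 11 ^ (m + 1) * A * R ^ m ≤ 121 ^ m * A ^ m * R ^ m :=
                Nat.mul_le_mul_right _ (Nat.mul_le_mul h11 hAm)
            _ = (121 * A * R) ^ m := by rw [mul_pow, mul_pow]
            _ ≤ n ^ m := Nat.pow_le_pow_left hn m
      _ = n ^ (m + 1) := by rw [pow_succ]
  exact (Nat.pow_le_pow_iff_left (by omega)).1 key

lemma N1_le (D : ℕ) : N1 D ≤ 11 * (D + 1) ^ 3 := by
  unfold N1
  zify
  rw [← sub_nonneg]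
  ring_nf
  positivity

lemma N1_mul_le (c L : ℕ) (hL : 1 ≤ L) : N1 (c * L) ≤ 11 * ((c + 1) * L) ^ 3 := by
  refine (N1_le _).trans ?_
  apply Nat.mul_le_mul_left
  apply Nat.pow_le_pow_left
  rw [Nat.add_mul]
  omega

lemma y_le (r : ℕ) : r * (8 * ee r) + 1 ≤ 81 * (r + 1) ^ 3 := by
  unfold ee
  zify
  rw [← sub_nonneg]
  ring_nf
  positivity

lemma z_le (r : ℕ) : r * ee r + 1 ≤ 11 * (r + 1) ^ 3 := by
  unfold ee
  zify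
  rw [← sub_nonneg]
  ring_nf
  positivity

lemma f_le (r : ℕ) : 8 * r * (r + 1) + 2 ≤ 10 * (r + 1) ^ 2 := by
  zify
  rw [← sub_nonneg]
  ring_nf
  positivity

theorem main_poly : ∃ c : ℕ, ∀ (r : ℕ) (U : Type) [Fintype U] (G : SimpleGraph U), NC G r →
    ∀ F : Finset U, ∃ 𝓑, Model G F 𝓑 ∧ Cov G F (𝓑.card + c * (r + 1) ^ 10) := by
  obtain ⟨a, ha⟩ := cube_le 9 (by norm_num)
  refine ⟨14650 + a * 81 ^ 4, ?_⟩
  intro r U _ G h F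
  set s := r + 1 with hs
  have hs1 : 1 ≤ s := by omega
  obtain ⟨𝓑, h1, h2⟩ := main' r (a * (81 ^ 4 * s ^ 10)) (by
    intro n hn
    refine (N1_mul_le _ _ (Nat.succ_pos _)).trans ?_
    apply ha (81 ^ 4 * s ^ 10) _ n (Nat.mul_pos (by norm_num) (Nat.pow_pos hs1)) _ hn
    calc (r * (8 * ee r) + 1) ^ (3 * (9 + 1)) ≤ (81 * s ^ 3) ^ (3 * (9 + 1)) :=
          Nat.pow_le_pow_left (y_le r) _
      _ = 81 ^ 30 * s ^ 90 := by rw [mul_pow, ← pow_mul]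
      _ ≤ 81 ^ 36 * s ^ 90 := Nat.mul_le_mul_right _ (Nat.pow_le_pow_right (by norm_num) (by norm_num))
      _ = (81 ^ 4 * s ^ 10) ^ 9 := by rw [mul_pow, ← pow_mul, ← pow_mul]) h F
  refine ⟨𝓑, h1, h2.mono ?_⟩
  have h3 : N1 (r * ee r) ≤ 14641 * s ^ 10 := by
    calc N1 (r * ee r) ≤ 11 * (r * ee r + 1) ^ 3 := N1_le _
      _ ≤ 11 * (11 * s ^ 3) ^ 3 := Nat.mul_le_mul_left _ (Nat.pow_le_pow_left (z_le r) _)
      _ = 14641 * s ^ 9 := by rw [mul_pow, ← pow_mul]; ring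
      _ ≤ 14641 * s ^ 10 := Nat.mul_le_mul_left _ (Nat.pow_le_pow_right hs1 (by norm_num))
  have h4 : 8 * r * (r + 1) + 1 ≤ 9 * s ^ 10 := by
    have h5 : 8 * r * (r + 1) + 1 ≤ 9 * s ^ 2 := by
      rw [hs]
      zify
      rw [← sub_nonneg]
      ring_nf
      positivity
    exact h5.trans (Nat.mul_le_mul_left _ (Nat.pow_le_pow_right hs1 (by norm_num)))
  have h5 : (14650 + a * 81 ^ 4) * s ^ 10 = 14641 * s ^ 10 + 9 * s ^ 10 + a * (81 ^ 4 * s ^ 10) := by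
    ring
  rw [h5]
  omega

lemma pow_help {B s t : ℕ} (hB : 1 ≤ B) (ht : 1 ≤ t) :
    (B * (s ^ 11 * t)) ^ (3 * (11 + 1)) ≤ (B ^ 4 * (s ^ 36 * t ^ 4)) ^ 11 := by
  have h1 : (B * (s ^ 11 * t)) ^ (3 * (11 + 1)) = B ^ 36 * (s ^ 396 * t ^ 36) := by ring
  have h2 : (B ^ 4 * (s ^ 36 * t ^ 4)) ^ 11 = B ^ 44 * (s ^ 396 * t ^ 44) := by ring
  rw [h1, h2]
  exact Nat.mul_le_mul (Nat.pow_le_pow_right hB (by norm_num))
    (Nat.mul_le_mul_left _ (Nat.pow_le_pow_right ht (by norm_num)))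

lemma e_le {c1 s t f E : ℕ} (hs1 : 1 ≤ s) (hE : E + 1 = t) (hf : f + 2 ≤ 10 * s ^ 2) :
    f + 2 + c1 * s ^ 10 + E ≤ (c1 + 11) * (s ^ 10 * t) := by
  have hP1 : 1 ≤ s ^ 10 := Nat.pow_pos hs1
  have hf2 : f + 2 ≤ 10 * s ^ 10 :=
    hf.trans (Nat.mul_le_mul_left _ (Nat.pow_le_pow_right hs1 (by norm_num)))
  have h1 : (c1 + 11) * (s ^ 10 * t) = c1 * (s ^ 10 * E) + 11 * (s ^ 10 * E) + c1 * s ^ 10 +
      11 * s ^ 10 := by rw [← hE]; ring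
  have h2 : E ≤ s ^ 10 * E := Nat.le_mul_of_pos_left _ hP1
  rw [h1]
  omega

lemma re_le {c1 r s t e : ℕ} (hr : r ≤ s) (he : e ≤ (c1 + 11) * (s ^ 10 * t)) :
    r * e ≤ (c1 + 11) * (s ^ 11 * t) := by
  calc r * e ≤ s * ((c1 + 11) * (s ^ 10 * t)) := Nat.mul_le_mul hr he
    _ = (c1 + 11) * (s ^ 11 * t) := by ring

lemma y2_le {c1 r s t e : ℕ} (hs1 : 1 ≤ s) (ht1 : 1 ≤ t) (hre : r * e ≤ (c1 + 11) * (s ^ 11 * t)) :
    r * (8 * e) + 2 * t + 1 ≤ (8 * (c1 + 11) + 3) * (s ^ 11 * t) := by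
  have hQ1 : 1 ≤ s ^ 11 := Nat.pow_pos hs1
  have htQ : t ≤ s ^ 11 * t := Nat.le_mul_of_pos_left _ hQ1
  have h1 : r * (8 * e) = 8 * (r * e) := by ring
  have h2 : (8 * (c1 + 11) + 3) * (s ^ 11 * t) =
      8 * ((c1 + 11) * (s ^ 11 * t)) + 3 * (s ^ 11 * t) := by ring
  rw [h1, h2]
  omega

lemma final_le {c1 a B1 r s t e f E : ℕ} (hs1 : 1 ≤ s) (ht1 : 1 ≤ t) (hE : E + 1 = t)
    (hf : f + 2 ≤ 10 * s ^ 2) (hf' : 1 + f ≤ 9 * s ^ 2) (hre : r * e ≤ (c1 + 11) * (s ^ 11 * t)) :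
    a * (B1 ^ 4 * (s ^ 36 * t ^ 4)) + N2 (r * e) (E + (1 + f)) + (1 + f) ≤
      (c1 + a * B1 ^ 4 + 11 * (c1 + 34) ^ 3 + 9) * (s ^ 36 * t ^ 4) := by
  have hM1 : s ^ 2 ≤ s ^ 36 * t ^ 4 :=
    (Nat.pow_le_pow_right hs1 (by norm_num)).trans (Nat.le_mul_of_pos_right _ (Nat.pow_pos ht1))
  have h2 : 1 + f ≤ 9 * (s ^ 36 * t ^ 4) := hf'.trans (Nat.mul_le_mul_left _ hM1)
  have hQ1 : 1 ≤ s ^ 11 := Nat.pow_pos hs1
  have htQ : t ≤ s ^ 11 * t := Nat.le_mul_of_pos_left _ hQ1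
  have h3 : N2 (r * e) (E + (1 + f)) ≤ 11 * (c1 + 34) ^ 3 * (s ^ 36 * t ^ 4) := by
    have h4 : r * e + 2 * (E + (1 + f) + 1) + 1 ≤ (c1 + 34) * (s ^ 11 * t) := by
      have h5 : (c1 + 34) * (s ^ 11 * t) = (c1 + 11) * (s ^ 11 * t) + 23 * (s ^ 11 * t) := by ring
      have h7 : s ^ 2 ≤ s ^ 11 * t :=
        (Nat.pow_le_pow_right hs1 (by norm_num)).trans (Nat.le_mul_of_pos_right _ ht1)
      rw [h5]
      omega
    calc N2 (r * e) (E + (1 + f)) ≤ N1 (r * e + 2 * (E + (1 + f) + 1)) := N2_le _ _ _ le_rfl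
      _ ≤ 11 * (r * e + 2 * (E + (1 + f) + 1) + 1) ^ 3 := N1_le _
      _ ≤ 11 * ((c1 + 34) * (s ^ 11 * t)) ^ 3 :=
          Nat.mul_le_mul_left _ (Nat.pow_le_pow_left h4 _)
      _ = 11 * (c1 + 34) ^ 3 * (s ^ 33 * t ^ 3) := by ring
      _ ≤ 11 * (c1 + 34) ^ 3 * (s ^ 36 * t ^ 4) :=
          Nat.mul_le_mul_left _ (Nat.mul_le_mul (Nat.pow_le_pow_right hs1 (by norm_num))
            (Nat.pow_le_pow_right ht1 (by norm_num)))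
  have h4 : (c1 + a * B1 ^ 4 + 11 * (c1 + 34) ^ 3 + 9) * (s ^ 36 * t ^ 4) =
      c1 * (s ^ 36 * t ^ 4) + a * (B1 ^ 4 * (s ^ 36 * t ^ 4)) +
        11 * (c1 + 34) ^ 3 * (s ^ 36 * t ^ 4) + 9 * (s ^ 36 * t ^ 4) := by ring
  rw [h4]
  omega

lemma f_le' (r : ℕ) : 1 + 8 * r * (r + 1) ≤ 9 * (r + 1) ^ 2 := by
  zify
  rw [← sub_nonneg]
  ring_nf
  positivity

lemma hn0_poly {a B1 x E s t : ℕ} (ha : ∀ R y n : ℕ, 1 ≤ R →
    y ^ (3 * (11 + 1)) ≤ R ^ 11 → a * R ≤ n → 11 * (y * (Nat.log 2 n + 1)) ^ 3 ≤ n)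
    (hB : 1 ≤ B1) (hs1 : 1 ≤ s) (ht1 : 1 ≤ t) (hx : x + 2 * (E + 1) + 1 ≤ B1 * (s ^ 11 * t)) (n : ℕ)
    (hn : a * (B1 ^ 4 * (s ^ 36 * t ^ 4)) ≤ n) : N2 (x * (Nat.log 2 n + 1)) E ≤ n := by
  have h1 : N2 (x * (Nat.log 2 n + 1)) E ≤ N1 ((x + 2 * (E + 1)) * (Nat.log 2 n + 1)) := by
    rw [Nat.add_mul]
    apply N2_le
    exact Nat.le_mul_of_pos_right _ (Nat.succ_pos _)
  refine h1.trans ((N1_mul_le _ _ (Nat.succ_pos _)).trans ?_)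
  exact ha (B1 ^ 4 * (s ^ 36 * t ^ 4)) _ n
    (Nat.mul_pos (Nat.pow_pos hB) (Nat.mul_pos (Nat.pow_pos hs1) (Nat.pow_pos ht1)))
    ((Nat.pow_le_pow_left hx _).trans (pow_help hB ht1)) hn

/-- **The dichotomy with polynomial bounds.** -/
theorem dicho_poly : ∃ c : ℕ, ∀ (r E : ℕ) (U : Type) [Fintype U] (G : SimpleGraph U), NC G r →
    ∀ F : Finset U, (Sur G F E ∨ ∃ K ⊆ F, Cl G K ∧ Cov G (F \ K) (c * ((r + 1) ^ 36 * (E + 1) ^ 4))) ∧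
      ∃ 𝓑, Model G F 𝓑 ∧ Cov G F (𝓑.card + c * (r + 1) ^ 10) := by
  obtain ⟨c1, hc1⟩ := main_poly
  obtain ⟨a, ha⟩ := cube_le 11 (by norm_num)
  refine ⟨c1 + a * (8 * (c1 + 11) + 3) ^ 4 + 11 * (c1 + 34) ^ 3 + 9, ?_⟩
  intro r E U _ G h F
  constructor
  · apply dicho_of_core
    have he := e_le (c1 := c1) (s := r + 1) (t := E + 1) (f := 8 * r * (r + 1)) (E := E)
      (Nat.succ_pos _) rfl (f_le r)
    have hre := re_le (r := r) (Nat.le_succ r) he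
    have hy := y2_le (Nat.succ_pos _) (Nat.succ_pos _) hre
    have hcore := dicho_core' r E (c1 * (r + 1) ^ 10) _ _ _ (fun U _ G h F => hc1 r U G h F) rfl rfl
      (hn0_poly ha (by omega) (Nat.succ_pos _) (Nat.succ_pos _) hy) h (Qp G F) Qp_self
    rcases hcore with h1 | ⟨K, hK, hKc, hKN⟩
    · exact Or.inl h1
    · exact Or.inr ⟨K, hK, hKc, hKN.mono
        (final_le (Nat.succ_pos _) (Nat.succ_pos _) rfl (f_le r) (f_le' r) hre)⟩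
  · obtain ⟨𝓑, h1, h2⟩ := hc1 r U G h F
    refine ⟨𝓑, h1, h2.mono ?_⟩
    have h3 : c1 * (r + 1) ^ 10 ≤
        (c1 + a * (8 * (c1 + 11) + 3) ^ 4 + 11 * (c1 + 34) ^ 3 + 9) * (r + 1) ^ 10 :=
      Nat.mul_le_mul_right _ (by omega)
    omega

end Pool.Agent.N425.KY
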