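import Pool.Agent.N425.KY2
import Pool.Agent.N425.KR5

set_option autoImplicit false

namespace Pool.Agent.N425.KZ

open Pool.Agent.N425.KR Pool.Agent.N425.KV Pool.Agent.N425.KX Pool.Agent.N425.KY

/-- `K_m` is a minor of `G` -/
def Minor {U : Type} (G : SimpleGraph U) (m : ℕ) : Prop :=
  ∃ B : Fin m → Set U,
    (∀ i, (G.induce (B i)).Connected) ∧
    (∀ i j, i ≠ j → Disjoint (B i) (B j)) ∧
    (∀ i j, i ≠ j → ∃ u ∈ B i, ∃ w ∈ B j, G.Adj u w)

/-- the statement for whole graphs -/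
theorem glob : ∃ c : ℕ, ∀ (r E : ℕ) (U : Type) [Finite U] (G : SimpleGraph U),
    (∀ v, (G.induce {w | w ≠ v ∧ ¬ G.Adj v w}).Colorable r) →
      ((∃ K : Set U, G.IsClique K ∧ (G.induce Kᶜ).Colorable (c * ((r + 1) ^ 36 * (E + 1) ^ 4))) ∨
        ∀ k : ℕ, ¬ G.Colorable k → Minor G (k + 1 + E)) ∧
      ∀ k : ℕ, ¬ G.Colorable (k + c * (r + 1) ^ 10) → Minor G (k + 1) := by
  classical
  obtain ⟨c, hN⟩ := dicho_poly
  refine ⟨c, ?_⟩
  intro r E U _ G h
  have := Fintype.ofFinite U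
  have hNC : NC G r := by
    intro v
    apply Pool.Agent.N425.KT.Cov.of_colorable
    have e : {u | u ∈ nn G v} = {w | w ≠ v ∧ ¬ G.Adj v w} := by
      ext u
      exact mem_nn
    rw [e]
    exact h v
  obtain ⟨h1, 𝓑, hM, hc⟩ := hN r E U G hNC Finset.univ
  refine ⟨?_, ?_⟩
  · rcases h1 with ⟨𝓑, k', hM, hc, hk'⟩ | ⟨K, -, hK, hKN⟩
    · right
      intro k hk
      apply hM.minor
      by_contra hlt
      exact hk (hc.colorable.mono (by omega))
    · refine Or.inl ⟨(K : Set U), ?_, ?_⟩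
      · intro a ha b hb hab
        exact hK a ha b hb hab
      · have h1 := Pool.Agent.N425.KT.Cov.colorable_on hKN
        have e : {u | u ∈ Finset.univ \ K} = ((K : Set U))ᶜ := by
          ext u
          simp
        rwa [e] at h1
  · intro k hk
    apply hM.minor
    by_contra hlt
    exact hk (hc.colorable.mono (by omega))

/-- a clique minor of an induced subgraph is a clique minor of the graph -/
theorem Minor.of_induce {V : Type} {G : SimpleGraph V} {S : Set V} {m : ℕ}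
    (h : Minor (G.induce S) m) : Minor G m := by
  obtain ⟨B, h1, h2, h3⟩ := h
  refine ⟨fun i => Subtype.val '' B i, ?_, ?_, ?_⟩
  · intro i
    let f : (G.induce S).induce (B i) →g G.induce (Subtype.val '' B i) :=
      { toFun := fun x => ⟨x.1.1, x.1, x.2, rfl⟩
        map_rel' := fun {a b} hab => hab }
    refine (h1 i).map f ?_
    rintro ⟨_, x, hx, rfl⟩
    exact ⟨⟨x, hx⟩, rfl⟩
  · intro i j hij
    exact (Set.disjoint_image_iff Subtype.val_injective).2 (h2 i j hij)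
  · intro i j hij
    obtain ⟨u, hu, w, hw, huw⟩ := h3 i j hij
    exact ⟨u.1, ⟨u, hu, rfl⟩, w.1, ⟨w, hw, rfl⟩, huw⟩

/-- the statement for a set of vertices of a graph without a `K_{t+1}` minor -/
theorem bags : ∃ c : ℕ, ∀ (r t : ℕ) (V : Type) [Finite V] (G : SimpleGraph V) (S : Set V),
    (∀ v ∈ S, (G.induce {w | w ∈ S ∧ w ≠ v ∧ ¬ G.Adj v w}).Colorable r) →
    ¬ Minor G (t + 1) →
      (∀ E ≤ t, (G.induce S).Colorable (t - E) ∨ ∃ K ⊆ S, G.IsClique K ∧
          (G.induce (S \ K)).Colorable (c * ((r + 1) ^ 36 * (E + 1) ^ 4))) ∧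
      (G.induce S).Colorable (t + c * (r + 1) ^ 10) := by
  obtain ⟨c, hc⟩ := glob
  refine ⟨c, ?_⟩
  intro r t V _ G S h hminor
  have hyp : ∀ x : ↥S, ((G.induce S).induce {w | w ≠ x ∧ ¬ (G.induce S).Adj x w}).Colorable r := by
    rintro ⟨u, hu⟩
    obtain ⟨C⟩ := h u hu
    have key : ∀ w : ↥{w : ↥S | w ≠ ⟨u, hu⟩ ∧ ¬ (G.induce S).Adj ⟨u, hu⟩ w},
        w.1.1 ∈ {w | w ∈ S ∧ w ≠ u ∧ ¬ G.Adj u w} := by
      rintro ⟨⟨w, hw⟩, hwu, hn⟩
      exact ⟨hw, fun h1 => hwu (Subtype.ext h1), hn⟩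
    exact ⟨SimpleGraph.Coloring.mk (fun w => C ⟨w.1.1, key w⟩) (fun {a b} hab => C.valid hab)⟩
  refine ⟨?_, ?_⟩
  · intro E hE
    obtain ⟨h1, -⟩ := hc r E _ (G.induce S) hyp
    rcases h1 with ⟨K, hK, hKc⟩ | h1
    · right
      refine ⟨Subtype.val '' K, ?_, ?_, ?_⟩
      · rintro _ ⟨x, -, rfl⟩
        exact x.2
      · rintro _ ⟨x, hx, rfl⟩ _ ⟨y, hy, rfl⟩ hxy
        exact hK hx hy (fun h2 => hxy (congrArg Subtype.val h2))
      · obtain ⟨C⟩ := hKc
        have key : ∀ w : ↥(S \ Subtype.val '' K), (⟨w.1, w.2.1⟩ : ↥S) ∈ Kᶜ :=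
          fun w hw => w.2.2 ⟨_, hw, rfl⟩
        exact ⟨SimpleGraph.Coloring.mk (fun w => C ⟨⟨w.1, w.2.1⟩, key w⟩)
          (fun {a b} hab => C.valid hab)⟩
    · left
      by_contra hcol
      have h2 := h1 _ hcol
      rw [show t - E + 1 + E = t + 1 by omega] at h2
      exact hminor h2.of_induce
  · obtain ⟨-, h1⟩ := hc r 0 _ (G.induce S) hyp
    by_contra hcol
    exact hminor (h1 _ hcol).of_induce

end Pool.Agent.N425.KZ
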